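import Mathlib

/-!
# Hub game: definitions and basic lemmas (MP_1f20e3_co)

`T` is the non-adjacency graph of the hubs. `Tau T S k`: every vertex cover of `T[S]` has at least
`k` elements. `Sav T S k`: there are disjoint cliques of `T` of size 2 or 3 in `S` ('classes') with
`∑ (|C| - 1) ≥ k`. `Ach T V H S x`: there are classes in `S` such that the total contribution
for every index `i` is at least `x i`.
-/

set_option autoImplicit false

namespace Pool.Agent.Helper33.RG

variable {α : Type} [DecidableEq α]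

/-- Every vertex cover of `T[S]` has at least `k` elements. -/
def Tau (T : SimpleGraph α) (S : Finset α) (k : ℕ) : Prop :=
  ∀ X ⊆ S, (∀ u ∈ S \ X, ∀ v ∈ S \ X, ¬ T.Adj u v) → k ≤ X.card

/-- Disjoint classes in `S` with total saving at least `k`. -/
inductive Sav (T : SimpleGraph α) : Finset α → ℕ → Prop
  | zero (S : Finset α) : Sav T S 0
  | two {S : Finset α} {u v : α} {k : ℕ} (hu : u ∈ S) (hv : v ∈ S) (h : T.Adj u v)
      (hS : Sav T (S \ {u, v}) k) : Sav T S (k + 1)
  | three {S : Finset α} {u v w : α} {k : ℕ} (hu : u ∈ S) (hv : v ∈ S) (hw : w ∈ S)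
      (huv : T.Adj u v) (huw : T.Adj u w) (hvw : T.Adj v w)
      (hS : Sav T (S \ {u, v, w}) k) : Sav T S (k + 2)

/-- The contribution of the class `C` to an index with the sets `V`, `H`; `c` says whether the
index belongs to the indices for which the class is merged. -/
def ctr (V H C : Finset α) (c : Prop) [Decidable c] : ℤ :=
  if c then (if (C ∩ V).Nonempty then ((C ∩ V).card : ℤ) - 1
    else if (C ∩ H).Nonempty then -1 else 0)
  else -((C ∩ H).card : ℤ)

/-- Disjoint classes in `S` with total contributions at least `x`. -/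
inductive Ach {ι : Type} [DecidableEq ι] (T : SimpleGraph α) (V H : ι → Finset α) :
    Finset α → (ι → ℤ) → Prop
  | nil (S : Finset α) (x : ι → ℤ) (hx : ∀ i, x i ≤ 0) : Ach T V H S x
  | cons (S C : Finset α) (cl : Finset ι) (x x' : ι → ℤ) (hCS : C ⊆ S)
      (hC : T.IsClique (C : Set α))
      (hcl : (C.card = 2 ∧ cl.card ≤ 3) ∨ (C.card = 3 ∧ cl.card ≤ 2))
      (hS : Ach T V H (S \ C) x')
      (hx : ∀ i, x i ≤ x' i + ctr (V i) (H i) C (i ∈ cl)) : Ach T V H S x

variable {T : SimpleGraph α} {S R : Finset α} {k l : ℕ}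

lemma Tau.mono (h : Tau T S k) (hS : S ⊆ R) (hk : l ≤ k) : Tau T R l := by
  intro X hX hI
  have h1 := h (X ∩ S) Finset.inter_subset_right ?_
  · exact hk.trans (h1.trans (Finset.card_le_card Finset.inter_subset_left))
  · intro u hu v hv
    rw [Finset.mem_sdiff, Finset.mem_inter] at hu hv
    refine hI u ?_ v ?_
    · rw [Finset.mem_sdiff]
      exact ⟨hS hu.1, fun h2 => hu.2 ⟨h2, hu.1⟩⟩
    · rw [Finset.mem_sdiff]
      exact ⟨hS hv.1, fun h2 => hv.2 ⟨h2, hv.1⟩⟩

/-- Removing the set `R` decreases `τ` by at most `|R ∩ S|`. -/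
lemma Tau.sdiff (h : Tau T S k) (R : Finset α) (hk : l + (R ∩ S).card ≤ k) :
    Tau T (S \ R) l := by
  intro X hX hI
  have h1 := h (X ∪ (R ∩ S)) ?_ ?_
  · have h2 := Finset.card_union_le X (R ∩ S)
    omega
  · intro u hu
    rcases Finset.mem_union.1 hu with hu | hu
    · exact (Finset.mem_sdiff.1 (hX hu)).1
    · exact (Finset.mem_inter.1 hu).2
  · intro u hu v hv
    rw [Finset.mem_sdiff, Finset.mem_union, Finset.mem_inter, not_or] at hu hv
    refine hI u ?_ v ?_
    · rw [Finset.mem_sdiff, Finset.mem_sdiff]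
      exact ⟨⟨hu.1, fun h2 => hu.2.2 ⟨h2, hu.1⟩⟩, hu.2.1⟩
    · rw [Finset.mem_sdiff, Finset.mem_sdiff]
      exact ⟨⟨hv.1, fun h2 => hv.2.2 ⟨h2, hv.1⟩⟩, hv.2.1⟩

lemma Tau.sdiff' (h : Tau T S k) (R : Finset α) (hk : l + R.card ≤ k) : Tau T (S \ R) l := by
  intro X hX hI
  have h1 := h (X ∪ (R ∩ S)) ?_ ?_
  · have h2 := Finset.card_union_le X (R ∩ S)
    have h3 := Finset.card_le_card (Finset.inter_subset_left : R ∩ S ⊆ R)
    omega
  · intro u hu
    rcases Finset.mem_union.1 hu with hu | hu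
    · exact (Finset.mem_sdiff.1 (hX hu)).1
    · exact (Finset.mem_inter.1 hu).2
  · intro u hu v hv
    rw [Finset.mem_sdiff, Finset.mem_union, Finset.mem_inter, not_or] at hu hv
    refine hI u ?_ v ?_
    · rw [Finset.mem_sdiff, Finset.mem_sdiff]
      exact ⟨⟨hu.1, fun h2 => hu.2.2 ⟨h2, hu.1⟩⟩, hu.2.1⟩
    · rw [Finset.mem_sdiff, Finset.mem_sdiff]
      exact ⟨⟨hv.1, fun h2 => hv.2.2 ⟨h2, hv.1⟩⟩, hv.2.1⟩

/-- `τ ≥ 1`: there is an edge. -/
lemma Tau.edge (h : Tau T S k) (hk : 1 ≤ k) : ∃ u ∈ S, ∃ v ∈ S, T.Adj u v := by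
  by_contra hcon
  push Not at hcon
  have h1 := h ∅ (Finset.empty_subset _) (fun u hu v hv => by
    rw [Finset.sdiff_empty] at hu hv
    exact hcon u hu v hv)
  rw [Finset.card_empty] at h1
  omega

/-- `τ > |R|`: there is an edge avoiding `R`. -/
lemma Tau.edge_avoid (h : Tau T S k) (R : Finset α) (hk : R.card < k) :
    ∃ u ∈ S, ∃ v ∈ S, T.Adj u v ∧ u ∉ R ∧ v ∉ R := by
  obtain ⟨u, hu, v, hv, huv⟩ := (h.sdiff' (l := 1) R (by omega)).edge le_rfl
  rw [Finset.mem_sdiff] at hu hv
  exact ⟨u, hu.1, v, hv.1, huv, hu.2, hv.2⟩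

/-- If `R` covers all edges of `T[S]` then `k ≤ |R ∩ S|`. -/
lemma Tau.le_cover (h : Tau T S k) (R : Finset α)
    (hR : ∀ u ∈ S, ∀ v ∈ S, T.Adj u v → u ∈ R ∨ v ∈ R) : k ≤ (R ∩ S).card := by
  refine h (R ∩ S) Finset.inter_subset_right ?_
  intro u hu v hv huv
  rw [Finset.mem_sdiff, Finset.mem_inter, not_and'] at hu hv
  rcases hR u hu.1 v hv.1 huv with h1 | h1
  · exact hu.2 hu.1 h1
  · exact hv.2 hv.1 h1

lemma Sav.mono (h : Sav T S k) : ∀ {R : Finset α} {l : ℕ}, S ⊆ R → l ≤ k → Sav T R l := by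
  induction h with
  | zero S =>
    intro R l _ hl
    obtain rfl : l = 0 := by omega
    exact Sav.zero R
  | @two S u v k hu hv h hS ih =>
    intro R l hR hl
    rcases Nat.eq_zero_or_pos l with rfl | hl0
    · exact Sav.zero R
    · obtain ⟨m, rfl⟩ : ∃ m, l = m + 1 := ⟨l - 1, by omega⟩
      exact Sav.two (hR hu) (hR hv) h (ih (Finset.sdiff_subset_sdiff hR subset_rfl) (by omega))
  | @three S u v w k hu hv hw huv huw hvw hS ih =>
    intro R l hR hl
    rcases Nat.eq_zero_or_pos l with rfl | hl0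
    · exact Sav.zero R
    · rcases (by omega : l = 1 ∨ 2 ≤ l) with rfl | hl2
      · exact Sav.two (hR hu) (hR hv) huv (Sav.zero _)
      · obtain ⟨m, rfl⟩ : ∃ m, l = m + 2 := ⟨l - 2, by omega⟩
        exact Sav.three (hR hu) (hR hv) (hR hw) huv huw hvw
          (ih (Finset.sdiff_subset_sdiff hR subset_rfl) (by omega))

section Ach

variable {ι : Type} [DecidableEq ι] {V H : ι → Finset α}

lemma Ach.mono {x : ι → ℤ} (h : Ach T V H S x) : ∀ {R : Finset α} {y : ι → ℤ}, S ⊆ R →
    (∀ i, y i ≤ x i) → Ach T V H R y := by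
  induction h with
  | nil S x hx => exact fun {R y} _ hy => Ach.nil R y fun i => (hy i).trans (hx i)
  | cons S C cl x x' hCS hC hcl hS hx ih =>
    intro R y hR hy
    exact Ach.cons R C cl y x' (hCS.trans hR) hC hcl
      (ih (Finset.sdiff_subset_sdiff hR subset_rfl) fun i => le_rfl)
      fun i => (hy i).trans (hx i)

/-- Use the edge `uv` as a class (merged for all indices), at most three indices. -/
lemma Ach.pair [Fintype ι] (hι : Fintype.card ι ≤ 3) {x x' : ι → ℤ} {u v : α} (hu : u ∈ S)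
    (hv : v ∈ S) (huv : T.Adj u v) (h : Ach T V H (S \ {u, v}) x')
    (hx : ∀ i, x i ≤ x' i + ctr (V i) (H i) {u, v} True) : Ach T V H S x := by
  refine Ach.cons S {u, v} Finset.univ x x' ?_ ?_ ?_ h ?_
  · intro y hy
    rw [Finset.mem_insert, Finset.mem_singleton] at hy
    rcases hy with rfl | rfl
    · exact hu
    · exact hv
  · rw [Finset.coe_pair]
    rw [SimpleGraph.isClique_iff]
    intro a ha b hb hab
    rcases ha with rfl | ha <;> rcases hb with rfl | hb
    · exact absurd rfl hab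
    · rw [Set.mem_singleton_iff] at hb; subst hb; exact huv
    · rw [Set.mem_singleton_iff] at ha; subst ha; exact huv.symm
    · rw [Set.mem_singleton_iff] at ha hb; subst ha; subst hb; exact absurd rfl hab
  · left
    exact ⟨Finset.card_pair huv.ne, by simpa using hι⟩
  · intro i
    refine (hx i).trans (le_of_eq ?_)
    simp [ctr]

/-- Use the triangle `uvw` as a class merged for the indices in `cl`. -/
lemma Ach.triple {cl : Finset ι} (hcl : cl.card ≤ 2) {x x' : ι → ℤ} {u v w : α} (hu : u ∈ S)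
    (hv : v ∈ S) (hw : w ∈ S) (huv : T.Adj u v) (huw : T.Adj u w) (hvw : T.Adj v w)
    (h : Ach T V H (S \ {u, v, w}) x')
    (hx : ∀ i, x i ≤ x' i + ctr (V i) (H i) {u, v, w} (i ∈ cl)) : Ach T V H S x := by
  refine Ach.cons S {u, v, w} cl x x' ?_ ?_ ?_ h hx
  · intro y hy
    simp only [Finset.mem_insert, Finset.mem_singleton] at hy
    rcases hy with rfl | rfl | rfl
    · exact hu
    · exact hv
    · exact hw
  · rw [SimpleGraph.isClique_iff]
    intro a ha b hb hab
    simp only [Finset.coe_insert, Finset.coe_singleton, Set.mem_insert_iff,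
      Set.mem_singleton_iff] at ha hb
    rcases ha with rfl | rfl | rfl <;> rcases hb with rfl | rfl | rfl
    · exact absurd rfl hab
    · exact huv
    · exact huw
    · exact huv.symm
    · exact absurd rfl hab
    · exact hvw
    · exact huw.symm
    · exact hvw.symm
    · exact absurd rfl hab
  · right
    refine ⟨?_, hcl⟩
    rw [Finset.card_insert_of_notMem, Finset.card_pair hvw.ne]
    simp [huv.ne, huw.ne]

end Ach

/-- `C` in `V`: the contribution is `|C| - 1`. -/
lemma ctr_sub {V H C : Finset α} (hC : C ⊆ V) (hne : C.Nonempty) :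
    ctr V H C True = (C.card : ℤ) - 1 := by
  unfold ctr
  rw [if_pos trivial, Finset.inter_eq_left.2 hC, if_pos hne]

/-- If `C` meets `V` the contribution is `≥ 0`. -/
lemma ctr_nonneg_of_meets {V H C : Finset α} (h : (C ∩ V).Nonempty) : 0 ≤ ctr V H C True := by
  unfold ctr
  rw [if_pos trivial, if_pos h]
  have := Finset.card_pos.2 h
  omega

/-- If `C` misses `H` the contribution is `≥ 0`. -/
lemma ctr_nonneg_of_disj {V H C : Finset α} (c : Prop) [Decidable c] (h : Disjoint C H) :
    0 ≤ ctr V H C c := by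
  have h0 : C ∩ H = ∅ := Finset.disjoint_iff_inter_eq_empty.1 h
  unfold ctr
  rw [h0]
  split_ifs with h1 h2 h3
  · have := Finset.card_pos.2 h2
    omega
  · exact absurd h3 Finset.not_nonempty_empty
  · exact le_rfl
  · simp

/-- The contribution is always `≥ -1` for merged classes. -/
lemma neg_one_le_ctr (V H C : Finset α) : -1 ≤ ctr V H C True := by
  unfold ctr
  rw [if_pos trivial]
  split_ifs with h1 h2
  · have := Finset.card_pos.2 h1
    omega
  · exact le_rfl
  · norm_num

end Pool.Agent.Helper33.RG
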