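import Pool.Agent.Helper33.RG.Defs
import Pool.Agent.Helper33.RG.HubBasic

/-!
# Definitions for the colouring part (MP_1f20e3_co)
-/

set_option autoImplicit false

namespace Pool.Agent.Helper33.RG

open Classical Finset

variable {V : Type} [Fintype V]

/-- The colours still available at `v` when the vertices in `S` are coloured by `φ`. -/
noncomputable def avail (G : SimpleGraph V) (Lst : V → Finset ℕ) (S : Finset V) (φ : V → ℕ)
    (v : V) : Finset ℕ := (Lst v).filter fun z => ∀ u ∈ S, G.Adj v u → φ u ≠ z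

/-- The colours available at `≥ r` vertices of `P`. -/
noncomputable def good (G : SimpleGraph V) (Lst : V → Finset ℕ) (S : Finset V) (φ : V → ℕ)
    (P : Finset V) (r : ℕ) : Finset ℕ :=
  (P.biUnion (avail G Lst S φ)).filter fun z => r ≤ (P.filter fun v => z ∈ avail G Lst S φ v).card

/-- The clique `P` is bad. -/
def Bad (G : SimpleGraph V) (Lst : V → Finset ℕ) (S : Finset V) (φ : V → ℕ) (P : Finset V)
    (r K' : ℕ) : Prop :=
  (good G Lst S φ P r).card < P.card ∧ ∃ Y ⊆ P, ∃ Q : Finset ℕ, Y.card ≤ K' ∧ Q.card ≤ K' ∧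
    ∀ v ∈ P \ Y, avail G Lst S φ v ⊆ good G Lst S φ P r ∪ Q

/-- The number of vertices of `P` whose list contains `z`. -/
noncomputable def dens (Lst : V → Finset ℕ) (P : Finset V) (z : ℕ) : ℕ :=
  (P.filter fun v => z ∈ Lst v).card

/-- The colours in almost all lists of `P`. -/
noncomputable def Aset (Lst : V → Finset ℕ) (P : Finset V) (ε₅ : ℝ) : Finset ℕ :=
  (P.biUnion Lst).filter fun z => (1 - ε₅) * (P.card : ℝ) ≤ dens Lst P z

/-- The colours to be avoided. -/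
noncomputable def Avoid (Lst : V → Finset ℕ) (P : Finset V) (ε₂ ε₅ : ℝ) : Finset ℕ :=
  (P.biUnion Lst).filter fun z => ε₂ * (P.card : ℝ) ≤ dens Lst P z ∧
    (dens Lst P z : ℝ) < (1 - ε₅) * (P.card : ℝ)

/-- The number of vertices of `P` with a neighbour in `C`. -/
noncomputable def cov (G : SimpleGraph V) (P C : Finset V) : ℕ :=
  (P.filter fun x => ∃ u ∈ C, G.Adj x u).card

/-- The blocking colours. -/
noncomputable def Blk (G : SimpleGraph V) (Lst : V → Finset ℕ) (S : Finset V) (φ : V → ℕ)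
    (P : Finset V) (ε₅ θ : ℝ) : Finset ℕ :=
  (S.image φ).filter fun z => z ∈ Aset Lst P ε₅ ∧
    (1 - θ / 2) * (P.card : ℝ) ≤ cov G P (S.filter fun u => φ u = z)

/-- The structure obtained from an embedding of small genus: `G` is covered by the hubs `U` and
the huge cliques `M i`. -/
structure Str (G : SimpleGraph V) (L : ℕ) {I : Type} [Fintype I] (M : I → Finset V)
    (U : Finset V) (ε δ η : ℝ) (KU : ℕ) : Prop where
  cardI : Fintype.card I ≤ 350
  cardU : U.card ≤ KU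
  clq : ∀ s : Finset V, G.IsClique (s : Set V) → s.card + 2 ≤ L
  clique : ∀ i, G.IsClique (M i : Set V)
  big : ∀ i, (1 - δ) * (L : ℝ) ≤ (M i).card
  cover : ∀ v, v ∈ U ∨ ∃ i, v ∈ M i
  typ : ∀ i j, i ≠ j → ∀ v, v ∈ M i → v ∈ M j → v ∈ U
  cross : ∀ i j, i ≠ j → ∀ v ∈ M i, v ∉ U →
    (((M j).filter fun x => G.Adj v x).card : ℝ) ≤ η * L
  sum : ∀ i, ∑ v ∈ M i \ U, (univ.filter fun x => x ∉ M i ∧ G.Adj v x).card ≤ 110000 * L
  cost : ∀ J : Finset I,
    ((∑ i ∈ J, ∑ v ∈ M i \ U, ((U \ M i).filter fun x => G.Adj v x).card : ℕ) : ℝ) ≤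
      ((∑ i ∈ J, (M i \ U).card : ℕ) : ℝ) + (8 - 3 * ε) * L

/-- The number of blocking colours that a class `C` can contribute. -/
noncomputable def bb {I : Type} (Vf Hf : I → Finset V) (cl : Finset V → Finset I) (i : I)
    (C : Finset V) : ℕ :=
  if i ∈ cl C then (if (C ∩ (Vf i ∪ Hf i)).Nonempty then 1 else 0)
  else (C ∩ Vf i).card + (C ∩ Hf i).card

/-- The result of the hub game. -/
structure HubData (G : SimpleGraph V) (L : ℕ) {I : Type} (M : I → Finset V) (S : Finset V)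
    (Vf Hf : I → Finset V) (𝒞 : Finset (Finset V)) (cl : Finset V → Finset I) (θ : ℝ) : Prop where
  sub : ∀ C ∈ 𝒞, C ⊆ S
  disj : ∀ C ∈ 𝒞, ∀ C' ∈ 𝒞, C ≠ C' → Disjoint C C'
  indep : ∀ C ∈ 𝒞, ∀ u ∈ C, ∀ v ∈ C, ¬ G.Adj u v
  size : ∀ C ∈ 𝒞, (C.card = 2 ∧ (cl C).card ≤ 3) ∨ (C.card = 3 ∧ (cl C).card ≤ 2)
  nonfull : ∀ i, ∀ u ∈ S \ Vf i, (cov G (M i \ S) {u} : ℝ) < (1 - θ / 2) * ((M i \ S).card : ℝ)
  block : ∀ i, ∀ C ∈ 𝒞, ∀ C' ⊆ C, Disjoint C' (Vf i) →
    (1 - θ / 2) * ((M i \ S).card : ℝ) ≤ cov G (M i \ S) C' → ¬ Disjoint C' (Hf i)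
  count : ∀ i, (Vf i \ 𝒞.biUnion id).card + ∑ C ∈ 𝒞, bb Vf Hf cl i C + (M i \ S).card ≤ L

end Pool.Agent.Helper33.RG
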