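import Pool.Agent.Helper33.RG.GL

/-!
# Block RG-CH: `τ ≥ 3` and savings `≤ 2` (MP_1f20e3_co)

`c5_or_k4`: if `τ(T[S]) ≥ 3` and there are no savings `3`, then the edges of `T[S]` form exactly a `C5` or exactly a `K4`.

PROOF. (i) `T[S]` has a triangle `x y z`. `S \ {x,y,z}` has no edge (else savings 3). Let `N_x` be the neighbours of `x` in
`S \ {x,y,z}`, etc. `N_x` is not empty, else `{y, z}` is a cover (`Tau.le_cover`); same for `N_y`, `N_z`. If `w ∈ N_x ∩ N_y` and `z' ∈ N_z`,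
`z' ≠ w`, then the triangle `x y w` and the edge `z z'` have savings 3; so `N_z = {w}`; so `w ∈ N_x ∩ N_z` and `N_y = {w}`, and `N_x = {w}`: `K4` on `x, y, z, w`. By
symmetry this holds if any two of the sets meet. If they are pairwise disjoint: `x x'`, `y y'`, `z z'` are three disjoint edges, savings 3.
(ii) `T[S]` triangle-free. There are two disjoint edges `a1 b1`, `a2 b2` (`Tau.three`) and no three. `R = S \ {a1,b1,a2,b2}` is independent. As in
GLM at most one of `a i`, `b i` has a neighbour in `R`; names such that `b1`, `b2` have none. `b1 ~ b2`: if not, `{a1, a2}` is a cover. If neither `a1` nor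
`a2` has a neighbour in `R`, all edges are on four vertices, triangle-free, so there is a cover with two elements (`{a1, b2}` or `{b1, a2}` or..: `b1 ~ b2` excludes `a1 ~ b2` and
`a2 ~ b1`, so `{b1, a2}` or: edges `a1b1, a2b2, b1b2` and possibly `a1a2`: cover `{a1, b2}`). So say `a1 ~ r ∈ R`. Then `a2` has no neighbour in `R` other than `r` (else `r a1, b1 b2, a2 r'` are three disjoint edges). If
`a2 ≁ r` then `a2` has no neighbour in `R`, and `{a1, b2}` is a cover (edges at `a2`: `b2`, `a1`; at `b1`: `a1`, `b2`). So `a2 ~ r`, and symmetrically `a1` has only the neighbour `r` in `R`; no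
other edges by triangle-freeness: `C5` = `r, a1, b1, b2, a2`.
-/

set_option autoImplicit false

namespace Pool.Agent.Helper33.RG

variable {α : Type} [DecidableEq α]

/-- The edges of `T[S]` are exactly those of a 5-cycle. -/
def IsC5 (T : SimpleGraph α) (S : Finset α) : Prop :=
  ∃ c : ZMod 5 → α, Function.Injective c ∧ (∀ i, c i ∈ S) ∧
    ∀ x ∈ S, ∀ y ∈ S, T.Adj x y ↔ ∃ i, (x = c i ∧ y = c (i + 1)) ∨ (y = c i ∧ x = c (i + 1))

/-- The edges of `T[S]` are exactly those of a complete graph with four vertices. -/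
def IsK4 (T : SimpleGraph α) (S : Finset α) : Prop :=
  ∃ c : Fin 4 → α, Function.Injective c ∧ (∀ i, c i ∈ S) ∧
    ∀ x ∈ S, ∀ y ∈ S, T.Adj x y ↔ ∃ i j, i ≠ j ∧ x = c i ∧ y = c j

private theorem ch_no3 {T : SimpleGraph α} {S : Finset α} (hs : ¬ Sav T S 3) {a b c d e f : α}
    (ha : a ∈ S) (hb : b ∈ S) (hc : c ∈ S) (hd : d ∈ S) (he : e ∈ S) (hf : f ∈ S)
    (hab : T.Adj a b) (hcd : T.Adj c d) (hef : T.Adj e f) (h1 : c ≠ a) (h2 : c ≠ b) (h3 : d ≠ a)
    (h4 : d ≠ b) (h5 : e ≠ a) (h6 : e ≠ b) (h7 : e ≠ c) (h8 : e ≠ d) (h9 : f ≠ a) (h10 : f ≠ b)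
    (h11 : f ≠ c) (h12 : f ≠ d) : False := by
  apply hs
  refine Sav.two ha hb hab (Sav.two (u := c) (v := d) ?_ ?_ hcd (Sav.two (u := e) (v := f) ?_ ?_
    hef (Sav.zero _)))
  · simp [hc, h1, h2]
  · simp [hd, h3, h4]
  · simp [he, h5, h6, h7, h8]
  · simp [hf, h9, h10, h11, h12]

private theorem ch_notri {T : SimpleGraph α} {S : Finset α} (hs : ¬ Sav T S 3) {x y z u v : α}
    (hx : x ∈ S) (hy : y ∈ S) (hz : z ∈ S) (hu : u ∈ S) (hv : v ∈ S)
    (hxy : T.Adj x y) (hxz : T.Adj x z) (hyz : T.Adj y z) (huv : T.Adj u v)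
    (h1 : u ≠ x) (h2 : u ≠ y) (h3 : u ≠ z) (h4 : v ≠ x) (h5 : v ≠ y) (h6 : v ≠ z) : False := by
  apply hs
  refine Sav.three hx hy hz hxy hxz hyz (Sav.two (u := u) (v := v) ?_ ?_ huv (Sav.zero _))
  · simp [hu, h1, h2, h3]
  · simp [hv, h4, h5, h6]

/-- A vertex of a triangle has a neighbour outside. -/
private theorem ch_nbr {T : SimpleGraph α} {S : Finset α} (h : Tau T S 3) (hs : ¬ Sav T S 3)
    {x y z : α} (hx : x ∈ S) (hy : y ∈ S) (hz : z ∈ S) (hxy : T.Adj x y) (hxz : T.Adj x z)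
    (hyz : T.Adj y z) : ∃ w ∈ S, w ≠ x ∧ w ≠ y ∧ w ≠ z ∧ T.Adj x w := by
  obtain ⟨u, hu, v, hv, huv, hu', hv'⟩ := h.edge_avoid {y, z} (by
    have := Finset.card_le_two (a := y) (b := z)
    omega)
  simp only [Finset.mem_insert, Finset.mem_singleton, not_or] at hu' hv'
  by_cases hux : u = x
  · subst hux
    exact ⟨v, hv, huv.ne', hv'.1, hv'.2, huv⟩
  · by_cases hvx : v = x
    · subst hvx
      exact ⟨u, hu, huv.ne, hu'.1, hu'.2, huv.symm⟩
    · exact (ch_notri hs hx hy hz hu hv hxy hxz hyz huv hux hu'.1 hu'.2 hvx hv'.1 hv'.2).elim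

private theorem ch_inj4 {a b c d : α} (hab : a ≠ b) (hac : a ≠ c) (had : a ≠ d)
    (hbc : b ≠ c) (hbd : b ≠ d) (hcd : c ≠ d) :
    Function.Injective (![a, b, c, d] : Fin 4 → α) := by
  intro i j hij
  fin_cases i <;> fin_cases j <;>
    first |
      rfl |
      exact (hab hij).elim |
      exact (hac hij).elim |
      exact (had hij).elim |
      exact (hbc hij).elim |
      exact (hbd hij).elim |
      exact (hcd hij).elim |
      exact (hab hij.symm).elim |
      exact (hac hij.symm).elim |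
      exact (had hij.symm).elim |
      exact (hbc hij.symm).elim |
      exact (hbd hij.symm).elim |
      exact (hcd hij.symm).elim

private theorem ch_adj4 {T : SimpleGraph α} {a b c d : α} (hab : T.Adj a b) (hac : T.Adj a c)
    (had : T.Adj a d) (hbc : T.Adj b c) (hbd : T.Adj b d) (hcd : T.Adj c d) (i j : Fin 4)
    (hij : i ≠ j) : T.Adj ((![a, b, c, d] : Fin 4 → α) i) ((![a, b, c, d] : Fin 4 → α) j) := by
  fin_cases i <;> fin_cases j <;>
    first | exact (hij rfl).elim | exact hab | exact hab.symm | exact hac | exact hac.symm |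
      exact had | exact had.symm | exact hbc | exact hbc.symm | exact hbd | exact hbd.symm |
      exact hcd | exact hcd.symm

private theorem ch_k4 {T : SimpleGraph α} {S : Finset α} (h : Tau T S 3) (hs : ¬ Sav T S 3)
    {x y z : α} (hx : x ∈ S) (hy : y ∈ S) (hz : z ∈ S) (hxy : T.Adj x y) (hxz : T.Adj x z)
    (hyz : T.Adj y z) : IsK4 T S := by
  obtain ⟨x', hx', hx1, hx2, hx3, hxx⟩ := ch_nbr h hs hx hy hz hxy hxz hyz
  obtain ⟨y', hy', hy1, hy2, hy3, hyy⟩ := ch_nbr h hs hy hx hz hxy.symm hyz hxz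
  obtain ⟨z', hz', hz1, hz2, hz3, hzz⟩ := ch_nbr h hs hz hx hy hxz.symm hyz.symm hxy
  -- `w` adjacent to `x` and `y`, then it is the only neighbour of `z`
  have K1 : ∀ w v, w ∈ S → v ∈ S → w ≠ x → w ≠ y → w ≠ z → v ≠ x → v ≠ y → v ≠ z →
      T.Adj x w → T.Adj y w → T.Adj z v → v = w := by
    intro w v hw hv a1 a2 a3 b1 b2 b3 e1 e2 e3
    by_contra hne
    exact ch_notri hs hx hy hw hz hv hxy e1 e2 e3 hxz.ne' hyz.ne' (Ne.symm a3) b1 b2 hne
  have K2 : ∀ w v, w ∈ S → v ∈ S → w ≠ x → w ≠ y → w ≠ z → v ≠ x → v ≠ y → v ≠ z →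
      T.Adj x w → T.Adj z w → T.Adj y v → v = w := by
    intro w v hw hv a1 a2 a3 b1 b2 b3 e1 e2 e3
    by_contra hne
    exact ch_notri hs hx hz hw hy hv hxz e1 e2 e3 hxy.ne' hyz.ne (Ne.symm a2) b1 b3 hne
  have K3 : ∀ w v, w ∈ S → v ∈ S → w ≠ x → w ≠ y → w ≠ z → v ≠ x → v ≠ y → v ≠ z →
      T.Adj y w → T.Adj z w → T.Adj x v → v = w := by
    intro w v hw hv a1 a2 a3 b1 b2 b3 e1 e2 e3
    by_contra hne
    exact ch_notri hs hy hz hw hx hv hyz e1 e2 e3 hxy.ne hxz.ne (Ne.symm a1) b2 b3 hne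
  obtain ⟨w, hw, hwx, hwy, hwz, axw, ayw, azw⟩ : ∃ w ∈ S, w ≠ x ∧ w ≠ y ∧ w ≠ z ∧
      T.Adj x w ∧ T.Adj y w ∧ T.Adj z w := by
    by_cases e1 : x' = y'
    · subst e1
      have := K1 x' z' hx' hz' hx1 hx2 hx3 hz2 hz3 hz1 hxx hyy hzz
      subst this
      exact ⟨z', hz', hx1, hx2, hx3, hxx, hyy, hzz⟩
    · by_cases e2 : x' = z'
      · subst e2
        have := K2 x' y' hx' hy' hx1 hx2 hx3 hy2 hy1 hy3 hxx hzz hyy
        exact absurd this.symm e1
      · by_cases e3 : y' = z'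
        · subst e3
          have := K3 y' x' hy' hx' hy2 hy1 hy3 hx1 hx2 hx3 hyy hzz hxx
          exact absurd this e1
        · exact (ch_no3 hs hx hx' hy hy' hz hz' hxx hyy hzz hxy.ne' (Ne.symm hx2) hy2
            (Ne.symm e1) hxz.ne' (Ne.symm hx3) hyz.ne' (Ne.symm hy3) hz2 (Ne.symm e2) hz3
            (Ne.symm e3)).elim
  refine ⟨![x, y, z, w], ?_, ?_, ?_⟩
  · exact ch_inj4 hxy.ne hxz.ne (Ne.symm hwx) hyz.ne (Ne.symm hwy) (Ne.symm hwz)
  · intro i
    fin_cases i
    · exact hx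
    · exact hy
    · exact hz
    · exact hw
  · intro u hu v hv
    constructor
    · intro huv
      have key : ∀ u v, u ∈ S → v ∈ S → T.Adj u v → u = x ∨ u = y ∨ u = z ∨ u = w := by
        intro u v hu hv huv
        by_contra hcon
        push Not at hcon
        obtain ⟨c1, c2, c3, c4⟩ := hcon
        by_cases d1 : v = x
        · subst d1
          exact c4 (K3 w u hw hu hwx hwy hwz c1 c2 c3 ayw azw huv.symm)
        · by_cases d2 : v = y
          · subst d2
            exact c4 (K2 w u hw hu hwx hwy hwz c1 c2 c3 axw azw huv.symm)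
          · by_cases d3 : v = z
            · subst d3
              exact c4 (K1 w u hw hu hwx hwy hwz c1 c2 c3 axw ayw huv.symm)
            · exact ch_notri hs hx hy hz hu hv hxy hxz hyz huv c1 c2 c3 d1 d2 d3
      have r1 : ∃ i : Fin 4, u = ![x, y, z, w] i := by
        rcases key u v hu hv huv with rfl | rfl | rfl | rfl
        · exact ⟨0, rfl⟩
        · exact ⟨1, rfl⟩
        · exact ⟨2, rfl⟩
        · exact ⟨3, rfl⟩
      have r2 : ∃ i : Fin 4, v = ![x, y, z, w] i := by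
        rcases key v u hv hu huv.symm with rfl | rfl | rfl | rfl
        · exact ⟨0, rfl⟩
        · exact ⟨1, rfl⟩
        · exact ⟨2, rfl⟩
        · exact ⟨3, rfl⟩
      obtain ⟨i, hi⟩ := r1
      obtain ⟨j, hj⟩ := r2
      refine ⟨i, j, ?_, hi, hj⟩
      rintro rfl
      exact huv.ne (hi.trans hj.symm)
    · rintro ⟨i, j, hij, rfl, rfl⟩
      exact ch_adj4 hxy hxz axw hyz ayw azw i j hij

private theorem ch_inj5 {a b c d e : α} (hab : a ≠ b) (hac : a ≠ c) (had : a ≠ d) (hae : a ≠ e)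
    (hbc : b ≠ c) (hbd : b ≠ d) (hbe : b ≠ e) (hcd : c ≠ d) (hce : c ≠ e) (hde : d ≠ e) :
    Function.Injective (![a, b, c, d, e] : Fin 5 → α) := by
  intro i j hij
  fin_cases i <;> fin_cases j <;>
    first |
      rfl |
      exact (hab hij).elim |
      exact (hac hij).elim |
      exact (had hij).elim |
      exact (hae hij).elim |
      exact (hbc hij).elim |
      exact (hbd hij).elim |
      exact (hbe hij).elim |
      exact (hcd hij).elim |
      exact (hce hij).elim |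
      exact (hde hij).elim |
      exact (hab hij.symm).elim |
      exact (hac hij.symm).elim |
      exact (had hij.symm).elim |
      exact (hae hij.symm).elim |
      exact (hbc hij.symm).elim |
      exact (hbd hij.symm).elim |
      exact (hbe hij.symm).elim |
      exact (hcd hij.symm).elim |
      exact (hce hij.symm).elim |
      exact (hde hij.symm).elim

private theorem ch_c5 {T : SimpleGraph α} {S : Finset α} (h : Tau T S 3) (hs : ¬ Sav T S 3)
    (tf : TriFree T S) {a1 b1 a2 b2 : α} (ha1 : a1 ∈ S) (hb1 : b1 ∈ S) (ha2 : a2 ∈ S)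
    (hb2 : b2 ∈ S) (e1 : T.Adj a1 b1) (e2 : T.Adj a2 b2) (n1 : a2 ≠ a1) (n2 : a2 ≠ b1)
    (n3 : b2 ≠ a1) (n4 : b2 ≠ b1)
    (hR1 : ∀ r ∈ S, r ≠ a1 → r ≠ b1 → r ≠ a2 → r ≠ b2 → ¬ T.Adj b1 r)
    (hR2 : ∀ r ∈ S, r ≠ a1 → r ≠ b1 → r ≠ a2 → r ≠ b2 → ¬ T.Adj b2 r) : IsC5 T S := by
  have hRR : ∀ u ∈ S, ∀ v ∈ S, u ≠ a1 → u ≠ b1 → u ≠ a2 → u ≠ b2 → v ≠ a1 → v ≠ b1 → v ≠ a2 →
      v ≠ b2 → ¬ T.Adj u v := by
    intro u hu v hv c1 c2 c3 c4 d1 d2 d3 d4 huv
    exact ch_no3 hs ha1 hb1 ha2 hb2 hu hv e1 e2 huv n1 n2 n3 n4 c1 c2 c3 c4 d1 d2 d3 d4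
  have e3 : T.Adj b1 b2 := by
    obtain ⟨u, hu, v, hv, huv, hu', hv'⟩ := h.edge_avoid {a1, a2} (by
      have := Finset.card_le_two (a := a1) (b := a2)
      omega)
    simp only [Finset.mem_insert, Finset.mem_singleton, not_or] at hu' hv'
    by_cases u1 : u = b1
    · subst u1
      by_cases v1 : v = b2
      · subst v1
        exact huv
      · exact (hR1 v hv hv'.1 huv.ne' hv'.2 v1 huv).elim
    · by_cases u2 : u = b2
      · subst u2
        by_cases v1 : v = b1
        · subst v1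
          exact huv.symm
        · exact (hR2 v hv hv'.1 v1 hv'.2 huv.ne' huv).elim
      · by_cases v1 : v = b1
        · subst v1
          exact (hR1 u hu hu'.1 u1 hu'.2 u2 huv.symm).elim
        · by_cases v2 : v = b2
          · subst v2
            exact (hR2 u hu hu'.1 u1 hu'.2 u2 huv.symm).elim
          · exact (hRR u hu v hv hu'.1 u1 hu'.2 u2 hv'.1 v1 hv'.2 v2 huv).elim
  have f1 : ¬ T.Adj a1 b2 := fun e => tf b1 hb1 a1 ha1 b2 hb2 e1.symm e3 e
  have f2 : ¬ T.Adj a2 b1 := fun e => tf b2 hb2 a2 ha2 b1 hb1 e2.symm e3.symm e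
  -- the vertex `r`
  obtain ⟨r, hr, r1, r2, r3, r4, e4⟩ : ∃ r ∈ S, r ≠ a1 ∧ r ≠ b1 ∧ r ≠ a2 ∧ r ≠ b2 ∧ T.Adj a2 r := by
    obtain ⟨u, hu, v, hv, huv, hu', hv'⟩ := h.edge_avoid {a1, b2} (by
      have := Finset.card_le_two (a := a1) (b := b2)
      omega)
    simp only [Finset.mem_insert, Finset.mem_singleton, not_or] at hu' hv'
    by_cases u1 : u = a2
    · subst u1
      by_cases v1 : v = b1
      · subst v1
        exact (f2 huv).elim
      · exact ⟨v, hv, hv'.1, v1, huv.ne', hv'.2, huv⟩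
    · by_cases v1 : v = a2
      · subst v1
        by_cases u2 : u = b1
        · subst u2
          exact (f2 huv.symm).elim
        · exact ⟨u, hu, hu'.1, u2, huv.ne, hu'.2, huv.symm⟩
      · by_cases u2 : u = b1
        · subst u2
          exact (hR1 v hv hv'.1 huv.ne' v1 hv'.2 huv).elim
        · by_cases v2 : v = b1
          · subst v2
            exact (hR1 u hu hu'.1 u2 u1 hu'.2 huv.symm).elim
          · exact (hRR u hu v hv hu'.1 u2 u1 hu'.2 hv'.1 v2 v1 hv'.2 huv).elim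
  obtain ⟨s, hs', s1, s2, s3, s4, e5⟩ : ∃ r ∈ S, r ≠ a1 ∧ r ≠ b1 ∧ r ≠ a2 ∧ r ≠ b2 ∧ T.Adj a1 r := by
    obtain ⟨u, hu, v, hv, huv, hu', hv'⟩ := h.edge_avoid {a2, b1} (by
      have := Finset.card_le_two (a := a2) (b := b1)
      omega)
    simp only [Finset.mem_insert, Finset.mem_singleton, not_or] at hu' hv'
    by_cases u1 : u = a1
    · subst u1
      by_cases v1 : v = b2
      · subst v1
        exact (f1 huv).elim
      · exact ⟨v, hv, huv.ne', hv'.2, hv'.1, v1, huv⟩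
    · by_cases v1 : v = a1
      · subst v1
        by_cases u2 : u = b2
        · subst u2
          exact (f1 huv.symm).elim
        · exact ⟨u, hu, huv.ne, hu'.2, hu'.1, u2, huv.symm⟩
      · by_cases u2 : u = b2
        · subst u2
          exact (hR2 v hv v1 hv'.2 hv'.1 huv.ne' huv).elim
        · by_cases v2 : v = b2
          · subst v2
            exact (hR2 u hu u1 hu'.2 hu'.1 u2 huv.symm).elim
          · exact (hRR u hu v hv u1 hu'.2 hu'.1 u2 v1 hv'.2 hv'.1 v2 huv).elim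
  have hsr : ∀ s ∈ S, s ≠ a1 → s ≠ b1 → s ≠ a2 → s ≠ b2 → T.Adj a1 s → s = r := by
    intro s hs'' s1 s2 s3 s4 e5
    by_contra hne
    exact ch_no3 hs ha1 hs'' hb1 hb2 ha2 hr e5 e3 e4 e1.ne' (Ne.symm s2) n3 (Ne.symm s4) n1
      (Ne.symm s3) n2 e2.ne r1 (Ne.symm hne) r2 r4
  have hsr0 := hsr s hs' s1 s2 s3 s4 e5
  subst hsr0
  have hsr2 : ∀ r' ∈ S, r' ≠ a1 → r' ≠ b1 → r' ≠ a2 → r' ≠ b2 → T.Adj a2 r' → r' = s := by
    intro r' hr' s1' s2' s3' s4' e6
    by_contra hne
    exact ch_no3 hs ha2 hr' hb1 hb2 ha1 hs' e6 e3 e5 (Ne.symm n2) (Ne.symm s2') e2.ne'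
      (Ne.symm s4') (Ne.symm n1) (Ne.symm s1') e1.ne (Ne.symm n3) s3 (Ne.symm hne) s2 s4
  have f3 : ¬ T.Adj a1 a2 := fun e => tf a1 ha1 a2 ha2 s hs' e e5 e4
  refine ⟨(![s, a1, b1, b2, a2] : Fin 5 → α), ?_, ?_, ?_⟩
  · exact ch_inj5 s1 s2 s4 s3 e1.ne (Ne.symm n3) (Ne.symm n1) e3.ne (Ne.symm n2) e2.ne'
  · have hmem : ∀ i : Fin 5, (![s, a1, b1, b2, a2] : Fin 5 → α) i ∈ S := by
      intro i
      fin_cases i
      · exact hs'
      · exact ha1
      · exact hb1
      · exact hb2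
      · exact ha2
    exact hmem
  · intro x hx y hy
    constructor
    · intro hxy
      have hxy' := hxy.symm
      have hne := hxy.ne
      have A := hRR x hx y hy
      have B1 := hR1 x hx
      have B2 := hR2 x hx
      have B3 := hR1 y hy
      have B4 := hR2 y hy
      have C1 := hsr x hx
      have C2 := hsr y hy
      have C3 := hsr2 x hx
      have C4 := hsr2 y hy
      have f1' : ¬ T.Adj b2 a1 := fun e => f1 e.symm
      have f2' : ¬ T.Adj b1 a2 := fun e => f2 e.symm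
      have f3' : ¬ T.Adj a2 a1 := fun e => f3 e.symm
      by_cases x1 : x = a1
      · subst x1
        by_cases y1 : y = b1
        · subst y1; exact ⟨(1 : Fin 5), Or.inl ⟨rfl, rfl⟩⟩
        · by_cases y2 : y = b2
          · subst y2; exact (f1 hxy).elim
          · by_cases y3 : y = a2
            · subst y3; exact (f3 hxy).elim
            · have := C2 (Ne.symm hne) y1 y3 y2 hxy
              subst this
              exact ⟨(0 : Fin 5), Or.inr ⟨rfl, rfl⟩⟩
      · by_cases x2 : x = b1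
        · subst x2
          by_cases y1 : y = a1
          · subst y1; exact ⟨(1 : Fin 5), Or.inr ⟨rfl, rfl⟩⟩
          · by_cases y2 : y = b2
            · subst y2; exact ⟨(2 : Fin 5), Or.inl ⟨rfl, rfl⟩⟩
            · by_cases y3 : y = a2
              · subst y3; exact (f2' hxy).elim
              · exact (B3 y1 (Ne.symm hne) y3 y2 hxy).elim
        · by_cases x3 : x = b2
          · subst x3
            by_cases y1 : y = a2
            · subst y1; exact ⟨(3 : Fin 5), Or.inl ⟨rfl, rfl⟩⟩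
            · by_cases y2 : y = b1
              · subst y2; exact ⟨(2 : Fin 5), Or.inr ⟨rfl, rfl⟩⟩
              · by_cases y3 : y = a1
                · subst y3; exact (f1' hxy).elim
                · exact (B4 y3 y2 y1 (Ne.symm hne) hxy).elim
          · by_cases x4 : x = a2
            · subst x4
              by_cases y1 : y = b2
              · subst y1; exact ⟨(3 : Fin 5), Or.inr ⟨rfl, rfl⟩⟩
              · by_cases y2 : y = b1
                · subst y2; exact (f2 hxy).elim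
                · by_cases y3 : y = a1
                  · subst y3; exact (f3' hxy).elim
                  · have := C4 y3 y2 (Ne.symm hne) y1 hxy
                    subst this
                    exact ⟨(4 : Fin 5), Or.inl ⟨rfl, rfl⟩⟩
            · by_cases y1 : y = a1
              · subst y1
                have := C1 x1 x2 x4 x3 hxy'
                subst this
                exact ⟨(0 : Fin 5), Or.inl ⟨rfl, rfl⟩⟩
              · by_cases y2 : y = b1
                · subst y2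
                  exact (B1 x1 x2 x4 x3 hxy').elim
                · by_cases y3 : y = b2
                  · subst y3
                    exact (B2 x1 x2 x4 x3 hxy').elim
                  · by_cases y4 : y = a2
                    · subst y4
                      have := C3 x1 x2 x4 x3 hxy'
                      subst this
                      exact ⟨(4 : Fin 5), Or.inr ⟨rfl, rfl⟩⟩
                    · exact (A x1 x2 x4 x3 y1 y2 y4 y3 hxy).elim
    · have hadj : ∀ i : Fin 5, T.Adj ((![s, a1, b1, b2, a2] : Fin 5 → α) i)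
          ((![s, a1, b1, b2, a2] : Fin 5 → α) (i + 1)) := by
        intro i
        fin_cases i
        · exact e5.symm
        · exact e1
        · exact e3
        · exact e2.symm
        · exact e4
      rintro ⟨i, ⟨rfl, rfl⟩ | ⟨rfl, rfl⟩⟩
      · exact hadj i
      · exact (hadj i).symm

theorem c5_or_k4 {T : SimpleGraph α} {S : Finset α} (h : Tau T S 3) (hs : ¬ Sav T S 3) :
    IsC5 T S ∨ IsK4 T S := by
  by_cases htri : ∃ x ∈ S, ∃ y ∈ S, ∃ z ∈ S, T.Adj x y ∧ T.Adj x z ∧ T.Adj y z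
  · obtain ⟨x, hx, y, hy, z, hz, hxy, hxz, hyz⟩ := htri
    exact Or.inr (ch_k4 h hs hx hy hz hxy hxz hyz)
  left
  have tf : TriFree T S := fun u hu v hv w hw h1 h2 h3 => htri ⟨u, hu, v, hv, w, hw, h1, h2, h3⟩
  obtain ⟨a1, b1, a2, b2, ha1, hb1, e1, ha2, hb2, e2⟩ := h.three le_rfl
  simp only [Finset.mem_sdiff, Finset.mem_insert, Finset.mem_singleton, not_or] at ha2 hb2
  obtain ⟨ha2, n1, n2⟩ := ha2
  obtain ⟨hb2, n3, n4⟩ := hb2
  -- at most one end of an edge of the matching has neighbours outside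
  have one : ∀ a b c d, a ∈ S → b ∈ S → c ∈ S → d ∈ S → T.Adj a b → T.Adj c d →
      c ≠ a → c ≠ b → d ≠ a → d ≠ b →
      (∀ r ∈ S, r ≠ a → r ≠ b → r ≠ c → r ≠ d → ¬ T.Adj a r) ∨
      (∀ r ∈ S, r ≠ a → r ≠ b → r ≠ c → r ≠ d → ¬ T.Adj b r) := by
    intro a b c d ha hb hc hd hab hcd k1 k2 k3 k4
    by_contra hcon
    push Not at hcon
    obtain ⟨⟨r, hr, r1, r2, r3, r4, er⟩, ⟨s, hs', s1, s2, s3, s4, es⟩⟩ := hcon
    by_cases hrs : r = s
    · subst hrs
      exact tf a ha b hb r hr hab er es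
    · exact ch_no3 hs ha hr hb hs' hc hd er es hcd hab.ne' (Ne.symm r2) s1 (Ne.symm hrs) k1
        (Ne.symm r3) k2 (Ne.symm s3) k3 (Ne.symm r4) k4 (Ne.symm s4)
  rcases one a1 b1 a2 b2 ha1 hb1 ha2 hb2 e1 e2 n1 n2 n3 n4 with p1 | p1
  · rcases one a2 b2 a1 b1 ha2 hb2 ha1 hb1 e2 e1 (Ne.symm n1) (Ne.symm n3) (Ne.symm n2)
      (Ne.symm n4) with p2 | p2
    · exact ch_c5 h hs tf hb1 ha1 hb2 ha2 e1.symm e2.symm n4 n3 n2 n1
        (fun r hr c1 c2 c3 c4 => p1 r hr c2 c1 c4 c3) (fun r hr c1 c2 c3 c4 => p2 r hr c4 c3 c2 c1)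
    · exact ch_c5 h hs tf hb1 ha1 ha2 hb2 e1.symm e2 n2 n1 n4 n3
        (fun r hr c1 c2 c3 c4 => p1 r hr c2 c1 c3 c4) (fun r hr c1 c2 c3 c4 => p2 r hr c3 c4 c2 c1)
  · rcases one a2 b2 a1 b1 ha2 hb2 ha1 hb1 e2 e1 (Ne.symm n1) (Ne.symm n3) (Ne.symm n2)
      (Ne.symm n4) with p2 | p2
    · exact ch_c5 h hs tf ha1 hb1 hb2 ha2 e1 e2.symm n3 n4 n1 n2
        (fun r hr c1 c2 c3 c4 => p1 r hr c1 c2 c4 c3) (fun r hr c1 c2 c3 c4 => p2 r hr c4 c3 c1 c2)
    · exact ch_c5 h hs tf ha1 hb1 ha2 hb2 e1 e2 n1 n2 n3 n4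
        (fun r hr c1 c2 c3 c4 => p1 r hr c1 c2 c3 c4) (fun r hr c1 c2 c3 c4 => p2 r hr c3 c4 c1 c2)

end Pool.Agent.Helper33.RG
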