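import Mathlib

/-!
# Block RG-LM: merging colours with lists (MP_1f20e3_co)

`lm`: a class `C` with two (three) elements, lists of size `≥ 0.99 L`, and at most three (two) sets of colours `A i` of size `≤ 1.01 L`: one can choose colours from the
lists such that for every `i` at most one of the chosen colours is in `A i`.

PROOF. `C = {u, v}`: if the lists have a common colour choose it for both. Otherwise for every `i`, with `a = |L(u) ∩ A i|`, `b = |L(v) ∩ A i|`, `a + b ≤ |A i| ≤ 1.01 L`, so `a b ≤ (0.505 L)^2` pairs `(y, z)` in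
`L(u) × L(v)` have both colours in `A i`; together at most `3 (0.505)^2 L^2 < (0.99 L)^2`, so there is a pair with at most one colour in every `A i`.
`C = {u, v, w}`: a colour common to all three lists: take it for all. Assume there is none. If one of the lists, say that of `w`, has a colour which is in no `A i`, choose it for `w` and use the case of two elements for `u, v`. Otherwise all lists are contained in the union of the `A i`,
`i ∈ cl`. `cl = ∅`: trivial. `cl = {i}`: three lists in `A i` have a common colour: `3 · 0.99 L > 2 · 1.01 L`, contradiction. `cl = {i, j}`, `A = A i`, `B = A j`: every colour is in at most two of the lists, so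
`3 · 0.99 L ≤ |A ∪ B| + D`, `D` = number of colours in two lists; `|A ∪ B| = |A| + |B| - |A ∩ B|`, so at least `(2.97 - 2.02) L = 0.95 L` colours of `(A \ B) ∪ (B \ A)` are in two lists. So for one of the six choices (pair of lists, side) there are `≥ 0.15 L` colours in,
say, `L(u) ∩ L(v) ∩ (A \ B)`. If `L(w)` is not contained in `A` choose one of them for `u` and `v` and an element of `L(w) \ A ⊆ B \ A` for `w`. If `L(w) ⊆ A`: `|A| ≥ |L(w)| + 0.15 L ≥ 1.14 L`, contradiction.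
-/

set_option autoImplicit false

namespace Pool.Agent.Helper33.RG

/-- two lists -/
private theorem lm_two {ι : Type} [DecidableEq ι] (X Y : Finset ℕ)
    (A : ι → Finset ℕ) (cl : Finset ι) (L : ℕ) (hL : 1 ≤ L)
    (hX : 99 * L ≤ 100 * X.card) (hY : 99 * L ≤ 100 * Y.card)
    (hA : ∀ i ∈ cl, 100 * (A i).card ≤ 101 * L) (hcl : cl.card ≤ 3) :
    ∃ x ∈ X, ∃ y ∈ Y, ∀ i ∈ cl, x = y ∨ ¬ (x ∈ A i ∧ y ∈ A i) := by
  by_cases hXY : ∃ x, x ∈ X ∧ x ∈ Y
  · obtain ⟨x, h1, h2⟩ := hXY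
    exact ⟨x, h1, x, h2, fun i _ => Or.inl rfl⟩
  · push Not at hXY
    by_contra hcon
    push Not at hcon
    have hsub : X ×ˢ Y ⊆ cl.biUnion (fun i => (X ∩ A i) ×ˢ (Y ∩ A i)) := by
      rintro ⟨x, y⟩ hxy
      rw [Finset.mem_product] at hxy
      obtain ⟨i, hi, hne, h1, h2⟩ := hcon x hxy.1 y hxy.2
      rw [Finset.mem_biUnion]
      exact ⟨i, hi, Finset.mem_product.2 ⟨Finset.mem_inter.2 ⟨hxy.1, h1⟩,
        Finset.mem_inter.2 ⟨hxy.2, h2⟩⟩⟩
    have h1 : X.card * Y.card ≤ ∑ i ∈ cl, (X ∩ A i).card * (Y ∩ A i).card := by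
      calc X.card * Y.card = (X ×ˢ Y).card := (Finset.card_product _ _).symm
        _ ≤ _ := Finset.card_le_card hsub
        _ ≤ _ := Finset.card_biUnion_le
        _ = _ := Finset.sum_congr rfl fun i _ => Finset.card_product _ _
    have h2 : ∀ i ∈ cl, 40000 * ((X ∩ A i).card * (Y ∩ A i).card) ≤ 10201 * L ^ 2 := by
      intro i hi
      have hdis : Disjoint (X ∩ A i) (Y ∩ A i) := by
        rw [Finset.disjoint_left]
        intro z hz hz'
        exact hXY z (Finset.mem_inter.1 hz).1 (Finset.mem_inter.1 hz').1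
      have h3 : (X ∩ A i).card + (Y ∩ A i).card ≤ (A i).card := by
        rw [← Finset.card_union_of_disjoint hdis]
        exact Finset.card_le_card (Finset.union_subset Finset.inter_subset_right
          Finset.inter_subset_right)
      have h4 := hA i hi
      have h5 : 100 * ((X ∩ A i).card + (Y ∩ A i).card) ≤ 101 * L := by omega
      have h6 := Nat.mul_le_mul h5 h5
      nlinarith [sq_nonneg (((X ∩ A i).card : ℤ) - (Y ∩ A i).card), four_mul_le_sq_add
        (X ∩ A i).card (Y ∩ A i).card]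
    have h3 : 40000 * (X.card * Y.card) ≤ 30603 * L ^ 2 := by
      calc 40000 * (X.card * Y.card) ≤ 40000 * ∑ i ∈ cl, (X ∩ A i).card * (Y ∩ A i).card := by
            gcongr
        _ = ∑ i ∈ cl, 40000 * ((X ∩ A i).card * (Y ∩ A i).card) := Finset.mul_sum _ _ _
        _ ≤ ∑ i ∈ cl, 10201 * L ^ 2 := Finset.sum_le_sum h2
        _ = cl.card * (10201 * L ^ 2) := by rw [Finset.sum_const, smul_eq_mul]
        _ ≤ 3 * (10201 * L ^ 2) := by gcongr
        _ = _ := by ring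
    have h4 := Nat.mul_le_mul hX hY
    have h5 : 1 ≤ L ^ 2 := Nat.one_le_pow _ _ hL
    nlinarith

/-- one pair of lists, one side -/
private theorem lm_side {X Y Z A B : Finset ℕ} {L : ℕ}
    (hno : ∀ z, z ∈ X → z ∈ Y → z ∉ Z) (hZ : 99 * L ≤ 100 * Z.card)
    (hA : 100 * A.card ≤ 101 * L) (hP : 2 * L < 100 * ((X ∩ Y) ∩ (A \ B)).card) :
    ∃ t, t ∈ X ∧ t ∈ Y ∧ t ∉ B ∧ ∃ z ∈ Z, z ∉ A := by
  by_cases hZA : ∃ z ∈ Z, z ∉ A
  · have hne : ((X ∩ Y) ∩ (A \ B)).Nonempty := by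
      rw [← Finset.card_pos]
      omega
    obtain ⟨t, ht⟩ := hne
    rw [Finset.mem_inter, Finset.mem_inter, Finset.mem_sdiff] at ht
    exact ⟨t, ht.1.1, ht.1.2, ht.2.2, hZA⟩
  · push Not at hZA
    exfalso
    have hdis : Disjoint Z ((X ∩ Y) ∩ (A \ B)) := by
      rw [Finset.disjoint_left]
      intro z hz hz'
      rw [Finset.mem_inter, Finset.mem_inter] at hz'
      exact hno z hz'.1.1 hz'.1.2 hz
    have h1 : Z.card + ((X ∩ Y) ∩ (A \ B)).card ≤ A.card := by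
      rw [← Finset.card_union_of_disjoint hdis]
      refine Finset.card_le_card (Finset.union_subset (fun z hz => hZA z hz) ?_)
      intro z hz
      rw [Finset.mem_inter, Finset.mem_sdiff] at hz
      exact hz.2.1
    omega

/-- a set contained in `A ∪ B` -/
private theorem lm_split {W A B : Finset ℕ} (h : W ⊆ A ∪ B) :
    W.card ≤ (W ∩ (A \ B)).card + (W ∩ (B \ A)).card + (W ∩ (A ∩ B)).card := by
  have h1 : W ⊆ (W ∩ (A \ B)) ∪ (W ∩ (B \ A)) ∪ (W ∩ (A ∩ B)) := by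
    intro z hz
    have := h hz
    simp only [Finset.mem_union, Finset.mem_inter, Finset.mem_sdiff] at this ⊢
    tauto
  exact (Finset.card_le_card h1).trans ((Finset.card_union_le _ _).trans
    (Nat.add_le_add_right (Finset.card_union_le _ _) _))

/-- three lists, two sets -/
private theorem lm_three {X Y Z A B : Finset ℕ} {L : ℕ} (hL : 1 ≤ L)
    (hno : ∀ z, z ∈ X → z ∈ Y → z ∉ Z)
    (hX : 99 * L ≤ 100 * X.card) (hY : 99 * L ≤ 100 * Y.card) (hZ : 99 * L ≤ 100 * Z.card)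
    (hA : 100 * A.card ≤ 101 * L) (hB : 100 * B.card ≤ 101 * L)
    (hXA : X ⊆ A ∪ B) (hYA : Y ⊆ A ∪ B) (hZA : Z ⊆ A ∪ B) :
    2 * L < 100 * ((X ∩ Y) ∩ (A \ B)).card ∨ 2 * L < 100 * ((X ∩ Y) ∩ (B \ A)).card ∨
    2 * L < 100 * ((X ∩ Z) ∩ (A \ B)).card ∨ 2 * L < 100 * ((X ∩ Z) ∩ (B \ A)).card ∨
    2 * L < 100 * ((Y ∩ Z) ∩ (A \ B)).card ∨ 2 * L < 100 * ((Y ∩ Z) ∩ (B \ A)).card := by
  by_contra hcon
  push Not at hcon
  obtain ⟨c1, c2, c3, c4, c5, c6⟩ := hcon
  have h1 := Finset.card_union_add_card_inter X Y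
  have h2 := Finset.card_union_add_card_inter (X ∪ Y) Z
  have h3 : ((X ∪ Y) ∩ Z).card = (X ∩ Z).card + (Y ∩ Z).card := by
    rw [Finset.union_inter_distrib_right, Finset.card_union_of_disjoint]
    rw [Finset.disjoint_left]
    intro z hz hz'
    rw [Finset.mem_inter] at hz hz'
    exact hno z hz.1 hz'.1 hz.2
  have h4 : (X ∪ Y ∪ Z).card ≤ (A ∪ B).card :=
    Finset.card_le_card (Finset.union_subset (Finset.union_subset hXA hYA) hZA)
  have h5 := Finset.card_union_add_card_inter A B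
  have s1 := lm_split (W := X ∩ Y) (fun z hz => hXA (Finset.mem_inter.1 hz).1)
  have s2 := lm_split (W := X ∩ Z) (fun z hz => hXA (Finset.mem_inter.1 hz).1)
  have s3 := lm_split (W := Y ∩ Z) (fun z hz => hYA (Finset.mem_inter.1 hz).1)
  have h6 : ((X ∩ Y) ∩ (A ∩ B)).card + ((X ∩ Z) ∩ (A ∩ B)).card + ((Y ∩ Z) ∩ (A ∩ B)).card ≤
      (A ∩ B).card := by
    rw [← Finset.card_union_of_disjoint, ← Finset.card_union_of_disjoint]
    · refine Finset.card_le_card ?_
      intro z hz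
      simp only [Finset.mem_union, Finset.mem_inter] at hz ⊢
      tauto
    · rw [Finset.disjoint_left]
      intro z hz hz'
      simp only [Finset.mem_union, Finset.mem_inter] at hz hz'
      rcases hz with hz | hz
      · exact hno z hz.1.1 hz'.1.1 hz'.1.2
      · exact hno z hz.1.1 hz'.1.1 hz'.1.2
    · rw [Finset.disjoint_left]
      intro z hz hz'
      simp only [Finset.mem_inter] at hz hz'
      exact hno z hz.1.1 hz.1.2 hz'.1.2
  omega

/-- two sets of colours -/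
private theorem lm_pairs {ι : Type} [DecidableEq ι] (A : ι → Finset ℕ) (cl : Finset ι) (L : ℕ)
    (hA : ∀ i ∈ cl, 100 * (A i).card ≤ 101 * L) (hcl : cl.card ≤ 2) :
    ∃ P Q : Finset ℕ, 100 * P.card ≤ 101 * L ∧ 100 * Q.card ≤ 101 * L ∧
      (∀ z, z ∈ P ∪ Q → ∃ i ∈ cl, z ∈ A i) ∧ ∀ i ∈ cl, A i = P ∨ A i = Q := by
  have h : cl.card = 0 ∨ cl.card = 1 ∨ cl.card = 2 := by omega
  rcases h with h | h | h
  · rw [Finset.card_eq_zero] at h
    subst h
    exact ⟨∅, ∅, by simp, by simp, by simp, by simp⟩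
  · obtain ⟨i, rfl⟩ := Finset.card_eq_one.1 h
    refine ⟨A i, A i, hA i (by simp), hA i (by simp), ?_, ?_⟩
    · intro z hz
      exact ⟨i, by simp, by simpa using hz⟩
    · intro j hj
      rw [Finset.mem_singleton] at hj
      rw [hj]
      exact Or.inl rfl
  · obtain ⟨i, j, hij, rfl⟩ := Finset.card_eq_two.1 h
    refine ⟨A i, A j, hA i (by simp), hA j (by simp), ?_, ?_⟩
    · intro z hz
      rcases Finset.mem_union.1 hz with hz | hz
      · exact ⟨i, by simp, hz⟩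
      · exact ⟨j, by simp, hz⟩
    · intro l hl
      rw [Finset.mem_insert, Finset.mem_singleton] at hl
      rcases hl with rfl | rfl
      · exact Or.inl rfl
      · exact Or.inr rfl

private theorem lm_tri {ι : Type} [DecidableEq ι] (X Y Z : Finset ℕ)
    (A : ι → Finset ℕ) (cl : Finset ι) (L : ℕ) (hL : 1 ≤ L)
    (hX : 99 * L ≤ 100 * X.card) (hY : 99 * L ≤ 100 * Y.card) (hZ : 99 * L ≤ 100 * Z.card)
    (hA : ∀ i ∈ cl, 100 * (A i).card ≤ 101 * L) (hcl : cl.card ≤ 2) :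
    ∃ x ∈ X, ∃ y ∈ Y, ∃ z ∈ Z, ∀ i ∈ cl, (x = y ∨ ¬ (x ∈ A i ∧ y ∈ A i)) ∧
      (x = z ∨ ¬ (x ∈ A i ∧ z ∈ A i)) ∧ (y = z ∨ ¬ (y ∈ A i ∧ z ∈ A i)) := by
  by_cases hcom : ∃ x, x ∈ X ∧ x ∈ Y ∧ x ∈ Z
  · obtain ⟨x, h1, h2, h3⟩ := hcom
    exact ⟨x, h1, x, h2, x, h3, fun i _ => ⟨Or.inl rfl, Or.inl rfl, Or.inl rfl⟩⟩
  push Not at hcom
  by_cases hz : ∃ z ∈ Z, ∀ i ∈ cl, z ∉ A i
  · obtain ⟨z, hz, hz'⟩ := hz
    obtain ⟨x, hx, y, hy, h⟩ := lm_two X Y A cl L hL hX hY hA (by omega)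
    exact ⟨x, hx, y, hy, z, hz, fun i hi => ⟨h i hi, Or.inr fun h => hz' i hi h.2,
      Or.inr fun h => hz' i hi h.2⟩⟩
  by_cases hy : ∃ y ∈ Y, ∀ i ∈ cl, y ∉ A i
  · obtain ⟨y, hy, hy'⟩ := hy
    obtain ⟨x, hx, z, hz, h⟩ := lm_two X Z A cl L hL hX hZ hA (by omega)
    exact ⟨x, hx, y, hy, z, hz, fun i hi => ⟨Or.inr fun h => hy' i hi h.2, h i hi,
      Or.inr fun h => hy' i hi h.1⟩⟩
  by_cases hx : ∃ x ∈ X, ∀ i ∈ cl, x ∉ A i
  · obtain ⟨x, hx, hx'⟩ := hx
    obtain ⟨y, hy, z, hz, h⟩ := lm_two Y Z A cl L hL hY hZ hA (by omega)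
    exact ⟨x, hx, y, hy, z, hz, fun i hi => ⟨Or.inr fun h => hx' i hi h.1,
      Or.inr fun h => hx' i hi h.1, h i hi⟩⟩
  push Not at hx hy hz
  obtain ⟨P, Q, hP, hQ, -, hPQ⟩ := lm_pairs A cl L hA hcl
  have hsub : ∀ W : Finset ℕ, (∀ w ∈ W, ∃ i ∈ cl, w ∈ A i) → W ⊆ P ∪ Q := by
    intro W hW w hw
    obtain ⟨i, hi, hwi⟩ := hW w hw
    rcases hPQ i hi with h | h
    · exact Finset.mem_union_left _ (h ▸ hwi)
    · exact Finset.mem_union_right _ (h ▸ hwi)
  -- from a pair of equal colours and a third one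
  have fin : ∀ (P Q : Finset ℕ), (∀ i ∈ cl, A i = P ∨ A i = Q) → ∀ t w, t ∉ Q → w ∉ P →
      ∀ i ∈ cl, ¬ (t ∈ A i ∧ w ∈ A i) := by
    intro P Q hPQ t w ht hw i hi h
    rcases hPQ i hi with h' | h'
    · rw [h'] at h; exact hw h.2
    · rw [h'] at h; exact ht h.1
  have hQP : ∀ i ∈ cl, A i = Q ∨ A i = P := fun i hi => (hPQ i hi).symm
  rcases lm_three hL hcom hX hY hZ hP hQ (hsub X hx) (hsub Y hy) (hsub Z hz) with
    h | h | h | h | h | h
  · obtain ⟨t, t1, t2, t3, w, w1, w2⟩ := lm_side hcom hZ hP h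
    exact ⟨t, t1, t, t2, w, w1, fun i hi => ⟨Or.inl rfl, Or.inr (fin P Q hPQ t w t3 w2 i hi),
      Or.inr (fin P Q hPQ t w t3 w2 i hi)⟩⟩
  · obtain ⟨t, t1, t2, t3, w, w1, w2⟩ := lm_side hcom hZ hQ h
    exact ⟨t, t1, t, t2, w, w1, fun i hi => ⟨Or.inl rfl, Or.inr (fin Q P hQP t w t3 w2 i hi),
      Or.inr (fin Q P hQP t w t3 w2 i hi)⟩⟩
  · obtain ⟨t, t1, t2, t3, w, w1, w2⟩ := lm_side (fun z h1 h2 h3 => hcom z h1 h3 h2) hY hP h
    exact ⟨t, t1, w, w1, t, t2, fun i hi => ⟨Or.inr (fin P Q hPQ t w t3 w2 i hi), Or.inl rfl,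
      Or.inr fun h => fin P Q hPQ t w t3 w2 i hi ⟨h.2, h.1⟩⟩⟩
  · obtain ⟨t, t1, t2, t3, w, w1, w2⟩ := lm_side (fun z h1 h2 h3 => hcom z h1 h3 h2) hY hQ h
    exact ⟨t, t1, w, w1, t, t2, fun i hi => ⟨Or.inr (fin Q P hQP t w t3 w2 i hi), Or.inl rfl,
      Or.inr fun h => fin Q P hQP t w t3 w2 i hi ⟨h.2, h.1⟩⟩⟩
  · obtain ⟨t, t1, t2, t3, w, w1, w2⟩ := lm_side (fun z h1 h2 h3 => hcom z h3 h1 h2) hX hP h
    exact ⟨w, w1, t, t1, t, t2, fun i hi => ⟨Or.inr fun h => fin P Q hPQ t w t3 w2 i hi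
      ⟨h.2, h.1⟩, Or.inr fun h => fin P Q hPQ t w t3 w2 i hi ⟨h.2, h.1⟩, Or.inl rfl⟩⟩
  · obtain ⟨t, t1, t2, t3, w, w1, w2⟩ := lm_side (fun z h1 h2 h3 => hcom z h3 h1 h2) hX hQ h
    exact ⟨w, w1, t, t1, t, t2, fun i hi => ⟨Or.inr fun h => fin Q P hQP t w t3 w2 i hi
      ⟨h.2, h.1⟩, Or.inr fun h => fin Q P hQP t w t3 w2 i hi ⟨h.2, h.1⟩, Or.inl rfl⟩⟩

theorem lm {α ι : Type} [DecidableEq α] [DecidableEq ι] (C : Finset α) (Lst : α → Finset ℕ)
    (A : ι → Finset ℕ) (cl : Finset ι) (L : ℕ) (hL : 1 ≤ L)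
    (hl : ∀ u ∈ C, 99 * L ≤ 100 * (Lst u).card) (hA : ∀ i ∈ cl, 100 * (A i).card ≤ 101 * L)
    (hC : (C.card = 2 ∧ cl.card ≤ 3) ∨ (C.card = 3 ∧ cl.card ≤ 2)) :
    ∃ c : α → ℕ, (∀ u ∈ C, c u ∈ Lst u) ∧
      ∀ i ∈ cl, ((C.image c).filter (fun z => z ∈ A i)).card ≤ 1 := by
  rcases hC with ⟨hC, hcl⟩ | ⟨hC, hcl⟩
  · obtain ⟨u, v, huv, rfl⟩ := Finset.card_eq_two.1 hC
    obtain ⟨x, hx, y, hy, h⟩ := lm_two (Lst u) (Lst v) A cl L hL (hl u (by simp))
      (hl v (by simp)) hA hcl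
    refine ⟨fun a => if a = u then x else y, ?_, ?_⟩
    · intro a ha
      rw [Finset.mem_insert, Finset.mem_singleton] at ha
      beta_reduce
      rcases ha with rfl | rfl
      · rw [if_pos rfl]; exact hx
      · rw [if_neg huv.symm]; exact hy
    · intro i hi
      rw [Finset.card_le_one]
      have key : ∀ a ∈ (({u, v} : Finset α).image (fun a => if a = u then x else y)).filter
          (fun z => z ∈ A i), (a = x ∨ a = y) ∧ a ∈ A i := by
        intro a ha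
        rw [Finset.mem_filter, Finset.mem_image] at ha
        obtain ⟨⟨b, -, hb⟩, ha'⟩ := ha
        refine ⟨?_, ha'⟩
        split_ifs at hb
        · exact Or.inl hb.symm
        · exact Or.inr hb.symm
      intro a ha b hb
      obtain ⟨ha1, ha2⟩ := key a ha
      obtain ⟨hb1, hb2⟩ := key b hb
      have := h i hi
      rcases ha1 with rfl | rfl <;> rcases hb1 with rfl | rfl <;> tauto
  · obtain ⟨u, v, w, huv, huw, hvw, rfl⟩ := Finset.card_eq_three.1 hC
    obtain ⟨x, hx, y, hy, z, hz, h⟩ := lm_tri (Lst u) (Lst v) (Lst w) A cl L hL (hl u (by simp))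
      (hl v (by simp)) (hl w (by simp)) hA hcl
    refine ⟨fun a => if a = u then x else if a = v then y else z, ?_, ?_⟩
    · intro a ha
      rw [Finset.mem_insert, Finset.mem_insert, Finset.mem_singleton] at ha
      beta_reduce
      rcases ha with rfl | rfl | rfl
      · rw [if_pos rfl]; exact hx
      · rw [if_neg huv.symm, if_pos rfl]; exact hy
      · rw [if_neg huw.symm, if_neg hvw.symm]; exact hz
    · intro i hi
      rw [Finset.card_le_one]
      have key : ∀ a ∈ (({u, v, w} : Finset α).image (fun a => if a = u then x else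
          if a = v then y else z)).filter (fun z => z ∈ A i), (a = x ∨ a = y ∨ a = z) ∧
          a ∈ A i := by
        intro a ha
        rw [Finset.mem_filter, Finset.mem_image] at ha
        obtain ⟨⟨b, -, hb⟩, ha'⟩ := ha
        refine ⟨?_, ha'⟩
        split_ifs at hb
        · exact Or.inl hb.symm
        · exact Or.inr (Or.inl hb.symm)
        · exact Or.inr (Or.inr hb.symm)
      intro a ha b hb
      obtain ⟨ha1, ha2⟩ := key a ha
      obtain ⟨hb1, hb2⟩ := key b hb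
      obtain ⟨h1, h2, h3⟩ := h i hi
      rcases ha1 with rfl | rfl | rfl <;> rcases hb1 with rfl | rfl | rfl <;> tauto

end Pool.Agent.Helper33.RG
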