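import Pool.Agent.Helper33.RG.CDefs
import Pool.Agent.Helper33.RG.LM

/-!
# Block RG-COLOR: colouring the hubs (MP_1f20e3_co)

PROOF of `color`. `P i = M i \ S`, `F` = union of the sets `Avoid Lst (P i) ε₂ ε₅` with at most `K7` elements, `|F| ≤ 350 K7`. `|Aset Lst (P i) ε₅| ≤ 1.01 L`: `∑_z dens z = L |P i|`, so `|Aset| (1 - ε₅) |P i| ≤ L |P i|`.
Colour the classes `C ∈ 𝒞` and the single vertices `u ∈ S \ ⋃ 𝒞` one after the other, every time with colours of the lists outside of `F` and outside of all the colours used before (at most `350 K7 + |S| ≤ L/100` forbidden colours); in the class `C` by `lm`, applied to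
`Lst u \ (F ∪ used)`, `A i = Aset Lst (P i) ε₅`, `cl C`. (Formally: `seq_color` with `𝒟 = 𝒞 ∪ {{u} : u ∈ S \ ⋃ 𝒞}`, `n = 350 K7 + |S|`, `Pr D c`: for `D ∈ 𝒞`, `i ∈ cl D`: at most one colour of `c(D)` is in `Aset .. (P i)`.) The result `φ`: colours in different blocks are different; in a class `C` at most one colour of `φ(C)` is in `Aset Lst (P i) ε₅` for `i ∈ cl C`. `φ` is
proper on `S`: adjacent `u, v` are in different blocks by `indep`. `Blk`: for `z ∈ Blk i` let `D` be the block with `z ∈ φ(D)`, `C' = {u ∈ S : φ u = z} ⊆ D`. If `D = {u}` is a single vertex then `u ∈ Vf i` by `nonfull`. So these blocks contribute at most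
`|Vf i \ ⋃ 𝒞|` colours. If `D = C ∈ 𝒞`: `C'` meets `Vf i` or (by `block`) `Hf i`. If `i ∈ cl C`: at most one colour of `φ(C)` is in `Aset`, and then `C` meets `Vf i ∪ Hf i`: contribution `≤ bb`. If `i ∉ cl C`: the sets `C'` for different `z` are disjoint and meet
`Vf i` or `Hf i`, so there are at most `|C ∩ Vf i| + |C ∩ Hf i|` of them. So `|Blk i| + |P i| ≤ L` by `count`.
-/

set_option autoImplicit false

namespace Pool.Agent.Helper33.RG

open Classical Finset

variable {V : Type} [Fintype V]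

/-- Colour the blocks one after the other. PROOF: induction on `𝒟`: `insert D 𝒟'`: colours for `𝒟'` are given; apply `hex` with `F' = F ∪` (the colours of `𝒟'`), at most `F.card + ∑ |D'| ≤ n` elements; combine
(`φ` on `D` is the new one; `Pr` depends only on the values on the block). -/
theorem seq_color {V : Type} (𝒟 : Finset (Finset V)) (S : Finset V) (Lst : V → Finset ℕ) (F : Finset ℕ)
    (n : ℕ) (Pr : Finset V → (V → ℕ) → Prop)
    (hPr : ∀ D c c', (∀ u ∈ D, c u = c' u) → Pr D c → Pr D c')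
    (hsub : ∀ D ∈ 𝒟, D ⊆ S) (hdisj : ∀ D ∈ 𝒟, ∀ D' ∈ 𝒟, D ≠ D' → Disjoint D D')
    (hn : F.card + S.card ≤ n)
    (hex : ∀ D ∈ 𝒟, ∀ F' : Finset ℕ, F'.card ≤ n → ∃ c : V → ℕ, (∀ u ∈ D, c u ∈ Lst u \ F') ∧ Pr D c) :
    ∃ φ : V → ℕ, (∀ D ∈ 𝒟, ∀ u ∈ D, φ u ∈ Lst u \ F) ∧ (∀ D ∈ 𝒟, Pr D φ) ∧
      ∀ D ∈ 𝒟, ∀ D' ∈ 𝒟, D ≠ D' → ∀ u ∈ D, ∀ v ∈ D', φ u ≠ φ v := by
  classical
  induction 𝒟 using Finset.induction_on with
  | empty =>
    refine ⟨fun _ => 0, ?_, ?_, ?_⟩
    · intro D hD
      exact absurd hD (Finset.notMem_empty _)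
    · intro D hD
      exact absurd hD (Finset.notMem_empty _)
    · intro D hD
      exact absurd hD (Finset.notMem_empty _)
  | insert D 𝒟' hD ih =>
    obtain ⟨φ, h1, h2, h3⟩ := ih (fun E hE => hsub E (Finset.mem_insert_of_mem hE))
      (fun E hE E' hE' => hdisj E (Finset.mem_insert_of_mem hE) E' (Finset.mem_insert_of_mem hE'))
      (fun E hE => hex E (Finset.mem_insert_of_mem hE))
    have hDd : ∀ E ∈ 𝒟', Disjoint E D := fun E hE =>
      hdisj E (Finset.mem_insert_of_mem hE) D (Finset.mem_insert_self _ _)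
        (fun h => hD (h ▸ hE))
    have hU : (𝒟'.biUnion fun E => E) ⊆ S := by
      intro u hu
      obtain ⟨E, hE, huE⟩ := Finset.mem_biUnion.1 hu
      exact hsub E (Finset.mem_insert_of_mem hE) huE
    have hcard : (F ∪ (𝒟'.biUnion fun E => E).image φ).card ≤ n := by
      refine (Finset.card_union_le _ _).trans ?_
      have h4 : ((𝒟'.biUnion fun E => E).image φ).card ≤ S.card :=
        Finset.card_image_le.trans (Finset.card_le_card hU)
      omega
    obtain ⟨c, hc, hcP⟩ := hex D (Finset.mem_insert_self _ _) _ hcard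
    have hin : ∀ u ∈ D, (if u ∈ D then c u else φ u) = c u := fun u hu => if_pos hu
    have hout : ∀ E ∈ 𝒟', ∀ u ∈ E, (if u ∈ D then c u else φ u) = φ u := by
      intro E hE u hu
      exact if_neg (Finset.disjoint_left.1 (hDd E hE) hu)
    have hne : ∀ E ∈ 𝒟', ∀ u ∈ E, ∀ v ∈ D, φ u ≠ c v := by
      intro E hE u hu v hv h4
      have h5 := (Finset.mem_sdiff.1 (hc v hv)).2
      apply h5
      rw [← h4]
      exact Finset.mem_union_right _ (Finset.mem_image_of_mem _
        (Finset.mem_biUnion.2 ⟨E, hE, hu⟩))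
    refine ⟨fun u => if u ∈ D then c u else φ u, ?_, ?_, ?_⟩
    · intro E hE u hu
      rcases Finset.mem_insert.1 hE with rfl | hE
      · change (if u ∈ E then c u else φ u) ∈ _
        rw [hin u hu]
        have h4 := Finset.mem_sdiff.1 (hc u hu)
        exact Finset.mem_sdiff.2 ⟨h4.1, fun h5 => h4.2 (Finset.mem_union_left _ h5)⟩
      · change (if u ∈ D then c u else φ u) ∈ _
        rw [hout E hE u hu]
        exact h1 E hE u hu
    · intro E hE
      rcases Finset.mem_insert.1 hE with rfl | hE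
      · exact hPr _ _ _ (fun u hu => (hin u hu).symm) hcP
      · exact hPr _ _ _ (fun u hu => (hout E hE u hu).symm) (h2 E hE)
    · intro E hE E' hE' hEE u hu v hv
      change (if u ∈ D then c u else φ u) ≠ (if v ∈ D then c v else φ v)
      rcases Finset.mem_insert.1 hE with hD1 | hE1
      · rcases Finset.mem_insert.1 hE' with hD2 | hE2
        · exact absurd (hD1.trans hD2.symm) hEE
        · rw [hD1] at hu
          rw [hin u hu, hout E' hE2 v hv]
          exact (hne E' hE2 v hv u hu).symm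
      · rcases Finset.mem_insert.1 hE' with hD2 | hE2
        · rw [hD2] at hv
          rw [hin v hv, hout E hE1 u hu]
          exact hne E hE1 u hu v hv
        · rw [hout E hE1 u hu, hout E' hE2 v hv]
          exact h3 E hE1 E' hE2 hEE u hu v hv

omit [Fintype V] in
/-- The number of colours in almost all lists. -/
theorem card_Aset {L : ℕ} {Lst : V → Finset ℕ} (hlst : ∀ v, (Lst v).card = L) {P : Finset V}
    (hP : 1 ≤ P.card) {ε₅ : ℝ} (hε₅' : ε₅ ≤ 1 / 200) :
    100 * (Aset Lst P ε₅).card ≤ 101 * L := by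
  have h1 : ∑ z ∈ P.biUnion Lst, dens Lst P z = P.card * L := by
    have h2 : ∀ z, dens Lst P z = ∑ v ∈ P, if z ∈ Lst v then 1 else 0 := by
      intro z
      rw [dens, Finset.card_filter]
    simp only [h2]
    rw [Finset.sum_comm]
    have h3 : ∀ v ∈ P, (∑ z ∈ P.biUnion Lst, if z ∈ Lst v then 1 else 0) = L := by
      intro v hv
      rw [← Finset.card_filter]
      have h4 : (P.biUnion Lst).filter (fun z => z ∈ Lst v) = Lst v := by
        ext z
        rw [Finset.mem_filter, Finset.mem_biUnion]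
        exact ⟨fun h => h.2, fun h => ⟨⟨v, hv, h⟩, h⟩⟩
      rw [h4, hlst]
    rw [Finset.sum_congr rfl h3, Finset.sum_const, smul_eq_mul]
  have h2 : ((Aset Lst P ε₅).card : ℝ) * ((1 - ε₅) * (P.card : ℝ)) ≤ P.card * L := by
    have h3 : ∑ z ∈ Aset Lst P ε₅, ((1 - ε₅) * (P.card : ℝ)) ≤
        ∑ z ∈ Aset Lst P ε₅, (dens Lst P z : ℝ) :=
      Finset.sum_le_sum fun z hz => (Finset.mem_filter.1 hz).2
    rw [Finset.sum_const, nsmul_eq_mul] at h3
    refine h3.trans ?_
    have h4 : ∑ z ∈ Aset Lst P ε₅, (dens Lst P z : ℝ) ≤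
        ∑ z ∈ P.biUnion Lst, (dens Lst P z : ℝ) :=
      Finset.sum_le_sum_of_subset_of_nonneg (Finset.filter_subset _ _)
        (fun z _ _ => Nat.cast_nonneg _)
    refine h4.trans (le_of_eq ?_)
    rw [← Nat.cast_sum, h1]
    push_cast
    ring
  have hP' : (0 : ℝ) < P.card := by exact_mod_cast hP
  have h3 : ((Aset Lst P ε₅).card : ℝ) * (1 - ε₅) ≤ L := by
    have h4 : ((Aset Lst P ε₅).card : ℝ) * (1 - ε₅) * P.card ≤ L * P.card := by
      calc _ = ((Aset Lst P ε₅).card : ℝ) * ((1 - ε₅) * (P.card : ℝ)) := by ring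
        _ ≤ _ := h2
        _ = _ := by ring
    exact le_of_mul_le_mul_right h4 hP'
  have h4 : ((Aset Lst P ε₅).card : ℝ) * (199 / 200) ≤ L := by
    refine le_trans (mul_le_mul_of_nonneg_left ?_ (Nat.cast_nonneg _)) h3
    linarith
  have h5 : (100 : ℝ) * (Aset Lst P ε₅).card ≤ 101 * L := by
    have h6 : (0 : ℝ) ≤ (Aset Lst P ε₅).card := Nat.cast_nonneg _
    have h7 : (0 : ℝ) ≤ L := Nat.cast_nonneg _
    linarith
  exact_mod_cast h5

theorem color {G : SimpleGraph V} {L : ℕ} {I : Type} [Fintype I] {M : I → Finset V}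
    {S : Finset V} {Vf Hf : I → Finset V} {𝒞 : Finset (Finset V)} {cl : Finset V → Finset I}
    {θ : ℝ} (hub : HubData G L M S Vf Hf 𝒞 cl θ) (hI : Fintype.card I ≤ 350)
    {Lst : V → Finset ℕ} (hlst : ∀ v, (Lst v).card = L) (hP : ∀ i, 1 ≤ (M i \ S).card)
    {K7 : ℕ} {ε₂ ε₅ : ℝ} (hε₅ : 0 < ε₅) (hε₅' : ε₅ ≤ 1 / 200)
    (hL : 100 * (350 * K7 + S.card) ≤ L) (hL1 : 1 ≤ L) :
    ∃ φ : V → ℕ, (∀ u ∈ S, φ u ∈ Lst u) ∧ (∀ u ∈ S, ∀ v ∈ S, G.Adj u v → φ u ≠ φ v) ∧
      (∀ i, K7 < (Avoid Lst (M i \ S) ε₂ ε₅).card ∨ ∀ u ∈ S, φ u ∉ Avoid Lst (M i \ S) ε₂ ε₅) ∧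
      ∀ i, (M i \ S).card + (Blk G Lst S φ (M i \ S) ε₅ θ).card ≤ L := by
  set P : I → Finset V := fun i => M i \ S with hPdef
  -- the forbidden colours
  set F : Finset ℕ := (univ.filter fun i : I => (Avoid Lst (P i) ε₂ ε₅).card ≤ K7).biUnion
    fun i => Avoid Lst (P i) ε₂ ε₅ with hF
  have hFc : F.card ≤ 350 * K7 := by
    have h1 : F.card ≤ (univ.filter fun i : I => (Avoid Lst (P i) ε₂ ε₅).card ≤ K7).card * K7 :=
      Finset.card_biUnion_le_card_mul _ _ _ fun i hi => (Finset.mem_filter.1 hi).2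
    refine h1.trans (Nat.mul_le_mul_right _ ?_)
    refine (Finset.card_le_univ _).trans hI
  set U : Finset V := 𝒞.biUnion id with hU
  have hUm : ∀ C ∈ 𝒞, ∀ u ∈ C, u ∈ U := fun C hC u hu => Finset.mem_biUnion.2 ⟨C, hC, hu⟩
  set 𝒟 : Finset (Finset V) := 𝒞 ∪ (S \ U).image (fun u => {u}) with h𝒟
  have hmem : ∀ D ∈ 𝒟, D ∈ 𝒞 ∨ ∃ u ∈ S \ U, D = {u} := by
    intro D hD
    rcases Finset.mem_union.1 hD with h1 | h1
    · exact Or.inl h1
    · obtain ⟨u, hu, h2⟩ := Finset.mem_image.1 h1
      exact Or.inr ⟨u, hu, h2.symm⟩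
  have hblock : ∀ u ∈ S, ∃ D ∈ 𝒟, u ∈ D := by
    intro u hu
    by_cases h1 : u ∈ U
    · obtain ⟨C, hC, huC⟩ := Finset.mem_biUnion.1 h1
      exact ⟨C, Finset.mem_union_left _ hC, huC⟩
    · exact ⟨{u}, Finset.mem_union_right _ (Finset.mem_image_of_mem _
        (Finset.mem_sdiff.2 ⟨hu, h1⟩)), Finset.mem_singleton_self u⟩
  obtain ⟨φ, hφ1, hφ2, hφ3⟩ := seq_color 𝒟 S Lst F (350 * K7 + S.card)
    (fun D c => D ∈ 𝒞 → ∀ i ∈ cl D,
      ((D.image c).filter (fun z => z ∈ Aset Lst (P i) ε₅)).card ≤ 1) (by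
      intro D c c' hcc h1 hD i hi
      have h2 : D.image c' = D.image c := Finset.image_congr fun u hu => (hcc u hu).symm
      rw [h2]
      exact h1 hD i hi) (by
      intro D hD
      rcases hmem D hD with h1 | ⟨u, hu, rfl⟩
      · exact hub.sub D h1
      · exact Finset.singleton_subset_iff.2 (Finset.mem_sdiff.1 hu).1) (by
      intro D hD D' hD' hne
      rcases hmem D hD with h1 | ⟨u, hu, rfl⟩
      · rcases hmem D' hD' with h2 | ⟨v, hv, rfl⟩
        · exact hub.disj D h1 D' h2 hne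
        · rw [Finset.disjoint_singleton_right]
          exact fun h3 => (Finset.mem_sdiff.1 hv).2 (hUm D h1 v h3)
      · rcases hmem D' hD' with h2 | ⟨v, hv, rfl⟩
        · rw [Finset.disjoint_singleton_left]
          exact fun h3 => (Finset.mem_sdiff.1 hu).2 (hUm D' h2 u h3)
        · rw [Finset.disjoint_singleton_left, Finset.mem_singleton]
          rintro rfl
          exact hne rfl) (by omega) (by
      intro D hD F' hF'
      have hsz : ∀ u, L ≤ (Lst u \ F').card + F'.card := by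
        intro u
        have h1 := Finset.le_card_sdiff F' (Lst u)
        rw [hlst u] at h1
        omega
      rcases hmem D hD with h1 | ⟨u, hu, rfl⟩
      · obtain ⟨c, hc, hc'⟩ := lm D (fun u => Lst u \ F') (fun i => Aset Lst (P i) ε₅) (cl D) L hL1
          (fun u _ => by
            have h2 := hsz u
            omega)
          (fun i _ => card_Aset hlst (hP i) hε₅') (hub.size D h1)
        refine ⟨c, hc, fun _ i hi => ?_⟩
        exact hc' i hi
      · have h2 : (Lst u \ F').Nonempty := by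
          rw [← Finset.card_pos]
          have h3 := hsz u
          omega
        obtain ⟨z, hz⟩ := h2
        refine ⟨fun _ => z, ?_, ?_⟩
        · intro v hv
          rw [Finset.mem_singleton.1 hv]
          exact hz
        · intro h3
          exact absurd (hUm _ h3 u (Finset.mem_singleton_self u)) (Finset.mem_sdiff.1 hu).2)
  have hsame : ∀ D ∈ 𝒟, ∀ u ∈ D, ∀ v ∈ S, φ v = φ u → v ∈ D := by
    intro D hD u hu v hv h1
    obtain ⟨D', hD', hvD'⟩ := hblock v hv
    by_cases h2 : D' = D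
    · rwa [← h2]
    · exact absurd h1 (hφ3 D' hD' D hD h2 v hvD' u hu)
  refine ⟨φ, ?_, ?_, ?_, ?_⟩
  · intro u hu
    obtain ⟨D, hD, huD⟩ := hblock u hu
    exact (Finset.mem_sdiff.1 (hφ1 D hD u huD)).1
  · intro u hu v hv hadj h1
    obtain ⟨D, hD, huD⟩ := hblock u hu
    have hvD := hsame D hD u huD v hv h1.symm
    rcases hmem D hD with h2 | ⟨w, hw, rfl⟩
    · exact hub.indep D h2 u huD v hvD hadj
    · rw [Finset.mem_singleton.1 huD, Finset.mem_singleton.1 hvD] at hadj
      exact G.loopless.irrefl _ hadj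
  · intro i
    by_cases h1 : (Avoid Lst (P i) ε₂ ε₅).card ≤ K7
    · right
      intro u hu h2
      obtain ⟨D, hD, huD⟩ := hblock u hu
      apply (Finset.mem_sdiff.1 (hφ1 D hD u huD)).2
      exact Finset.mem_biUnion.2 ⟨i, Finset.mem_filter.2 ⟨Finset.mem_univ _, h1⟩, h2⟩
    · left
      exact not_le.1 h1
  · intro i
    have hcount : (Vf i \ U).card + ∑ C ∈ 𝒞, bb Vf Hf cl i C + (M i \ S).card ≤ L := hub.count i
    set B : Finset ℕ := Blk G Lst S φ (P i) ε₅ θ with hB
    -- the part of a class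
    have hclass : ∀ C ∈ 𝒞, ((C.image φ).filter fun z => z ∈ B).card ≤ bb Vf Hf cl i C := by
      intro C hC
      have hC𝒟 : C ∈ 𝒟 := Finset.mem_union_left _ hC
      have hmeet : ∀ z ∈ (C.image φ).filter (fun z => z ∈ B),
          ∃ u ∈ C, φ u = z ∧ (u ∈ Vf i ∨ u ∈ Hf i) := by
        intro z hz
        obtain ⟨h1, h2⟩ := Finset.mem_filter.1 hz
        obtain ⟨u0, hu0, hu0z⟩ := Finset.mem_image.1 h1
        have h3 := (Finset.mem_filter.1 h2).2.2
        have h4 : (S.filter fun u => φ u = z) ⊆ C := by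
          intro v hv
          obtain ⟨hv1, hv2⟩ := Finset.mem_filter.1 hv
          exact hsame C hC𝒟 u0 hu0 v hv1 (hv2.trans hu0z.symm)
        by_cases h5 : Disjoint (S.filter fun u => φ u = z) (Vf i)
        · have h6 := hub.block i C hC _ h4 h5 h3
          rw [Finset.not_disjoint_iff] at h6
          obtain ⟨v, hv, hv'⟩ := h6
          exact ⟨v, h4 hv, (Finset.mem_filter.1 hv).2, Or.inr hv'⟩
        · rw [Finset.not_disjoint_iff] at h5
          obtain ⟨v, hv, hv'⟩ := h5
          exact ⟨v, h4 hv, (Finset.mem_filter.1 hv).2, Or.inl hv'⟩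
      unfold bb
      by_cases hi : i ∈ cl C
      · rw [if_pos hi]
        have h1 : ((C.image φ).filter fun z => z ∈ B).card ≤ 1 := by
          refine le_trans (Finset.card_le_card ?_) (hφ2 C hC𝒟 hC i hi)
          intro z hz
          obtain ⟨h1, h2⟩ := Finset.mem_filter.1 hz
          exact Finset.mem_filter.2 ⟨h1, (Finset.mem_filter.1 h2).2.1⟩
        by_cases h2 : (C ∩ (Vf i ∪ Hf i)).Nonempty
        · rw [if_pos h2]
          exact h1
        · rw [if_neg h2, Nat.le_zero, Finset.card_eq_zero, Finset.eq_empty_iff_forall_notMem]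
          intro z hz
          obtain ⟨u, hu, _, h3⟩ := hmeet z hz
          apply h2
          refine ⟨u, Finset.mem_inter.2 ⟨hu, Finset.mem_union.2 h3⟩⟩
      · rw [if_neg hi]
        have h1 : ((C.image φ).filter fun z => z ∈ B) ⊆
            (C ∩ Vf i).image φ ∪ (C ∩ Hf i).image φ := by
          intro z hz
          obtain ⟨u, hu, huz, h3⟩ := hmeet z hz
          rcases h3 with h3 | h3
          · exact Finset.mem_union_left _ (Finset.mem_image.2
              ⟨u, Finset.mem_inter.2 ⟨hu, h3⟩, huz⟩)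
          · exact Finset.mem_union_right _ (Finset.mem_image.2
              ⟨u, Finset.mem_inter.2 ⟨hu, h3⟩, huz⟩)
        refine (Finset.card_le_card h1).trans ((Finset.card_union_le _ _).trans ?_)
        exact Nat.add_le_add Finset.card_image_le Finset.card_image_le
    have hsub : B ⊆ (Vf i \ U).image φ ∪ 𝒞.biUnion fun C => (C.image φ).filter fun z => z ∈ B := by
      intro z hz
      obtain ⟨h1, h2, h3⟩ := Finset.mem_filter.1 hz
      obtain ⟨u, hu, huz⟩ := Finset.mem_image.1 h1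
      obtain ⟨D, hD, huD⟩ := hblock u hu
      rcases hmem D hD with h4 | ⟨w, hw, rfl⟩
      · apply Finset.mem_union_right
        exact Finset.mem_biUnion.2 ⟨D, h4, Finset.mem_filter.2
          ⟨Finset.mem_image.2 ⟨u, huD, huz⟩, hz⟩⟩
      · have huw : u = w := Finset.mem_singleton.1 huD
        subst huw
        apply Finset.mem_union_left
        refine Finset.mem_image.2 ⟨u, Finset.mem_sdiff.2 ⟨?_, (Finset.mem_sdiff.1 hw).2⟩, huz⟩
        by_contra h4
        have h5 := hub.nonfull i u (Finset.mem_sdiff.2 ⟨hu, h4⟩)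
        have h6 : (S.filter fun v => φ v = z) = {u} := by
          ext v
          rw [Finset.mem_filter, Finset.mem_singleton]
          constructor
          · rintro ⟨hv1, hv2⟩
            exact Finset.mem_singleton.1 (hsame _ hD u huD v hv1 (hv2.trans huz.symm))
          · rintro rfl
            exact ⟨hu, huz⟩
        rw [h6] at h3
        exact absurd h3 (not_le.2 h5)
    have hBc : B.card ≤ (Vf i \ U).card + ∑ C ∈ 𝒞, bb Vf Hf cl i C := by
      refine (Finset.card_le_card hsub).trans ((Finset.card_union_le _ _).trans ?_)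
      refine Nat.add_le_add Finset.card_image_le ?_
      exact Finset.card_biUnion_le.trans (Finset.sum_le_sum hclass)
    change (M i \ S).card + B.card ≤ L
    omega

end Pool.Agent.Helper33.RG
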