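import Mathlib

/-!
# Block RG-HALL: two cases of Hall's theorem, and matchings (MP_1f20e3_co)

Hall: `Finset.all_card_le_biUnion_card_iff_exists_injective` (for the type `{v // v ∈ R}`).
`hall1`: a set `R' ⊆ R` with `|R'| ≤ s`: one `A v` is enough. `|R'| > s`: every `z ∈ g` is in some `A v`, `v ∈ R'` (`h2`), so the union has `≥ |g| ≥ |R|` elements.
`hall2`: `|R'| ≤ s` as before. Let `|R'| > s` and let the union `W` of the `A v`, `v ∈ R'` have `< |R'|` elements. Count pairs `(v,z)`, `v ∈ R'`, `z ∈ A v`: with `g' = |W ∩ g| ≤ |g|`: `|R'| Lb ≤ Y + g' |R'| + (|W| - g') r ≤ Y + g' (|R'| - r) + |R'| r ≤ Y + |g| (|R'| - r) + |R'| r` (`|R'| > s ≥ r`). With `D' = |R| - |g| ≥ D ≥ 1` and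
`|R'| ≤ |R| ≤ Lb`: `|R'| (Lb - |g|) ≤ Y + (|R'| - |g|) r`, so `|R'| D' ≤ Y + D' r` (in ℤ), `D' (|R'| - r) ≤ Y ≤ D (s - r) < D' (|R'| - r)`: contradiction.
`match_or_cover`: take a matching `N ⊆ E` of maximal size (`fst`, `snd` injective on `N`); if `|N| ≤ n` its first and second coordinates are `Y`, `Q`; otherwise take a subset with `n + 1` elements.
`choose_matchings`: induction on the finset of indices: the colours used before are at most `∑ D i`, every colour kills at most one element of the matching `N₀ i`.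
-/

set_option autoImplicit false

namespace Pool.Agent.Helper33.RG

open Classical Finset

private lemma hall67 {V : Type} (R : Finset V) (A : V → Finset ℕ)
    (h : ∀ R' ⊆ R, R'.Nonempty → R'.card ≤ (R'.biUnion A).card) :
    ∃ f : V → ℕ, (∀ v ∈ R, f v ∈ A v) ∧ Set.InjOn f R := by
  obtain ⟨f, hf, hfA⟩ := (Finset.all_card_le_biUnion_card_iff_exists_injective
    (fun v : {v // v ∈ R} => A v.1)).1 (by
      intro s
      rcases s.eq_empty_or_nonempty with rfl | hs
      · simp
      have h1 : s.image Subtype.val ⊆ R := by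
        intro v hv
        obtain ⟨w, _, rfl⟩ := mem_image.1 hv
        exact w.2
      have h2 := h _ h1 (hs.image _)
      rw [card_image_of_injective _ Subtype.val_injective, image_biUnion] at h2
      exact h2)
  refine ⟨fun v => if hv : v ∈ R then f ⟨v, hv⟩ else 0, fun v hv => ?_, fun v hv w hw hvw => ?_⟩
  · simp only [dif_pos hv]
    exact hfA ⟨v, hv⟩
  · rw [mem_coe] at hv hw
    simp only [dif_pos hv, dif_pos hw] at hvw
    exact congrArg Subtype.val (hf hvw)

private lemma double67 {V : Type} (R : Finset V) (A : V → Finset ℕ) (W : Finset ℕ)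
    (hW : ∀ v ∈ R, A v ⊆ W) :
    ∑ v ∈ R, (A v).card = ∑ z ∈ W, (R.filter fun v => z ∈ A v).card := by
  have h1 : ∀ v ∈ R, (A v).card = ∑ z ∈ W, if z ∈ A v then 1 else 0 := by
    intro v hv
    rw [← card_filter]
    congr 1
    ext z
    rw [mem_filter]
    exact ⟨fun h => ⟨hW v hv h, h⟩, fun h => h.2⟩
  rw [sum_congr rfl h1, sum_comm]
  refine sum_congr rfl fun z _ => ?_
  rw [card_filter]

theorem hall1 {V : Type} (R : Finset V) (A : V → Finset ℕ) (g : Finset ℕ) (s : ℕ)
    (h1 : ∀ v ∈ R, s ≤ (A v).card) (h2 : ∀ z ∈ g, (R.filter fun v => z ∉ A v).card ≤ s)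
    (h3 : R.card ≤ g.card) : ∃ f : V → ℕ, (∀ v ∈ R, f v ∈ A v) ∧ Set.InjOn f R := by
  refine hall67 R A fun R' hR' hne => ?_
  obtain ⟨v, hv⟩ := hne
  by_cases hs : R'.card ≤ s
  · exact hs.trans ((h1 v (hR' hv)).trans (card_le_card (subset_biUnion_of_mem A hv)))
  · have hg : g ⊆ R'.biUnion A := by
      intro z hz
      by_contra hcon
      apply hs
      refine le_trans (card_le_card ?_) (h2 z hz)
      intro w hw
      rw [mem_filter]
      exact ⟨hR' hw, fun h => hcon (mem_biUnion.2 ⟨w, hw, h⟩)⟩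
    exact (card_le_card hR').trans (h3.trans (card_le_card hg))

theorem hall2 {V : Type} (R : Finset V) (A : V → Finset ℕ) (g : Finset ℕ) (s r Lb Y D : ℕ)
    (h1 : ∀ v ∈ R, s ≤ (A v).card) (h2 : ∀ z, z ∉ g → (R.filter fun v => z ∈ A v).card ≤ r)
    (h3 : ∀ R' ⊆ R, R'.card * Lb ≤ ∑ v ∈ R', (A v).card + Y) (h4 : R.card ≤ Lb)
    (h5 : g.card + D ≤ R.card) (hD : 1 ≤ D) (hrs : r ≤ s) (h6 : Y ≤ D * (s - r)) :
    ∃ f : V → ℕ, (∀ v ∈ R, f v ∈ A v) ∧ Set.InjOn f R := by
  refine hall67 R A fun R' hR' hne => ?_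
  obtain ⟨v, hv⟩ := hne
  by_cases hs : R'.card ≤ s
  · exact hs.trans ((h1 v (hR' hv)).trans (card_le_card (subset_biUnion_of_mem A hv)))
  by_contra hcon
  rw [not_le] at hs hcon
  set W := R'.biUnion A with hW
  have hsum := double67 R' A W fun v hv => subset_biUnion_of_mem A hv
  have h7 : ∑ z ∈ W, (R'.filter fun v => z ∈ A v).card ≤
      (W.filter fun z => z ∈ g).card * R'.card + (W.filter fun z => z ∉ g).card * r := by
    rw [← sum_filter_add_sum_filter_not W (fun z => z ∈ g)]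
    refine add_le_add ?_ ?_
    · rw [← smul_eq_mul]
      exact sum_le_card_nsmul _ _ _ fun z _ => card_le_card (filter_subset _ _)
    · rw [← smul_eq_mul]
      refine sum_le_card_nsmul _ _ _ fun z hz => ?_
      rw [mem_filter] at hz
      exact (card_le_card (filter_subset_filter _ hR')).trans (h2 z hz.2)
  have h8 : (W.filter fun z => z ∈ g).card ≤ g.card :=
    card_le_card fun z hz => (mem_filter.1 hz).2
  have h9 : (W.filter fun z => z ∈ g).card + (W.filter fun z => z ∉ g).card = W.card :=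
    card_filter_add_card_filter_not (fun z => z ∈ g)
  have h10 := h3 R' hR'
  rw [hsum] at h10
  have h11 := card_le_card hR'
  generalize (W.filter fun z => z ∈ g).card = g' at *
  generalize (W.filter fun z => z ∉ g).card = w' at *
  generalize R'.card = a at *
  generalize R.card = b at *
  generalize g.card = G at *
  generalize W.card = w at *
  generalize ∑ z ∈ W, (R'.filter fun v => z ∈ A v).card = tot at *
  obtain ⟨c, hc⟩ : ∃ c, a = s + 1 + c := ⟨a - (s + 1), by omega⟩
  obtain ⟨m, hm⟩ : ∃ m, s = r + m := ⟨s - r, by omega⟩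
  have hsr : s - r = m := by omega
  rw [hsr] at h6
  zify at *
  have e1 : (a : ℤ) * Lb ≤ Y + g' * a + w' * r := by linarith
  have e2 : (g' : ℤ) * (a - r) ≤ G * (a - r) := by
    apply mul_le_mul_of_nonneg_right h8
    linarith
  have e3 : (w : ℤ) * r ≤ a * r := mul_le_mul_of_nonneg_right hcon.le (by positivity)
  have e4 : (a : ℤ) * (Lb - G) ≤ Y + (a - G) * r := by nlinarith
  have e5 : (a : ℤ) * (b - G) ≤ a * (Lb - G) :=
    mul_le_mul_of_nonneg_left (by linarith) (by positivity)
  have e6 : ((a : ℤ) - G) * r ≤ (b - G) * r :=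
    mul_le_mul_of_nonneg_right (by linarith) (by positivity)
  have e7 : ((b : ℤ) - G) * (a - r) ≤ Y := by nlinarith
  have e8 : (D : ℤ) * m ≤ (b - G) * m := mul_le_mul_of_nonneg_right (by linarith) (by positivity)
  have e9 : ((b : ℤ) - G) * (a - r) ≤ (b - G) * m := by linarith
  have e10 : (a : ℤ) - r ≤ m := le_of_mul_le_mul_left e9 (by linarith)
  linarith

theorem match_or_cover {V : Type} (E : Finset (V × ℕ)) (n : ℕ) :
    (∃ N ⊆ E, N.card = n + 1 ∧ Set.InjOn Prod.fst (N : Set (V × ℕ)) ∧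
      Set.InjOn Prod.snd (N : Set (V × ℕ))) ∨
    ∃ (Y : Finset V) (Q : Finset ℕ), Y ⊆ E.image Prod.fst ∧ Y.card ≤ n ∧ Q.card ≤ n ∧
      ∀ p ∈ E, p.1 ∈ Y ∨ p.2 ∈ Q := by
  obtain ⟨N, hN, hmax⟩ := exists_max_image (E.powerset.filter fun N : Finset (V × ℕ) =>
    Set.InjOn Prod.fst (N : Set (V × ℕ)) ∧ Set.InjOn Prod.snd (N : Set (V × ℕ))) card
    ⟨∅, by simp⟩
  rw [mem_filter, mem_powerset] at hN
  obtain ⟨hNE, hN1, hN2⟩ := hN
  by_cases hn : n + 1 ≤ N.card
  · left
    obtain ⟨N', hN', hcard⟩ := exists_subset_card_eq hn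
    exact ⟨N', hN'.trans hNE, hcard, hN1.mono (coe_subset.2 hN'), hN2.mono (coe_subset.2 hN')⟩
  · right
    refine ⟨N.image Prod.fst, N.image Prod.snd, image_subset_image hNE,
      card_image_le.trans (by omega), card_image_le.trans (by omega), fun p hp => ?_⟩
    by_contra hcon
    rw [not_or] at hcon
    have h1 : p ∉ N := fun h => hcon.1 (mem_image_of_mem _ h)
    have h2 := hmax (insert p N) (by
      rw [mem_filter, mem_powerset, coe_insert]
      refine ⟨insert_subset hp hNE, ?_, ?_⟩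
      · rw [Set.injOn_insert (by rwa [mem_coe])]
        refine ⟨hN1, ?_⟩
        rw [← coe_image, mem_coe]
        exact hcon.1
      · rw [Set.injOn_insert (by rwa [mem_coe])]
        refine ⟨hN2, ?_⟩
        rw [← coe_image, mem_coe]
        exact hcon.2)
    rw [card_insert_of_notMem h1] at h2
    omega

theorem choose_matchings {V I : Type} (J : Finset I) (N₀ : I → Finset (V × ℕ)) (D : I → ℕ)
    (K : ℕ) (hD : ∀ i ∈ J, D i ≤ K) (hN : ∀ i ∈ J, J.card * K ≤ (N₀ i).card)
    (h1 : ∀ i ∈ J, Set.InjOn Prod.fst (N₀ i : Set (V × ℕ)))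
    (h2 : ∀ i ∈ J, Set.InjOn Prod.snd (N₀ i : Set (V × ℕ))) :
    ∃ N : I → Finset (V × ℕ), (∀ i ∈ J, N i ⊆ N₀ i ∧ (N i).card = D i) ∧
      ∀ i ∈ J, ∀ j ∈ J, ∀ p ∈ N i, ∀ p' ∈ N j, p.2 = p'.2 → i = j ∧ p = p' := by
  have hNN₀ := hN
  clear hN
  suffices hh : ∀ J' ⊆ J, ∃ N : I → Finset (V × ℕ), (∀ i ∈ J', N i ⊆ N₀ i ∧ (N i).card = D i) ∧
      ∀ i ∈ J', ∀ j ∈ J', ∀ p ∈ N i, ∀ p' ∈ N j, p.2 = p'.2 → i = j ∧ p = p' from hh J subset_rfl
  intro J'
  induction J' using Finset.induction_on with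
  | empty =>
    intro _
    exact ⟨fun _ => ∅, fun i hi => absurd hi (notMem_empty i), fun i hi => absurd hi (notMem_empty i)⟩
  | insert a J' ha ih =>
    intro hJ
    have hJ' : J' ⊆ J := (subset_insert a J').trans hJ
    have haJ : a ∈ J := hJ (mem_insert_self a J')
    obtain ⟨N, hN, hNN⟩ := ih hJ'
    obtain ⟨C, hC⟩ : ∃ C : Finset ℕ, C = J'.biUnion fun i => (N i).image Prod.snd := ⟨_, rfl⟩
    have hCc : C.card ≤ J'.card * K := by
      rw [hC]
      refine card_biUnion_le_card_mul _ _ _ fun i hi => ?_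
      refine card_image_le.trans ?_
      rw [(hN i hi).2]
      exact hD i (hJ' hi)
    have hJc : J'.card + 1 ≤ J.card := by
      rw [← card_insert_of_notMem ha]
      exact card_le_card hJ
    have h3 : ((N₀ a).filter fun p => p.2 ∈ C).card ≤ C.card := by
      rw [← card_image_of_injOn (f := Prod.snd)
        ((h2 a haJ).mono (coe_subset.2 (filter_subset _ _)))]
      refine card_le_card fun z hz => ?_
      obtain ⟨p, hp, rfl⟩ := mem_image.1 hz
      exact (mem_filter.1 hp).2
    have h4 : ((N₀ a).filter fun p => p.2 ∈ C).card + ((N₀ a).filter fun p => p.2 ∉ C).card =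
        (N₀ a).card := card_filter_add_card_filter_not (fun p : V × ℕ => p.2 ∈ C)
    have h5 : D a ≤ ((N₀ a).filter fun p => p.2 ∉ C).card := by
      have h7 := hD a haJ
      have h8 : (J'.card + 1) * K ≤ J.card * K := Nat.mul_le_mul_right K hJc
      rw [add_mul, one_mul] at h8
      have h9 := hNN₀ a haJ
      omega
    obtain ⟨Na, hNa, hNac⟩ := exists_subset_card_eq h5
    have hupd : ∀ i ∈ J', Function.update N a Na i = N i := fun i hi =>
      Function.update_of_ne (ne_of_mem_of_not_mem hi ha) _ _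
    have hCmem : ∀ i ∈ J', ∀ p ∈ N i, p.2 ∈ C := by
      intro i hi p hp
      rw [hC]
      exact mem_biUnion.2 ⟨i, hi, mem_image_of_mem _ hp⟩
    have hCnot : ∀ p ∈ Na, p ∈ N₀ a ∧ p.2 ∉ C := fun p hp => mem_filter.1 (hNa hp)
    refine ⟨Function.update N a Na, fun i hi => ?_, fun i hi j hj p hp p' hp' hpp => ?_⟩
    · rcases mem_insert.1 hi with rfl | hi
      · rw [Function.update_self]
        exact ⟨fun p hp => (hCnot p hp).1, hNac⟩
      · rw [hupd i hi]
        exact hN i hi
    · rcases mem_insert.1 hi with hia | hi' <;> rcases mem_insert.1 hj with hja | hj'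
      · subst hia
        subst hja
        rw [Function.update_self] at hp hp'
        exact ⟨rfl, h2 _ haJ (mem_coe.2 (hCnot p hp).1) (mem_coe.2 (hCnot p' hp').1) hpp⟩
      · subst hia
        rw [Function.update_self] at hp
        rw [hupd j hj'] at hp'
        exact absurd (hpp ▸ hCmem j hj' p' hp') (hCnot p hp).2
      · subst hja
        rw [Function.update_self] at hp'
        rw [hupd i hi'] at hp
        exact absurd (hpp ▸ hCmem i hi' p hp) (hCnot p' hp').2
      · rw [hupd i hi'] at hp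
        rw [hupd j hj'] at hp'
        exact hNN i hi' j hj' p hp p' hp' hpp

end Pool.Agent.Helper33.RG
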