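import Pool.Agent.Helper33.RG.CDefs
import Pool.Agent.Helper33.RG.HALL

/-!
# Block RG-COMP1: completion of the colouring (MP_1f20e3_co)

`comp1`: if no clique `P i` is bad, the colouring `φ` of `S` extends to an `L`-colouring. Notation: `t = 350`, `K = 2 (c + 1)`, `K' = t K`, `D i = |P i| - |good i|` (in `ℤ`); `h` bounds the number of neighbours of
`v ∈ P i` in `P j`.

PROOF. Cases for `i`: (I) `D i ≥ K`; (II) `1 ≤ D i < K`; (III) `D i ≤ 0`.
(0) In case (II): `match_or_cover` for the pairs `(v, z)`, `v ∈ P i`, `z ∈ avail v \ good i`, and `n = K'`: a cover `Y`, `Q` would show that `i` is bad; so there is a matching with `K' + 1` edges. `choose_matchings`: matchings `N i` with `D i` edges such that no colour is used twice in all `N i` together. Colour their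
vertices accordingly. This partial colouring is proper (hubs: `z ∈ avail v`).
(1) Then colour the other vertices of the `P i`, first those of case (II), (III), then those of case (I), one `P i` after the other (formally: induction on the finset of the finished `i`; invariant: proper partial colouring on `S ∪ ⋃ P i (finished) ∪ ⋃ N i`). When `P i` is coloured: `R` = its vertices which are not coloured yet (`|R| = |P i| - D i` in case (II),
`= |P i|` else), `A v = avail v` minus the colours of `N i` minus the colours of the coloured neighbours of `v` in the `P j`, `j ≠ i`. `|A v| ≥ s := L - |S| - K - 350 h`. An injective choice `f v ∈ A v`, `v ∈ R` is a proper extension.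
(II), (III): `hall1` with `g = good i`: a good colour `z` is in `avail v` for `≥ r` vertices `v ∈ P i`; it is in `A v` except for the at most `K` vertices of `N i` and for the neighbours of the at most one vertex coloured `z` in every `P j`, `j ≠ i` (`P j` is a clique, so `z` occurs there at most once; this vertex has `≤ h` neighbours in `P i`), and
`z` is not a colour of `N i` (these are not good). So `z ∉ A v` for at most `|P i| - r + K + 350 h ≤ s` vertices of `R`. `|good i| = |P i| - D i ≥ |R|`.
(I): `hall2` with `g = good i`, `Lb = L - |B i|` (`≥ |P i|`), `Y = c L`, `D = K`, `r`: `h3`: a vertex `v ∈ P i` loses at most `|B i|` colours because of `B i` and the colours of its coloured neighbours `x ∉ B i ∪ P i` (`hyp.sum`); `h6`: `c L ≤ 2 (c + 1) (s - r)`, as `s - r ≥ L - r/2 - r ≥ (3/4) L` (`8 r ≤ L`).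
-/

set_option autoImplicit false

namespace Pool.Agent.Helper33.RG

open Classical Finset

variable {V : Type} [Fintype V]

/-- Hypotheses of the completion lemma. -/
structure CompHyp (G : SimpleGraph V) (L : ℕ) (Lst : V → Finset ℕ) (S : Finset V) {I : Type}
    [Fintype I] (P B : I → Finset V) (φ : V → ℕ) (h c : ℕ) : Prop where
  cardI : Fintype.card I ≤ 350
  lst : ∀ v, (Lst v).card = L
  mem : ∀ u ∈ S, φ u ∈ Lst u
  proper : ∀ u ∈ S, ∀ v ∈ S, G.Adj u v → φ u ≠ φ v
  cover : ∀ v, v ∈ S ∨ ∃ i, v ∈ P i
  disjS : ∀ i, Disjoint (P i) S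
  disjP : ∀ i j, i ≠ j → Disjoint (P i) (P j)
  clique : ∀ i, G.IsClique (P i : Set V)
  subB : ∀ i, B i ⊆ S
  size : ∀ i, (B i).card + (P i).card + 2 ≤ L
  cross : ∀ i j, i ≠ j → ∀ v ∈ P i, ((P j).filter fun x => G.Adj v x).card ≤ h
  sum : ∀ i, ∑ v ∈ P i, (univ.filter fun x => x ∉ B i ∧ x ∉ P i ∧ G.Adj v x).card ≤ c * L

private theorem step50 {G : SimpleGraph V} {L : ℕ} {Lst : V → Finset ℕ} {S : Finset V} {I : Type}
    [Fintype I] {P B : I → Finset V} {φ : V → ℕ} {h c r : ℕ}
    (hyp : CompHyp G L Lst S P B φ h c) (hr : 2 * (S.card + 2 * (c + 1) + 350 * h) + 2 ≤ r)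
    (hL : 8 * r ≤ L) (i : I) (T M : Finset V) (f : V → ℕ)
    (hST : S ⊆ T) (hTc : ∀ x ∈ T, x ∈ S ∨ x ∈ M ∨ ∃ j, j ≠ i ∧ x ∈ P j)
    (hM : M ⊆ P i) (hMT : M ⊆ T) (hMK : M.card ≤ 2 * (c + 1))
    (hfL : ∀ v ∈ T, f v ∈ Lst v) (hfp : ∀ u ∈ T, ∀ v ∈ T, G.Adj u v → f u ≠ f v)
    (hfS : ∀ u ∈ S, f u = φ u) (hMg : ∀ u ∈ M, f u ∉ good G Lst S φ (P i) r)
    (hcase : (P i \ M).card ≤ (good G Lst S φ (P i) r).card ∨
      (M = ∅ ∧ (good G Lst S φ (P i) r).card + 2 * (c + 1) ≤ (P i).card)) :
    ∃ f' : V → ℕ, (∀ v ∈ T, f' v = f v) ∧ (∀ v ∈ T ∪ P i, f' v ∈ Lst v) ∧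
      ∀ u ∈ T ∪ P i, ∀ v ∈ T ∪ P i, G.Adj u v → f' u ≠ f' v := by
  set R := P i \ M with hR
  set A : V → Finset ℕ := avail G Lst T f with hA
  set g := good G Lst S φ (P i) r with hg
  set s := L - (S.card + 2 * (c + 1) + 350 * h) with hs
  have hPT : ∀ x ∈ P i, x ∈ T → x ∈ M := by
    intro x hx hxT
    rcases hTc x hxT with h1 | h1 | ⟨j, hj, h1⟩
    · exact absurd h1 (Finset.disjoint_left.1 (hyp.disjS i) hx)
    · exact h1
    · exact absurd hx (Finset.disjoint_left.1 (hyp.disjP j i hj) h1)
  have hPL : (P i).card ≤ L := by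
    have := hyp.size i
    omega
  -- the neighbours in the other cliques
  have hcr : ∀ v ∈ P i, (T.filter fun x => G.Adj v x).card ≤ S.card + 2 * (c + 1) + 350 * h := by
    intro v hv
    have h1 : (T.filter fun x => G.Adj v x) ⊆ (S ∪ M) ∪
        (univ.filter fun j => j ≠ i).biUnion fun j => (P j).filter fun x => G.Adj v x := by
      intro x hx
      rw [Finset.mem_filter] at hx
      rw [Finset.mem_union, Finset.mem_union, Finset.mem_biUnion]
      rcases hTc x hx.1 with h1 | h1 | ⟨j, hj, h1⟩
      · exact Or.inl (Or.inl h1)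
      · exact Or.inl (Or.inr h1)
      · exact Or.inr ⟨j, Finset.mem_filter.2 ⟨Finset.mem_univ _, hj⟩,
          Finset.mem_filter.2 ⟨h1, hx.2⟩⟩
    refine (Finset.card_le_card h1).trans ((Finset.card_union_le _ _).trans ?_)
    have h2 := Finset.card_union_le S M
    have h3 : ((univ.filter fun j => j ≠ i).biUnion fun j => (P j).filter fun x =>
        G.Adj v x).card ≤ 350 * h := by
      refine (Finset.card_biUnion_le_card_mul _ _ h ?_).trans ?_
      · intro j hj
        exact hyp.cross i j (Ne.symm (Finset.mem_filter.1 hj).2) v hv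
      · apply Nat.mul_le_mul_right
        exact (Finset.card_filter_le _ _).trans hyp.cardI
    omega
  have hAL : ∀ v, L ≤ (A v).card + (T.filter fun x => G.Adj v x).card := by
    intro v
    rw [← hyp.lst v]
    have h1 : Lst v ⊆ A v ∪ (T.filter fun x => G.Adj v x).image f := by
      intro z hz
      rw [Finset.mem_union, hA]
      unfold avail
      rw [Finset.mem_filter]
      by_cases h2 : ∀ u ∈ T, G.Adj v u → f u ≠ z
      · exact Or.inl ⟨hz, h2⟩
      · push Not at h2
        obtain ⟨u, hu, hvu, hfu⟩ := h2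
        exact Or.inr (Finset.mem_image.2 ⟨u, Finset.mem_filter.2 ⟨hu, hvu⟩, hfu⟩)
    refine (Finset.card_le_card h1).trans ((Finset.card_union_le _ _).trans ?_)
    exact Nat.add_le_add_left Finset.card_image_le _
  have h1 : ∀ v ∈ R, s ≤ (A v).card := by
    intro v hv
    have h2 := hcr v (Finset.mem_sdiff.1 hv).1
    have h3 := hAL v
    omega
  have hsub : ∀ v, A v ⊆ avail G Lst S φ v := by
    intro v z hz
    rw [hA] at hz
    unfold avail at hz ⊢
    rw [Finset.mem_filter] at hz ⊢
    refine ⟨hz.1, fun u hu hvu => ?_⟩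
    rw [← hfS u hu]
    exact hz.2 u (hST hu) hvu
  -- the choice
  have hch : ∃ k : V → ℕ, (∀ v ∈ R, k v ∈ A v) ∧ Set.InjOn k R := by
    rcases hcase with hc | ⟨hM0, hc⟩
    · refine hall1 R A g s h1 ?_ hc
      intro z hz
      have hz' := hz
      rw [hg] at hz'
      unfold good at hz'
      rw [Finset.mem_filter] at hz'
      have hX : (R.filter fun v => z ∉ A v) ⊆
          ((P i).filter fun v => ¬ (z ∈ avail G Lst S φ v)) ∪
          (univ.filter fun j => j ≠ i).biUnion fun j =>
            (P i).filter fun v => ∃ u ∈ T, u ∈ P j ∧ G.Adj v u ∧ f u = z := by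
        intro v hv
        rw [Finset.mem_filter, hR, Finset.mem_sdiff] at hv
        obtain ⟨⟨hvP, hvM⟩, hzv⟩ := hv
        rw [Finset.mem_union]
        by_cases h2 : z ∈ avail G Lst S φ v
        · right
          have hzL : z ∈ Lst v := by
            unfold avail at h2
            exact (Finset.mem_filter.1 h2).1
          rw [hA] at hzv
          unfold avail at hzv
          rw [Finset.mem_filter] at hzv
          push Not at hzv
          obtain ⟨u, hu, hvu, hfu⟩ := hzv hzL
          rcases hTc u hu with h3 | h3 | ⟨j, hj, h3⟩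
          · exfalso
            unfold avail at h2
            apply (Finset.mem_filter.1 h2).2 u h3 hvu
            rw [← hfS u h3]
            exact hfu
          · exfalso
            apply hMg u h3
            rw [hfu]
            exact hz
          · rw [Finset.mem_biUnion]
            exact ⟨j, Finset.mem_filter.2 ⟨Finset.mem_univ _, hj⟩,
              Finset.mem_filter.2 ⟨hvP, u, hu, h3, hvu, hfu⟩⟩
        · left
          exact Finset.mem_filter.2 ⟨hvP, h2⟩
      refine (Finset.card_le_card hX).trans ((Finset.card_union_le _ _).trans ?_)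
      have h3 := Finset.card_filter_add_card_filter_not (s := P i)
        (fun v => z ∈ avail G Lst S φ v)
      have h4 : ((univ.filter fun j => j ≠ i).biUnion fun j =>
            (P i).filter fun v => ∃ u ∈ T, u ∈ P j ∧ G.Adj v u ∧ f u = z).card ≤ 350 * h := by
        refine (Finset.card_biUnion_le_card_mul _ _ h ?_).trans ?_
        · intro j hj
          have hj' := (Finset.mem_filter.1 hj).2
          by_cases h5 : ∃ u ∈ T, u ∈ P j ∧ f u = z
          · obtain ⟨u, hu, huP, hfu⟩ := h5
            refine (Finset.card_le_card ?_).trans (hyp.cross j i hj' u huP)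
            intro v hv
            rw [Finset.mem_filter] at hv ⊢
            obtain ⟨hvP, u', hu', huP', hvu', hfu'⟩ := hv
            refine ⟨hvP, ?_⟩
            by_cases h6 : u' = u
            · rw [← h6]
              exact hvu'.symm
            · exfalso
              have h7 := hyp.clique j (Finset.mem_coe.2 huP') (Finset.mem_coe.2 huP) h6
              exact hfp u' hu' u hu h7 (hfu'.trans hfu.symm)
          · have h6 : ((P i).filter fun v => ∃ u ∈ T, u ∈ P j ∧ G.Adj v u ∧ f u = z) = ∅ := by
              rw [Finset.filter_eq_empty_iff]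
              rintro v - ⟨u, hu, huP, -, hfu⟩
              exact h5 ⟨u, hu, huP, hfu⟩
            rw [h6]
            simp
        · apply Nat.mul_le_mul_right
          exact (Finset.card_filter_le _ _).trans hyp.cardI
      have h5 := hz'.2
      omega
    · have hRP : R = P i := by rw [hR, hM0, Finset.sdiff_empty]
      have hBL : (B i).card + (L - (B i).card) = L := by
        have := hyp.size i
        omega
      refine hall2 R A g s r (L - (B i).card) (c * L) (2 * (c + 1)) h1 ?_ ?_ ?_ ?_ ?_ ?_ ?_
      · intro z hz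
        by_contra hcon
        rw [not_le] at hcon
        apply hz
        rw [hg]
        unfold good
        have h2 : (R.filter fun v => z ∈ A v) ⊆
            (P i).filter fun v => z ∈ avail G Lst S φ v := by
          intro v hv
          rw [Finset.mem_filter] at hv ⊢
          exact ⟨hRP ▸ hv.1, hsub v hv.2⟩
        have h3 := Finset.card_le_card h2
        have h4 : 0 < ((P i).filter fun v => z ∈ avail G Lst S φ v).card := by omega
        obtain ⟨v, hv⟩ := Finset.card_pos.1 h4
        rw [Finset.mem_filter] at hv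
        rw [Finset.mem_filter, Finset.mem_biUnion]
        exact ⟨⟨v, hv.1, hv.2⟩, by omega⟩
      · intro R' hR'
        have h2 : ∀ v ∈ R', (L - (B i).card) ≤ (A v).card +
            (univ.filter fun x => x ∉ B i ∧ x ∉ P i ∧ G.Adj v x).card := by
          intro v hv
          have h3 := hAL v
          have h4 : (T.filter fun x => G.Adj v x) ⊆
              B i ∪ (univ.filter fun x => x ∉ B i ∧ x ∉ P i ∧ G.Adj v x) := by
            intro x hx
            rw [Finset.mem_filter] at hx
            rw [Finset.mem_union, Finset.mem_filter]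
            by_cases h5 : x ∈ B i
            · exact Or.inl h5
            · refine Or.inr ⟨Finset.mem_univ _, h5, fun h6 => ?_, hx.2⟩
              have := hPT x h6 hx.1
              rw [hM0] at this
              simp at this
          have h5 := (Finset.card_le_card h4).trans (Finset.card_union_le _ _)
          omega
        have h3 : R'.card * (L - (B i).card) ≤ ∑ v ∈ R', ((A v).card +
            (univ.filter fun x => x ∉ B i ∧ x ∉ P i ∧ G.Adj v x).card) := by
          rw [← smul_eq_mul, ← Finset.sum_const]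
          exact Finset.sum_le_sum h2
        rw [Finset.sum_add_distrib] at h3
        have h4 : ∑ v ∈ R', (univ.filter fun x => x ∉ B i ∧ x ∉ P i ∧ G.Adj v x).card ≤ c * L :=
          (Finset.sum_le_sum_of_subset (hRP ▸ hR')).trans (hyp.sum i)
        omega
      · rw [hRP]
        have := hyp.size i
        omega
      · rw [hRP]
        exact hc
      · omega
      · omega
      · have h2 : 3 * L ≤ 4 * (s - r) := by omega
        have h3 : 2 * (c + 1) * (3 * L) ≤ 2 * (c + 1) * (4 * (s - r)) := Nat.mul_le_mul_left _ h2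
        nlinarith
  obtain ⟨k, hk1, hk2⟩ := hch
  refine ⟨fun v => if v ∈ R then k v else f v, ?_, ?_, ?_⟩
  · intro v hv
    have h2 : v ∉ R := by
      intro h3
      rw [hR, Finset.mem_sdiff] at h3
      exact h3.2 (hPT v h3.1 hv)
    simp only [h2, if_false]
  · intro v hv
    by_cases h2 : v ∈ R
    · simp only [h2, if_true]
      have h3 := hk1 v h2
      rw [hA] at h3
      unfold avail at h3
      exact (Finset.mem_filter.1 h3).1
    · simp only [h2, if_false]
      rw [Finset.mem_union] at hv
      rcases hv with hv | hv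
      · exact hfL v hv
      · apply hfL
        apply hMT
        by_contra h3
        exact h2 (Finset.mem_sdiff.2 ⟨hv, h3⟩)
  · intro u hu v hv huv
    have hcov : ∀ x ∈ T ∪ P i, x ∉ R → x ∈ T := by
      intro x hx hxR
      rw [Finset.mem_union] at hx
      rcases hx with hx | hx
      · exact hx
      · apply hMT
        by_contra h3
        exact hxR (Finset.mem_sdiff.2 ⟨hx, h3⟩)
    have hmix : ∀ x ∈ R, ∀ y ∈ T, G.Adj x y → k x ≠ f y := by
      intro x hx y hy hxy
      have h3 := hk1 x hx
      rw [hA] at h3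
      unfold avail at h3
      exact ((Finset.mem_filter.1 h3).2 y hy hxy).symm
    by_cases h2 : u ∈ R
    · by_cases h3 : v ∈ R
      · simp only [h2, h3, if_true]
        intro h4
        exact huv.ne (hk2 h2 h3 h4)
      · simp only [h2, h3, if_true, if_false]
        exact hmix u h2 v (hcov v hv h3) huv
    · by_cases h3 : v ∈ R
      · simp only [h2, h3, if_true, if_false]
        exact (hmix v h3 u (hcov u hu h2) huv.symm).symm
      · simp only [h2, h3, if_false]
        exact hfp u (hcov u hu h2) v (hcov v hv h3) huv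

omit [Fintype V] in
private theorem exists_fun50 (E : Finset (V × ℕ)) (hE : Set.InjOn Prod.fst (E : Set (V × ℕ))) :
    ∃ f : V → ℕ, ∀ p ∈ E, f p.1 = p.2 := by
  refine ⟨fun v => if hv : ∃ p ∈ E, p.1 = v then hv.choose.2 else 0, ?_⟩
  intro p hp
  have h1 : ∃ q ∈ E, q.1 = p.1 := ⟨p, hp, rfl⟩
  simp only [h1, dif_pos]
  have h2 := h1.choose_spec
  rw [hE (Finset.mem_coe.2 h2.1) (Finset.mem_coe.2 hp) h2.2]

theorem comp1 {G : SimpleGraph V} {L : ℕ} {Lst : V → Finset ℕ} {S : Finset V} {I : Type}
    [Fintype I] {P B : I → Finset V} {φ : V → ℕ} {h c r : ℕ}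
    (hyp : CompHyp G L Lst S P B φ h c) (hr : 2 * (S.card + 2 * (c + 1) + 350 * h) + 2 ≤ r)
    (hL : 8 * r ≤ L) (hbad : ∀ i, ¬ Bad G Lst S φ (P i) r (350 * (2 * (c + 1)))) :
    ∃ f : V → ℕ, (∀ v, f v ∈ Lst v) ∧ ∀ u v, G.Adj u v → f u ≠ f v := by
  set g : I → Finset ℕ := fun i => good G Lst S φ (P i) r with hg
  set J : Finset I := univ.filter fun i => (g i).card < (P i).card ∧
    (P i).card < (g i).card + 2 * (c + 1) with hJ
  -- matchings
  have hN0 : ∀ i, ∃ N : Finset (V × ℕ), i ∈ J →
      ((∀ p ∈ N, p.1 ∈ P i ∧ p.2 ∈ avail G Lst S φ p.1 ∧ p.2 ∉ g i) ∧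
      N.card = 350 * (2 * (c + 1)) + 1 ∧ Set.InjOn Prod.fst (N : Set (V × ℕ)) ∧
      Set.InjOn Prod.snd (N : Set (V × ℕ))) := by
    intro i
    by_cases hi : i ∈ J
    · set E : Finset (V × ℕ) := (P i ×ˢ ((P i).biUnion (avail G Lst S φ))).filter fun p =>
        p.2 ∈ avail G Lst S φ p.1 ∧ p.2 ∉ g i with hE
      rcases match_or_cover E (350 * (2 * (c + 1))) with ⟨N, h1, h2, h3, h4⟩ |
        ⟨Y, Q, h1, h2, h3, h4⟩
      · refine ⟨N, fun _ => ⟨fun p hp => ?_, h2, h3, h4⟩⟩
        have h5 := h1 hp
        rw [hE, Finset.mem_filter, Finset.mem_product] at h5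
        exact ⟨h5.1.1, h5.2.1, h5.2.2⟩
      · exfalso
        refine hbad i ⟨(Finset.mem_filter.1 hi).2.1, Y, ?_, Q, h2, h3, ?_⟩
        · intro v hv
          obtain ⟨p, hp, hpv⟩ := Finset.mem_image.1 (h1 hv)
          rw [hE, Finset.mem_filter, Finset.mem_product] at hp
          rw [← hpv]
          exact hp.1.1
        · intro v hv z hz
          rw [Finset.mem_sdiff] at hv
          rw [Finset.mem_union]
          by_cases h5 : z ∈ g i
          · exact Or.inl h5
          · right
            have h6 : ((v, z) : V × ℕ) ∈ E := by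
              rw [hE, Finset.mem_filter, Finset.mem_product]
              exact ⟨⟨hv.1, Finset.mem_biUnion.2 ⟨v, hv.1, hz⟩⟩, hz, h5⟩
            rcases h4 _ h6 with h7 | h7
            · exact absurd h7 hv.2
            · exact h7
    · exact ⟨∅, fun h => absurd h hi⟩
  choose N₀ hN₀ using hN0
  obtain ⟨N, hN1, hN2⟩ := choose_matchings J N₀ (fun i => (P i).card - (g i).card) (2 * (c + 1))
    (by
      intro i hi
      have := (Finset.mem_filter.1 hi).2
      omega)
    (by
      intro i hi
      rw [(hN₀ i hi).2.1]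
      have h1 : J.card ≤ 350 := (Finset.card_le_univ J).trans hyp.cardI
      exact (Nat.mul_le_mul_right _ h1).trans (Nat.le_succ _))
    (fun i hi => (hN₀ i hi).2.2.1) (fun i hi => (hN₀ i hi).2.2.2)
  have hNp : ∀ i ∈ J, ∀ p ∈ N i, p.1 ∈ P i ∧ p.2 ∈ avail G Lst S φ p.1 ∧ p.2 ∉ g i :=
    fun i hi p hp => (hN₀ i hi).1 p ((hN1 i hi).1 hp)
  have hPuniq : ∀ i j, ∀ v, v ∈ P i → v ∈ P j → i = j := by
    intro i j v hi hj
    by_contra hij
    exact Finset.disjoint_left.1 (hyp.disjP i j hij) hi hj
  obtain ⟨f₁, hf₁⟩ := exists_fun50 (J.biUnion N) (by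
    intro p hp q hq hpq
    rw [Finset.mem_coe, Finset.mem_biUnion] at hp hq
    obtain ⟨i, hi, hp⟩ := hp
    obtain ⟨j, hj, hq⟩ := hq
    have h1 := (hNp i hi p hp).1
    have h2 := (hNp j hj q hq).1
    rw [← hpq] at h2
    have h3 := hPuniq i j _ h1 h2
    subst h3
    exact (hN₀ i hi).2.2.1 (Finset.mem_coe.2 ((hN1 i hi).1 hp))
      (Finset.mem_coe.2 ((hN1 i hi).1 hq)) hpq)
  set f₀ : V → ℕ := fun v => if v ∈ S then φ v else f₁ v with hf₀
  set M : I → Finset V := fun i => if i ∈ J then (N i).image Prod.fst else ∅ with hMdef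
  have hMP : ∀ i, M i ⊆ P i := by
    intro i v hv
    rw [hMdef] at hv
    by_cases hi : i ∈ J
    · simp only [hi, if_true] at hv
      obtain ⟨p, hp, hpv⟩ := Finset.mem_image.1 hv
      rw [← hpv]
      exact (hNp i hi p hp).1
    · simp only [hi, if_false] at hv
      simp at hv
  have hMmem : ∀ i, ∀ v ∈ M i, i ∈ J ∧ ∃ p ∈ N i, p.1 = v := by
    intro i v hv
    rw [hMdef] at hv
    by_cases hi : i ∈ J
    · simp only [hi, if_true] at hv
      exact ⟨hi, Finset.mem_image.1 hv⟩
    · simp only [hi, if_false] at hv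
      simp at hv
  have hf₀S : ∀ u ∈ S, f₀ u = φ u := by
    intro u hu
    rw [hf₀]
    simp only [hu, if_true]
  have hf₀N : ∀ i ∈ J, ∀ p ∈ N i, f₀ p.1 = p.2 := by
    intro i hi p hp
    have h1 : p.1 ∉ S := Finset.disjoint_left.1 (hyp.disjS i) (hNp i hi p hp).1
    rw [hf₀]
    simp only [h1, if_false]
    exact hf₁ p (Finset.mem_biUnion.2 ⟨i, hi, hp⟩)
  -- the induction
  have main : ∀ F : Finset I, ∃ f : V → ℕ,
      (∀ u ∈ S, f u = φ u) ∧ (∀ i ∈ J, ∀ p ∈ N i, f p.1 = p.2) ∧
      (∀ v ∈ S ∪ F.biUnion P ∪ univ.biUnion M, f v ∈ Lst v) ∧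
      ∀ u ∈ S ∪ F.biUnion P ∪ univ.biUnion M, ∀ v ∈ S ∪ F.biUnion P ∪ univ.biUnion M,
        G.Adj u v → f u ≠ f v := by
    intro F
    induction F using Finset.induction_on with
    | empty =>
      refine ⟨f₀, hf₀S, hf₀N, ?_, ?_⟩
      · intro v hv
        rw [Finset.biUnion_empty, Finset.union_empty, Finset.mem_union] at hv
        rcases hv with hv | hv
        · rw [hf₀S v hv]
          exact hyp.mem v hv
        · obtain ⟨i, -, hv⟩ := Finset.mem_biUnion.1 hv
          obtain ⟨hi, p, hp, hpv⟩ := hMmem i v hv
          rw [← hpv, hf₀N i hi p hp]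
          have h1 := (hNp i hi p hp).2.1
          unfold avail at h1
          exact (Finset.mem_filter.1 h1).1
      · have hmix : ∀ u ∈ S, ∀ v ∈ univ.biUnion M, G.Adj v u → f₀ u ≠ f₀ v := by
          intro u hu v hv huv
          obtain ⟨i, -, hv⟩ := Finset.mem_biUnion.1 hv
          obtain ⟨hi, p, hp, hpv⟩ := hMmem i v hv
          rw [hf₀S u hu, ← hpv, hf₀N i hi p hp]
          have h1 := (hNp i hi p hp).2.1
          unfold avail at h1
          rw [hpv] at h1
          exact (Finset.mem_filter.1 h1).2 u hu huv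
        intro u hu v hv huv
        rw [Finset.biUnion_empty, Finset.union_empty, Finset.mem_union] at hu hv
        rcases hu with hu | hu
        · rcases hv with hv | hv
          · rw [hf₀S u hu, hf₀S v hv]
            exact hyp.proper u hu v hv huv
          · exact hmix u hu v hv huv.symm
        · rcases hv with hv | hv
          · exact (hmix v hv u hu huv).symm
          · obtain ⟨i, -, hu⟩ := Finset.mem_biUnion.1 hu
            obtain ⟨hi, p, hp, hpu⟩ := hMmem i u hu
            obtain ⟨j, -, hv⟩ := Finset.mem_biUnion.1 hv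
            obtain ⟨hj, q, hq, hqv⟩ := hMmem j v hv
            rw [← hpu, ← hqv, hf₀N i hi p hp, hf₀N j hj q hq]
            intro h1
            have h2 := (hN2 i hi j hj p hp q hq h1).2
            apply huv.ne
            rw [← hpu, ← hqv, h2]
    | insert i F hiF ih =>
      obtain ⟨f, h1, h2, h3, h4⟩ := ih
      have hstep := step50 hyp hr hL i (S ∪ F.biUnion P ∪ univ.biUnion M) (M i) f
        (fun x hx => Finset.mem_union.2 (Or.inl (Finset.mem_union.2 (Or.inl hx)))) (by
          intro x hx
          rw [Finset.mem_union, Finset.mem_union, Finset.mem_biUnion, Finset.mem_biUnion] at hx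
          rcases hx with (hx | ⟨j, hj, hx⟩) | ⟨j, -, hx⟩
          · exact Or.inl hx
          · exact Or.inr (Or.inr ⟨j, fun h => hiF (h ▸ hj), hx⟩)
          · by_cases hij : j = i
            · subst hij
              exact Or.inr (Or.inl hx)
            · exact Or.inr (Or.inr ⟨j, hij, hMP j hx⟩))
        (hMP i) (fun x hx => Finset.mem_union.2 (Or.inr (Finset.mem_biUnion.2
          ⟨i, Finset.mem_univ _, hx⟩)))
        (by
          rw [hMdef]
          by_cases hi : i ∈ J
          · simp only [hi, if_true]
            refine Finset.card_image_le.trans ?_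
            rw [(hN1 i hi).2]
            have := (Finset.mem_filter.1 hi).2
            omega
          · simp only [hi, if_false]
            simp) h3 h4 h1 (by
          intro u hu
          obtain ⟨hi, p, hp, hpu⟩ := hMmem i u hu
          rw [← hpu, h2 i hi p hp]
          exact (hNp i hi p hp).2.2) (by
          by_cases hi : i ∈ J
          · left
            have h5 : (M i).card = (P i).card - (g i).card := by
              rw [hMdef]
              simp only [hi, if_true]
              rw [Finset.card_image_of_injOn, (hN1 i hi).2]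
              exact (hN₀ i hi).2.2.1.mono (Finset.coe_subset.2 (hN1 i hi).1)
            rw [Finset.card_sdiff_of_subset (hMP i), h5]
            have := (Finset.mem_filter.1 hi).2
            change (P i).card - ((P i).card - (g i).card) ≤ (g i).card
            omega
          · have hM0 : M i = ∅ := by
              rw [hMdef]
              simp only [hi, if_false]
            rw [hM0, Finset.sdiff_empty]
            have h5 : ¬ ((g i).card < (P i).card ∧ (P i).card < (g i).card + 2 * (c + 1)) := by
              intro h6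
              exact hi (Finset.mem_filter.2 ⟨Finset.mem_univ _, h6⟩)
            have h6 : (P i).card ≤ (g i).card ∨ (g i).card + 2 * (c + 1) ≤ (P i).card := by
              omega
            rcases h6 with h6 | h6
            · exact Or.inl h6
            · exact Or.inr ⟨rfl, h6⟩)
      obtain ⟨f', k1, k2, k3⟩ := hstep
      have hTeq : S ∪ (insert i F).biUnion P ∪ univ.biUnion M =
          S ∪ F.biUnion P ∪ univ.biUnion M ∪ P i := by
        ext x
        simp only [Finset.mem_union, Finset.biUnion_insert]
        tauto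
      rw [hTeq]
      refine ⟨f', ?_, ?_, k2, k3⟩
      · intro u hu
        rw [k1 u (Finset.mem_union.2 (Or.inl (Finset.mem_union.2 (Or.inl hu)))), h1 u hu]
      · intro j hj p hp
        rw [k1, h2 j hj p hp]
        apply Finset.mem_union.2
        right
        apply Finset.mem_biUnion.2
        refine ⟨j, Finset.mem_univ _, ?_⟩
        rw [hMdef]
        simp only [hj, if_true]
        exact Finset.mem_image.2 ⟨p, hp, rfl⟩
  obtain ⟨f, -, -, h3, h4⟩ := main univ
  have hall : ∀ v, v ∈ S ∪ univ.biUnion P ∪ univ.biUnion M := by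
    intro v
    rw [Finset.mem_union, Finset.mem_union]
    left
    rcases hyp.cover v with hv | ⟨i, hv⟩
    · exact Or.inl hv
    · exact Or.inr (Finset.mem_biUnion.2 ⟨i, Finset.mem_univ _, hv⟩)
  exact ⟨f, fun v => h3 v (hall v), fun u v huv => h4 u (hall u) v (hall v) huv⟩

end Pool.Agent.Helper33.RG
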