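import Pool.Agent.Helper33.RG.CDefs

/-!
# Block RG-COMP2: when a clique is not bad (MP_1f20e3_co)

PROOF of `comp2`. Suppose `P` is bad with `Y`, `Q`; `g = good ..`, `|g| < |P|`. `Z = Y ∪ {v ∈ P : avail v` meets `Q \ g}`; a colour not in `g` is available at `< r` vertices (if it is available at all), so
`|Z| ≤ K' + K' r ≤ (ε₅/4) |P|`. For `v ∈ P \ Z`: `avail v ⊆ g`, so `Lst v ⊆ g ∪ φ(S)`.
(A) `K7 < |Avoid|`. An element `z` of `Avoid` not in `Q ∪ φ(S)` is available at all `v ∈ P` with `z ∈ Lst v`, these are `≥ ε₂ |P| > K'` vertices, so at some `v ∉ Y`, and `z ∈ g ∪ Q`, so `z ∈ g`. So `a := |g ∩ Avoid| ≥ K7 + 1 - K' - |S|`. Count the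
pairs `(v, z)`, `v ∈ P \ Z`, `z ∈ Lst v`: `(|P| - |Z|) L ≤ ∑_{z ∈ φ(S)} |P| + ∑_{z ∈ g \ Avoid} (|P| - |Z|) + ∑_{z ∈ g ∩ Avoid} (1 - ε₅) |P|` and `(1 - ε₅)|P| ≤ (1 - ε₅/2)(|P| - |Z|)`, `|P| ≤ 2 (|P| - |Z|)`. So `L ≤ 2 |S| + |g| - a ε₅/2`, and `a ε₅ / 2 ≥ 2|S|` by `h7`, so
`|g| ≥ L > |P|`: contradiction.
(B) `φ(S)` avoids `Avoid`, `|P| + |Blk| ≤ L`. `X = φ(S) \ g`. For `v ∈ P \ Z`: `Lst v \ g ⊆ X`, so `|Lst v ∩ X| ≥ L - |g| ≥ L - |P| + 1`. An element `z` of `X` which is in `Aset` is in `Blk`: it is in the lists of `≥ (1-ε₅)|P|` vertices and available at `< r` vertices, so at least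
`(1 - ε₅)|P| - r ≥ (1 - θ/2)|P|` vertices have a neighbour in `S` with colour `z`. So `|X ∩ Aset| ≤ |Blk| ≤ L - |P|`, and every `v ∈ P \ Z` has an element `z ∈ Lst v ∩ X` which is not in `Aset`; `z ∉ Avoid`, so `dens z < ε₂ |P|`. Sum over the `≤ |S|` such `z`:
`|P| - |Z| ≤ |S| ε₂ |P| ≤ |P|/2`, contradiction to `|Z| ≤ |P|/4` and `|P| > 0`.
-/

set_option autoImplicit false

namespace Pool.Agent.Helper33.RG

open Classical Finset

variable {V : Type} [Fintype V]

/-- A colour which is not good is available at few vertices. -/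
private theorem few23 {G : SimpleGraph V} {Lst : V → Finset ℕ} {S P : Finset V} {φ : V → ℕ}
    {r z : ℕ} (hz : z ∉ good G Lst S φ P r) :
    (P.filter fun v => z ∈ avail G Lst S φ v).card ≤ r := by
  by_contra hcon
  rw [not_le] at hcon
  apply hz
  unfold good
  have h1 : 0 < (P.filter fun v => z ∈ avail G Lst S φ v).card := by omega
  obtain ⟨v, hv⟩ := card_pos.1 h1
  obtain ⟨h2, h3⟩ := mem_filter.1 hv
  exact mem_filter.2 ⟨mem_biUnion.2 ⟨v, h2, h3⟩, hcon.le⟩

theorem comp2 {G : SimpleGraph V} {L : ℕ} {Lst : V → Finset ℕ} {S P : Finset V} {φ : V → ℕ}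
    {r K' K7 : ℕ} {ε₂ ε₅ θ : ℝ} (hlst : ∀ v, (Lst v).card = L) (hP : 1 ≤ P.card)
    (hPL : P.card < L) (hε₅ : 0 < ε₅) (hε₅' : ε₅ ≤ 1 / 2) (hε₂ : 0 < ε₂)
    (hZ : ((K' + K' * r : ℕ) : ℝ) ≤ ε₅ / 4 * P.card) (hK : (K' : ℝ) < ε₂ * P.card)
    (h7 : (K' : ℝ) + S.card + 4 * S.card / ε₅ ≤ K7) (hr : (r : ℝ) ≤ (θ / 2 - ε₅) * P.card)
    (hS : (S.card : ℝ) * ε₂ ≤ 1 / 2)
    (h1 : K7 < (Avoid Lst P ε₂ ε₅).card ∨ ∀ u ∈ S, φ u ∉ Avoid Lst P ε₂ ε₅)
    (h2 : P.card + (Blk G Lst S φ P ε₅ θ).card ≤ L) : ¬ Bad G Lst S φ P r K' := by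
  rintro ⟨hg, Y, hYP, Q, hY, hQ, hYQ⟩
  set g := good G Lst S φ P r with hgdef
  set XS := S.image φ with hXS
  have hXSc : XS.card ≤ S.card := card_image_le
  set Z := Y ∪ P.filter (fun v => ∃ z ∈ avail G Lst S φ v, z ∈ Q \ g) with hZdef
  have hp : (1 : ℝ) ≤ P.card := by exact_mod_cast hP
  have hZc : Z.card ≤ K' + K' * r := by
    have h3 : P.filter (fun v => ∃ z ∈ avail G Lst S φ v, z ∈ Q \ g) ⊆
        (Q \ g).biUnion fun z => P.filter fun v => z ∈ avail G Lst S φ v := by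
      intro v hv
      obtain ⟨h4, z, h5, h6⟩ := mem_filter.1 hv
      exact mem_biUnion.2 ⟨z, h6, mem_filter.2 ⟨h4, h5⟩⟩
    have h4 : ((Q \ g).biUnion fun z => P.filter fun v => z ∈ avail G Lst S φ v).card ≤
        (Q \ g).card * r := card_biUnion_le_card_mul _ _ _ fun z hz => few23 (mem_sdiff.1 hz).2
    have h5 : (Q \ g).card * r ≤ K' * r :=
      Nat.mul_le_mul_right _ ((card_le_card sdiff_subset).trans hQ)
    have h6 := card_union_le Y (P.filter fun v => ∃ z ∈ avail G Lst S φ v, z ∈ Q \ g)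
    have h7 := card_le_card h3
    rw [hZdef]
    omega
  have hZP : Z ⊆ P := union_subset hYP (filter_subset _ _)
  set m : ℝ := ((P \ Z).card : ℝ) with hm
  have hmP : m = (P.card : ℝ) - Z.card := by
    have h3 := card_sdiff_add_card_eq_card hZP
    have h4 : ((P \ Z).card : ℝ) + Z.card = P.card := by exact_mod_cast h3
    linarith
  have hZr : (Z.card : ℝ) ≤ ε₅ / 4 * P.card := le_trans (by exact_mod_cast hZc) hZ
  have hmlow : (1 - ε₅ / 4) * P.card ≤ m := by rw [hmP]; linarith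
  have hm0 : 0 < m := by
    have : (0 : ℝ) < (1 - ε₅ / 4) * P.card := by
      apply mul_pos <;> linarith
    linarith
  have hav : ∀ v ∈ P \ Z, avail G Lst S φ v ⊆ g := by
    intro v hv z hz
    obtain ⟨h3, h4⟩ := mem_sdiff.1 hv
    have h5 : v ∉ Y := fun h => h4 (mem_union_left _ h)
    rcases mem_union.1 (hYQ v (mem_sdiff.2 ⟨h3, h5⟩) hz) with h6 | h6
    · exact h6
    · by_contra h7
      exact h4 (mem_union_right _ (mem_filter.2 ⟨h3, z, hz, mem_sdiff.2 ⟨h6, h7⟩⟩))
  have hmemav : ∀ v z, z ∈ Lst v → z ∉ XS → z ∈ avail G Lst S φ v := by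
    intro v z hz hX
    exact mem_filter.2 ⟨hz, fun u hu _ h => hX (mem_image.2 ⟨u, hu, h⟩)⟩
  have hLg : ∀ v ∈ P \ Z, Lst v ⊆ g ∪ XS := by
    intro v hv z hz
    by_cases h3 : z ∈ XS
    · exact mem_union_right _ h3
    · exact mem_union_left _ (hav v hv (hmemav v z hz h3))
  have hgP : (g.card : ℝ) + 1 ≤ P.card := by exact_mod_cast hg
  have hPL' : (P.card : ℝ) + 1 ≤ L := by exact_mod_cast hPL
  have hSnn : (0 : ℝ) ≤ S.card := by positivity
  have hXSr : (XS.card : ℝ) ≤ S.card := by exact_mod_cast hXSc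
  rcases h1 with h1 | h1
  · -- many colours to be avoided
    set AV := Avoid Lst P ε₂ ε₅ with hAV
    have hsub : AV \ (Q ∪ XS) ⊆ g ∩ AV := by
      intro z hz
      obtain ⟨h3, h4⟩ := mem_sdiff.1 hz
      refine mem_inter.2 ⟨?_, h3⟩
      have h5 : z ∉ Q := fun h => h4 (mem_union_left _ h)
      have h6 : z ∉ XS := fun h => h4 (mem_union_right _ h)
      obtain ⟨_, h8, _⟩ := mem_filter.1 h3
      have h9 : (Y.card : ℝ) < dens Lst P z := by
        have : (Y.card : ℝ) ≤ K' := by exact_mod_cast hY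
        linarith
      have h10 : Y.card < dens Lst P z := by exact_mod_cast h9
      obtain ⟨v, hv, hvY⟩ := exists_mem_notMem_of_card_lt_card h10
      obtain ⟨h11, h12⟩ := mem_filter.1 hv
      rcases mem_union.1 (hYQ v (mem_sdiff.2 ⟨h11, hvY⟩) (hmemav v z h12 h6)) with h13 | h13
      · exact h13
      · exact absurd h13 h5
    set a : ℕ := (g ∩ AV).card with ha
    have ha1 : AV.card ≤ a + K' + S.card := by
      have h3 := card_le_card hsub
      have h4 : AV.card ≤ (AV \ (Q ∪ XS)).card + (Q ∪ XS).card := by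
        have := card_le_card (show AV ⊆ (AV \ (Q ∪ XS)) ∪ (Q ∪ XS) by
          intro z hz
          by_cases h : z ∈ Q ∪ XS
          · exact mem_union_right _ h
          · exact mem_union_left _ (mem_sdiff.2 ⟨hz, h⟩))
        exact this.trans (card_union_le _ _)
      have h5 := card_union_le Q XS
      omega
    have ha2 : (K7 : ℝ) + 1 ≤ a + K' + S.card := by
      have : K7 + 1 ≤ a + K' + S.card := by omega
      exact_mod_cast this
    have ha3 : 4 * S.card / ε₅ + 1 ≤ (a : ℝ) := by linarith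
    have ha4 : 4 * (S.card : ℝ) ≤ a * ε₅ := by
      have h3 : 4 * S.card / ε₅ ≤ (a : ℝ) := by linarith
      rwa [div_le_iff₀ hε₅] at h3
    have ha5 : (0 : ℝ) < a := by
      have : (0 : ℝ) ≤ 4 * S.card / ε₅ := by positivity
      linarith
    -- double counting
    have hcount : ∑ v ∈ P \ Z, (Lst v).card ≤
        ∑ z ∈ g ∪ XS, ((P \ Z).filter fun v => z ∈ Lst v).card := by
      have h3 : ∀ v ∈ P \ Z, (Lst v).card = ∑ z ∈ g ∪ XS, if z ∈ Lst v then 1 else 0 := by
        intro v hv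
        rw [← card_filter, filter_mem_eq_inter, inter_eq_right.2 (hLg v hv)]
      rw [sum_congr rfl h3, sum_comm]
      apply le_of_eq
      apply sum_congr rfl
      intro z _
      rw [card_filter]
    have hleft : ((∑ v ∈ P \ Z, (Lst v).card : ℕ) : ℝ) = m * L := by
      rw [sum_congr rfl fun v _ => hlst v, sum_const, smul_eq_mul]
      push_cast
      rfl
    have hz1 : ∀ z, (((P \ Z).filter fun v => z ∈ Lst v).card : ℝ) ≤ m := by
      intro z
      have := card_filter_le (P \ Z) fun v => z ∈ Lst v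
      rw [hm]
      exact_mod_cast this
    have hz2 : ∀ z ∈ g ∩ AV, (((P \ Z).filter fun v => z ∈ Lst v).card : ℝ) ≤
        (1 - ε₅ / 2) * m := by
      intro z hz
      obtain ⟨_, _, h5⟩ := mem_filter.1 (mem_inter.1 hz).2
      have h6 : ((P \ Z).filter fun v => z ∈ Lst v).card ≤ dens Lst P z :=
        card_le_card (filter_subset_filter _ sdiff_subset)
      have h7 : (((P \ Z).filter fun v => z ∈ Lst v).card : ℝ) ≤ dens Lst P z := by
        exact_mod_cast h6
      have h8 : (1 - ε₅) * (P.card : ℝ) ≤ (1 - ε₅ / 2) * m := by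
        calc (1 - ε₅) * (P.card : ℝ) ≤ (1 - ε₅ / 2) * ((1 - ε₅ / 4) * P.card) := by
              rw [← mul_assoc]
              apply mul_le_mul_of_nonneg_right _ (by linarith)
              have h9 : (1 - ε₅ / 2) * (1 - ε₅ / 4) = 1 - 3 / 4 * ε₅ + ε₅ ^ 2 / 8 := by ring
              have h10 := sq_nonneg ε₅
              rw [h9]
              linarith
          _ ≤ (1 - ε₅ / 2) * m := mul_le_mul_of_nonneg_left hmlow (by linarith)
      linarith
    have hright : ((∑ z ∈ g ∪ XS, ((P \ Z).filter fun v => z ∈ Lst v).card : ℕ) : ℝ) ≤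
        m * S.card + (m * (g.card - a) + a * ((1 - ε₅ / 2) * m)) := by
      have h3 : ∑ z ∈ g ∪ XS, ((P \ Z).filter fun v => z ∈ Lst v).card ≤
          ∑ z ∈ g, ((P \ Z).filter fun v => z ∈ Lst v).card +
            ∑ z ∈ XS, ((P \ Z).filter fun v => z ∈ Lst v).card := by
        rw [← sum_union_inter]
        exact Nat.le_add_right _ _
      have h4 : ((∑ z ∈ XS, ((P \ Z).filter fun v => z ∈ Lst v).card : ℕ) : ℝ) ≤ m * S.card := by
        push_cast
        refine (sum_le_sum fun z _ => hz1 z).trans ?_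
        rw [sum_const, nsmul_eq_mul, mul_comm]
        exact mul_le_mul_of_nonneg_left hXSr hm0.le
      have h5 : ((∑ z ∈ g, ((P \ Z).filter fun v => z ∈ Lst v).card : ℕ) : ℝ) ≤
          m * (g.card - a) + a * ((1 - ε₅ / 2) * m) := by
        rw [← sdiff_union_inter g AV, sum_union (disjoint_sdiff_inter g AV)]
        push_cast
        have h6 : ∑ z ∈ g \ AV, (((P \ Z).filter fun v => z ∈ Lst v).card : ℝ) ≤
            m * (g.card - a) := by
          refine (sum_le_sum fun z _ => hz1 z).trans ?_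
          rw [sum_const, nsmul_eq_mul, mul_comm]
          have h7 : (g \ AV).card + a = g.card := by rw [ha]; exact card_sdiff_add_card_inter g AV
          have h8 : ((g \ AV).card : ℝ) = g.card - a := by
            have : ((g \ AV).card : ℝ) + a = g.card := by exact_mod_cast h7
            linarith
          rw [h8]
        have h9 : ∑ z ∈ g ∩ AV, (((P \ Z).filter fun v => z ∈ Lst v).card : ℝ) ≤
            a * ((1 - ε₅ / 2) * m) := by
          refine (sum_le_sum hz2).trans ?_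
          rw [sum_const, nsmul_eq_mul]
        have h10 : ((g \ AV ∪ g ∩ AV).card : ℝ) = g.card := by rw [sdiff_union_inter]
        rw [h10]
        linarith
      have h6 : ((∑ z ∈ g ∪ XS, ((P \ Z).filter fun v => z ∈ Lst v).card : ℕ) : ℝ) ≤
          ((∑ z ∈ g, ((P \ Z).filter fun v => z ∈ Lst v).card : ℕ) : ℝ) +
            ((∑ z ∈ XS, ((P \ Z).filter fun v => z ∈ Lst v).card : ℕ) : ℝ) := by
        exact_mod_cast h3
      linarith
    have hcr : ((∑ v ∈ P \ Z, (Lst v).card : ℕ) : ℝ) ≤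
        ((∑ z ∈ g ∪ XS, ((P \ Z).filter fun v => z ∈ Lst v).card : ℕ) : ℝ) := by
      exact_mod_cast hcount
    rw [hleft] at hcr
    have h3 : m * L ≤ m * (S.card + (g.card - a) + a * (1 - ε₅ / 2)) := by
      calc m * L ≤ _ := hcr
        _ ≤ _ := hright
        _ = _ := by ring
    have h4 : (L : ℝ) ≤ S.card + (g.card - a) + a * (1 - ε₅ / 2) := le_of_mul_le_mul_left h3 hm0
    have h5 : (a : ℝ) * (1 - ε₅ / 2) = a - a * ε₅ / 2 := by ring
    linarith
  · -- the colours of `S` are not to be avoided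
    set X := XS \ g with hX
    have hblk : X ∩ Aset Lst P ε₅ ⊆ Blk G Lst S φ P ε₅ θ := by
      intro z hz
      obtain ⟨h3, h4⟩ := mem_inter.1 hz
      obtain ⟨h5, h6⟩ := mem_sdiff.1 h3
      refine mem_filter.2 ⟨h5, h4, ?_⟩
      have h7 : dens Lst P z ≤ (P.filter fun v => z ∈ avail G Lst S φ v).card +
          cov G P (S.filter fun u => φ u = z) := by
        have h8 : (P.filter fun v => z ∈ Lst v) ⊆ (P.filter fun v => z ∈ avail G Lst S φ v) ∪
            (P.filter fun x => ∃ u ∈ S.filter (fun u => φ u = z), G.Adj x u) := by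
          intro v hv
          obtain ⟨h9, h10⟩ := mem_filter.1 hv
          by_cases h11 : z ∈ avail G Lst S φ v
          · exact mem_union_left _ (mem_filter.2 ⟨h9, h11⟩)
          · apply mem_union_right
            have h12 : ¬ ∀ u ∈ S, G.Adj v u → φ u ≠ z := fun h => h11 (mem_filter.2 ⟨h10, h⟩)
            push Not at h12
            obtain ⟨u, hu, hadj, hφ⟩ := h12
            exact mem_filter.2 ⟨h9, u, mem_filter.2 ⟨hu, hφ⟩, hadj⟩
        exact (card_le_card h8).trans (card_union_le _ _)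
      have h8 := few23 h6
      have h9 : (1 - ε₅) * (P.card : ℝ) ≤ dens Lst P z := (mem_filter.1 h4).2
      have h10 : (dens Lst P z : ℝ) ≤ r + cov G P (S.filter fun u => φ u = z) := by
        have : dens Lst P z ≤ r + cov G P (S.filter fun u => φ u = z) := by omega
        exact_mod_cast this
      linarith
    have hex : ∀ v ∈ P \ Z, ∃ z ∈ XS, z ∈ Lst v ∧ (dens Lst P z : ℝ) < ε₂ * P.card := by
      intro v hv
      have h3 : (X ∩ Aset Lst P ε₅).card < (Lst v ∩ X).card := by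
        have h4 := card_le_card hblk
        have h5 : Lst v \ g ⊆ Lst v ∩ X := by
          intro z hz
          obtain ⟨h6, h7⟩ := mem_sdiff.1 hz
          refine mem_inter.2 ⟨h6, mem_sdiff.2 ⟨?_, h7⟩⟩
          exact (mem_union.1 (hLg v hv h6)).resolve_left h7
        have h6 := card_le_card h5
        have h7 := le_card_sdiff g (Lst v)
        rw [hlst] at h7
        omega
      obtain ⟨z, hz, hz'⟩ := exists_mem_notMem_of_card_lt_card h3
      obtain ⟨h4, h5⟩ := mem_inter.1 hz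
      have h6 : z ∉ Aset Lst P ε₅ := fun h => hz' (mem_inter.2 ⟨h5, h⟩)
      have h7 : z ∈ P.biUnion Lst := mem_biUnion.2 ⟨v, (mem_sdiff.1 hv).1, h4⟩
      have h8 : (dens Lst P z : ℝ) < (1 - ε₅) * P.card := by
        by_contra hcon
        exact h6 (mem_filter.2 ⟨h7, not_lt.1 hcon⟩)
      have h9 : z ∈ XS := (mem_sdiff.1 h5).1
      refine ⟨z, h9, h4, ?_⟩
      by_contra hcon
      obtain ⟨u, hu, hφ⟩ := mem_image.1 h9
      apply h1 u hu
      rw [hφ]
      exact mem_filter.2 ⟨h7, not_lt.1 hcon, h8⟩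
    have h3 : P \ Z ⊆ (XS.filter fun z => (dens Lst P z : ℝ) < ε₂ * P.card).biUnion
        fun z => P.filter fun v => z ∈ Lst v := by
      intro v hv
      obtain ⟨z, h4, h5, h6⟩ := hex v hv
      exact mem_biUnion.2 ⟨z, mem_filter.2 ⟨h4, h6⟩, mem_filter.2 ⟨(mem_sdiff.1 hv).1, h5⟩⟩
    have h4 : m ≤ (S.card : ℝ) * (ε₂ * P.card) := by
      have h5 : ((P \ Z).card : ℝ) ≤
          ((∑ z ∈ XS.filter (fun z => (dens Lst P z : ℝ) < ε₂ * P.card),
            (P.filter fun v => z ∈ Lst v).card : ℕ) : ℝ) := by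
        exact_mod_cast (card_le_card h3).trans card_biUnion_le
      push_cast at h5
      have h6 : ∑ z ∈ XS.filter (fun z => (dens Lst P z : ℝ) < ε₂ * P.card),
          ((P.filter fun v => z ∈ Lst v).card : ℝ) ≤
          ∑ _z ∈ XS.filter (fun z => (dens Lst P z : ℝ) < ε₂ * P.card), ε₂ * (P.card : ℝ) :=
        sum_le_sum fun z hz => (mem_filter.1 hz).2.le
      rw [sum_const, nsmul_eq_mul] at h6
      have h7 : ((XS.filter fun z => (dens Lst P z : ℝ) < ε₂ * P.card).card : ℝ) ≤ S.card := by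
        exact_mod_cast (card_filter_le _ _).trans hXSc
      have h8 : ((XS.filter fun z => (dens Lst P z : ℝ) < ε₂ * P.card).card : ℝ) *
          (ε₂ * P.card) ≤ S.card * (ε₂ * P.card) :=
        mul_le_mul_of_nonneg_right h7 (by positivity)
      linarith
    have h5 : (S.card : ℝ) * (ε₂ * P.card) ≤ 1 / 2 * P.card := by
      rw [← mul_assoc]
      exact mul_le_mul_of_nonneg_right hS (by linarith)
    have h6 : (7 / 8 : ℝ) * P.card ≤ (1 - ε₅ / 4) * P.card :=
      mul_le_mul_of_nonneg_right (by linarith) (by linarith)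
    linarith

end Pool.Agent.Helper33.RG
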