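import Pool.Agent.Helper33.RG.EUL

/-!
# Block RG-CORE: the embedding of `K_{10,2k}` (MP_1f20e3_co)

The incidences of the core: `inl (i, j)`: the vertex `x_j` in the hyperedge number `i` (`i = 0`: the big hyperedge `M`; `i ≠ 0`: the edge `{x_j, h_i}`), `inr (i, j)`, `i ≠ 0`: the hub `h_i` in the edge `{x_j, h_i}`.

PROOF. `m = 2k`. `s n x = 1` if `x.val` is even, `-1` if not, for `x : ZMod (2n)` (with values in any ring); `s (x + 1) = s (x - 1) = - s x` (`2 n` is even). Write `ε_j = s j`, `ε_i = s i`. Define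
`σ (inl (i,j)) = inl (i + ε_j, j)`, `σ (inr (i,j)) = inr (i, j + ε_i)`; `α (inl (0,j)) = inl (0, j + ε_0)` (`ε_0 = 1`), `α (inl (i,j)) = inr (i,j)` and `α (inr (i,j)) = inl (i,j)` for `i ≠ 0`. The cycles of `σ` and `α` are the fibres of `cv`, `cw` (`x + c` for all multiples `c` of `1` or `-1`).
`cyc σ = 2k + 9`, `cyc α = 1 + 9 (2k)` (`cyc_eq_range`), `comp σ α = 1` (all `inl (·, j)` are in one `σ`-cycle, all `inl (0, ·)` in one `α`-cycle, `inr (i,j)` is in the `α`-cycle of `inl (i,j)`), `card = 19 (2k)`. `φ = σ α`: `φ (inl (i,j)) = inr (i, j + ε_i)` (`i ≠ 0`), `φ (inl (0,j)) = inl (- ε_j, j + 1)`,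
`φ (inr (i,j)) = inl (i + ε_j, j)`. With `ψ (i,j) = (i - ε_j, j + ε_i)` (an involution: `ψ ψ (i,j) = (i - ε_j - ε_{j + ε_i}, j + ε_i + ε_{i - ε_j}) = (i,j)`): `φ (inl (0,j)) = inl (ψ (0,j))`, `φ (φ (inl (i,j))) = inl (ψ (i,j))` for `i ≠ 0`. The function `c (inl a) = {a, ψ a}`, `c (inr (i,j)) = {b, ψ b}`, `b = (i + ε_j, j)`,
is invariant under `φ`; so an orbit of `φ` contains at most two elements `inl a`; so `10 (2k) ≤ 2 cyc φ`. So `N + 2 comp = 38 k + 2 ≤ (2k + 9) + (1 + 18 k) + 10 k + 2 (4k)`.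
-/

set_option autoImplicit false

namespace Pool.Agent.Helper33.RG

open Equiv

/-- The incidences of the core. -/
abbrev Core (k : ℕ) : Type := (ZMod 10 × ZMod (2 * k)) ⊕ ({i : ZMod 10 // i ≠ 0} × ZMod (2 * k))

/-- The vertex of an incidence: `x_j` or `h_i`. -/
def cv (k : ℕ) : Core k → ZMod (2 * k) ⊕ {i : ZMod 10 // i ≠ 0}
  | Sum.inl (_, j) => Sum.inl j
  | Sum.inr (i, _) => Sum.inr i

/-- The hyperedge of an incidence: `none` = `M`, `some (i, j)` = `{x_j, h_i}`. -/
def cw (k : ℕ) : Core k → Option (ZMod 10 × ZMod (2 * k))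
  | Sum.inl (i, j) => if i = 0 then none else some (i, j)
  | Sum.inr (i, j) => some (i.1, j)


section aux62

/-- the sign of the parity -/
private def sg {N : ℕ} (h : 2 ∣ N) (x : ZMod N) : ℤ :=
  if ZMod.castHom h (ZMod 2) x = 0 then 1 else -1

private lemma sg_cases {N : ℕ} (h : 2 ∣ N) (x : ZMod N) : sg h x = 1 ∨ sg h x = -1 := by
  unfold sg
  split_ifs
  · exact Or.inl rfl
  · exact Or.inr rfl

private lemma sg_add {N : ℕ} (h : 2 ∣ N) (x : ZMod N) {e : ℤ} (he : e = 1 ∨ e = -1) :
    sg h (x + (e : ZMod N)) = - sg h x := by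
  unfold sg
  have h1 : ∀ y : ZMod 2, (if y + 1 = 0 then (1 : ℤ) else -1) = -(if y = 0 then 1 else -1) := by
    decide
  rw [map_add, map_intCast]
  have h2 : ((e : ℤ) : ZMod 2) = 1 := by
    rcases he with rfl | rfl <;> decide
  rw [h2, h1]

private lemma sg_sub {N : ℕ} (h : 2 ∣ N) (x : ZMod N) {e : ℤ} (he : e = 1 ∨ e = -1) :
    sg h (x - (e : ZMod N)) = - sg h x := by
  have h1 : x - (e : ZMod N) = x + ((-e : ℤ) : ZMod N) := by
    push_cast
    ring
  rw [h1]
  refine sg_add h x ?_
  rcases he with rfl | rfl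
  · exact Or.inr rfl
  · exact Or.inl (neg_neg 1)

/-- a predicate stable under a step of length one holds everywhere -/
private lemma step {N : ℕ} [NeZero N] {P : ZMod N → Prop} {i : ZMod N} (h0 : P i) {e : ℤ}
    (he : e = 1 ∨ e = -1) (hs : ∀ x, P x → P (x + (e : ZMod N))) (y : ZMod N) : P y := by
  have h1 : ∀ n : ℕ, P (i + n * (e : ZMod N)) := by
    intro n
    induction n with
    | zero => simpa using h0
    | succ n ih =>
      have := hs _ ih
      have e1 : i + (n : ZMod N) * (e : ZMod N) + (e : ZMod N) =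
          i + ((n + 1 : ℕ) : ZMod N) * (e : ZMod N) := by
        push_cast
        ring
      rwa [e1] at this
  have h2 := h1 ((y - i) * (e : ZMod N)).val
  rw [ZMod.natCast_zmod_val] at h2
  have h3 : (e : ZMod N) * e = 1 := by
    rcases he with rfl | rfl <;> simp
  have h4 : i + (y - i) * (e : ZMod N) * (e : ZMod N) = y := by
    rw [mul_assoc, h3, mul_one]
    ring
  rwa [h4] at h2

private lemma inv_sameCycle {X A : Type} (π : Perm X) (F : X → A) (hF : ∀ x, F (π x) = F x)
    {x y : X} (h : π.SameCycle x y) : F x = F y := by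
  obtain ⟨n, rfl⟩ := h
  have hinv : ∀ x, F (π⁻¹ x) = F x := fun x => by
    have h1 : π (π⁻¹ x) = x := π.apply_symm_apply x
    have h2 := hF (π⁻¹ x)
    rw [h1] at h2
    exact h2.symm
  have hz : ∀ (n : ℤ) (x : X), F ((π ^ n) x) = F x := by
    intro n
    induction n using Int.induction_on with
    | zero => intro x; rfl
    | succ n ih =>
      intro x
      rw [zpow_add_one, Perm.mul_apply, ih, hF]
    | pred n ih =>
      intro x
      rw [zpow_sub_one, Perm.mul_apply, ih, hinv]
  exact (hz n x).symm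

private lemma le_cyc {X A : Type} [Finite X] (π : Perm X) (F : X → A) (hF : ∀ x, F (π x) = F x) :
    Nat.card (Set.range F) ≤ cyc π := by
  refine Nat.card_le_card_of_surjective
    (Quot.lift (fun x => (⟨F x, x, rfl⟩ : Set.range F)) (fun a b hab => Subtype.ext (by
      change F a = F b
      rw [hab, hF]))) ?_
  rintro ⟨_, x, rfl⟩
  exact ⟨Quot.mk _ x, rfl⟩

private lemma d10 : 2 ∣ 10 := ⟨5, rfl⟩

private lemma d2k (k : ℕ) : 2 ∣ 2 * k := ⟨k, rfl⟩

/-- the rotations at the vertices -/
private def sig (k : ℕ) : Perm (Core k) where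
  toFun x := match x with
    | Sum.inl (i, j) => Sum.inl (i + ((sg (d2k k) j : ℤ) : ZMod 10), j)
    | Sum.inr (i, j) => Sum.inr (i, j + ((sg d10 i.1 : ℤ) : ZMod (2 * k)))
  invFun x := match x with
    | Sum.inl (i, j) => Sum.inl (i - ((sg (d2k k) j : ℤ) : ZMod 10), j)
    | Sum.inr (i, j) => Sum.inr (i, j - ((sg d10 i.1 : ℤ) : ZMod (2 * k)))
  left_inv := by
    rintro (⟨i, j⟩ | ⟨i, j⟩)
    · change Sum.inl (i + ((sg (d2k k) j : ℤ) : ZMod 10) - ((sg (d2k k) j : ℤ) : ZMod 10), j) = _
      rw [add_sub_cancel_right]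
    · change Sum.inr (i, j + ((sg d10 i.1 : ℤ) : ZMod (2 * k)) - ((sg d10 i.1 : ℤ) : ZMod (2 * k))) = _
      rw [add_sub_cancel_right]
  right_inv := by
    rintro (⟨i, j⟩ | ⟨i, j⟩)
    · change Sum.inl (i - ((sg (d2k k) j : ℤ) : ZMod 10) + ((sg (d2k k) j : ℤ) : ZMod 10), j) = _
      rw [sub_add_cancel]
    · change Sum.inr (i, j - ((sg d10 i.1 : ℤ) : ZMod (2 * k)) + ((sg d10 i.1 : ℤ) : ZMod (2 * k))) = _
      rw [sub_add_cancel]

private lemma sig_inl (k : ℕ) (i : ZMod 10) (j : ZMod (2 * k)) :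
    sig k (Sum.inl (i, j)) = Sum.inl (i + ((sg (d2k k) j : ℤ) : ZMod 10), j) := rfl

private lemma sig_inr (k : ℕ) (i : {i : ZMod 10 // i ≠ 0}) (j : ZMod (2 * k)) :
    sig k (Sum.inr (i, j)) = Sum.inr (i, j + ((sg d10 i.1 : ℤ) : ZMod (2 * k))) := rfl

/-- the rotations at the hyperedges -/
private def alp (k : ℕ) : Perm (Core k) where
  toFun x := match x with
    | Sum.inl (i, j) => if h : i = 0 then Sum.inl (0, j + 1) else Sum.inr (⟨i, h⟩, j)
    | Sum.inr (i, j) => Sum.inl (i.1, j)
  invFun x := match x with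
    | Sum.inl (i, j) => if h : i = 0 then Sum.inl (0, j - 1) else Sum.inr (⟨i, h⟩, j)
    | Sum.inr (i, j) => Sum.inl (i.1, j)
  left_inv := by
    rintro (⟨i, j⟩ | ⟨⟨i, hi⟩, j⟩)
    · by_cases h : i = 0
      · subst h
        simp
      · simp [h]
    · simp [hi]
  right_inv := by
    rintro (⟨i, j⟩ | ⟨⟨i, hi⟩, j⟩)
    · by_cases h : i = 0
      · subst h
        simp
      · simp [h]
    · simp [hi]

private lemma alp_zero (k : ℕ) (j : ZMod (2 * k)) :
    alp k (Sum.inl (0, j)) = Sum.inl (0, j + 1) := by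
  change (if h : (0 : ZMod 10) = 0 then (Sum.inl (0, j + 1) : Core k) else Sum.inr (⟨0, h⟩, j)) = _
  rw [dif_pos rfl]

private lemma alp_ne (k : ℕ) {i : ZMod 10} (hi : i ≠ 0) (j : ZMod (2 * k)) :
    alp k (Sum.inl (i, j)) = Sum.inr (⟨i, hi⟩, j) := by
  change (if h : i = 0 then (Sum.inl (0, j + 1) : Core k) else Sum.inr (⟨i, h⟩, j)) = _
  rw [dif_neg hi]

private lemma alp_inr (k : ℕ) (i : {i : ZMod 10 // i ≠ 0}) (j : ZMod (2 * k)) :
    alp k (Sum.inr (i, j)) = Sum.inl (i.1, j) := rfl

/-- the involution `ψ` -/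
private def psi (k : ℕ) (a : ZMod 10 × ZMod (2 * k)) : ZMod 10 × ZMod (2 * k) :=
  (a.1 - ((sg (d2k k) a.2 : ℤ) : ZMod 10), a.2 + ((sg d10 a.1 : ℤ) : ZMod (2 * k)))

private lemma psi_psi (k : ℕ) (a : ZMod 10 × ZMod (2 * k)) : psi k (psi k a) = a := by
  obtain ⟨i, j⟩ := a
  unfold psi
  simp only
  rw [sg_add (d2k k) j (sg_cases d10 i), sg_sub d10 i (sg_cases (d2k k) j)]
  push_cast
  ext
  · simp
  · simp

private def cc (k : ℕ) (a : ZMod 10 × ZMod (2 * k)) : ZMod 10 × ZMod (2 * k) :=
  if sg d10 a.1 = 1 then a else psi k a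

private lemma cc_psi (k : ℕ) (a : ZMod 10 × ZMod (2 * k)) : cc k (psi k a) = cc k a := by
  have h1 : sg d10 (psi k a).1 = - sg d10 a.1 := sg_sub d10 a.1 (sg_cases (d2k k) a.2)
  unfold cc
  rw [h1, psi_psi]
  rcases sg_cases d10 a.1 with h | h
  · rw [h, if_neg (by norm_num), if_pos rfl]
  · rw [h, if_pos (by norm_num), if_neg (by norm_num)]

/-- the invariant of the faces -/
private def ci (k : ℕ) : Core k → ZMod 10 × ZMod (2 * k)
  | Sum.inl a => cc k a
  | Sum.inr (i, j) => cc k (i.1 + ((sg (d2k k) j : ℤ) : ZMod 10), j)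

private lemma ci_inv (k : ℕ) (x : Core k) : ci k ((sig k * alp k) x) = ci k x := by
  rw [Perm.mul_apply]
  obtain ⟨i, j⟩ | ⟨i, j⟩ := x
  · by_cases h : i = 0
    · subst h
      rw [alp_zero, sig_inl]
      change cc k _ = cc k _
      rw [← cc_psi k (0, j)]
      congr 1
      unfold psi
      have h1 := sg_add (d2k k) j (e := 1) (Or.inl rfl)
      rw [Int.cast_one] at h1
      have h2 : sg d10 (0 : ZMod 10) = 1 := by decide
      simp only
      rw [h1, h2]
      push_cast
      ext
      · simp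
      · simp
    · rw [alp_ne k h, sig_inr]
      change cc k _ = cc k _
      rw [← cc_psi k (i, j)]
      congr 1
      unfold psi
      simp only
      rw [sg_add (d2k k) j (sg_cases d10 i)]
      push_cast
      ext
      · ring
      · rfl
  · rw [alp_inr, sig_inl]
    rfl

end aux62

theorem core (k : ℕ) (hk : 1 ≤ k) : GLE (cv k) (cw k) (4 * k) := by
  have hne : NeZero (2 * k) := ⟨by omega⟩
  have hc2k : Nat.card (ZMod (2 * k)) = 2 * k := Nat.card_zmod (2 * k)
  have hc9 : Nat.card {i : ZMod 10 // i ≠ 0} = 9 := by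
    rw [Nat.card_eq_fintype_card]
    decide
  have hc10 : Nat.card (ZMod 10) = 10 := Nat.card_zmod 10
  -- the cycles of `σ`
  have hσ : ∀ x y, (sig k).SameCycle x y ↔ cv k x = cv k y := by
    intro x y
    constructor
    · intro h
      refine inv_sameCycle (sig k) (cv k) ?_ h
      rintro (⟨i, j⟩ | ⟨i, j⟩) <;> rfl
    · intro h
      obtain ⟨i, j⟩ | ⟨i, j⟩ := x <;> obtain ⟨i', j'⟩ | ⟨i', j'⟩ := y
      · have hj : j = j' := Sum.inl.inj h
        subst hj
        refine step (P := fun z => (sig k).SameCycle (Sum.inl (i, j)) (Sum.inl (z, j)))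
          (Perm.SameCycle.refl _ _) (sg_cases (d2k k) j) ?_ i'
        intro z hz
        have := Perm.sameCycle_apply_right.2 hz
        rwa [sig_inl] at this
      · exact absurd h (by simp [cv])
      · exact absurd h (by simp [cv])
      · have hi : i = i' := Sum.inr.inj h
        subst hi
        refine step (P := fun z => (sig k).SameCycle (Sum.inr (i, j)) (Sum.inr (i, z)))
          (Perm.SameCycle.refl _ _) (sg_cases d10 i.1) ?_ j'
        intro z hz
        have := Perm.sameCycle_apply_right.2 hz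
        rwa [sig_inr] at this
  -- the cycles of `α`
  have hα : ∀ x y, (alp k).SameCycle x y ↔ cw k x = cw k y := by
    intro x y
    constructor
    · intro h
      refine inv_sameCycle (alp k) (cw k) ?_ h
      rintro (⟨i, j⟩ | ⟨i, j⟩)
      · by_cases hi : i = 0
        · subst hi
          rw [alp_zero]
          rfl
        · rw [alp_ne k hi]
          change some (i, j) = if i = 0 then none else some (i, j)
          rw [if_neg hi]
      · rw [alp_inr]
        change (if i.1 = 0 then none else some (i.1, j)) = some (i.1, j)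
        rw [if_neg i.2]
    · -- every element is in the cycle of an `inl`
      have h0 : ∀ j j', (alp k).SameCycle (Sum.inl (0, j)) (Sum.inl (0, j')) := by
        intro j j'
        refine step (P := fun z => (alp k).SameCycle (Sum.inl (0, j)) (Sum.inl (0, z)))
          (Perm.SameCycle.refl _ _) (e := 1) (Or.inl rfl) ?_ j'
        intro z hz
        have := Perm.sameCycle_apply_right.2 hz
        rw [alp_zero] at this
        rwa [Int.cast_one]
      have h1 : ∀ (i : {i : ZMod 10 // i ≠ 0}) j,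
          (alp k).SameCycle (Sum.inl (i.1, j)) (Sum.inr (i, j)) := by
        intro i j
        have := Perm.sameCycle_apply_right.2 (Perm.SameCycle.refl (alp k) (Sum.inl (i.1, j)))
        rwa [alp_ne k i.2] at this
      intro h
      obtain ⟨i, j⟩ | ⟨i, j⟩ := x <;> obtain ⟨i', j'⟩ | ⟨i', j'⟩ := y
      · change (if i = 0 then none else some (i, j)) = (if i' = 0 then none else some (i', j')) at h
        by_cases hi : i = 0
        · by_cases hi' : i' = 0
          · subst hi
            subst hi'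
            exact h0 j j'
          · rw [if_pos hi, if_neg hi'] at h
            exact absurd h (by simp)
        · by_cases hi' : i' = 0
          · rw [if_neg hi, if_pos hi'] at h
            exact absurd h (by simp)
          · rw [if_neg hi, if_neg hi', Option.some.injEq] at h
            rw [h]
      · change (if i = 0 then none else some (i, j)) = some (i'.1, j') at h
        by_cases hi : i = 0
        · rw [if_pos hi] at h
          exact absurd h (by simp)
        · rw [if_neg hi, Option.some.injEq] at h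
          rw [h]
          exact h1 i' j'
      · change some (i.1, j) = (if i' = 0 then none else some (i', j')) at h
        by_cases hi : i' = 0
        · rw [if_pos hi] at h
          exact absurd h (by simp)
        · rw [if_neg hi, Option.some.injEq] at h
          rw [← h]
          exact (h1 i j).symm
      · have h2 : (i.1, j) = (i'.1, j') := Option.some.inj h
        obtain ⟨h3, h4⟩ := Prod.mk.inj h2
        rw [Subtype.ext h3, h4]
  refine ⟨sig k, alp k, hσ, hα, ?_⟩
  -- connectedness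
  have hcomp : comp (sig k) (alp k) ≤ 1 := by
    unfold comp
    rw [Finite.card_le_one_iff_subsingleton]
    set r : Core k → Core k → Prop := fun x y => y = sig k x ∨ y = alp k x with hr
    have hq : ∀ x : Core k, Quot.mk r x = Quot.mk r (Sum.inl (0, 0)) := by
      have h1 : ∀ i j, Quot.mk r (Sum.inl (i, j)) = Quot.mk r (Sum.inl (0, 0)) := by
        have h2 : ∀ j, Quot.mk r (Sum.inl (0, j)) = Quot.mk r (Sum.inl (0, 0)) := by
          intro j
          refine step (P := fun z => Quot.mk r (Sum.inl (0, z)) = Quot.mk r (Sum.inl (0, 0)))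
            rfl (e := 1) (Or.inl rfl) ?_ j
          intro z hz
          have hr1 : r (Sum.inl (0, z)) (Sum.inl (0, z + ((1 : ℤ) : ZMod (2 * k)))) := by
            right
            rw [alp_zero, Int.cast_one]
          rw [← hz]
          exact (Quot.sound hr1).symm
        intro i j
        rw [← h2 j]
        refine step (P := fun z => Quot.mk r (Sum.inl (z, j)) = Quot.mk r (Sum.inl (0, j)))
          rfl (sg_cases (d2k k) j) ?_ i
        intro z hz
        have hr1 : r (Sum.inl (z, j)) (Sum.inl (z + ((sg (d2k k) j : ℤ) : ZMod 10), j)) := by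
          left
          rw [sig_inl]
        rw [← hz]
        exact (Quot.sound hr1).symm
      rintro (⟨i, j⟩ | ⟨i, j⟩)
      · exact h1 i j
      · have hr1 : r (Sum.inr (i, j)) (Sum.inl (i.1, j)) := by
          right
          rw [alp_inr]
        rw [← h1 i.1 j]
        exact Quot.sound hr1
    refine ⟨fun a b => ?_⟩
    obtain ⟨a, rfl⟩ := Quot.exists_rep a
    obtain ⟨b, rfl⟩ := Quot.exists_rep b
    rw [hq a, hq b]
  -- the number of cycles of `σ`
  have hcσ : 2 * k + 9 ≤ cyc (sig k) := by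
    rw [cyc_eq_range _ _ hσ]
    have h1 : Nat.card (ZMod (2 * k) ⊕ {i : ZMod 10 // i ≠ 0}) = 2 * k + 9 := by
      rw [Nat.card_sum, hc2k, hc9]
    rw [← h1]
    refine Nat.card_le_card_of_injective (fun z => (⟨z, ?_⟩ : Set.range (cv k))) ?_
    · obtain z | z := z
      · exact ⟨Sum.inl (0, z), rfl⟩
      · exact ⟨Sum.inr (z, 0), rfl⟩
    · intro a b hab
      exact congrArg Subtype.val hab
  have hcα : 1 + 9 * (2 * k) ≤ cyc (alp k) := by
    rw [cyc_eq_range _ _ hα]
    have h1 : Nat.card (Option ({i : ZMod 10 // i ≠ 0} × ZMod (2 * k))) = 1 + 9 * (2 * k) := by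
      rw [Finite.card_option, Nat.card_prod, hc2k, hc9, add_comm]
    rw [← h1]
    refine Nat.card_le_card_of_injective
      (fun z => (⟨z.map (fun y => (y.1.1, y.2)), ?_⟩ : Set.range (cw k))) ?_
    · obtain _ | z := z
      · exact ⟨Sum.inl (0, 0), rfl⟩
      · exact ⟨Sum.inr z, rfl⟩
    · intro a b hab
      have h2 : a.map (fun y : {i : ZMod 10 // i ≠ 0} × ZMod (2 * k) => (y.1.1, y.2)) =
        b.map (fun y : {i : ZMod 10 // i ≠ 0} × ZMod (2 * k) => (y.1.1, y.2)) :=
        congrArg Subtype.val hab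
      refine Option.map_injective ?_ h2
      rintro ⟨x, y⟩ ⟨x', y'⟩ hxy
      have h3 : (x : ZMod 10) = x' := congrArg Prod.fst hxy
      have h4 : y = y' := congrArg Prod.snd hxy
      rw [Subtype.ext h3, h4]
  -- the number of faces
  have hcφ : 5 * (2 * k) ≤ cyc (sig k * alp k) := by
    refine le_trans ?_ (le_cyc (sig k * alp k) (ci k) (ci_inv k))
    have h1 : Nat.card (Fin 5 × ZMod (2 * k)) = 5 * (2 * k) := by
      rw [Nat.card_prod, hc2k, Nat.card_fin]
    rw [← h1]
    refine Nat.card_le_card_of_injective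
      (fun z => (⟨ci k (Sum.inl (2 * (z.1.1 : ZMod 10), z.2)), _, rfl⟩ : Set.range (ci k))) ?_
    have hs : ∀ a : Fin 5, sg d10 (2 * ((a : ℕ) : ZMod 10)) = 1 := by decide
    have hi : ∀ a b : Fin 5, 2 * ((a : ℕ) : ZMod 10) = 2 * ((b : ℕ) : ZMod 10) → a = b := by
      decide
    rintro ⟨a, j⟩ ⟨b, j'⟩ hab
    have h2 : ci k (Sum.inl (2 * ((a : ℕ) : ZMod 10), j)) =
      ci k (Sum.inl (2 * ((b : ℕ) : ZMod 10), j')) := congrArg Subtype.val hab
    change cc k _ = cc k _ at h2
    unfold cc at h2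
    rw [if_pos (hs a), if_pos (hs b)] at h2
    obtain ⟨h3, h4⟩ := Prod.mk.inj h2
    rw [hi a b h3, h4]
  have hcard : Nat.card (Core k) = 10 * (2 * k) + 9 * (2 * k) := by
    rw [Nat.card_sum, Nat.card_prod, Nat.card_prod, hc2k, hc9, hc10]
  rw [hcard]
  omega

end Pool.Agent.Helper33.RG
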