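import Pool.Agent.Helper33.RG.DEL

/-!
# Block RG-RES: restriction and extension of rotation systems (MP_1f20e3_co)

PROOF. `GLE v w g` says: there are `σ, α` with the fibres of `v`, `w` as cycles and `g2 σ α ≤ 2 g`.
(1) `GLE` is invariant under equivalences `X ≃ Y` and depends only on the kernels of `v`, `w`. (2) One step, restriction: `X = Option Y`: `removeNone σ`, `removeNone α` have the fibres of `v ∘ some`, `w ∘ some` as cycles (`SameCycle` of `removeNone σ` is `SameCycle` of `σ` for elements of `Y`), `g2` does not increase (`del`).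
(3) One step, extension: `σ'`, `α'` on `Y` given for `v ∘ some`, `w ∘ some`. If some `y₀ ∈ Y` has `v (some y₀) = v none` put `σ = swap none (some y₀) * optionCongr σ'`, else `σ = optionCongr σ'`; then `removeNone σ = σ'`
and the cycles of `σ` are the fibres of `v`. Same for `α`. `g2 σ α ≤ g2 σ' α' + 2`, and `≤ g2 σ' α'` if `none` is alone in its `v`-fibre or in its `w`-fibre (`σ none = none` or `α none = none`).
(4) General injective `f : Y → X`: induction on `card X - card Y` (if `f` is not surjective choose `x ∉ range f`, `X ≃ Option {z // z ≠ x}`).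
`GLE.extend`: `GLE v w (g + k)` if `|X| ≤ |Y| + k`. `GLE.extend_leaf`: one more element `x`, alone in its `w`-fibre (or `v`-fibre): same `g`. `GLE.exists`: start with the empty type: `GLE v w |X|`.
-/

set_option autoImplicit false

namespace Pool.Agent.Helper33.RG

open Equiv

theorem gle_iff {X A B : Type} {v : X → A} {w : X → B} {g : ℕ} :
    GLE v w g ↔ ∃ σ α : Perm X, (∀ x y, σ.SameCycle x y ↔ v x = v y) ∧
      (∀ x y, α.SameCycle x y ↔ w x = w y) ∧ g2 σ α ≤ 2 * g := by
  unfold GLE g2
  refine exists_congr fun σ => exists_congr fun α => and_congr_right fun _ =>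
    and_congr_right fun _ => ?_
  constructor
  · intro h
    have h1 : ((Nat.card X + 2 * comp σ α : ℕ) : ℤ) ≤
        ((cyc σ + cyc α + cyc (σ * α) + 2 * g : ℕ) : ℤ) := by exact_mod_cast h
    push_cast at h1
    linarith
  · intro h
    have h1 : ((Nat.card X + 2 * comp σ α : ℕ) : ℤ) ≤
        ((cyc σ + cyc α + cyc (σ * α) + 2 * g : ℕ) : ℤ) := by
      push_cast
      linarith
    exact_mod_cast h1

theorem GLE.mono {X A B : Type} {v : X → A} {w : X → B} {g g' : ℕ} (h : GLE v w g)
    (hg : g ≤ g') : GLE v w g' := by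
  obtain ⟨σ, α, h1, h2, h3⟩ := h
  exact ⟨σ, α, h1, h2, by omega⟩

theorem GLE.congr {X Y A B A' B' : Type} {v : X → A} {w : X → B} {g : ℕ} (h : GLE v w g)
    (e : Y ≃ X) {v' : Y → A'} {w' : Y → B'} (hv : ∀ x y, v' x = v' y ↔ v (e x) = v (e y))
    (hw : ∀ x y, w' x = w' y ↔ w (e x) = w (e y)) : GLE v' w' g := by
  obtain ⟨σ, α, h1, h2, h3⟩ := h
  have hsc : ∀ (τ : Perm X) (x y : Y), (e.symm.permCongrHom τ).SameCycle x y ↔
      τ.SameCycle (e x) (e y) := by
    intro τ x y
    refine exists_congr fun i => ?_
    rw [← map_zpow]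
    show e.symm ((τ ^ i) (e x)) = y ↔ _
    rw [Equiv.symm_apply_eq]
  have hcyc : ∀ τ : Perm X, cyc (e.symm.permCongrHom τ) = cyc τ := by
    intro τ
    refine Nat.card_congr (Quot.congr e fun a b => ?_)
    show b = e.symm (τ (e a)) ↔ _
    rw [Equiv.eq_symm_apply]
  have hcomp : comp (e.symm.permCongrHom σ) (e.symm.permCongrHom α) = comp σ α := by
    refine Nat.card_congr (Quot.congr e fun a b => ?_)
    show b = e.symm (σ (e a)) ∨ b = e.symm (α (e a)) ↔ _
    rw [Equiv.eq_symm_apply, Equiv.eq_symm_apply]
  refine ⟨e.symm.permCongrHom σ, e.symm.permCongrHom α, ?_, ?_, ?_⟩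
  · intro x y
    rw [hsc, h1, hv]
  · intro x y
    rw [hsc, h2, hw]
  · rw [← map_mul, hcyc, hcyc, hcyc, hcomp, Nat.card_congr e]
    exact h3

theorem sameCycle_removeNone {Y : Type} [Finite Y] (σ : Perm (Option Y)) (y z : Y) :
    Perm.SameCycle (removeNone σ) y z ↔ σ.SameCycle (some y) (some z) := by
  classical
  constructor
  · intro h
    obtain ⟨i, hlt, hi⟩ := h.exists_pow_eq'
    rw [← hi]
    have hstep : ∀ y : Y, σ.SameCycle (some y) (some (removeNone σ y)) := by
      intro y
      by_cases h : σ (some y) = none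
      · rw [removeNone_none σ h, ← h]
        exact (Perm.sameCycle_apply_right).2 ((Perm.sameCycle_apply_right).2
          (Perm.SameCycle.refl _ _))
      · obtain ⟨z, hz⟩ := Option.ne_none_iff_exists'.1 h
        rw [removeNone_some σ ⟨z, hz⟩]
        exact (Perm.sameCycle_apply_right).2 (Perm.SameCycle.refl _ _)
    clear hi h hlt
    induction i with
    | zero => exact Perm.SameCycle.refl _ _
    | succ n ih =>
      have h1 : ((removeNone σ : Perm Y) ^ (n + 1)) y =
          removeNone σ (((removeNone σ : Perm Y) ^ n) y) := by rw [pow_succ']; rfl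
      rw [h1]
      exact ih.trans (hstep _)
  · intro h
    have hσ := removeNone_decomp σ
    set σ' : Perm Y := removeNone σ with hσ'
    set p := σ none with hp
    let F : Option Y → Option (Quot fun x y : Y => y = σ' x) := fun o => match o with
      | none => p.map (Quot.mk _)
      | some y => some (Quot.mk _ y)
    have hFs : ∀ x, F (swap none p x) = F x := by
      intro x
      have hnp : F p = F none := by
        rcases hpp : p with _ | p₀
        · rfl
        · show some _ = p.map _
          rw [hpp]; rfl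
      by_cases h1 : x = none
      · rw [h1, swap_apply_left, hnp]
      · by_cases h2 : x = p
        · rw [h2, swap_apply_right, hnp]
        · rw [swap_apply_of_ne_of_ne h1 h2]
    have hF : ∀ x, F (σ x) = F x := by
      intro x
      rw [hσ, Perm.mul_apply, hFs]
      cases x with
      | none => rfl
      | some y =>
        show some (Quot.mk _ (σ' y)) = some (Quot.mk _ y)
        congr 1
        exact (Quot.sound (r := fun x y : Y => y = σ' x) rfl).symm
    have h1 := inv_of_sameCycle σ F hF h
    have h2 : Quot.mk (fun x y : Y => y = σ' x) y = Quot.mk (fun x y : Y => y = σ' x) z :=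
      Option.some.inj h1
    exact (eqvGen_iff σ' y z).1 (Quot.eqvGen_exact h2)

theorem ext_perm {Y A : Type} [Finite Y] (v : Option Y → A) (σ' : Perm Y)
    (h : ∀ x y, σ'.SameCycle x y ↔ v (some x) = v (some y)) :
    ∃ σ : Perm (Option Y), removeNone σ = σ' ∧ (∀ x y, σ.SameCycle x y ↔ v x = v y) ∧
      ((∀ y, v (some y) ≠ v none) → σ none = none) := by
  classical
  have key : ∀ p : Option Y, removeNone (swap none p * optionCongr σ') = σ' := by
    intro p
    have := (Perm.decomposeOption (α := Y)).right_inv (p, σ')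
    exact (Prod.ext_iff.1 this).2
  have fin : ∀ p : Option Y, (∀ y, p = some y → v (some y) = v none) →
      (p = none → ∀ y, v (some y) ≠ v none) →
      ∀ x y, (swap none p * optionCongr σ').SameCycle x y ↔ v x = v y := by
    intro p hp1 hp2
    have hss : ∀ x y : Y, Perm.SameCycle (swap none p * optionCongr σ') (some x) (some y) ↔
        v (some x) = v (some y) := by
      intro x y
      rw [← sameCycle_removeNone, key]
      exact h x y
    have hns : ∀ y : Y, Perm.SameCycle (swap none p * optionCongr σ') none (some y) ↔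
        v none = v (some y) := by
      intro y
      rcases p with _ | p₀
      · rw [swap_self]
        constructor
        · intro h1
          exact absurd h1 (not_sameCycle_none σ' y)
        · intro h1
          exact absurd h1.symm (hp2 rfl y)
      · have h1 : Perm.SameCycle (swap none (some p₀) * optionCongr σ') none (some p₀) :=
          ((cyc_decomp σ' (some p₀)).2 (by simp)).2
        have h2 := hp1 p₀ rfl
        rw [← h2, ← hss]
        exact ⟨fun h3 => h1.symm.trans h3, fun h3 => h1.trans h3⟩
    intro x y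
    rcases x with _ | x <;> rcases y with _ | y
    · exact ⟨fun _ => rfl, fun _ => Perm.SameCycle.refl _ _⟩
    · exact hns y
    · rw [Perm.sameCycle_comm, hns x]
      exact eq_comm
    · exact hss x y
  by_cases hex : ∃ y₀, v (some y₀) = v none
  · obtain ⟨y₀, hy₀⟩ := hex
    refine ⟨swap none (some y₀) * optionCongr σ', key _, fin _ ?_ ?_, ?_⟩
    · intro y hy
      rw [← Option.some.inj hy]; exact hy₀
    · intro h1
      exact absurd h1 (by simp)
    · intro h1
      exact absurd hy₀ (h1 y₀)
  · push Not at hex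
    refine ⟨swap none none * optionCongr σ', key _, fin _ ?_ (fun _ => hex), ?_⟩
    · intro y hy
      exact absurd hy (by simp)
    · intro _
      rw [swap_self]
      rfl

theorem GLE.restrict_one {X A B : Type} [Finite X] {v : X → A} {w : X → B} {g : ℕ}
    (h : GLE v w g) (x₀ : X) :
    GLE (fun z : {z // z ≠ x₀} => v z) (fun z : {z // z ≠ x₀} => w z) g := by
  classical
  have h1 : GLE (fun o => v (optionSubtypeNe x₀ o)) (fun o => w (optionSubtypeNe x₀ o)) g :=
    h.congr (optionSubtypeNe x₀) (fun _ _ => Iff.rfl) (fun _ _ => Iff.rfl)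
  rw [gle_iff] at h1 ⊢
  obtain ⟨σ, α, h2, h3, h4⟩ := h1
  refine ⟨removeNone σ, removeNone α, ?_, ?_, (del σ α).1.trans h4⟩
  · intro x y
    rw [sameCycle_removeNone, h2]
    simp
  · intro x y
    rw [sameCycle_removeNone, h3]
    simp

theorem GLE.extend_one {X A B : Type} [Finite X] {v : X → A} {w : X → B} {g : ℕ} (x₀ : X)
    (h : GLE (fun z : {z // z ≠ x₀} => v z) (fun z : {z // z ≠ x₀} => w z) g) :
    GLE v w (g + 1) ∧ (((∀ x, x ≠ x₀ → v x ≠ v x₀) ∨ (∀ x, x ≠ x₀ → w x ≠ w x₀)) →
      GLE v w g) := by
  classical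
  obtain ⟨σ', α', h2, h3, h4⟩ := gle_iff.1 h
  obtain ⟨σ, s1, s2, s3⟩ := ext_perm (fun o => v (optionSubtypeNe x₀ o)) σ' (by
    intro x y; rw [h2]; simp)
  obtain ⟨α, t1, t2, t3⟩ := ext_perm (fun o => w (optionSubtypeNe x₀ o)) α' (by
    intro x y; rw [h3]; simp)
  have hd := del σ α
  rw [s1, t1] at hd
  have back : ∀ g', g2 σ α ≤ 2 * (g' : ℕ) → GLE v w g' := by
    intro g' hg'
    have h5 : GLE (fun o => v (optionSubtypeNe x₀ o)) (fun o => w (optionSubtypeNe x₀ o)) g' :=
      gle_iff.2 ⟨σ, α, s2, t2, hg'⟩
    refine h5.congr (optionSubtypeNe x₀).symm ?_ ?_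
    · intro x y
      simp only [Equiv.apply_symm_apply]
    · intro x y
      simp only [Equiv.apply_symm_apply]
  constructor
  · refine back _ ?_
    push_cast
    linarith [hd.2.1]
  · intro hl
    refine back _ ((hd.2.2 ?_).trans h4)
    rcases hl with hl | hl
    · left
      refine s3 fun y => ?_
      simpa using hl y.1 y.2
    · right
      refine t3 fun y => ?_
      simpa using hl y.1 y.2

theorem GLE.restrict {X Y A B A' B' : Type} [Finite X] {v : X → A} {w : X → B} {g : ℕ}
    (h : GLE v w g) (f : Y → X) (hf : Function.Injective f) (v' : Y → A') (w' : Y → B')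
    (hv : ∀ x y, v' x = v' y ↔ v (f x) = v (f y)) (hw : ∀ x y, w' x = w' y ↔ w (f x) = w (f y)) :
    GLE v' w' g := by
  obtain ⟨n, hn⟩ : ∃ n, Nat.card X = n := ⟨_, rfl⟩
  induction n generalizing X with
  | zero =>
    have hX : IsEmpty X := by
      rcases Nat.card_eq_zero.1 hn with h | h
      · exact h
      · exact absurd h (not_infinite_iff_finite.2 inferInstance)
    exact h.congr (Equiv.ofBijective f ⟨hf, fun x => isEmptyElim x⟩) hv hw
  | succ n ih =>
    by_cases hs : Function.Surjective f
    · exact h.congr (Equiv.ofBijective f ⟨hf, hs⟩) hv hw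
    · have hs' : ∃ x, ∀ y, f y ≠ x := by
        by_contra hcon
        push Not at hcon
        exact hs hcon
      obtain ⟨x₀, hx₀⟩ := hs'
      classical
      have hcard : Nat.card {z // z ≠ x₀} = n := by
        have h1 := Nat.card_congr (optionSubtypeNe x₀)
        rw [Finite.card_option] at h1
        omega
      exact ih (h.restrict_one x₀) (fun y => ⟨f y, hx₀ y⟩)
        (fun y z hyz => hf (Subtype.ext_iff.1 hyz)) hv hw hcard

theorem GLE.extend {X Y A B A' B' : Type} [Finite X] {v : X → A} {w : X → B} {v' : Y → A'}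
    {w' : Y → B'} {g k : ℕ} (f : Y → X) (hf : Function.Injective f)
    (hv : ∀ x y, v' x = v' y ↔ v (f x) = v (f y)) (hw : ∀ x y, w' x = w' y ↔ w (f x) = w (f y))
    (h : GLE v' w' g) (hk : Nat.card X ≤ Nat.card Y + k) : GLE v w (g + k) := by
  obtain ⟨n, hn⟩ : ∃ n, Nat.card X = n := ⟨_, rfl⟩
  induction n generalizing X k with
  | zero =>
    have hX : IsEmpty X := by
      rcases Nat.card_eq_zero.1 hn with h | h
      · exact h
      · exact absurd h (not_infinite_iff_finite.2 inferInstance)
    have e := Equiv.ofBijective f ⟨hf, fun x => isEmptyElim x⟩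
    refine (h.congr e.symm (v' := v) (w' := w) (fun x => isEmptyElim x)
      (fun x => isEmptyElim x)).mono (by omega)
  | succ n ih =>
    by_cases hs : Function.Surjective f
    · refine (h.congr (Equiv.ofBijective f ⟨hf, hs⟩).symm (v' := v) (w' := w) ?_ ?_).mono
        (by omega)
      · intro x y
        rw [hv]
        rw [Equiv.ofBijective_apply_symm_apply f ⟨hf, hs⟩, Equiv.ofBijective_apply_symm_apply f ⟨hf, hs⟩]
      · intro x y
        rw [hw]
        rw [Equiv.ofBijective_apply_symm_apply f ⟨hf, hs⟩, Equiv.ofBijective_apply_symm_apply f ⟨hf, hs⟩]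
    · have hs' : ∃ x, ∀ y, f y ≠ x := by
        by_contra hcon
        push Not at hcon
        exact hs hcon
      obtain ⟨x₀, hx₀⟩ := hs'
      classical
      have hcard : Nat.card {z // z ≠ x₀} = n := by
        have h1 := Nat.card_congr (optionSubtypeNe x₀)
        rw [Finite.card_option] at h1
        omega
      have hlt : Nat.card Y ≤ n := by
        rw [← hcard]
        exact Nat.card_le_card_of_injective (fun y => (⟨f y, hx₀ y⟩ : {z // z ≠ x₀}))
          (fun y z hyz => hf (Subtype.ext_iff.1 hyz))
      obtain ⟨k', rfl⟩ : ∃ k', k = k' + 1 := ⟨k - 1, by omega⟩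
      have h1 := ih (v := fun z : {z // z ≠ x₀} => v z) (w := fun z : {z // z ≠ x₀} => w z)
        (k := k') (fun y => ⟨f y, hx₀ y⟩)
        (fun y z hyz => hf (Subtype.ext_iff.1 hyz)) hv hw (by omega) hcard
      have h2 := (GLE.extend_one x₀ h1).1
      rwa [add_assoc] at h2

/-- Adding one incidence `x₀` which is alone at its vertex or in its hyperedge. -/
theorem GLE.extend_leaf {X Y A B A' B' : Type} [Finite X] {v : X → A} {w : X → B} {v' : Y → A'}
    {w' : Y → B'} {g : ℕ} (f : Y → X) (hf : Function.Injective f)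
    (hv : ∀ x y, v' x = v' y ↔ v (f x) = v (f y)) (hw : ∀ x y, w' x = w' y ↔ w (f x) = w (f y))
    (h : GLE v' w' g) (x₀ : X) (hx : ∀ x, x ≠ x₀ → x ∈ Set.range f)
    (hl : (∀ x, x ≠ x₀ → v x ≠ v x₀) ∨ (∀ x, x ≠ x₀ → w x ≠ w x₀)) : GLE v w g := by
  by_cases hx₀ : x₀ ∈ Set.range f
  · have hs : Function.Surjective f := by
      intro x
      by_cases h1 : x = x₀
      · rw [h1]; exact hx₀
      · exact hx x h1
    refine h.congr (Equiv.ofBijective f ⟨hf, hs⟩).symm ?_ ?_
    · intro x y
      rw [hv]
      rw [Equiv.ofBijective_apply_symm_apply f ⟨hf, hs⟩, Equiv.ofBijective_apply_symm_apply f ⟨hf, hs⟩]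
    · intro x y
      rw [hw]
      rw [Equiv.ofBijective_apply_symm_apply f ⟨hf, hs⟩, Equiv.ofBijective_apply_symm_apply f ⟨hf, hs⟩]
  · have hne : ∀ y, f y ≠ x₀ := fun y hy => hx₀ ⟨y, hy⟩
    have hb : Function.Bijective (fun y => (⟨f y, hne y⟩ : {z // z ≠ x₀})) := by
      refine ⟨fun y z hyz => hf (Subtype.ext_iff.1 hyz), ?_⟩
      rintro ⟨x, hx1⟩
      obtain ⟨y, rfl⟩ := hx x hx1
      exact ⟨y, rfl⟩
    have hfe : ∀ z : {z // z ≠ x₀}, f ((Equiv.ofBijective _ hb).symm z) = z.1 := by
      intro z
      have := Equiv.ofBijective_apply_symm_apply _ hb z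
      exact Subtype.ext_iff.1 this
    have h1 : GLE (fun z : {z // z ≠ x₀} => v z) (fun z : {z // z ≠ x₀} => w z) g := by
      refine h.congr (Equiv.ofBijective _ hb).symm ?_ ?_
      · intro x y
        rw [hv, hfe, hfe]
      · intro x y
        rw [hw, hfe, hfe]
    exact (GLE.extend_one x₀ h1).2 hl

theorem GLE.exists {X A B : Type} [Finite X] (v : X → A) (w : X → B) :
    GLE v w (Nat.card X) := by
  have h : GLE (fun x : Empty => x) (fun x : Empty => x) 0 := by
    refine ⟨1, 1, fun x => isEmptyElim x, fun x => isEmptyElim x, ?_⟩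
    have h1 : Nat.card Empty = 0 := by simp
    have h2 : comp (1 : Perm Empty) 1 = 0 := by
      unfold comp
      have : IsEmpty (Quot fun x y : Empty => y = (1 : Perm Empty) x ∨ y = (1 : Perm Empty) x) := by
        constructor
        rintro ⟨x⟩
        exact isEmptyElim x
      exact Nat.card_of_isEmpty
    omega
  have h1 := GLE.extend (v := v) (w := w) (k := Nat.card X) (fun x : Empty => isEmptyElim x)
    (fun x => isEmptyElim x) (fun x => isEmptyElim x) (fun x => isEmptyElim x) h (by omega)
  rwa [zero_add] at h1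

end Pool.Agent.Helper33.RG
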