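import Pool.Agent.Helper33.RG.EUL
import Pool.Agent.Helper33.RG.RES
import Pool.Agent.Helper33.RG.CDefs

/-!
# Block RG-COST: the genus bound for the hubs (MP_1f20e3_co)

`cost_bound`: `J` a set of hyperedges of size `≥ 3` outside of `U`, such that a vertex outside of `U` is in at most one of them. `∑_{j ∈ J} #{(v,u) : v ∈ e j \ U, u ∈ U \ e j, adjacent} ≤ ∑_{j ∈ J} |e j \ U| + 4 g + 2 |U| + 2 |J| + |U|^3 |J|`.

PROOF. If `J` is empty: trivial. Let `T = ⋃_{j ∈ J} (e j \ U)` (disjoint union), `t = |T|`. `E₁` = the hyperedges `i ∉ J` with exactly one vertex in `U` and at least one vertex in `T`. Let `X'` be the set of the incidences: `(v, j)`, `j ∈ J`, `v ∈ e j \ U`; and `(v, i)`, `i ∈ E₁`, `v ∈ T ∩ e i`; and `(u, i)`, `i ∈ E₁`, `u` the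
vertex of `e i` in `U`. With `I` = number of the incidences of the second kind: `|X'| = t + I + |E₁|`. By `GLE.restrict` (file RES) `X'` with the vertex and hyperedge maps has `GLE .. g`, with permutations `σ, α` of `X'`, `φ = σ α`. `cyc σ ≤ |U| + t`, `cyc α = |J| + |E₁|` (or `≤`) (`cyc_eq_range`), `comp ≥ 1`.
Every orbit of `φ` contains at least two elements of the set `A` of incidences with vertex in `T` (`|A| = t + I`): as in `face_aux` (`IsAdj` for `e`): `α x ≠ x` for all `x ∈ X'` (all these hyperedges have at least two incidences in `X'`), the vertices of `x` and `φ x` are different. If the vertex of `x` is in `U` then the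
vertex of `φ x` (a different vertex of the same hyperedge, which has only one vertex in `U`) is in `T`. So if `x ∈ A`: if `φ x ∈ A` then `x, φ x` are two elements of `A` in the orbit; if `φ x ∉ A` then `φ (φ x) ∈ A`, and if it is equal to `x` then by `face_aux` `α x = φ x`, `σ (α x) = α x`, and this gives no contradiction at once (a hub may have degree one), but
`x = φ (φ x) = σ (α (α x))`.. : `y = φ x = α x`, and `φ y = x`, the same argument for `y` (`φ (φ y) = y`) gives `α y = φ y = x` and `σ x = x`: so the vertex of `x`, in `T`, has only one incidence in `X'`, but it has the one with its `j ∈ J` and the one with the hyperedge of `y`, which is not in `J` (its vertex is in `U`, incidences of `X'` at hubs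
are in `E₁`): contradiction. If `x ∉ A` then `φ x ∈ A`, in the same orbit. So `2 cyc φ ≤ t + I` (`cyc_mul_le`). So `t + I + |E₁| + 2 ≤ |U| + t + |J| + |E₁| + (t + I)/2 + 2 g`, `I ≤ t + 2|U| + 2|J| + 4 g`. Finally the pairs `(v,u)`, `v ∈ e j \ U`, `u ∈ U \ e j`, adjacent: their hyperedge `i` is not in `J` (`v` is only in `e j`, `u ∉ e j`). If it
has exactly one vertex in `U` then `(v, i)` is counted in `I`, and `(v,i)` determines `u`. Otherwise `i` is one of at most `|U|^2` hyperedges (a pair of elements of `U` is in at most one hyperedge), it contains at most one vertex of every `e j \ U`, so it gives at most `|U| |J|` pairs.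
-/

set_option autoImplicit false

namespace Pool.Agent.Helper33.RG

open Classical Finset

private theorem fix23 {X : Type} {π : Equiv.Perm X} {x y : X} (h : π x = x)
    (hs : π.SameCycle x y) : y = x := by
  obtain ⟨n, rfl⟩ := hs
  exact Equiv.Perm.zpow_apply_eq_self_of_apply_eq_self h n

/-- Every face contains two incidences at vertices of `T`. -/
private theorem faces23 {X A B : Type} [Finite X] (v : X → A) (w : X → B)
    (hinj : ∀ x y, v x = v y → w x = w y → x = y)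
    (hlin : ∀ x x' y y', w x = w x' → w y = w y' → v x = v y → v x' = v y' → v x ≠ v x' →
      w x = w y)
    (σ α : Equiv.Perm X) (hσ : ∀ x y, σ.SameCycle x y ↔ v x = v y)
    (hα : ∀ x y, α.SameCycle x y ↔ w x = w y) (T U : Set A)
    (hTU : ∀ x, v x ∈ T ∨ v x ∈ U) (h1 : ∀ x, ∃ y, w y = w x ∧ v y ≠ v x)
    (h2 : ∀ x y, w x = w y → v x ∈ U → v y ∈ U → v x = v y)
    (h3 : ∀ x y, w x = w y → v x ∈ T → v y ∈ U → ∃ z, v z = v x ∧ w z ≠ w x) :
    2 * cyc (σ * α) ≤ Nat.card {x : X | v x ∈ T} := by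
  have hαne : ∀ x, α x ≠ x := by
    intro x hx
    obtain ⟨y, hy1, hy2⟩ := h1 x
    exact hy2 (congrArg v (fix23 hx ((hα x y).2 hy1.symm)))
  have hface := fun x => face_aux v w hinj hlin σ α hσ hα x
  have hvα : ∀ x, v (σ (α x)) = v (α x) := fun x =>
    ((hσ (α x) (σ (α x))).1 ⟨1, by simp⟩).symm
  have hwα : ∀ x, w (α x) = w x := fun x => ((hα x (α x)).1 ⟨1, by simp⟩).symm
  have hvne : ∀ x, v x ≠ v (σ (α x)) := fun x => (hface x).1 (hαne x)
  have hUT : ∀ x, v x ∈ U → v (σ (α x)) ∈ T := by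
    intro x hx
    rw [hvα]
    refine (hTU (α x)).resolve_right fun h4 => ?_
    have := h2 x (α x) (hwα x).symm hx h4
    rw [← hvα] at this
    exact hvne x this
  have hstep : ∀ x, (σ * α).SameCycle x (σ (α x)) := fun x => ⟨1, by simp⟩
  have key : ∀ x, v x ∈ T → ∃ f : Fin 2 → X, Function.Injective f ∧
      ∀ i, f i ∈ {x : X | v x ∈ T} ∧ (σ * α).SameCycle x (f i) := by
    intro x hx
    by_cases h4 : v (σ (α x)) ∈ T
    · refine ⟨![x, σ (α x)], ?_, ?_⟩
      · intro i j hij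
        fin_cases i <;> fin_cases j <;> simp at hij ⊢
        · exact hvne x (congrArg v hij)
        · exact hvne x (congrArg v hij.symm)
      · intro i
        fin_cases i
        · exact ⟨hx, Equiv.Perm.SameCycle.refl _ _⟩
        · exact ⟨h4, hstep x⟩
    · have h5 : v (σ (α x)) ∈ U := (hTU _).resolve_left h4
      have h6 : v (σ (α (σ (α x)))) ∈ T := hUT _ h5
      have h7 : σ (α (σ (α x))) ≠ x := by
        intro h8
        have a1 : α x = σ (α x) := (hface x).2 (hαne x) (hαne _) h8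
        have a2 : α (σ (α x)) = σ (α (σ (α x))) :=
          (hface (σ (α x))).2 (hαne _) (hαne _) (by rw [h8])
        have a3 : α (σ (α x)) = x := a2.trans h8
        have a4 : σ x = x := by rw [a3] at h8; exact h8
        have a5 : w x = w (σ (α x)) := by rw [← a1]; exact (hwα x).symm
        obtain ⟨z, hz1, hz2⟩ := h3 x (σ (α x)) a5 hx h5
        exact hz2 (congrArg w (fix23 a4 ((hσ x z).2 hz1.symm)))
      refine ⟨![x, σ (α (σ (α x)))], ?_, ?_⟩
      · intro i j hij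
        fin_cases i <;> fin_cases j <;> simp at hij ⊢
        · exact h7 hij.symm
        · exact h7 hij
      · intro i
        fin_cases i
        · exact ⟨hx, Equiv.Perm.SameCycle.refl _ _⟩
        · exact ⟨h6, (hstep x).trans (hstep _)⟩
  apply cyc_mul_le
  intro x
  rcases hTU x with hx | hx
  · exact key x hx
  · obtain ⟨f, hf1, hf2⟩ := key _ (hUT x hx)
    exact ⟨f, hf1, fun i => ⟨(hf2 i).1, (hstep x).trans (hf2 i).2⟩⟩

/-- Two different vertices are in at most one hyperedge. -/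
private theorem uniq23 {V E : Type} {G : SimpleGraph V} {e : E → Finset V} (he : IsAdj e G)
    {a b : V} (hab : a ≠ b) {i j : E} (h1 : a ∈ e i) (h2 : b ∈ e i) (h3 : a ∈ e j)
    (h4 : b ∈ e j) : i = j := by
  by_cases hG : G.Adj a b
  · obtain ⟨l, _, hl⟩ := (he a b hab).1 hG
    rw [hl i ⟨h1, h2⟩, hl j ⟨h3, h4⟩]
  · exact absurd ⟨h1, h2⟩ ((he a b hab).2 hG i)

theorem cost_bound {V E : Type} [Fintype V] [Fintype E] {G : SimpleGraph V} {e : E → Finset V}
    (he : IsAdj e G) {g : ℕ} (hg : GenusLE e g) (U : Finset V) (J : Finset E)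
    (h3 : ∀ j ∈ J, 3 ≤ (e j \ U).card)
    (ht : ∀ i ∈ J, ∀ j ∈ J, i ≠ j → ∀ v, v ∈ e i → v ∈ e j → v ∈ U) :
    ∑ j ∈ J, ∑ v ∈ e j \ U, ((U \ e j).filter fun x => G.Adj v x).card ≤
      ∑ j ∈ J, (e j \ U).card + 4 * g + 2 * U.card + 2 * J.card + U.card ^ 3 * J.card := by
  rcases J.eq_empty_or_nonempty with rfl | ⟨j₀, hj₀⟩
  · simp
  set T : Finset V := J.biUnion fun j => e j \ U with hT
  set E1 : Finset E := univ.filter fun i => i ∉ J ∧ (e i ∩ U).card = 1 ∧ (e i ∩ T).Nonempty with hE1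
  have hTU : ∀ v ∈ T, v ∉ U := by
    intro v hv
    obtain ⟨j, _, h1⟩ := mem_biUnion.1 hv
    exact (mem_sdiff.1 h1).2
  have hTJ : ∀ v ∈ T, ∃ j ∈ J, v ∈ e j := by
    intro v hv
    obtain ⟨j, hj, h1⟩ := mem_biUnion.1 hv
    exact ⟨j, hj, (mem_sdiff.1 h1).1⟩
  set F1 : Finset (V × E) := univ.filter fun x => x.2 ∈ J ∧ x.1 ∈ e x.2 ∧ x.1 ∉ U with hF1
  set F2 : Finset (V × E) := univ.filter fun x => x.2 ∈ E1 ∧ x.1 ∈ e x.2 ∧ x.1 ∈ T with hF2
  set F3 : Finset (V × E) := univ.filter fun x => x.2 ∈ E1 ∧ x.1 ∈ e x.2 ∧ x.1 ∈ U with hF3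
  set F : Finset (V × E) := F1 ∪ F2 ∪ F3 with hF
  have mF1 : ∀ x, x ∈ F1 ↔ x.2 ∈ J ∧ x.1 ∈ e x.2 ∧ x.1 ∉ U := fun x => by
    rw [hF1, mem_filter]; simp
  have mF2 : ∀ x, x ∈ F2 ↔ x.2 ∈ E1 ∧ x.1 ∈ e x.2 ∧ x.1 ∈ T := fun x => by
    rw [hF2, mem_filter]; simp
  have mF3 : ∀ x, x ∈ F3 ↔ x.2 ∈ E1 ∧ x.1 ∈ e x.2 ∧ x.1 ∈ U := fun x => by
    rw [hF3, mem_filter]; simp
  have mE1 : ∀ i, i ∈ E1 ↔ i ∉ J ∧ (e i ∩ U).card = 1 ∧ (e i ∩ T).Nonempty := fun i => by
    rw [hE1, mem_filter]; simp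
  have mF : ∀ x, x ∈ F ↔ x ∈ F1 ∨ x ∈ F2 ∨ x ∈ F3 := fun x => by
    rw [hF, mem_union, mem_union, or_assoc]
  have hFe : ∀ x ∈ F, x.1 ∈ e x.2 := by
    intro x hx
    rcases (mF x).1 hx with h | h | h
    · exact ((mF1 x).1 h).2.1
    · exact ((mF2 x).1 h).2.1
    · exact ((mF3 x).1 h).2.1
  have hF1T : ∀ x ∈ F1, x.1 ∈ T := by
    intro x hx
    obtain ⟨h1, h2, h4⟩ := (mF1 x).1 hx
    exact mem_biUnion.2 ⟨x.2, h1, mem_sdiff.2 ⟨h2, h4⟩⟩
  have hFT : ∀ x ∈ F, x.1 ∈ T ∨ x.1 ∈ U := by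
    intro x hx
    rcases (mF x).1 hx with h | h | h
    · exact Or.inl (hF1T x h)
    · exact Or.inl ((mF2 x).1 h).2.2
    · exact Or.inr ((mF3 x).1 h).2.2
  have hFU : ∀ x ∈ F, x.1 ∈ U → x ∈ F3 := by
    intro x hx hU
    rcases (mF x).1 hx with h | h | h
    · exact absurd hU ((mF1 x).1 h).2.2
    · exact absurd hU (hTU _ ((mF2 x).1 h).2.2)
    · exact h
  have hF12 : ∀ x ∈ F, x.1 ∈ T → x ∈ F1 ∪ F2 := by
    intro x hx hxT
    rcases (mF x).1 hx with h | h | h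
    · exact mem_union_left _ h
    · exact mem_union_right _ h
    · exact absurd ((mF3 x).1 h).2.2 (hTU _ hxT)
  -- restriction to the incidences in `F`
  have hres : GLE (fun x : {x // x ∈ F} => x.1.1) (fun x : {x // x ∈ F} => x.1.2) g := by
    refine GLE.restrict hg (fun x : {x // x ∈ F} => (⟨x.1, hFe x.1 x.2⟩ : Inc e)) ?_ _ _ ?_ ?_
    · intro x y hxy
      exact Subtype.ext (congrArg (fun z : Inc e => z.1) hxy)
    · intro x y; rfl
    · intro x y; rfl
  obtain ⟨σ, α, hσ, hα, hineq⟩ := hres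
  obtain ⟨hinj0, hlin0⟩ := inc_lin he
  have hY : Nat.card {x // x ∈ F} = F.card := by
    rw [Nat.card_eq_fintype_card, Fintype.card_coe]
  -- the faces
  have hfaces : 2 * cyc (σ * α) ≤ Nat.card {x : {x // x ∈ F} | x.1.1 ∈ (T : Set V)} := by
    refine faces23 (fun x : {x // x ∈ F} => x.1.1) (fun x : {x // x ∈ F} => x.1.2) ?_ ?_ σ α hσ hα
      (T : Set V) (U : Set V) ?_ ?_ ?_ ?_
    · intro x y h1 h2
      exact Subtype.ext (Prod.ext h1 h2)
    · intro x x' y y' h1 h2 h4 h5 h6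
      exact hlin0 ⟨x.1, hFe _ x.2⟩ ⟨x'.1, hFe _ x'.2⟩ ⟨y.1, hFe _ y.2⟩ ⟨y'.1, hFe _ y'.2⟩
        h1 h2 h4 h5 h6
    · intro x
      rcases hFT x.1 x.2 with h | h
      · exact Or.inl (by exact_mod_cast h)
      · exact Or.inr (by exact_mod_cast h)
    · rintro ⟨⟨a, i⟩, hx⟩
      rcases (mF _).1 hx with h | h | h
      · obtain ⟨h1, h2, h4⟩ := (mF1 _).1 h
        have h5 : 1 < (e i \ U).card := by have := h3 i h1; omega
        obtain ⟨b, hb, hba⟩ := exists_mem_ne h5 a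
        obtain ⟨h6, h7⟩ := mem_sdiff.1 hb
        exact ⟨⟨(b, i), (mF _).2 (Or.inl ((mF1 _).2 ⟨h1, h6, h7⟩))⟩, rfl, hba⟩
      · obtain ⟨h1, h2, h4⟩ := (mF2 _).1 h
        obtain ⟨_, h5, _⟩ := (mE1 i).1 h1
        obtain ⟨b, hb⟩ := card_eq_one.1 h5
        have hb' : b ∈ e i ∩ U := by rw [hb]; exact mem_singleton_self b
        obtain ⟨h6, h7⟩ := mem_inter.1 hb'
        refine ⟨⟨(b, i), (mF _).2 (Or.inr (Or.inr ((mF3 _).2 ⟨h1, h6, h7⟩)))⟩, rfl, ?_⟩
        intro h8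
        have h9 : b = a := h8
        exact hTU a h4 (by rw [← h9]; exact h7)
      · obtain ⟨h1, h2, h4⟩ := (mF3 _).1 h
        obtain ⟨_, _, b, hb⟩ := (mE1 i).1 h1
        obtain ⟨h6, h7⟩ := mem_inter.1 hb
        refine ⟨⟨(b, i), (mF _).2 (Or.inr (Or.inl ((mF2 _).2 ⟨h1, h6, h7⟩)))⟩, rfl, ?_⟩
        intro h8
        have h9 : b = a := h8
        exact hTU b h7 (by rw [h9]; exact h4)
    · intro x y hw hxU hyU
      have hxU' : x.1.1 ∈ U := by exact_mod_cast hxU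
      have hyU' : y.1.1 ∈ U := by exact_mod_cast hyU
      have h4 := (mF3 _).1 (hFU _ x.2 hxU')
      have h5 := (mF3 _).1 (hFU _ y.2 hyU')
      obtain ⟨_, h6, _⟩ := (mE1 _).1 h4.1
      have hw' : x.1.2 = y.1.2 := hw
      exact card_le_one.1 h6.le _ (mem_inter.2 ⟨h4.2.1, hxU'⟩) _
        (mem_inter.2 ⟨by rw [hw']; exact h5.2.1, hyU'⟩)
    · intro x y hw hxT hyU
      have hxT' : x.1.1 ∈ T := by exact_mod_cast hxT
      have hyU' : y.1.1 ∈ U := by exact_mod_cast hyU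
      have h5 := (mF3 _).1 (hFU _ y.2 hyU')
      have hw' : x.1.2 = y.1.2 := hw
      obtain ⟨j, hj, hxj⟩ := hTJ _ hxT'
      refine ⟨⟨(x.1.1, j), (mF _).2 (Or.inl ((mF1 _).2 ⟨hj, hxj, hTU _ hxT'⟩))⟩, rfl, ?_⟩
      intro h6
      have h7 : j = x.1.2 := h6
      rw [h7, hw'] at hj
      exact ((mE1 _).1 h5.1).1 hj
  have hA : Nat.card {x : {x // x ∈ F} | x.1.1 ∈ (T : Set V)} ≤ F1.card + F2.card := by
    have h1 : Nat.card {x : {x // x ∈ F} | x.1.1 ∈ (T : Set V)} ≤ Nat.card {x // x ∈ F1 ∪ F2} := by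
      refine Nat.card_le_card_of_injective
        (fun x : {x : {x // x ∈ F} | x.1.1 ∈ (T : Set V)} =>
          (⟨x.1.1, hF12 _ x.1.2 (by exact_mod_cast x.2)⟩ : {x // x ∈ F1 ∪ F2})) ?_
      intro x y hxy
      exact Subtype.ext (Subtype.ext (congrArg (fun z : {x // x ∈ F1 ∪ F2} => z.1) hxy))
    rw [Nat.card_eq_fintype_card (α := {x // x ∈ F1 ∪ F2}), Fintype.card_coe] at h1
    exact h1.trans (card_union_le _ _)
  -- vertices and hyperedges
  have hcs : cyc σ ≤ U.card + T.card := by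
    rw [cyc_eq_range σ _ hσ]
    have h1 : Set.range (fun x : {x // x ∈ F} => x.1.1) ⊆ ((U ∪ T : Finset V) : Set V) := by
      rintro _ ⟨x, rfl⟩
      rw [mem_coe, mem_union]
      exact (hFT x.1 x.2).symm
    have h2 := Nat.card_mono (Finset.finite_toSet _) h1
    rw [Nat.card_eq_fintype_card (α := ((U ∪ T : Finset V) : Set V))] at h2
    simp only [coe_sort_coe, Fintype.card_coe] at h2
    exact h2.trans (card_union_le _ _)
  have hca : cyc α ≤ J.card + E1.card := by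
    rw [cyc_eq_range α _ hα]
    have h1 : Set.range (fun x : {x // x ∈ F} => x.1.2) ⊆ ((J ∪ E1 : Finset E) : Set E) := by
      rintro _ ⟨x, rfl⟩
      rw [mem_coe, mem_union]
      rcases (mF x.1).1 x.2 with h | h | h
      · exact Or.inl ((mF1 _).1 h).1
      · exact Or.inr ((mF2 _).1 h).1
      · exact Or.inr ((mF3 _).1 h).1
    have h2 := Nat.card_mono (Finset.finite_toSet _) h1
    rw [Nat.card_eq_fintype_card (α := ((J ∪ E1 : Finset E) : Set E))] at h2
    simp only [coe_sort_coe, Fintype.card_coe] at h2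
    exact h2.trans (card_union_le _ _)
  have hcomp : 1 ≤ comp σ α := by
    have h1 : (e j₀ \ U).Nonempty := by
      rw [← card_pos]
      have := h3 j₀ hj₀
      omega
    obtain ⟨a, ha⟩ := h1
    obtain ⟨h4, h5⟩ := mem_sdiff.1 ha
    have : Nonempty {x // x ∈ F} := ⟨⟨(a, j₀), (mF _).2 (Or.inl ((mF1 _).2 ⟨hj₀, h4, h5⟩))⟩⟩
    exact one_le_comp σ α
  -- cardinalities
  have hdis1 : Disjoint (F1 ∪ F2) F3 := by
    rw [disjoint_left]
    intro x hx hx'
    obtain ⟨h1, h2, h4⟩ := (mF3 x).1 hx'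
    rcases mem_union.1 hx with h | h
    · exact ((mF1 x).1 h).2.2 h4
    · exact hTU _ ((mF2 x).1 h).2.2 h4
  have hdis2 : Disjoint F1 F2 := by
    rw [disjoint_left]
    intro x hx hx'
    exact ((mE1 _).1 ((mF2 x).1 hx').1).1 ((mF1 x).1 hx).1
  have hcF : F.card = F1.card + F2.card + F3.card := by
    rw [hF, card_union_of_disjoint hdis1, card_union_of_disjoint hdis2]
  have hcF3 : E1.card ≤ F3.card := by
    have h1 : E1 ⊆ F3.image Prod.snd := by
      intro i hi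
      obtain ⟨_, h5, _⟩ := (mE1 i).1 hi
      obtain ⟨b, hb⟩ := card_eq_one.1 h5
      have hb' : b ∈ e i ∩ U := by rw [hb]; exact mem_singleton_self b
      obtain ⟨h6, h7⟩ := mem_inter.1 hb'
      exact mem_image.2 ⟨(b, i), (mF3 _).2 ⟨hi, h6, h7⟩, rfl⟩
    exact (card_le_card h1).trans card_image_le
  have hdisT : ∀ i ∈ J, ∀ j ∈ J, i ≠ j → Disjoint (e i \ U) (e j \ U) := by
    intro i hi j hj hij
    rw [disjoint_left]
    intro x hx hx'
    exact (mem_sdiff.1 hx).2 (ht i hi j hj hij x (mem_sdiff.1 hx).1 (mem_sdiff.1 hx').1)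
  have hTc : T.card = ∑ j ∈ J, (e j \ U).card :=
    card_biUnion hdisT
  have hcF1 : F1.card = ∑ j ∈ J, (e j \ U).card := by
    have h1 : ∀ x ∈ F1, x.2 ∈ J := fun x hx => ((mF1 x).1 hx).1
    rw [card_eq_sum_card_fiberwise h1]
    apply sum_congr rfl
    intro j hj
    apply card_bij (fun x _ => x.1)
    · intro x hx
      obtain ⟨h2, h4⟩ := mem_filter.1 hx
      have h5 := (mF1 x).1 h2
      rw [h4] at h5
      exact mem_sdiff.2 h5.2
    · intro x hx y hy hxy
      exact Prod.ext hxy ((mem_filter.1 hx).2.trans (mem_filter.1 hy).2.symm)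
    · intro a ha
      exact ⟨(a, j), mem_filter.2 ⟨(mF1 _).2 ⟨hj, mem_sdiff.1 ha⟩, rfl⟩, rfl⟩
  have hI : F2.card ≤ ∑ j ∈ J, (e j \ U).card + 4 * g + 2 * U.card + 2 * J.card := by
    rw [hY, hcF] at hineq
    omega
  -- the adjacent pairs
  have : Nonempty E := ⟨j₀⟩
  have hH : ∀ v u : V, ∃ i : E, G.Adj v u → v ∈ e i ∧ u ∈ e i := by
    intro v u
    by_cases hG : G.Adj v u
    · obtain ⟨i, hi, _⟩ := (he v u hG.ne).1 hG
      exact ⟨i, fun _ => hi⟩
    · exact ⟨j₀, fun h => absurd h hG⟩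
  choose H hH using hH
  have hHJ : ∀ j ∈ J, ∀ v ∈ e j \ U, ∀ u ∈ U \ e j, G.Adj v u → H v u ∉ J := by
    intro j hj v hv u hu hG hHu
    obtain ⟨h1, h2⟩ := hH v u hG
    by_cases h4 : H v u = j
    · rw [h4] at h2
      exact (mem_sdiff.1 hu).2 h2
    · exact (mem_sdiff.1 hv).2 (ht _ hHu j hj h4 v h1 (mem_sdiff.1 hv).1)
  have hsplit : ∀ j ∈ J, ∀ v ∈ e j \ U, ((U \ e j).filter fun x => G.Adj v x).card ≤
      (E1.filter fun i => v ∈ e i).card +
        ((U \ e j).filter fun x => G.Adj v x ∧ 2 ≤ (e (H v x) ∩ U).card).card := by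
    intro j hj v hv
    have h1 : ((U \ e j).filter fun x => G.Adj v x) ⊆
        ((U \ e j).filter fun x => G.Adj v x ∧ (e (H v x) ∩ U).card = 1) ∪
          ((U \ e j).filter fun x => G.Adj v x ∧ 2 ≤ (e (H v x) ∩ U).card) := by
      intro u hu
      obtain ⟨h2, h4⟩ := mem_filter.1 hu
      have h5 : u ∈ e (H v u) ∩ U := mem_inter.2 ⟨(hH v u h4).2, (mem_sdiff.1 h2).1⟩
      have h6 : 1 ≤ (e (H v u) ∩ U).card := card_pos.2 ⟨u, h5⟩
      by_cases h7 : (e (H v u) ∩ U).card = 1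
      · exact mem_union_left _ (mem_filter.2 ⟨h2, h4, h7⟩)
      · exact mem_union_right _ (mem_filter.2 ⟨h2, h4, by omega⟩)
    refine (card_le_card h1).trans ((card_union_le _ _).trans (Nat.add_le_add_right ?_ _))
    apply card_le_card_of_injOn (fun u => H v u)
    · intro u hu
      obtain ⟨h2, h4, h5⟩ := mem_filter.1 (mem_coe.1 hu)
      obtain ⟨h6, h7⟩ := hH v u h4
      refine mem_coe.2 (mem_filter.2 ⟨(mE1 _).2 ⟨hHJ j hj v hv u h2 h4, h5, ?_⟩, h6⟩)
      exact ⟨v, mem_inter.2 ⟨h6, mem_biUnion.2 ⟨j, hj, hv⟩⟩⟩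
    · intro u hu u' hu' huu
      obtain ⟨h2, h4, h5⟩ := mem_filter.1 (mem_coe.1 hu)
      obtain ⟨h2', h4', h5'⟩ := mem_filter.1 (mem_coe.1 hu')
      have huu' : H v u = H v u' := huu
      refine card_le_one.1 h5.le _ (mem_inter.2 ⟨(hH v u h4).2, (mem_sdiff.1 h2).1⟩) _
        (mem_inter.2 ⟨?_, (mem_sdiff.1 h2').1⟩)
      rw [huu']
      exact (hH v u' h4').2
  have hpart1 : ∑ j ∈ J, ∑ v ∈ e j \ U, (E1.filter fun i => v ∈ e i).card ≤ F2.card := by
    rw [← sum_biUnion hdisT, ← hT]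
    have h1 : ∀ x ∈ F2, x.1 ∈ T := fun x hx => ((mF2 x).1 hx).2.2
    rw [card_eq_sum_card_fiberwise h1]
    apply sum_le_sum
    intro v hv
    apply card_le_card_of_injOn (fun i => (v, i))
    · intro i hi
      obtain ⟨h2, h4⟩ := mem_filter.1 (mem_coe.1 hi)
      exact mem_coe.2 (mem_filter.2 ⟨(mF2 _).2 ⟨h2, h4, hv⟩, rfl⟩)
    · intro i _ i' _ hii
      exact (Prod.ext_iff.1 hii).2
  have hpart2 : ∀ j ∈ J, ∑ v ∈ e j \ U,
      ((U \ e j).filter fun x => G.Adj v x ∧ 2 ≤ (e (H v x) ∩ U).card).card ≤ U.card ^ 3 := by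
    intro j hj
    have hab : ∀ i : E, ∃ ab : V × V, 2 ≤ (e i ∩ U).card →
        ab.1 ∈ e i ∩ U ∧ ab.2 ∈ e i ∩ U ∧ ab.1 ≠ ab.2 := by
      intro i
      by_cases h1 : 2 ≤ (e i ∩ U).card
      · obtain ⟨a, b, ha, hb, hne⟩ := one_lt_card_iff.1 (show 1 < (e i ∩ U).card by omega)
        exact ⟨(a, b), fun _ => ⟨ha, hb, hne⟩⟩
      · obtain ⟨v, _⟩ : (e j₀ \ U).Nonempty := by
          rw [← card_pos]
          have := h3 j₀ hj₀
          omega
        exact ⟨(v, v), fun h => absurd h h1⟩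
    choose ab hab using hab
    rw [← card_sigma]
    have h1 : (U ×ˢ (U ×ˢ U)).card = U.card ^ 3 := by
      rw [card_product, card_product]; ring
    rw [← h1]
    apply card_le_card_of_injOn (fun z : (_ : V) × V =>
      ((ab (H z.1 z.2)).1, ((ab (H z.1 z.2)).2, z.2)))
    · rintro ⟨v, u⟩ hz
      obtain ⟨h2, h4⟩ := mem_sigma.1 (mem_coe.1 hz)
      obtain ⟨h5, h6, h7⟩ := mem_filter.1 h4
      obtain ⟨k1, k2, _⟩ := hab _ h7
      exact mem_coe.2 (mem_product.2 ⟨(mem_inter.1 k1).2, mem_product.2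
        ⟨(mem_inter.1 k2).2, (mem_sdiff.1 h5).1⟩⟩)
    · rintro ⟨v, u⟩ hz ⟨v', u'⟩ hz' hzz
      obtain ⟨h2, h4⟩ := mem_sigma.1 (mem_coe.1 hz)
      obtain ⟨h5, h6, h7⟩ := mem_filter.1 h4
      obtain ⟨h2', h4'⟩ := mem_sigma.1 (mem_coe.1 hz')
      obtain ⟨h5', h6', h7'⟩ := mem_filter.1 h4'
      obtain ⟨k1, k2, k3⟩ := hab _ h7
      obtain ⟨k1', k2', k3'⟩ := hab _ h7'
      simp only [Prod.mk.injEq] at hzz
      obtain ⟨z1, z2, z3⟩ := hzz
      simp only at h2 h2' h5 h5' h6 h6' h7 h7' k1 k2 k3 k1' k2' k3' z1 z2 z3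
      subst z3
      have hi : H v u = H v' u := by
        refine uniq23 he k3 (mem_inter.1 k1).1 (mem_inter.1 k2).1 ?_ ?_
        · rw [z1]; exact (mem_inter.1 k1').1
        · rw [z2]; exact (mem_inter.1 k2').1
      have hvv : v = v' := by
        by_contra hne
        have h8 : H v u = j := by
          refine uniq23 he hne (hH v u h6).1 ?_ (mem_sdiff.1 h2).1 (mem_sdiff.1 h2').1
          rw [hi]; exact (hH v' u h6').1
        exact hHJ j hj v h2 u h5 h6 (by rw [h8]; exact hj)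
      rw [hvv]
  calc ∑ j ∈ J, ∑ v ∈ e j \ U, ((U \ e j).filter fun x => G.Adj v x).card
      ≤ ∑ j ∈ J, ∑ v ∈ e j \ U, ((E1.filter fun i => v ∈ e i).card +
        ((U \ e j).filter fun x => G.Adj v x ∧ 2 ≤ (e (H v x) ∩ U).card).card) :=
        sum_le_sum fun j hj => sum_le_sum fun v hv => hsplit j hj v hv
    _ = ∑ j ∈ J, ∑ v ∈ e j \ U, (E1.filter fun i => v ∈ e i).card +
        ∑ j ∈ J, ∑ v ∈ e j \ U,
          ((U \ e j).filter fun x => G.Adj v x ∧ 2 ≤ (e (H v x) ∩ U).card).card := by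
        simp only [sum_add_distrib]
    _ ≤ F2.card + ∑ _j ∈ J, U.card ^ 3 := Nat.add_le_add hpart1 (sum_le_sum hpart2)
    _ ≤ _ := by
        rw [sum_const, smul_eq_mul, mul_comm J.card]
        omega

end Pool.Agent.Helper33.RG
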