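import Pool.Agent.Helper33.RG.HUB
import Pool.Agent.Helper33.RG.COLOR
import Pool.Agent.Helper33.RG.COMP1
import Pool.Agent.Helper33.RG.COMP2

/-!
# Block RG-CT: graphs with the structure `Str` are `L`-choosable (assembly) (MP_1f20e3_co)

PROOF of `ct`. `hub_game` gives `S, Vf, Hf, 𝒞, cl` with `θ = ε/10^17`. `P i = M i \ S`, `B i = M i ∩ S`. `|P i| ≥ (1-δ) L - (KU + 1600) ≥ L/2`. Constants: `ε₅ = θ/8`, `c = 110000`, `K' = 350 * (2 * (c+1))` (`= 77000700`), `h = ⌊η L⌋`,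
`r = ⌈ε L / 10^28⌉` (`≤ 2 ε L/10^28`), `ε₂ = 1/(2 (KU + 1600))`, `K7 = ⌈K' + (KU+1600) + 4 (KU+1600)/ε₅⌉`. `color` (its `hP`, `hL` are clear) gives `φ`. `CompHyp G L Lst S P B φ h c`: `sum`: `x ∉ B i`, `x ∉ P i` means `x ∉ M i`, and `P i ⊆ M i \ U` (`U ⊆ S`), so it follows from `Str.sum`; `cross`
from `Str.cross`; `disjP` from `Str.typ`; `size`: `|B i| + |P i| = |M i|`, `clq`. `comp2` for every `P i` (`|P i| < L` by `clq`) gives `¬ Bad`. `comp1` finishes. Numerical conditions (`hL`): `comp1`: `2 (|S| + 220002 + 350 h) + 2 ≤ r`, `8 r ≤ L`; `comp2`: `K' + K' r ≤ ε₅/4 |P i|`: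
`7.8·10^7 · 2ε/10^28 L < ε L/(6.4·10^18)`; `K' < ε₂ |P i|`, `r ≤ (3/8) θ |P i|`, `|S| ε₂ ≤ 1/2`; `color`: `100 (350 K7 + |S|) ≤ L`.
-/

set_option autoImplicit false

namespace Pool.Agent.Helper33.RG

open Classical Finset

variable {V : Type} [Fintype V]

theorem ct {G : SimpleGraph V} {L : ℕ} {I : Type} [Fintype I] {M : I → Finset V}
    {U : Finset V} {ε δ η : ℝ} {KU : ℕ} (hst : Str G L M U ε δ η KU) (hε : 0 < ε) (hε1 : ε ≤ 1)
    (hδ : δ ≤ ε / 100) (hη : 0 ≤ η) (hη1 : η ≤ ε / 10 ^ 32)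
    (hL : ((KU : ℝ) + 1600) * 10 ^ 40 ≤ ε * L) {Lst : V → Finset ℕ}
    (hlst : ∀ v, (Lst v).card = L) :
    ∃ f : V → ℕ, (∀ v, f v ∈ Lst v) ∧ ∀ u v, G.Adj u v → f u ≠ f v := by
  have hKU : (0 : ℝ) ≤ KU := Nat.cast_nonneg _
  set x : ℝ := (KU : ℝ) + 1600 with hx
  have hx0 : 1600 ≤ x := by linarith
  have hL0 : (0 : ℝ) ≤ L := Nat.cast_nonneg _
  have hεL : ε * L ≤ L := by nlinarith
  have hxL : x * 10 ^ 40 ≤ L := hL.trans hεL
  obtain ⟨S, Vf, Hf, 𝒞, cl, hUS, hS, hub⟩ := hub_game hst hε hε1 hδ hη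
    (hη1.trans (by
      rw [div_le_div_iff₀ (by norm_num) (by norm_num)]
      nlinarith)) (by nlinarith)
  have hSx : (S.card : ℝ) ≤ x := by
    rw [hx]; exact_mod_cast hS
  -- sizes
  have hMS : ∀ i, ((M i).card : ℝ) ≤ ((M i \ S).card : ℝ) + S.card := by
    intro i
    have := Finset.card_le_card_sdiff_add_card (s := M i) (t := S)
    exact_mod_cast this
  have hPbig : ∀ i, (L : ℝ) / 2 ≤ ((M i \ S).card : ℝ) := by
    intro i
    have h1 := hst.big i
    have h2 := hMS i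
    have h3 : (1 - δ) * (L : ℝ) ≥ (99 / 100) * L := by nlinarith
    nlinarith
  have hMlt : ∀ i, (M i).card + 2 ≤ L := fun i => hst.clq (M i) (hst.clique i)
  have hPL : ∀ i, (M i \ S).card < L := by
    intro i
    have h1 := Finset.card_le_card (Finset.sdiff_subset : M i \ S ⊆ M i)
    have h2 := hMlt i
    omega
  have hP1 : ∀ i, 1 ≤ (M i \ S).card := by
    intro i
    have h1 := hPbig i
    have h2 : (1 : ℝ) ≤ ((M i \ S).card : ℝ) := by nlinarith
    exact_mod_cast h2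
  -- constants
  set θ : ℝ := ε / 10 ^ 17 with hθ
  have hθ0 : 0 < θ := by positivity
  set ε₅ : ℝ := θ / 8 with hε₅
  have hε₅0 : 0 < ε₅ := by positivity
  have hθ1 : θ ≤ 1 / 10 ^ 17 := by
    rw [hθ]; gcongr
  set ε₂ : ℝ := 1 / (2 * x) with hε₂
  have hε₂0 : 0 < ε₂ := by positivity
  set r : ℕ := ⌈ε * L / 10 ^ 28⌉₊ with hr
  set h : ℕ := ⌊η * L⌋₊ with hh
  set K7 : ℕ := ⌈(77000700 : ℝ) + x + 4 * x / ε₅⌉₊ with hK7
  have hr1 : ε * L / 10 ^ 28 ≤ (r : ℝ) := Nat.le_ceil _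
  have hr2 : (r : ℝ) ≤ ε * L / 10 ^ 28 + 1 := (Nat.ceil_lt_add_one (by positivity)).le
  have hh1 : (h : ℝ) ≤ ε * L / 10 ^ 32 := by
    refine (Nat.floor_le (by positivity)).trans ?_
    calc η * L ≤ ε / 10 ^ 32 * L := by gcongr
      _ = ε * L / 10 ^ 32 := by ring
  have hK71 : (77000700 : ℝ) + x + 4 * x / ε₅ ≤ K7 := Nat.le_ceil _
  have hK72 : (K7 : ℝ) ≤ (77000700 : ℝ) + x + 4 * x / ε₅ + 1 :=
    (Nat.ceil_lt_add_one (by positivity)).le
  have hxε : 4 * x / ε₅ ≤ L / 10 ^ 21 := by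
    rw [hε₅, hθ]
    rw [div_le_iff₀ (by positivity)]
    nlinarith
  have hc1 : 100 * (350 * K7 + S.card) ≤ L := by
    have h1 : (100 : ℝ) * (350 * K7 + S.card) ≤ L := by
      nlinarith
    exact_mod_cast h1
  have hL1 : 1 ≤ L := by
    have h1 : (1 : ℝ) ≤ L := by nlinarith
    exact_mod_cast h1
  obtain ⟨φ, hφ1, hφ2, hφ3, hφ4⟩ := color hub hst.cardI hlst hP1 (K7 := K7) (ε₂ := ε₂)
    hε₅0 (by linarith) hc1 hL1
  -- not bad
  have hbad : ∀ i, ¬ Bad G Lst S φ (M i \ S) r (350 * (2 * (110000 + 1))) := by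
    intro i
    have hPi := hPbig i
    refine comp2 hlst (hP1 i) (hPL i) hε₅0 (by linarith) hε₂0 ?_ ?_ ?_ ?_ ?_ (hφ3 i) (hφ4 i)
    · push_cast
      rw [hε₅, hθ]
      nlinarith
    · rw [hε₂]
      rw [div_mul_eq_mul_div, one_mul, lt_div_iff₀ (by positivity)]
      push_cast
      nlinarith
    · refine le_trans ?_ hK71
      push_cast
      have h1 : 4 * (S.card : ℝ) / ε₅ ≤ 4 * x / ε₅ := by gcongr
      linarith
    · have h1 : θ / 2 - ε₅ = 3 / 8 * θ := by rw [hε₅]; ring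
      rw [h1, hθ]
      nlinarith
    · rw [hε₂]
      rw [mul_one_div, div_le_iff₀ (by positivity)]
      linarith
  -- the hypotheses of `comp1`
  have hyp : CompHyp G L Lst S (fun i => M i \ S) (fun i => M i ∩ S) φ h 110000 := by
    constructor
    · exact hst.cardI
    · exact hlst
    · exact hφ1
    · exact hφ2
    · intro v
      rcases hst.cover v with h1 | ⟨i, h1⟩
      · exact Or.inl (hUS h1)
      · by_cases h2 : v ∈ S
        · exact Or.inl h2
        · exact Or.inr ⟨i, Finset.mem_sdiff.2 ⟨h1, h2⟩⟩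
    · exact fun i => Finset.sdiff_disjoint
    · intro i j hij
      rw [Finset.disjoint_left]
      intro v hv hv'
      rw [Finset.mem_sdiff] at hv hv'
      exact hv.2 (hUS (hst.typ i j hij v hv.1 hv'.1))
    · intro i
      refine (hst.clique i).subset ?_
      exact_mod_cast (Finset.sdiff_subset : M i \ S ⊆ M i)
    · exact fun i => Finset.inter_subset_right
    · intro i
      have h1 := hMlt i
      have h2 : (M i ∩ S).card + (M i \ S).card = (M i).card := Finset.card_inter_add_card_sdiff _ _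
      show (M i ∩ S).card + (M i \ S).card + 2 ≤ L
      omega
    · intro i j hij v hv
      rw [Finset.mem_sdiff] at hv
      rw [hh]
      refine Nat.le_floor ?_
      refine le_trans ?_ (hst.cross i j hij v hv.1 (fun h => hv.2 (hUS h)))
      have h1 : ((M j \ S).filter fun x => G.Adj v x).card ≤ ((M j).filter fun x => G.Adj v x).card :=
        Finset.card_le_card (Finset.filter_subset_filter _ Finset.sdiff_subset)
      exact_mod_cast h1
    · intro i
      refine le_trans ?_ (hst.sum i)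
      calc ∑ v ∈ M i \ S, (univ.filter fun x => x ∉ M i ∩ S ∧ x ∉ M i \ S ∧ G.Adj v x).card
          ≤ ∑ v ∈ M i \ S, (univ.filter fun x => x ∉ M i ∧ G.Adj v x).card := by
            refine Finset.sum_le_sum fun v _ => Finset.card_le_card ?_
            intro y hy
            rw [Finset.mem_filter] at hy ⊢
            refine ⟨hy.1, fun h2 => ?_, hy.2.2.2⟩
            by_cases h3 : y ∈ S
            · exact hy.2.1 (Finset.mem_inter.2 ⟨h2, h3⟩)
            · exact hy.2.2.1 (Finset.mem_sdiff.2 ⟨h2, h3⟩)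
        _ ≤ ∑ v ∈ M i \ U, (univ.filter fun x => x ∉ M i ∧ G.Adj v x).card :=
            Finset.sum_le_sum_of_subset (Finset.sdiff_subset_sdiff subset_rfl hUS)
  refine comp1 hyp (r := r) ?_ ?_ hbad
  · have h1 : (2 : ℝ) * (S.card + 2 * (110000 + 1) + 350 * h) + 2 ≤ r := by
      nlinarith
    exact_mod_cast h1
  · have h1 : (8 : ℝ) * r ≤ L := by nlinarith
    exact_mod_cast h1

end Pool.Agent.Helper33.RG
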