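import Pool.Agent.Helper33.RG.SWP

/-!
# Block RG-DEL: deleting an element from a pair of permutations (MP_1f20e3_co)

`Equiv.removeNone σ` is the first return permutation of `σ : Perm (Option Y)` on `Y`: `some (removeNone σ y) = σ (some y)` if this is not `none`, and `= σ none` otherwise (`Equiv.removeNone_some`, `Equiv.removeNone_none`). Put
`g2 σ α = |X| + 2 comp σ α - cyc σ - cyc α - cyc (σ * α)`. `del`: with `σ' = removeNone σ`, `α' = removeNone α`: `g2 σ' α' ≤ g2 σ α ≤ g2 σ' α' + 2`, and `g2 σ α ≤ g2 σ' α'` if `σ none = none` or `α none = none`.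

PROOF. `p = σ none`, `q = α⁻¹ none`. (1) `cyc σ = cyc σ' + [p = none]`, `cyc α = cyc α' + [q = none]`: the map `Quot (y = σ' x) → Quot (y = σ x)`, `[y] ↦ [some y]` is injective, and surjective if `p ≠ none`; if `p = none` only the class of `none` is missed.
(2) `comp σ α = comp σ' α' + 1` if `p = q = none`; `= comp σ' α'` if exactly one of them is `none`; if `p = some a`, `q = some b`: `= comp σ' α'` if `a`, `b` are in the same class for `(σ', α')`, `= comp σ' α' - 1` if not. (The classes of `(σ, α)` on `Option Y` are: `none ~ p`, `none ~ q` added to the classes of `(σ', α')`.)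
(3) On `Option Y`: `σ = swap none p * optionCongr σ'`, `α = optionCongr α' * swap none q` (Mathlib: `Equiv.Perm.decomposeOption`), so `σ α = swap none p * (optionCongr (σ' α')) * swap none q`. For a permutation `π` of a finite type, `x ≠ y`, `ψ = swap x y * π`:
 this is `cyc_swap_merge`, `cyc_swap_split` in file SWP (also `quot_add`, `cyc_option`, `eqvGen_iff`). The same for `π * swap x y` (`π * swap x y = swap (π x) (π y) * π`, or conjugate with `swap x y`, or inverse).
 So: `p = q = none`: `cyc (σ α) = cyc (σ' α') + 1`. Exactly one is `none`: `cyc (σ α) = cyc (σ' α')`. `p = some a`, `q = some b`: `optionCongr (σ' α')` has `cyc (σ'α') + 1` cycles; multiplication with `swap none p` from the left joins `none` to the cycle of `a`: `cyc (σ' α')`; then `swap none q` from the right: `+1` if `b` is in the same `σ'α'`-cycle as `a`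
 (`none` is now in this cycle), `-1` if not.
(4) `a`, `b` in the same `σ'α'`-cycle are in the same class of `(σ', α')`. So `g2 σ α - g2 σ' α' = 1 + 2 (comp - comp') - ...` is `0` (`p = q = none`: `1 + 2 - 1 - 1 - 1`), `0` (exactly one: `1 + 0 - 1 - 0 - 0`), `0` (same cycle: `1 - 1`), `2` (same class, different cycles: `1 + 1`), `0` (different classes: `1 - 2 + 1`).
-/

set_option autoImplicit false

namespace Pool.Agent.Helper33.RG

open Equiv

/-- Twice the genus. -/
noncomputable def g2 {X : Type} (σ α : Perm X) : ℤ :=
  (Nat.card X : ℤ) + 2 * comp σ α - cyc σ - cyc α - cyc (σ * α)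

theorem removeNone_decomp {Y : Type} [DecidableEq (Option Y)] (σ : Perm (Option Y)) :
    σ = swap none (σ none) * optionCongr (removeNone σ) := by
  ext1 x
  rw [Perm.mul_apply]
  cases x with
  | none => simp
  | some y =>
    simp only [optionCongr_apply, Option.map_some]
    by_cases h : σ (some y) = none
    · rw [removeNone_none σ h, swap_apply_right, h]
    · obtain ⟨z, hz⟩ := Option.ne_none_iff_exists'.1 h
      rw [removeNone_some σ ⟨z, hz⟩]
      refine (swap_apply_of_ne_of_ne h ?_).symm
      intro h1
      exact absurd (σ.injective h1) (by simp)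

theorem comp_option {Y : Type} [Finite Y] (σ α : Perm Y) :
    Nat.card (Quot fun x y : Option Y => y = optionCongr σ x ∨ y = optionCongr α x) =
      comp σ α + 1 := by
  unfold comp
  rw [← Finite.card_option]
  refine Nat.card_congr ?_
  exact
    { toFun := Quot.lift (fun o : Option Y => o.map (Quot.mk fun x y : Y => y = σ x ∨ y = α x)) (by
        rintro (_ | a) b (rfl | rfl)
        · rfl
        · rfl
        · simp only [optionCongr_apply, Option.map_some]
          congr 1
          exact Quot.sound (Or.inl rfl)
        · simp only [optionCongr_apply, Option.map_some]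
          congr 1
          exact Quot.sound (Or.inr rfl))
      invFun := fun o => match o with
        | none => Quot.mk _ none
        | some q => Quot.lift (fun a => Quot.mk _ (some a)) (by
            rintro a b (rfl | rfl)
            · exact Quot.sound (Or.inl rfl)
            · exact Quot.sound (Or.inr rfl)) q
      left_inv := by
        rintro ⟨_ | a⟩
        · rfl
        · rfl
      right_inv := by
        rintro (_ | q)
        · rfl
        · induction q using Quot.ind with
          | mk a => rfl }

theorem comp_decomp {Y : Type} [Finite Y] [DecidableEq (Option Y)] (σ α : Perm (Option Y))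
    (σ' α' : Perm Y) (p a : Option Y) (hσ : σ = swap none p * optionCongr σ')
    (hα : α = swap none a * optionCongr α') :
    comp σ α = Nat.card (Quot fun x y : Option Y => ((y = optionCongr σ' x ∨
      y = optionCongr α' x) ∨ (x = none ∧ y = p)) ∨ (x = none ∧ y = a)) := by
  have hp : p = σ none := by rw [hσ]; simp
  have ha : a = α none := by rw [hα]; simp
  have hσ' : swap none p * σ = optionCongr σ' := by
    rw [hσ, ← mul_assoc, swap_mul_self, one_mul]
  have hα' : swap none a * α = optionCongr α' := by
    rw [hα, ← mul_assoc, swap_mul_self, one_mul]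
  unfold comp
  refine quot_congr _ _ fun x y => ⟨eqvGen_le ?_, eqvGen_le ?_⟩
  · rintro x y (h | h)
    · have h1 := rel_swap σ none p x y (Or.inl h)
      rw [hσ'] at h1
      refine eqvGen_le ?_ h1
      rintro b c (h2 | h2)
      · exact Relation.EqvGen.rel _ _ (Or.inl (Or.inl (Or.inl h2)))
      · exact Relation.EqvGen.rel _ _ (Or.inl (Or.inr h2))
    · have h1 := rel_swap α none a x y (Or.inl h)
      rw [hα'] at h1
      refine eqvGen_le ?_ h1
      rintro b c (h2 | h2)
      · exact Relation.EqvGen.rel _ _ (Or.inl (Or.inl (Or.inr h2)))
      · exact Relation.EqvGen.rel _ _ (Or.inr h2)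
  · rintro x y (((h | h) | ⟨rfl, rfl⟩) | ⟨rfl, rfl⟩)
    · have h1 := rel_swap (optionCongr σ') none p x y (Or.inl h)
      rw [← hσ] at h1
      refine eqvGen_le ?_ h1
      rintro b c (h2 | ⟨rfl, rfl⟩)
      · exact Relation.EqvGen.rel _ _ (Or.inl h2)
      · exact Relation.EqvGen.rel _ _ (Or.inl hp)
    · have h1 := rel_swap (optionCongr α') none a x y (Or.inl h)
      rw [← hα] at h1
      refine eqvGen_le ?_ h1
      rintro b c (h2 | ⟨rfl, rfl⟩)
      · exact Relation.EqvGen.rel _ _ (Or.inr h2)
      · exact Relation.EqvGen.rel _ _ (Or.inr ha)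
    · exact Relation.EqvGen.rel _ _ (Or.inl hp)
    · exact Relation.EqvGen.rel _ _ (Or.inr ha)

/-- An invariant function separates `none` from `some y`. -/
theorem not_sameCycle_none {Y : Type} (π : Perm Y) (y : Y) :
    ¬ Perm.SameCycle (optionCongr π) none (some y) := by
  rintro ⟨i, hi⟩
  have h1 : ((optionCongr π : Perm (Option Y)) ^ i) none = none := by
    have h2 : (optionCongr π : Perm (Option Y)) none = none := rfl
    exact Perm.zpow_apply_eq_self_of_apply_eq_self h2 i
  rw [h1] at hi
  exact absurd hi (by simp)

theorem cyc_decomp {Y : Type} [Finite Y] [DecidableEq (Option Y)] (σ' : Perm Y) (p : Option Y) :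
    (p = none → cyc (swap none p * optionCongr σ') = cyc σ' + 1) ∧
    (p ≠ none → cyc (swap none p * optionCongr σ') = cyc σ' ∧
      Perm.SameCycle (swap none p * optionCongr σ') none p) := by
  constructor
  · rintro rfl
    rw [swap_self]
    exact cyc_option σ'
  · intro hp
    obtain ⟨z, rfl⟩ := Option.ne_none_iff_exists'.1 hp
    have h1 := cyc_swap_merge (optionCongr σ') (not_sameCycle_none σ' z)
    have h2 := cyc_option σ'
    exact ⟨by omega, h1.1⟩

theorem inv_of_sameCycle {X A : Type} (π : Perm X) (F : X → A) (hF : ∀ x, F (π x) = F x) {x y : X}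
    (h : π.SameCycle x y) : F x = F y := by
  obtain ⟨i, rfl⟩ := h
  have h1 : ∀ x, F (π⁻¹ x) = F x := by
    intro x
    have h2 := hF (π⁻¹ x)
    have h3 : π (π⁻¹ x) = x := by rw [← Perm.mul_apply, mul_inv_cancel]; rfl
    rw [h3] at h2
    exact h2.symm
  induction i using Int.induction_on with
  | zero => rfl
  | succ n ih =>
    rw [ih, add_comm, zpow_add, zpow_one, Perm.mul_apply, hF]
  | pred n ih =>
    rw [ih, sub_eq_neg_add, zpow_add, zpow_neg_one, Perm.mul_apply, h1]

theorem del {Y : Type} [Finite Y] (σ α : Perm (Option Y)) :
    g2 (Equiv.removeNone σ) (Equiv.removeNone α) ≤ g2 σ α ∧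
    g2 σ α ≤ g2 (Equiv.removeNone σ) (Equiv.removeNone α) + 2 ∧
    ((σ none = none ∨ α none = none) →
      g2 σ α ≤ g2 (Equiv.removeNone σ) (Equiv.removeNone α)) := by
  classical
  have hσ := removeNone_decomp σ
  have hα := removeNone_decomp α
  set σ' := removeNone σ with hσ'
  set α' := removeNone α with hα'
  set p := σ none with hp
  set a := α none with ha
  set c : Option Y := optionCongr σ' a with hc
  have hprod : σ * α = swap none p * (swap none c * optionCongr (σ' * α')) := by
    have h1 : optionCongr σ' * swap none a = swap none c * optionCongr σ' := by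
      have h2 := swap_mul_eq_mul_swap (optionCongr σ') none c
      rw [h2, hc]
      congr 2
      exact (Equiv.symm_apply_apply _ _).symm
    have h2 : optionCongr (σ' * α') = optionCongr σ' * optionCongr α' := by
      ext1 x
      cases x <;> rfl
    calc σ * α = swap none p * optionCongr σ' * (swap none a * optionCongr α') := by
          rw [← hσ, ← hα]
      _ = swap none p * ((optionCongr σ' * swap none a) * optionCongr α') := by
          simp only [mul_assoc]
      _ = _ := by rw [h1, h2]; simp only [mul_assoc]
  have hcard : (Nat.card (Option Y) : ℤ) = Nat.card Y + 1 := by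
    rw [Finite.card_option]; push_cast; ring
  have hcomp := comp_decomp σ α σ' α' p a hσ hα
  have hc0 := comp_option σ' α'
  set R₀ : Option Y → Option Y → Prop := fun x y => y = optionCongr σ' x ∨ y = optionCongr α' x
    with hR₀
  set R₁ : Option Y → Option Y → Prop := fun x y => R₀ x y ∨ (x = none ∧ y = p) with hR₁
  have hcomp' : comp σ α = Nat.card (Quot fun x y => R₁ x y ∨ (x = none ∧ y = a)) := hcomp
  have hq1 := quot_add R₀ none p
  have hq2 := quot_add R₁ none a
  have hcσ := cyc_decomp σ' p
  have hcα := cyc_decomp α' a
  have hcP := cyc_decomp (σ' * α') c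
  rw [← hσ] at hcσ
  rw [← hα] at hcα
  have hca : c = none ↔ a = none := by
    rw [hc]
    cases a <;> simp
  -- `none` is alone in `R₀`
  have hR₀none : ∀ y, ¬ Relation.EqvGen R₀ none (some y) := by
    intro y h
    have h1 : ∀ u v, Relation.EqvGen R₀ u v → (u = none ↔ v = none) := by
      intro u v huv
      induction huv with
      | rel u v h => rcases h with rfl | rfl <;> cases u <;> simp
      | refl u => exact Iff.rfl
      | symm u v _ ih => exact ih.symm
      | trans u v w _ _ ih1 ih2 => exact ih1.trans ih2
    have h2 := (h1 _ _ h).1 rfl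
    exact absurd h2 (by simp)
  unfold g2
  rw [hcard, hprod, hcomp']
  by_cases hpn : p = none
  · have e1 := hcσ.1 hpn
    have e2 := hq1.1 (by rw [hpn]; exact Relation.EqvGen.refl _)
    have e2' : Nat.card (Quot R₁) = comp σ' α' + 1 := e2.trans hc0
    have hsw : swap none p * (swap none c * optionCongr (σ' * α')) =
        swap none c * optionCongr (σ' * α') := by rw [hpn, swap_self]; rfl
    rw [hsw]
    by_cases han : a = none
    · have e3 := hcα.1 han
      have e4 := hq2.1 (by rw [han]; exact Relation.EqvGen.refl _)
      have e5 := hcP.1 (hca.2 han)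
      have : Nat.card (Quot fun x y => R₁ x y ∨ (x = none ∧ y = a)) = comp σ' α' + 1 :=
        e4.trans e2'
      rw [this, e1, e3, e5]
      push_cast
      refine ⟨by linarith, by linarith, fun _ => by linarith⟩
    · have e3 := (hcα.2 han).1
      have e4 := hq2.2 (by
        intro h
        obtain ⟨z, hz⟩ := Option.ne_none_iff_exists'.1 han
        rw [hz] at h
        refine hR₀none z (eqvGen_le ?_ h)
        rintro u v (h1 | ⟨rfl, rfl⟩)
        · exact Relation.EqvGen.rel _ _ h1
        · rw [hpn]; exact Relation.EqvGen.refl _)
      have e5 := (hcP.2 (fun h => han (hca.1 h))).1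
      have : Nat.card (Quot fun x y => R₁ x y ∨ (x = none ∧ y = a)) = comp σ' α' := by omega
      rw [this, e1, e3, e5]
      push_cast
      refine ⟨by linarith, by linarith, fun _ => by linarith⟩
  · have e1 := (hcσ.2 hpn).1
    obtain ⟨p₀, hp₀⟩ := Option.ne_none_iff_exists'.1 hpn
    have e2 := hq1.2 (by rw [hp₀]; exact hR₀none p₀)
    have e2' : Nat.card (Quot R₁) = comp σ' α' := by
      have : Nat.card (Quot R₁) + 1 = comp σ' α' + 1 := e2.trans hc0
      omega
    by_cases han : a = none
    · have e3 := hcα.1 han
      have e4 := hq2.1 (by rw [han]; exact Relation.EqvGen.refl _)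
      have hcn : c = none := hca.2 han
      have hsw : swap none c * optionCongr (σ' * α') = optionCongr (σ' * α') := by
        rw [hcn, swap_self]; rfl
      rw [hsw]
      have e5 := ((cyc_decomp (σ' * α') p).2 hpn).1
      have : Nat.card (Quot fun x y => R₁ x y ∨ (x = none ∧ y = a)) = comp σ' α' :=
        e4.trans e2'
      rw [this, e1, e3, e5]
      push_cast
      refine ⟨by linarith, by linarith, fun _ => by linarith⟩
    · have e3 := (hcα.2 han).1
      have hcn : c ≠ none := fun h => han (hca.1 h)
      have e5 := (hcP.2 hcn).1
      obtain ⟨a₀, ha₀⟩ := Option.ne_none_iff_exists'.1 han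
      have hor : ¬ (σ none = none ∨ α none = none) := by
        rintro (h | h)
        · exact hpn h
        · exact han h
      set ψ := swap none c * optionCongr (σ' * α') with hψ
      by_cases hs : ψ.SameCycle none p
      · have e6 := (cyc_swap_split ψ (Ne.symm hpn) hs).2
        -- same class
        have hcl : Quot.mk (fun x y : Y => y = σ' x ∨ y = α' x) p₀ =
            Quot.mk (fun x y : Y => y = σ' x ∨ y = α' x) a₀ := by
          have hc₀ : c = some (σ' a₀) := by rw [hc, ha₀]; rfl
          let F : Option Y → Quot (fun x y : Y => y = σ' x ∨ y = α' x) := fun o => match o with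
            | none => Quot.mk _ (σ' a₀)
            | some y => Quot.mk _ y
          have hFs : ∀ x, F (swap none c x) = F x := by
            intro x
            by_cases h1 : x = none
            · rw [h1, swap_apply_left, hc₀]
            · by_cases h2 : x = c
              · rw [h2, swap_apply_right, hc₀]
              · rw [swap_apply_of_ne_of_ne h1 h2]
          have hF : ∀ x, F (ψ x) = F x := by
            intro x
            rw [hψ, Perm.mul_apply, hFs]
            cases x with
            | none => rfl
            | some y =>
              show Quot.mk _ (σ' (α' y)) = Quot.mk _ y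
              have h1 : Quot.mk (fun x y : Y => y = σ' x ∨ y = α' x) (α' y) =
                  Quot.mk _ (σ' (α' y)) := Quot.sound (Or.inl rfl)
              have h2 : Quot.mk (fun x y : Y => y = σ' x ∨ y = α' x) y =
                  Quot.mk _ (α' y) := Quot.sound (Or.inr rfl)
              exact (h2.trans h1).symm
          have h1 := inv_of_sameCycle ψ F hF hs
          rw [hp₀] at h1
          have h2 : Quot.mk (fun x y : Y => y = σ' x ∨ y = α' x) a₀ =
              Quot.mk _ (σ' a₀) := Quot.sound (Or.inl rfl)
          exact (h2.trans h1).symm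
        have hcl2 : ∀ u v : Y, Relation.EqvGen (fun x y : Y => y = σ' x ∨ y = α' x) u v →
            Relation.EqvGen R₀ (some u) (some v) := by
          intro u v huv
          induction huv with
          | rel u v h =>
            refine Relation.EqvGen.rel _ _ ?_
            rcases h with rfl | rfl
            · exact Or.inl rfl
            · exact Or.inr rfl
          | refl u => exact Relation.EqvGen.refl _
          | symm u v _ ih => exact Relation.EqvGen.symm _ _ ih
          | trans u v w _ _ ih1 ih2 => exact Relation.EqvGen.trans _ _ _ ih1 ih2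
        have e4 := hq2.1 (by
          refine Relation.EqvGen.trans _ p _ (Relation.EqvGen.rel _ _ (Or.inr ⟨rfl, rfl⟩)) ?_
          rw [hp₀, ha₀]
          exact eqvGen_le (fun u v h => Relation.EqvGen.rel _ _ (Or.inl h))
            (hcl2 _ _ (Quot.eqvGen_exact hcl)))
        have : Nat.card (Quot fun x y => R₁ x y ∨ (x = none ∧ y = a)) = comp σ' α' :=
          e4.trans e2'
        rw [this, e1, e3, e6, e5]
        push_cast
        exact ⟨by linarith, by linarith, fun h => absurd h hor⟩
      · have e6 := (cyc_swap_merge ψ hs).2
        rw [e5] at e6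
        have e7 : (cyc (swap none p * ψ) : ℤ) = cyc (σ' * α') - 1 := by
          have : ((cyc (swap none p * ψ) + 1 : ℕ) : ℤ) = cyc (σ' * α') := by exact_mod_cast e6
          push_cast at this
          linarith
        by_cases hr : Relation.EqvGen R₁ none a
        · have : Nat.card (Quot fun x y => R₁ x y ∨ (x = none ∧ y = a)) = comp σ' α' :=
            (hq2.1 hr).trans e2'
          rw [this, e1, e3, e7]
          exact ⟨by linarith, by linarith, fun h => absurd h hor⟩
        · have h8 := hq2.2 hr
          rw [e2'] at h8
          have : (Nat.card (Quot fun x y => R₁ x y ∨ (x = none ∧ y = a)) : ℤ) =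
              comp σ' α' - 1 := by
            have h9 : ((Nat.card (Quot fun x y => R₁ x y ∨ (x = none ∧ y = a)) + 1 : ℕ) : ℤ) =
              comp σ' α' := by exact_mod_cast h8
            push_cast at h9
            linarith
          rw [this, e1, e3, e7]
          exact ⟨by linarith, by linarith, fun h => absurd h hor⟩

end Pool.Agent.Helper33.RG
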