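import Mathlib

/-!
# Reduced genus and choice number: definitions (MP_1f20e3_co)

A hypergraph on `V` is a family `e : E → Finset V` of nonempty sets. Its incidence graph is the
bipartite graph on `V ⊕ E` whose edges are the incidences `Inc e`. A rotation system of this
graph is a pair of permutations `(σ, α)` of the incidences: `σ` permutes cyclically the incidences
at every vertex, `α` those at every hyperedge; the faces are the orbits of `σ * α`. For the
corresponding embedding (every component in its own closed orientable surface) Euler's formula is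
`#orbits σ + #orbits α - #Inc + #orbits (σ α) = 2 #components - 2 genus`
(isolated vertices do not matter).
-/

set_option autoImplicit false

namespace Pool.Agent.Helper33.RG

open Equiv

/-- The number of orbits of a permutation. -/
noncomputable def cyc {X : Type} (σ : Perm X) : ℕ := Nat.card (Quot fun x y : X => y = σ x)

/-- The number of orbits of the group generated by two permutations. -/
noncomputable def comp {X : Type} (σ α : Perm X) : ℕ :=
  Nat.card (Quot fun x y : X => y = σ x ∨ y = α x)

/-- The incidences `X` with the maps `v` (vertex) and `w` (hyperedge) have a rotation system of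
genus at most `g`. -/
def GLE {X A B : Type} (v : X → A) (w : X → B) (g : ℕ) : Prop :=
  ∃ σ α : Perm X, (∀ x y, σ.SameCycle x y ↔ v x = v y) ∧ (∀ x y, α.SameCycle x y ↔ w x = w y) ∧
    Nat.card X + 2 * comp σ α ≤ cyc σ + cyc α + cyc (σ * α) + 2 * g

/-- The incidences of a hypergraph. -/
abbrev Inc {V E : Type} (e : E → Finset V) : Type := {x : V × E // x.1 ∈ e x.2}

/-- The genus of the hypergraph `e` (of its incidence graph) is at most `g`. -/
def GenusLE {V E : Type} (e : E → Finset V) (g : ℕ) : Prop :=
  GLE (fun x : Inc e => x.1.1) (fun x : Inc e => x.1.2) g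

/-- The adjacency multigraph of `e` is the simple graph `G`: adjacent vertices are together in
exactly one hyperedge, other pairs of vertices in none. -/
def IsAdj {V E : Type} (e : E → Finset V) (G : SimpleGraph V) : Prop :=
  ∀ u v, u ≠ v → (G.Adj u v → ∃! j, u ∈ e j ∧ v ∈ e j) ∧
    (¬ G.Adj u v → ∀ j, ¬ (u ∈ e j ∧ v ∈ e j))

/-- The reduced genus of `G`: the least genus of a hypergraph with adjacency multigraph `G`. -/
noncomputable def redGenus {V : Type} (G : SimpleGraph V) : ℕ :=
  sInf {g | ∃ (E : Type) (_ : Fintype E) (e : E → Finset V),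
    (∀ j, (e j).Nonempty) ∧ IsAdj e G ∧ GenusLE e g}

/-- `G` is `k`-choosable. -/
def Choosable {V : Type} (G : SimpleGraph V) (k : ℕ) : Prop :=
  ∀ L : V → Finset ℕ, (∀ v, (L v).card = k) →
    ∃ f : V → ℕ, (∀ v, f v ∈ L v) ∧ ∀ u v, G.Adj u v → f u ≠ f v

/-- The choice number. -/
noncomputable def ch {V : Type} (G : SimpleGraph V) : ℕ := sInf {k | Choosable G k}

/-- `C(g)`: the least `C` such that `ch G ≤ max C (ω(G) + 2)` for every simple graph `G` of
reduced genus `g`. -/
noncomputable def Cg (g : ℕ) : ℕ :=
  sInf {C | ∀ (V : Type) (_ : Fintype V) (G : SimpleGraph V), redGenus G = g →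
    ch G ≤ max C (G.cliqueNum + 2)}

end Pool.Agent.Helper33.RG
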