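import Pool.Agent.Helper33.RG.SWP

/-!
# Block RG-EUL: faces and Euler's inequality (MP_1f20e3_co)

`cyc_mul_le`: if `A` is a set of elements such that every orbit of `π` contains at least `k` elements of `A` then `k * cyc π ≤ |A|` (`A` is the disjoint union of its parts in the orbits; formally the orbit map `A → Quot` has all fibres of size `≥ k`).
`cyc_eq_range`: if the orbits of `σ` are the fibres of `v` then `cyc σ = |v(X)|` (`Quot ≃ Set.range v`; the relation generated by `y = σ x` is `SameCycle`, as `X` is finite).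
`euler3`: `e` linear (from `IsAdj`), all hyperedges of size `≥ 2`, all vertices in `≥ 2` hyperedges, `V` nonempty: `2 |Inc| + 6 ≤ 3 |V| + 3 |E| + 6 g`.
PROOF of `euler3`. Let `σ, α` be as in `GLE`, `φ = σ * α`. `cyc σ = |V|`, `cyc α = |E|` (every vertex and hyperedge has an incidence), `comp ≥ 1` (`Inc e` is nonempty). Every orbit of `φ` has at least three elements: the vertex of `φ x` is the vertex of `α x`; `α x` is in the hyperedge of `x`,
`α x ≠ x` (`|e j| ≥ 2`), so the vertices of `x` and `φ x` are different; in particular `φ x ≠ x`. If `φ (φ x) = x`, `y = φ x`: the hyperedge `j` of `x` contains the vertices of `x` and `y` (of `α x`), the hyperedge `j'` of `y` contains the vertices of `y` and `x`, so `j = j'` by linearity, `α x` and `y` have the same vertex and the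
same hyperedge, so `α x = y` and `σ y = φ x = y`: the vertex of `y` is in only one hyperedge, contradiction. So `x, φ x, φ (φ x)` are different and `3 cyc φ ≤ |Inc|`. Insert in the inequality of `GLE` and multiply by 3.
-/

set_option autoImplicit false

namespace Pool.Agent.Helper33.RG

open Equiv

theorem quot_mk_eq {X : Type} [Finite X] (π : Perm X) {a b : X} (h : π.SameCycle a b) :
    Quot.mk (fun x y : X => y = π x) a = Quot.mk (fun x y : X => y = π x) b :=
  Quot.eqvGen_sound ((eqvGen_iff π a b).2 h)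

theorem sameCycle_of_quot {X : Type} [Finite X] (π : Perm X) {a b : X}
    (h : Quot.mk (fun x y : X => y = π x) a = Quot.mk (fun x y : X => y = π x) b) :
    π.SameCycle a b :=
  (eqvGen_iff π a b).1 (Quot.eqvGen_exact h)

theorem cyc_mul_le {X : Type} [Finite X] (π : Perm X) (A : Set X) (k : ℕ)
    (h : ∀ x, ∃ f : Fin k → X, Function.Injective f ∧ ∀ i, f i ∈ A ∧ π.SameCycle x (f i)) :
    k * cyc π ≤ Nat.card A := by
  choose f hf1 hf2 using h
  have h1 : Nat.card (Fin k × Quot fun x y : X => y = π x) ≤ Nat.card A := by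
    refine Nat.card_le_card_of_injective
      (fun q => (⟨f q.2.out q.1, (hf2 q.2.out q.1).1⟩ : A)) ?_
    rintro ⟨i, q⟩ ⟨j, q'⟩ hqq
    have h2 : f q.out i = f q'.out j := Subtype.ext_iff.1 hqq
    have h3 := quot_mk_eq π (hf2 q.out i).2
    have h4 := quot_mk_eq π (hf2 q'.out j).2
    rw [Quot.out_eq] at h3 h4
    have h5 : q = q' := by rw [h3, h4, h2]
    subst h5
    rw [hf1 _ h2]
  rwa [Nat.card_prod, Nat.card_fin] at h1

theorem cyc_eq_range {X A : Type} [Finite X] (σ : Perm X) (v : X → A)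
    (h : ∀ x y, σ.SameCycle x y ↔ v x = v y) : cyc σ = Nat.card (Set.range v) := by
  refine Nat.card_congr (Equiv.ofBijective (Quot.lift (fun x => (⟨v x, x, rfl⟩ : Set.range v))
    (fun a b hab => Subtype.ext ((h a b).1 (by
      subst hab
      exact (Perm.sameCycle_apply_right).2 (Perm.SameCycle.refl _ _))))) ⟨?_, ?_⟩)
  · rintro ⟨a⟩ ⟨b⟩ hab
    exact quot_mk_eq σ ((h a b).2 (Subtype.ext_iff.1 hab))
  · rintro ⟨_, x, rfl⟩
    exact ⟨Quot.mk _ x, rfl⟩

theorem one_le_comp {X : Type} [Finite X] [Nonempty X] (σ α : Perm X) : 1 ≤ comp σ α := by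
  obtain ⟨x⟩ := ‹Nonempty X›
  have : Nonempty (Quot fun x y => y = σ x ∨ y = α x) := ⟨Quot.mk _ x⟩
  exact Nat.card_pos

/-- Linearity: `x ↦ σ (α x)` has no short orbits except degenerate ones. For all incidences `x`
with `α x ≠ x`: the vertices of `x` and of `σ (α x)` are different; and if also `y = σ (α x)`
satisfies `α y ≠ y` and `σ (α y) = x` then `α x = y`. -/
theorem face_aux {X A B : Type} (v : X → A) (w : X → B)
    (hinj : ∀ x y, v x = v y → w x = w y → x = y)
    (hlin : ∀ x x' y y', w x = w x' → w y = w y' → v x = v y → v x' = v y' → v x ≠ v x' →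
      w x = w y)
    (σ α : Perm X) (hσ : ∀ x y, σ.SameCycle x y ↔ v x = v y)
    (hα : ∀ x y, α.SameCycle x y ↔ w x = w y) (x : X) :
    (α x ≠ x → v x ≠ v (σ (α x))) ∧
    (α x ≠ x → α (σ (α x)) ≠ σ (α x) → σ (α (σ (α x))) = x → α x = σ (α x)) := by
  have hvσ : ∀ z, v (σ z) = v z := fun z =>
    ((hσ z (σ z)).1 ((Perm.sameCycle_apply_right).2 (Perm.SameCycle.refl _ _))).symm
  have hwα : ∀ z, w (α z) = w z := fun z =>
    ((hα z (α z)).1 ((Perm.sameCycle_apply_right).2 (Perm.SameCycle.refl _ _))).symm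
  have h1 : α x ≠ x → v x ≠ v (α x) := fun h2 h3 => h2 (hinj _ _ h3.symm (hwα x))
  constructor
  · intro h2
    rw [hvσ]
    exact h1 h2
  · intro h2 h3 h4
    have h5 : v (α (σ (α x))) = v x := by
      rw [← hvσ, h4]
    have h6 : w x = w (α (σ (α x))) := by
      refine hlin x (α x) (α (σ (α x))) (σ (α x)) (hwα x).symm (hwα _) h5.symm (hvσ _).symm
        (h1 h2)
    refine hinj _ _ (hvσ _).symm ?_
    rw [hwα, h6, hwα]

/-- The two conditions of `face_aux` for the incidences of a hypergraph. -/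
theorem inc_lin {V E : Type} {e : E → Finset V} {G : SimpleGraph V} (he : IsAdj e G) :
    (∀ x y : Inc e, x.1.1 = y.1.1 → x.1.2 = y.1.2 → x = y) ∧
    (∀ x x' y y' : Inc e, x.1.2 = x'.1.2 → y.1.2 = y'.1.2 → x.1.1 = y.1.1 → x'.1.1 = y'.1.1 →
      x.1.1 ≠ x'.1.1 → x.1.2 = y.1.2) := by
  refine ⟨fun x y h1 h2 => Subtype.ext (Prod.ext h1 h2), fun x x' y y' h1 h2 h3 h4 h5 => ?_⟩
  have hx := x.2
  have hx' := x'.2
  have hy := y.2
  have hy' := y'.2
  rw [← h1] at hx'
  rw [← h2, ← h4] at hy'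
  rw [← h3] at hy
  by_cases hG : G.Adj x.1.1 x'.1.1
  · obtain ⟨j, _, hj⟩ := (he _ _ h5).1 hG
    rw [hj _ ⟨hx, hx'⟩, hj _ ⟨hy, hy'⟩]
  · exact absurd ⟨hx, hx'⟩ ((he _ _ h5).2 hG _)

theorem euler3 {V E : Type} [Fintype V] [Fintype E] [Nonempty V] {e : E → Finset V}
    {G : SimpleGraph V} (he : IsAdj e G) (h2 : ∀ j, 2 ≤ (e j).card)
    (hd : ∀ v, ∃ i j, i ≠ j ∧ v ∈ e i ∧ v ∈ e j) {g : ℕ} (hg : GenusLE e g) :
    2 * Nat.card (Inc e) + 6 ≤ 3 * Fintype.card V + 3 * Fintype.card E + 6 * g := by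
  obtain ⟨σ, α, hσ, hα, hle⟩ := hg
  obtain ⟨hinj, hlin⟩ := inc_lin he
  have hfix : ∀ (τ : Perm (Inc e)) (x y : Inc e), τ.SameCycle x y → x ≠ y → τ x ≠ x := by
    intro τ x y h hxy hx
    obtain ⟨i, hi⟩ := h
    rw [Perm.zpow_apply_eq_self_of_apply_eq_self hx i] at hi
    exact hxy hi
  have hαx : ∀ x, α x ≠ x := by
    rintro ⟨⟨v, j⟩, hx⟩
    obtain ⟨v', hv', hne⟩ := Finset.exists_mem_ne (h2 j) v
    refine hfix α _ ⟨(v', j), hv'⟩ ((hα _ _).2 rfl) ?_
    intro h
    exact hne (congrArg (fun z : Inc e => z.1.1) h).symm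
  have hσx : ∀ x, σ x ≠ x := by
    rintro ⟨⟨v, j⟩, hx⟩
    obtain ⟨i, i', hii, hi, hi'⟩ := hd v
    by_cases hij : i = j
    · refine hfix σ _ ⟨(v, i'), hi'⟩ ((hσ _ _).2 rfl) ?_
      intro h
      have h3 : j = i' := congrArg (fun z : Inc e => z.1.2) h
      exact hii (hij.trans h3)
    · refine hfix σ _ ⟨(v, i), hi⟩ ((hσ _ _).2 rfl) ?_
      intro h
      exact hij (congrArg (fun z : Inc e => z.1.2) h).symm
  have hcσ : cyc σ = Fintype.card V := by
    rw [cyc_eq_range σ _ hσ]
    have : Set.range (fun x : Inc e => x.1.1) = Set.univ := by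
      rw [Set.range_eq_univ]
      intro v
      obtain ⟨i, _, _, hi, _⟩ := hd v
      exact ⟨⟨(v, i), hi⟩, rfl⟩
    rw [this, Nat.card_univ, Nat.card_eq_fintype_card]
  have hcα : cyc α = Fintype.card E := by
    rw [cyc_eq_range α _ hα]
    have : Set.range (fun x : Inc e => x.1.2) = Set.univ := by
      rw [Set.range_eq_univ]
      intro j
      obtain ⟨v, hv⟩ := Finset.card_pos.1 (lt_of_lt_of_le zero_lt_two (h2 j))
      exact ⟨⟨(v, j), hv⟩, rfl⟩
    rw [this, Nat.card_univ, Nat.card_eq_fintype_card]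
  have hne : Nonempty (Inc e) := by
    obtain ⟨v⟩ := ‹Nonempty V›
    obtain ⟨i, _, _, hi, _⟩ := hd v
    exact ⟨⟨(v, i), hi⟩⟩
  have hc1 := one_le_comp σ α
  have h3 : 3 * cyc (σ * α) ≤ Nat.card (Set.univ : Set (Inc e)) := by
    refine cyc_mul_le (σ * α) Set.univ 3 ?_
    intro x
    have hf := face_aux _ _ hinj hlin σ α hσ hα
    have a1 : ∀ x, (σ * α) x ≠ x := by
      intro x h
      refine (hf x).1 (hαx x) ?_
      have h' : σ (α x) = x := h
      rw [h']
    have a2 : ∀ x, (σ * α) ((σ * α) x) ≠ x := by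
      intro x h
      have h' : σ (α (σ (α x))) = x := h
      exact hσx (α x) ((hf x).2 (hαx x) (hαx _) h').symm
    refine ⟨![x, (σ * α) x, (σ * α) ((σ * α) x)], ?_, ?_⟩
    · intro i j hij
      fin_cases i <;> fin_cases j <;> simp only [Fin.zero_eta, Fin.mk_one, Fin.reduceFinMk,
        Matrix.cons_val_zero, Matrix.cons_val_one, Matrix.cons_val] at hij ⊢
      · exact absurd hij.symm (a1 x)
      · exact absurd hij.symm (a2 x)
      · exact absurd hij (a1 x)
      · exact absurd hij.symm (a1 _)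
      · exact absurd hij (a2 x)
      · exact absurd hij (a1 _)
    · intro i
      refine ⟨Set.mem_univ _, ?_⟩
      fin_cases i
      · exact Perm.SameCycle.refl _ _
      · exact (Perm.sameCycle_apply_right).2 (Perm.SameCycle.refl _ _)
      · exact (Perm.sameCycle_apply_right).2
          ((Perm.sameCycle_apply_right).2 (Perm.SameCycle.refl _ _))
  rw [Nat.card_univ] at h3
  rw [hcσ, hcα] at hle
  omega

end Pool.Agent.Helper33.RG
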