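import Pool.Agent.Helper33.RG.GLM

/-!
# Block RG-GL: savings from the vertex cover number (MP_1f20e3_co)

`gl`: `τ(T[S]) ≥ k`, `k ≤ 8` implies savings `≥ k - k / 3` (`= 0, 1, 2, 2, 3, 4, 4, 5, 6`).

PROOF. `IsMat.sav`: a matching with `k` edges gives savings `k` (induction on `k`: `Sav.two` with the last edge, the
others are in `S \ {u, v}`). `gl` by strong induction on `k`: `k = 0` trivial. If `T[S]` has a triangle `uvw`:
`Tau T (S \ {u,v,w}) (k - 3)`, so `Sav.three` and the induction hypothesis give `2 + (k-3) - (k-3)/3`, for `k < 3` just `2`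
(`Sav.mono`). If not: `tf_bound` for `j = k - k/3 - 1` (`j ≤ 5`, `tfb j + 1 ≤ k`: `k = 1..8`, `j = 0,1,1,2,3,3,4,5`,
`tfb j + 1 = 1,2,2,4,5,5,7,8`) gives a matching with `j + 1` edges.
`exists_mat`: `T[S]` triangle-free, `Tau T S 4` gives a matching with three edges (`tf_bound` with `k = 2`).
-/

set_option autoImplicit false

namespace Pool.Agent.Helper33.RG

variable {α : Type} [DecidableEq α] {T : SimpleGraph α} {S : Finset α}

theorem IsMat.sav {k : ℕ} {a b : Fin k → α} (h : IsMat T S k a b) : Sav T S k := by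
  induction k generalizing S with
  | zero => exact Sav.zero S
  | succ k ih =>
    have hAA : ∀ i j, a i = a j → i = j := fun i j hij =>
      Sum.inl.inj (h.inj (a₁ := Sum.inl i) (a₂ := Sum.inl j) hij)
    have hBB : ∀ i j, b i = b j → i = j := fun i j hij =>
      Sum.inr.inj (h.inj (a₁ := Sum.inr i) (a₂ := Sum.inr j) hij)
    have hAB : ∀ i j, a i ≠ b j := fun i j hij => by
      have := h.inj (a₁ := Sum.inl i) (a₂ := Sum.inr j) hij
      exact Sum.inl_ne_inr this
    refine Sav.two (h.memA (Fin.last k)) (h.memB (Fin.last k)) (h.adj (Fin.last k)) ?_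
    refine ih (a := fun i => a i.castSucc) (b := fun i => b i.castSucc) ⟨?_, ?_, ?_, ?_⟩
    · rintro (i | i) (j | j) hij
      · exact congrArg Sum.inl (Fin.castSucc_injective k (hAA _ _ hij))
      · exact absurd hij (hAB _ _)
      · exact absurd hij.symm (hAB _ _)
      · exact congrArg Sum.inr (Fin.castSucc_injective k (hBB _ _ hij))
    · intro i
      rw [Finset.mem_sdiff, Finset.mem_insert, Finset.mem_singleton, not_or]
      exact ⟨h.memA _, fun h' => (Fin.castSucc_lt_last i).ne (hAA _ _ h'), hAB _ _⟩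
    · intro i
      rw [Finset.mem_sdiff, Finset.mem_insert, Finset.mem_singleton, not_or]
      exact ⟨h.memB _, fun h' => hAB _ _ h'.symm, fun h' => (Fin.castSucc_lt_last i).ne (hBB _ _ h')⟩
    · intro i
      exact h.adj _

private theorem mat94 {k : ℕ} (hT : TriFree T S) (j : ℕ) (hj : j ≤ 5) (h : Tau T S k) (hk : tfb j + 1 ≤ k) :
    ∃ a b : Fin (j + 1) → α, IsMat T S (j + 1) a b := by
  by_contra hcon
  push Not at hcon
  exact tf_bound T S j hj hT hcon (h.mono (Finset.Subset.refl S) hk)

theorem gl {k : ℕ} (hk : k ≤ 8) (h : Tau T S k) : Sav T S (k - k / 3) := by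
  induction k using Nat.strong_induction_on generalizing S with
  | _ k ih =>
    by_cases hT : TriFree T S
    · rcases Nat.eq_zero_or_pos k with h0 | h0
      · subst h0
        exact Sav.zero S
      have hj : ∃ j, j ≤ 5 ∧ tfb j + 1 ≤ k ∧ j + 1 = k - k / 3 := by
        have hk1 : k = 1 ∨ k = 2 ∨ k = 3 ∨ k = 4 ∨ k = 5 ∨ k = 6 ∨ k = 7 ∨ k = 8 := by omega
        rcases hk1 with rfl | rfl | rfl | rfl | rfl | rfl | rfl | rfl
        · exact ⟨0, by decide⟩
        · exact ⟨1, by decide⟩
        · exact ⟨1, by decide⟩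
        · exact ⟨2, by decide⟩
        · exact ⟨3, by decide⟩
        · exact ⟨3, by decide⟩
        · exact ⟨4, by decide⟩
        · exact ⟨5, by decide⟩
      obtain ⟨j, hj5, hjk, hj⟩ := hj
      obtain ⟨a, b, hab⟩ := mat94 hT j hj5 h hjk
      rw [← hj]
      exact hab.sav
    · unfold TriFree at hT
      push Not at hT
      obtain ⟨u, hu, v, hv, w, hw, huv, huw, hvw⟩ := hT
      rcases lt_or_ge k 3 with hk3 | hk3
      · exact (Sav.three hu hv hw huv huw hvw (Sav.zero _)).mono (Finset.Subset.refl S) (by omega)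
      · have hc : ({u, v, w} : Finset α).card = 3 := by
          rw [Finset.card_insert_of_notMem, Finset.card_pair hvw.ne]
          simp [huv.ne, huw.ne]
        have h1 : Tau T (S \ {u, v, w}) (k - 3) := h.sdiff' {u, v, w} (by omega)
        have h2 := ih (k - 3) (by omega) (by omega) h1
        exact (Sav.three hu hv hw huv huw hvw h2).mono (Finset.Subset.refl S) (by omega)

theorem exists_mat (hT : TriFree T S) (h : Tau T S 4) : ∃ a b : Fin 3 → α, IsMat T S 3 a b :=
  mat94 hT 2 (by decide) h (by decide)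

end Pool.Agent.Helper33.RG
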