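import Pool.Agent.Helper33.RG.HubApi

/-!
# Block RG-GLM: triangle-free graphs with small matching number (MP_1f20e3_co)

`tf_bound`: if `T[S]` has no triangle and no matching with `k + 1` edges, `k ≤ 5`, then it has a vertex cover with at
most `tfb k` elements (`tfb = 0, 1, 3, 4, 6, 7` for `k = 0, ..., 5`).

PROOF. Let `k` be the matching number (for smaller `k` use `tfb` monotone, or take `k` minimal), `a, b : Fin k → α` a
maximum matching, `R` = the vertices of `S` outside of it. `R` is independent (else the matching can be enlarged). For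
every `i` at most one of `a i`, `b i` has a neighbour in `R`: `a i ~ r`, `b i ~ r'`: `r = r'` is a triangle, `r ≠ r'`
gives a larger matching (replace `a i b i` by `a i r`, `b i r'`). Exchange names such that no `b i` has a neighbour in `R`. If `B ⊆ {b i}` is
independent, then `R ∪ B` is independent, so `S` without `R ∪ B` is a cover with `2k - |B|` elements. So we need `|B| = 1, 1, 2, 2, 3` for
`k = 1, ..., 5`. `k = 3, 4`: among three `b`'s two are not adjacent (no triangle). `k = 5`: an independent set of three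
`b`'s does not exist only if every `b i` is adjacent to exactly two of the other four `b`'s (three neighbours would be
independent; three non-neighbours contain a non-adjacent pair). Assume this. Then two non-adjacent `b`'s have a common neighbour among the `b`'s
(`b k` not adjacent to `b i` has two neighbours, at most one of them is the other non-neighbour of `b i`).
(1) No `a i` has a neighbour in `R`: the ten vertices `a i`, `b i` contain an independent set with three elements (R(3,3) ≤ 6: a vertex with three neighbours, or a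
vertex with `≥ 3` non-neighbours, among which two are non-adjacent), `R ∪` this set is independent: cover with 7 elements.
(2) `a i ~ r`, `r ∈ R`. Consider the matching with `a i r` instead of `a i b i`; its unmatched set is `R' = R - r + b i`. For `b j ~ b i` the vertex `b j`
has a neighbour in `R'`, so `a j` has none: `a j` has no neighbour in `R` except possibly `r`. For `b j` not adjacent to `b i` the vertex `b j` has no
neighbour in `R'`. So the choice `B' = {r} ∪ {a j : b j ~ b i} ∪ {b j : b j ≁ b i, j ≠ i}` is as good as `{b i}`; if it has an independent subset with three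
elements we are done, if not then `r` has exactly two neighbours in `B'`; these are not `b`'s, so `r ~ a j` for both `j` with `b j ~ b i`. So: `a i ~ r` implies
`a j ~ r` and `N_R(a j) ⊆ {r}` for all `j` with `b j ~ b i`; going on (connectedness) for all `j`, and also for `i` itself. So all edges of `T[S]` are inside the eleven
vertices `a`, `b`, `r`. A triangle-free graph with at least 10 vertices has an independent set with four elements (a vertex with four neighbours;
or all degrees `≤ 3`, then a vertex has `≥ 6` non-neighbours, three of them independent by R(3,3) ≤ 6). So there is a cover with `11 - 4 = 7` elements.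
-/

set_option autoImplicit false

namespace Pool.Agent.Helper33.RG

variable {α : Type} [DecidableEq α]

/-- `a i b i`, `i < k`, is a matching of `T[S]`. -/
structure IsMat (T : SimpleGraph α) (S : Finset α) (k : ℕ) (a b : Fin k → α) : Prop where
  inj : Function.Injective (Sum.elim a b)
  memA : ∀ i, a i ∈ S
  memB : ∀ i, b i ∈ S
  adj : ∀ i, T.Adj (a i) (b i)

/-- `T[S]` has no triangle. -/
def TriFree (T : SimpleGraph α) (S : Finset α) : Prop :=
  ∀ u ∈ S, ∀ v ∈ S, ∀ w ∈ S, T.Adj u v → T.Adj u w → ¬ T.Adj v w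

/-- The bound for the vertex cover number. -/
def tfb : ℕ → ℕ
  | 0 => 0
  | 1 => 1
  | 2 => 3
  | 3 => 4
  | 4 => 6
  | _ => 7

/-! ### matchings -/

private def vs38 {k : ℕ} (a b : Fin k → α) : Finset α :=
  Finset.univ.image a ∪ Finset.univ.image b

private lemma mem_vs38 {k : ℕ} {a b : Fin k → α} {x : α} :
    x ∈ vs38 a b ↔ (∃ i, a i = x) ∨ ∃ i, b i = x := by
  unfold vs38
  rw [Finset.mem_union, Finset.mem_image, Finset.mem_image]
  simp

variable {T : SimpleGraph α} {S : Finset α} {k : ℕ} {a b : Fin k → α}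

omit [DecidableEq α] in
private lemma ainj38 (h : IsMat T S k a b) {i j : Fin k} (hij : a i = a j) : i = j :=
  Sum.inl.inj (h.inj (a₁ := Sum.inl i) (a₂ := Sum.inl j) hij)

omit [DecidableEq α] in
private lemma binj38 (h : IsMat T S k a b) {i j : Fin k} (hij : b i = b j) : i = j :=
  Sum.inr.inj (h.inj (a₁ := Sum.inr i) (a₂ := Sum.inr j) hij)

omit [DecidableEq α] in
private lemma abne38 (h : IsMat T S k a b) (i j : Fin k) : a i ≠ b j := fun hij =>
  Sum.inl_ne_inr (h.inj (a₁ := Sum.inl i) (a₂ := Sum.inr j) hij)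

omit [DecidableEq α] in
private lemma mk38 {k : ℕ} {a b : Fin k → α} (ha : ∀ i j, a i = a j → i = j)
    (hb : ∀ i j, b i = b j → i = j) (hab : ∀ i j, a i ≠ b j) :
    Function.Injective (Sum.elim a b) := by
  rintro (i | i) (j | j) hij
  · exact congrArg Sum.inl (ha i j hij)
  · exact absurd hij (hab i j)
  · exact absurd hij.symm (hab j i)
  · exact congrArg Sum.inr (hb i j hij)

private lemma card_vs38 (h : IsMat T S k a b) : (vs38 a b).card = 2 * k := by
  have h1 : vs38 a b = Finset.univ.image (Sum.elim a b) := by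
    ext x
    rw [mem_vs38, Finset.mem_image]
    constructor
    · rintro (⟨i, hi⟩ | ⟨i, hi⟩)
      · exact ⟨Sum.inl i, Finset.mem_univ _, hi⟩
      · exact ⟨Sum.inr i, Finset.mem_univ _, hi⟩
    · rintro ⟨i | i, -, hi⟩
      · exact Or.inl ⟨i, hi⟩
      · exact Or.inr ⟨i, hi⟩
  rw [h1, Finset.card_image_of_injective _ h.inj, Finset.card_univ, Fintype.card_sum,
    Fintype.card_fin]
  ring

private lemma vs_sub38 (h : IsMat T S k a b) : vs38 a b ⊆ S := by
  intro x hx
  rcases mem_vs38.1 hx with ⟨i, rfl⟩ | ⟨i, rfl⟩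
  · exact h.memA i
  · exact h.memB i

/-- a matching is enlarged by an edge outside -/
private lemma ext38 (h : IsMat T S k a b) {u v : α} (hu : u ∈ S) (hv : v ∈ S)
    (hu' : u ∉ vs38 a b) (hv' : v ∉ vs38 a b) (huv : T.Adj u v) :
    IsMat T S (k + 1) (Fin.cons u a) (Fin.cons v b) := by
  rw [mem_vs38, not_or] at hu' hv'
  obtain ⟨u1, u2⟩ := hu'
  obtain ⟨v1, v2⟩ := hv'
  refine ⟨mk38 ?_ ?_ ?_, ?_, ?_, ?_⟩
  · intro i j
    refine Fin.cases ?_ (fun i => ?_) i <;> refine Fin.cases ?_ (fun j => ?_) j <;> intro hij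
    · rfl
    · exact absurd ⟨j, by simpa using hij.symm⟩ u1
    · exact absurd ⟨i, by simpa using hij⟩ u1
    · rw [Fin.cons_succ, Fin.cons_succ] at hij
      rw [ainj38 h hij]
  · intro i j
    refine Fin.cases ?_ (fun i => ?_) i <;> refine Fin.cases ?_ (fun j => ?_) j <;> intro hij
    · rfl
    · exact absurd ⟨j, by simpa using hij.symm⟩ v2
    · exact absurd ⟨i, by simpa using hij⟩ v2
    · rw [Fin.cons_succ, Fin.cons_succ] at hij
      rw [binj38 h hij]
  · intro i j
    refine Fin.cases ?_ (fun i => ?_) i <;> refine Fin.cases ?_ (fun j => ?_) j <;> intro hij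
    · rw [Fin.cons_zero, Fin.cons_zero] at hij
      exact huv.ne hij
    · exact u2 ⟨j, by simpa using hij.symm⟩
    · exact v1 ⟨i, by simpa using hij⟩
    · rw [Fin.cons_succ, Fin.cons_succ] at hij
      exact abne38 h i j hij
  · intro i
    refine Fin.cases ?_ (fun i => ?_) i
    · exact hu
    · exact h.memA i
  · intro i
    refine Fin.cases ?_ (fun i => ?_) i
    · exact hv
    · exact h.memB i
  · intro i
    refine Fin.cases ?_ (fun i => ?_) i
    · exact huv
    · exact h.adj i

/-- an edge of the matching is replaced -/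
private lemma upd38 (h : IsMat T S k a b) {i : Fin k} {r : α} (hr : r ∈ S) (hr' : r ∉ vs38 a b)
    (har : T.Adj (a i) r) : IsMat T S k a (Function.update b i r) := by
  rw [mem_vs38, not_or] at hr'
  obtain ⟨r1, r2⟩ := hr'
  refine ⟨mk38 (fun _ _ hij => ainj38 h hij) ?_ ?_, h.memA, ?_, ?_⟩
  · intro j l hjl
    by_cases hj : j = i
    · by_cases hl : l = i
      · rw [hj, hl]
      · rw [hj, Function.update_self, Function.update_of_ne hl] at hjl
        exact absurd ⟨l, hjl.symm⟩ r2
    · by_cases hl : l = i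
      · rw [hl, Function.update_self, Function.update_of_ne hj] at hjl
        exact absurd ⟨j, hjl⟩ r2
      · rw [Function.update_of_ne hl, Function.update_of_ne hj] at hjl
        exact binj38 h hjl
  · intro j l hjl
    by_cases hl : l = i
    · rw [hl, Function.update_self] at hjl
      exact r1 ⟨j, hjl⟩
    · rw [Function.update_of_ne hl] at hjl
      exact abne38 h j l hjl
  · intro j
    by_cases hj : j = i
    · rw [hj, Function.update_self]
      exact hr
    · rw [Function.update_of_ne hj]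
      exact h.memB j
  · intro j
    by_cases hj : j = i
    · rw [hj, Function.update_self]
      exact har
    · rw [Function.update_of_ne hj]
      exact h.adj j

private lemma vs_upd38 (h : IsMat T S k a b) {i : Fin k} {r x : α} (hx : x ≠ r)
    (hx' : x ∉ vs38 a b ∨ x = b i) : x ∉ vs38 a (Function.update b i r) := by
  rw [mem_vs38, not_or]
  rcases hx' with hx' | rfl
  · rw [mem_vs38, not_or] at hx'
    refine ⟨hx'.1, ?_⟩
    rintro ⟨j, hj⟩
    by_cases hji : j = i
    · rw [hji, Function.update_self] at hj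
      exact hx hj.symm
    · rw [Function.update_of_ne hji] at hj
      exact hx'.2 ⟨j, hj⟩
  · refine ⟨?_, ?_⟩
    · rintro ⟨j, hj⟩
      exact abne38 h j i hj
    · rintro ⟨j, hj⟩
      by_cases hji : j = i
      · rw [hji, Function.update_self] at hj
        exact hx hj.symm
      · rw [Function.update_of_ne hji] at hj
        exact hji (binj38 h hj)

private lemma indR38 (h : IsMat T S k a b) (hM : ∀ a b : Fin (k + 1) → α, ¬ IsMat T S (k + 1) a b) :
    ∀ u ∈ S \ vs38 a b, ∀ v ∈ S \ vs38 a b, ¬ T.Adj u v := by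
  intro u hu v hv huv
  rw [Finset.mem_sdiff] at hu hv
  exact hM _ _ (ext38 h hu.1 hv.1 hu.2 hv.2 huv)

/-- at most one end of an edge of the matching has a neighbour outside -/
private lemma amo38 (h : IsMat T S k a b) (hT : TriFree T S)
    (hM : ∀ a b : Fin (k + 1) → α, ¬ IsMat T S (k + 1) a b) {i : Fin k} {r r' : α} (hr : r ∈ S)
    (hr1 : r ∉ vs38 a b) (hr' : r' ∈ S) (hr1' : r' ∉ vs38 a b) (h1 : T.Adj (a i) r)
    (h2 : T.Adj (b i) r') : False := by
  by_cases hrr : r = r'
  · subst hrr
    exact hT _ (h.memA i) _ (h.memB i) _ hr (h.adj i) h1 h2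
  · have h' := upd38 h hr hr1 h1
    refine hM _ _ (ext38 h' (h.memB i) hr' (vs_upd38 h ?_ (Or.inr rfl))
      (vs_upd38 h (Ne.symm hrr) (Or.inl hr1')) h2)
    intro hbr
    exact hr1 (mem_vs38.2 (Or.inr ⟨i, hbr⟩))

open Classical in
/-- the names can be exchanged such that the vertices `b i` have no neighbours outside -/
private lemma good38 (h : IsMat T S k a b) (hT : TriFree T S)
    (hM : ∀ a b : Fin (k + 1) → α, ¬ IsMat T S (k + 1) a b) :
    ∃ a' b' : Fin k → α, IsMat T S k a' b' ∧ vs38 a' b' = vs38 a b ∧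
      (∀ i, ∀ r ∈ S, r ∉ vs38 a b → ¬ T.Adj (b' i) r) ∧
      ∀ i, b' i = if ∃ r ∈ S, r ∉ vs38 a b ∧ T.Adj (b i) r then a i else b i := by
  set P : Fin k → Prop := fun i => ∃ r ∈ S, r ∉ vs38 a b ∧ T.Adj (b i) r with hP
  refine ⟨fun i => if P i then b i else a i, fun i => if P i then a i else b i, ⟨mk38 ?_ ?_ ?_, ?_,
    ?_, ?_⟩, ?_, ?_, fun i => rfl⟩
  · intro i j hij
    by_cases hi : P i <;> by_cases hj : P j
    · simp only [if_pos hi, if_pos hj] at hij
      exact binj38 h hij
    · simp only [if_pos hi, if_neg hj] at hij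
      exact absurd hij.symm (abne38 h j i)
    · simp only [if_neg hi, if_pos hj] at hij
      exact absurd hij (abne38 h i j)
    · simp only [if_neg hi, if_neg hj] at hij
      exact ainj38 h hij
  · intro i j hij
    by_cases hi : P i <;> by_cases hj : P j
    · simp only [if_pos hi, if_pos hj] at hij
      exact ainj38 h hij
    · simp only [if_pos hi, if_neg hj] at hij
      exact absurd hij (abne38 h i j)
    · simp only [if_neg hi, if_pos hj] at hij
      exact absurd hij.symm (abne38 h j i)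
    · simp only [if_neg hi, if_neg hj] at hij
      exact binj38 h hij
  · intro i j hij
    by_cases hi : P i <;> by_cases hj : P j
    · simp only [if_pos hi, if_pos hj] at hij
      exact abne38 h j i hij.symm
    · simp only [if_pos hi, if_neg hj] at hij
      have := binj38 h hij
      rw [this] at hi
      exact hj hi
    · simp only [if_neg hi, if_pos hj] at hij
      have := ainj38 h hij
      rw [this] at hi
      exact hi hj
    · simp only [if_neg hi, if_neg hj] at hij
      exact abne38 h i j hij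
  · intro i
    by_cases hi : P i
    · simp only [if_pos hi]
      exact h.memB i
    · simp only [if_neg hi]
      exact h.memA i
  · intro i
    by_cases hi : P i
    · simp only [if_pos hi]
      exact h.memA i
    · simp only [if_neg hi]
      exact h.memB i
  · intro i
    by_cases hi : P i
    · simp only [if_pos hi]
      exact (h.adj i).symm
    · simp only [if_neg hi]
      exact h.adj i
  · ext x
    rw [mem_vs38, mem_vs38]
    constructor
    · rintro (⟨i, hi⟩ | ⟨i, hi⟩)
      · by_cases hPi : P i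
        · simp only [if_pos hPi] at hi
          exact Or.inr ⟨i, hi⟩
        · simp only [if_neg hPi] at hi
          exact Or.inl ⟨i, hi⟩
      · by_cases hPi : P i
        · simp only [if_pos hPi] at hi
          exact Or.inl ⟨i, hi⟩
        · simp only [if_neg hPi] at hi
          exact Or.inr ⟨i, hi⟩
    · rintro (⟨i, hi⟩ | ⟨i, hi⟩)
      · by_cases hPi : P i
        · exact Or.inr ⟨i, by simp only [if_pos hPi]; exact hi⟩
        · exact Or.inl ⟨i, by simp only [if_neg hPi]; exact hi⟩
      · by_cases hPi : P i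
        · exact Or.inl ⟨i, by simp only [if_pos hPi]; exact hi⟩
        · exact Or.inr ⟨i, by simp only [if_neg hPi]; exact hi⟩
  · intro i r hr hr1 hadj
    by_cases hPi : P i
    · simp only [if_pos hPi] at hadj
      obtain ⟨r', hr', hr1', hadj'⟩ := hPi
      exact amo38 h hT hM hr hr1 hr' hr1' hadj hadj'
    · simp only [if_neg hPi] at hadj
      exact hPi ⟨r, hr, hr1, hadj⟩

/-! ### covers and independent sets -/

private lemma cov38 {F Q : Finset α} {c : ℕ} (hF : F ⊆ S)
    (h1 : ∀ u ∈ S \ F, ∀ v ∈ S \ F, ¬ T.Adj u v) (hQ : Q ⊆ F)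
    (h2 : ∀ u ∈ Q, ∀ v ∈ Q, ¬ T.Adj u v) (h3 : ∀ u ∈ Q, ∀ v ∈ S \ F, ¬ T.Adj u v)
    (hc : F.card ≤ Q.card + c) : ¬ Tau T S (c + 1) := by
  intro hTau
  have h4 := hTau (F \ Q) (Finset.sdiff_subset.trans hF) ?_
  · rw [Finset.card_sdiff_of_subset hQ] at h4
    omega
  · intro u hu v hv
    rw [Finset.mem_sdiff, Finset.mem_sdiff, not_and, not_not] at hu hv
    by_cases hu1 : u ∈ F
    · by_cases hv1 : v ∈ F
      · exact h2 u (hu.2 hu1) v (hv.2 hv1)
      · exact h3 u (hu.2 hu1) v (Finset.mem_sdiff.2 ⟨hv.1, hv1⟩)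
    · by_cases hv1 : v ∈ F
      · intro h5
        exact h3 v (hv.2 hv1) u (Finset.mem_sdiff.2 ⟨hu.1, hu1⟩) h5.symm
      · exact h1 u (Finset.mem_sdiff.2 ⟨hu.1, hu1⟩) v (Finset.mem_sdiff.2 ⟨hv.1, hv1⟩)

omit [DecidableEq α] in
/-- three vertices, one of the pairs is not adjacent -/
private lemma three38 (hT : TriFree T S) {x y z : α} (hx : x ∈ S) (hy : y ∈ S) (hz : z ∈ S)
    (hxy : x ≠ y) (hxz : x ≠ z) (hyz : y ≠ z) :
    ∃ u v, u ≠ v ∧ (u = x ∨ u = y ∨ u = z) ∧ (v = x ∨ v = y ∨ v = z) ∧ ¬ T.Adj u v := by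
  by_cases h1 : T.Adj x y
  · by_cases h2 : T.Adj x z
    · exact ⟨y, z, hyz, by simp, by simp, hT x hx y hy z hz h1 h2⟩
    · exact ⟨x, z, hxz, by simp, by simp, h2⟩
  · exact ⟨x, y, hxy, by simp, by simp, h1⟩

open Classical in
private lemma ind3_38 (hT : TriFree T S) {W : Finset α} (hW : W ⊆ S) (hc : 6 ≤ W.card) :
    ∃ Q ⊆ W, Q.card = 3 ∧ ∀ u ∈ Q, ∀ v ∈ Q, ¬ T.Adj u v := by
  obtain ⟨v, hv⟩ := Finset.card_pos.1 (show 0 < W.card by omega)
  by_cases hN : 3 ≤ (W.filter fun u => T.Adj v u).card
  · obtain ⟨Q, hQ, hQc⟩ := Finset.exists_subset_card_eq hN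
    refine ⟨Q, hQ.trans (Finset.filter_subset _ _), hQc, fun x hx y hy => ?_⟩
    have hx' := Finset.mem_filter.1 (hQ hx)
    have hy' := Finset.mem_filter.1 (hQ hy)
    exact hT v (hW hv) x (hW hx'.1) y (hW hy'.1) hx'.2 hy'.2
  · have hsplit : (W.filter fun u => T.Adj v u).card + (W.filter fun u => ¬ T.Adj v u).card =
        W.card := Finset.card_filter_add_card_filter_not _
    have hvm : v ∈ W.filter fun u => ¬ T.Adj v u := Finset.mem_filter.2 ⟨hv, T.irrefl⟩
    have hc2 : 2 < ((W.filter fun u => ¬ T.Adj v u).erase v).card := by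
      rw [Finset.card_erase_of_mem hvm]
      omega
    obtain ⟨x, hx, y, hy, z, hz, hxy, hxz, hyz⟩ := Finset.two_lt_card.1 hc2
    rw [Finset.mem_erase, Finset.mem_filter] at hx hy hz
    obtain ⟨u, w, huw, hu, hw, hadj⟩ := three38 hT (hW hx.2.1) (hW hy.2.1) (hW hz.2.1) hxy hxz hyz
    have hmem : ∀ u, (u = x ∨ u = y ∨ u = z) → u ≠ v ∧ u ∈ W ∧ ¬ T.Adj v u := by
      rintro u (rfl | rfl | rfl)
      · exact hx
      · exact hy
      · exact hz
    obtain ⟨u1, u2, u3⟩ := hmem u hu
    obtain ⟨w1, w2, w3⟩ := hmem w hw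
    refine ⟨{v, u, w}, ?_, ?_, ?_⟩
    · intro q hq
      simp only [Finset.mem_insert, Finset.mem_singleton] at hq
      rcases hq with rfl | rfl | rfl
      · exact hv
      · exact u2
      · exact w2
    · rw [Finset.card_insert_of_notMem, Finset.card_pair huw]
      simp [Ne.symm u1, Ne.symm w1]
    · intro p hp q hq hpq
      simp only [Finset.mem_insert, Finset.mem_singleton] at hp hq
      rcases hp with rfl | rfl | rfl <;> rcases hq with rfl | rfl | rfl
      · exact T.irrefl hpq
      · exact u3 hpq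
      · exact w3 hpq
      · exact u3 hpq.symm
      · exact T.irrefl hpq
      · exact hadj hpq
      · exact w3 hpq.symm
      · exact hadj hpq.symm
      · exact T.irrefl hpq

open Classical in
private lemma ind4_38 (hT : TriFree T S) {W : Finset α} (hW : W ⊆ S) (hc : 10 ≤ W.card) :
    ∃ Q ⊆ W, Q.card = 4 ∧ ∀ u ∈ Q, ∀ v ∈ Q, ¬ T.Adj u v := by
  obtain ⟨v, hv⟩ := Finset.card_pos.1 (show 0 < W.card by omega)
  by_cases hN : 4 ≤ (W.filter fun u => T.Adj v u).card
  · obtain ⟨Q, hQ, hQc⟩ := Finset.exists_subset_card_eq hN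
    refine ⟨Q, hQ.trans (Finset.filter_subset _ _), hQc, fun x hx y hy => ?_⟩
    have hx' := Finset.mem_filter.1 (hQ hx)
    have hy' := Finset.mem_filter.1 (hQ hy)
    exact hT v (hW hv) x (hW hx'.1) y (hW hy'.1) hx'.2 hy'.2
  · have hsplit : (W.filter fun u => T.Adj v u).card + (W.filter fun u => ¬ T.Adj v u).card =
        W.card := Finset.card_filter_add_card_filter_not _
    have hvm : v ∈ W.filter fun u => ¬ T.Adj v u := Finset.mem_filter.2 ⟨hv, T.irrefl⟩
    have hc2 : 6 ≤ ((W.filter fun u => ¬ T.Adj v u).erase v).card := by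
      rw [Finset.card_erase_of_mem hvm]
      omega
    obtain ⟨Q, hQ, hQc, hQi⟩ := ind3_38 hT
      ((Finset.erase_subset _ _).trans ((Finset.filter_subset _ _).trans hW)) hc2
    have hQ' : ∀ q ∈ Q, q ≠ v ∧ q ∈ W ∧ ¬ T.Adj v q := by
      intro q hq
      have h1 := hQ hq
      rw [Finset.mem_erase, Finset.mem_filter] at h1
      exact h1
    refine ⟨insert v Q, ?_, ?_, ?_⟩
    · intro q hq
      rcases Finset.mem_insert.1 hq with rfl | hq
      · exact hv
      · exact (hQ' q hq).2.1
    · rw [Finset.card_insert_of_notMem (fun h => (hQ' v h).1 rfl), hQc]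
    · intro p hp q hq hpq
      rcases Finset.mem_insert.1 hp with hp1 | hp1
      · rcases Finset.mem_insert.1 hq with hq1 | hq1
        · rw [hp1, hq1] at hpq
          exact T.irrefl hpq
        · rw [hp1] at hpq
          exact (hQ' q hq1).2.2 hpq
      · rcases Finset.mem_insert.1 hq with hq1 | hq1
        · rw [hq1] at hpq
          exact (hQ' p hp1).2.2 hpq.symm
        · exact hQi p hp1 q hq1 hpq

/-! ### five vertices -/

omit [DecidableEq α] in
open Classical in
private lemma five38 {c : Fin 5 → α} (hc : ∀ i, c i ∈ S) (hT : TriFree T S)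
    (h3 : ∀ i j l, i ≠ j → i ≠ l → j ≠ l → ¬ T.Adj (c i) (c j) → ¬ T.Adj (c i) (c l) →
      T.Adj (c j) (c l)) (i : Fin 5) :
    (Finset.univ.filter fun j => T.Adj (c i) (c j)).card = 2 := by
  have hle : (Finset.univ.filter fun j => T.Adj (c i) (c j)).card ≤ 2 := by
    by_contra hcon
    rw [not_le] at hcon
    obtain ⟨x, hx, y, hy, z, hz, hxy, hxz, hyz⟩ := Finset.two_lt_card.1 hcon
    rw [Finset.mem_filter] at hx hy hz
    have e1 := hT _ (hc i) _ (hc x) _ (hc y) hx.2 hy.2
    have e2 := hT _ (hc i) _ (hc x) _ (hc z) hx.2 hz.2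
    have e3 := hT _ (hc i) _ (hc y) _ (hc z) hy.2 hz.2
    exact e3 (h3 x y z hxy hxz hyz e1 e2)
  have hsplit : (Finset.univ.filter fun j => T.Adj (c i) (c j)).card +
      (Finset.univ.filter fun j => ¬ T.Adj (c i) (c j)).card = 5 := by
    rw [Finset.card_filter_add_card_filter_not]
    rfl
  by_contra hne
  have hvm : i ∈ Finset.univ.filter fun j => ¬ T.Adj (c i) (c j) :=
    Finset.mem_filter.2 ⟨Finset.mem_univ _, T.irrefl⟩
  have hc2 : 2 < ((Finset.univ.filter fun j => ¬ T.Adj (c i) (c j)).erase i).card := by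
    rw [Finset.card_erase_of_mem hvm]
    omega
  obtain ⟨x, hx, y, hy, z, hz, hxy, hxz, hyz⟩ := Finset.two_lt_card.1 hc2
  rw [Finset.mem_erase, Finset.mem_filter] at hx hy hz
  have e1 := h3 i x y (Ne.symm hx.1) (Ne.symm hy.1) hxy hx.2.2 hy.2.2
  have e2 := h3 i x z (Ne.symm hx.1) (Ne.symm hz.1) hxz hx.2.2 hz.2.2
  have e3 := h3 i y z (Ne.symm hy.1) (Ne.symm hz.1) hyz hy.2.2 hz.2.2
  exact hT _ (hc x) _ (hc y) _ (hc z) e1 e2 e3

omit [DecidableEq α] in
open Classical in
private lemma common38 {c : Fin 5 → α} (hc : ∀ i, c i ∈ S) (hT : TriFree T S)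
    (h3 : ∀ i j l, i ≠ j → i ≠ l → j ≠ l → ¬ T.Adj (c i) (c j) → ¬ T.Adj (c i) (c l) →
      T.Adj (c j) (c l)) {i l : Fin 5} (hil : i ≠ l) (hadj : ¬ T.Adj (c i) (c l)) :
    ∃ j, T.Adj (c i) (c j) ∧ T.Adj (c j) (c l) := by
  by_contra hcon
  push Not at hcon
  have h1 := five38 hc hT h3 i
  have h2 := five38 hc hT h3 l
  have hdis : Disjoint (Finset.univ.filter fun j => T.Adj (c i) (c j))
      (Finset.univ.filter fun j => T.Adj (c l) (c j)) := by
    rw [Finset.disjoint_left]
    intro j hj hj'
    rw [Finset.mem_filter] at hj hj'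
    exact hcon j hj.2 hj'.2.symm
  have h4 := Finset.card_union_of_disjoint hdis
  have hsub : (Finset.univ.filter fun j => T.Adj (c i) (c j)) ∪
      (Finset.univ.filter fun j => T.Adj (c l) (c j)) ⊆ (Finset.univ.erase i).erase l := by
    intro j hj
    rw [Finset.mem_union, Finset.mem_filter, Finset.mem_filter] at hj
    rw [Finset.mem_erase, Finset.mem_erase]
    rcases hj with hj | hj
    · refine ⟨?_, ?_, Finset.mem_univ _⟩
      · rintro rfl
        exact hadj hj.2
      · rintro rfl
        exact T.irrefl hj.2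
    · refine ⟨?_, ?_, Finset.mem_univ _⟩
      · rintro rfl
        exact T.irrefl hj.2
      · rintro rfl
        exact hadj hj.2.symm
  have h5 := Finset.card_le_card hsub
  rw [Finset.card_erase_of_mem (Finset.mem_erase.2 ⟨Ne.symm hil, Finset.mem_univ _⟩),
    Finset.card_erase_of_mem (Finset.mem_univ _), Finset.card_univ, Fintype.card_fin, h4] at h5
  omega

/-- an independent subset of the vertices `b i` which have no neighbours outside -/
private lemma qcov38 (h : IsMat T S k a b)
    (hM : ∀ a b : Fin (k + 1) → α, ¬ IsMat T S (k + 1) a b) {Q : Finset α} (hQ : Q ⊆ vs38 a b)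
    (h2 : ∀ u ∈ Q, ∀ v ∈ Q, ¬ T.Adj u v) (h3 : ∀ u ∈ Q, ∀ v ∈ S, v ∉ vs38 a b → ¬ T.Adj u v)
    {c : ℕ} (hc : 2 * k ≤ Q.card + c) : ¬ Tau T S (c + 1) := by
  refine cov38 (vs_sub38 h) (indR38 h hM) hQ h2 ?_ (by rw [card_vs38 h]; exact hc)
  intro u hu v hv
  rw [Finset.mem_sdiff] at hv
  exact h3 u hu v hv.1 hv.2

/-- no three independent vertices among the `b i` -/
private lemma triple38 {a b : Fin 5 → α} (h : IsMat T S 5 a b)
    (hM : ∀ a b : Fin (5 + 1) → α, ¬ IsMat T S (5 + 1) a b)
    (hg : ∀ i, ∀ r ∈ S, r ∉ vs38 a b → ¬ T.Adj (b i) r) (hTau : Tau T S 8) :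
    ∀ i j l, i ≠ j → i ≠ l → j ≠ l → ¬ T.Adj (b i) (b j) → ¬ T.Adj (b i) (b l) →
      T.Adj (b j) (b l) := by
  intro i j l hij hil hjl h1 h2
  by_contra h3
  refine qcov38 h hM (Q := {b i, b j, b l}) (c := 7) ?_ ?_ ?_ ?_ hTau
  · intro x hx
    simp only [Finset.mem_insert, Finset.mem_singleton] at hx
    rcases hx with rfl | rfl | rfl
    · exact mem_vs38.2 (Or.inr ⟨i, rfl⟩)
    · exact mem_vs38.2 (Or.inr ⟨j, rfl⟩)
    · exact mem_vs38.2 (Or.inr ⟨l, rfl⟩)
  · intro p hp q hq hpq
    simp only [Finset.mem_insert, Finset.mem_singleton] at hp hq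
    rcases hp with rfl | rfl | rfl <;> rcases hq with rfl | rfl | rfl
    · exact T.irrefl hpq
    · exact h1 hpq
    · exact h2 hpq
    · exact h1 hpq.symm
    · exact T.irrefl hpq
    · exact h3 hpq
    · exact h2 hpq.symm
    · exact h3 hpq.symm
    · exact T.irrefl hpq
  · intro p hp
    simp only [Finset.mem_insert, Finset.mem_singleton] at hp
    rcases hp with rfl | rfl | rfl
    · exact hg i
    · exact hg j
    · exact hg l
  · rw [Finset.card_insert_of_notMem, Finset.card_pair (fun h4 => hjl (binj38 h h4))]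
    rw [Finset.mem_insert, Finset.mem_singleton, not_or]
    exact ⟨fun h4 => hij (binj38 h h4), fun h4 => hil (binj38 h h4)⟩

open Classical in
/-- the exchange step -/
private lemma step38 {a b : Fin 5 → α} (h : IsMat T S 5 a b) (hT : TriFree T S)
    (hM : ∀ a b : Fin (5 + 1) → α, ¬ IsMat T S (5 + 1) a b)
    (hg : ∀ i, ∀ r ∈ S, r ∉ vs38 a b → ¬ T.Adj (b i) r) (hTau : Tau T S 8) {i : Fin 5} {r : α}
    (hr : r ∈ S) (hr1 : r ∉ vs38 a b) (har : T.Adj (a i) r) :
    ∀ j, T.Adj (b i) (b j) → T.Adj (a j) r ∧ ∀ s ∈ S, s ∉ vs38 a b → T.Adj (a j) s → s = r := by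
  have h' := upd38 h hr hr1 har
  obtain ⟨a', b', hm, hvs, hg', hb'⟩ := good38 h' hT hM
  have hbr : b i ≠ r := fun h1 => hr1 (mem_vs38.2 (Or.inr ⟨i, h1⟩))
  have hout : ∀ s, s ∉ vs38 a b → s ≠ r → s ∉ vs38 a (Function.update b i r) :=
    fun s hs hsr => vs_upd38 h hsr (Or.inl hs)
  have hbi : b i ∉ vs38 a (Function.update b i r) := vs_upd38 h hbr (Or.inr rfl)
  -- the points outside of the new matching
  have hout' : ∀ s ∈ S, s ∉ vs38 a (Function.update b i r) → s = b i ∨ s ∉ vs38 a b := by
    intro s _ hs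
    by_contra hcon
    rw [not_or, not_not, mem_vs38] at hcon
    apply hs
    rw [mem_vs38]
    rcases hcon.2 with ⟨j, hj⟩ | ⟨j, hj⟩
    · exact Or.inl ⟨j, hj⟩
    · refine Or.inr ⟨j, ?_⟩
      rw [Function.update_of_ne]
      · exact hj
      · rintro rfl
        exact hcon.1 hj.symm
  have hbi' : b' i = r := by
    rw [hb' i, if_neg, Function.update_self]
    rw [Function.update_self]
    rintro ⟨s, hs, hs1, hs2⟩
    rcases hout' s hs hs1 with rfl | hs3
    · exact hg i r hr hr1 hs2.symm
    · exact indR38 h hM r (Finset.mem_sdiff.2 ⟨hr, hr1⟩) s (Finset.mem_sdiff.2 ⟨hs, hs3⟩) hs2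
  have hbj1 : ∀ j, j ≠ i → T.Adj (b i) (b j) → b' j = a j := by
    intro j hj hadj
    rw [hb' j, if_pos]
    rw [Function.update_of_ne hj]
    exact ⟨b i, h.memB i, hbi, hadj.symm⟩
  have hbj2 : ∀ j, j ≠ i → ¬ T.Adj (b i) (b j) → b' j = b j := by
    intro j hj hadj
    rw [hb' j, if_neg, Function.update_of_ne hj]
    rw [Function.update_of_ne hj]
    rintro ⟨s, hs, hs1, hs2⟩
    rcases hout' s hs hs1 with rfl | hs3
    · exact hadj hs2.symm
    · exact hg j s hs hs3 hs2
  rw [← hvs] at hg'
  have t1 := triple38 h hM hg hTau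
  have t2 := triple38 hm hM hg' hTau
  have f1 := five38 h.memB hT t1 i
  have f2 := five38 hm.memB hT t2 i
  -- the neighbours of `r` among the `b'` are the neighbours of `b i`
  have hsub : (Finset.univ.filter fun j => T.Adj (b' i) (b' j)) ⊆
      Finset.univ.filter fun j => T.Adj (b i) (b j) := by
    intro j hj
    rw [Finset.mem_filter] at hj ⊢
    refine ⟨hj.1, ?_⟩
    by_contra hcon
    have hji : j ≠ i := by
      rintro rfl
      exact T.irrefl hj.2
    have h1 := hj.2
    rw [hbi', hbj2 j hji hcon] at h1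
    exact hg j r hr hr1 h1.symm
  have heq := Finset.eq_of_subset_of_card_le hsub (by rw [f1, f2])
  intro j hadj
  have hji : j ≠ i := by
    rintro rfl
    exact T.irrefl hadj
  have hj : j ∈ Finset.univ.filter fun j => T.Adj (b' i) (b' j) := by
    rw [heq, Finset.mem_filter]
    exact ⟨Finset.mem_univ _, hadj⟩
  rw [Finset.mem_filter, hbi', hbj1 j hji hadj] at hj
  refine ⟨hj.2.symm, fun s hs hs1 hs2 => ?_⟩
  by_contra hsr
  have h1 := hg' j s hs (by rw [hvs]; exact hout s hs1 hsr)
  rw [hbj1 j hji hadj] at h1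
  exact h1 hs2

open Classical in
/-- the bound for a maximum matching -/
private lemma core38 {m : ℕ} (hm5 : m ≤ 5) (hT : TriFree T S) {a b : Fin m → α}
    (h0 : IsMat T S m a b) (hM : ∀ a b : Fin (m + 1) → α, ¬ IsMat T S (m + 1) a b) :
    ¬ Tau T S (tfb m + 1) := by
  obtain ⟨a', b', h, hvs, hg, -⟩ := good38 h0 hT hM
  rw [← hvs] at hg
  -- one vertex `b i`
  have hone : ∀ i : Fin m, ∀ c, 2 * m ≤ 1 + c → ¬ Tau T S (c + 1) := by
    intro i c hc
    refine qcov38 h hM (Q := {b' i}) ?_ ?_ ?_ (by rw [Finset.card_singleton]; exact hc)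
    · rw [Finset.singleton_subset_iff]
      exact mem_vs38.2 (Or.inr ⟨i, rfl⟩)
    · intro p hp q hq hpq
      rw [Finset.mem_singleton] at hp hq
      rw [hp, hq] at hpq
      exact T.irrefl hpq
    · intro p hp
      rw [Finset.mem_singleton] at hp
      rw [hp]
      exact hg i
  -- two vertices among three
  have htwo : ∀ i j l : Fin m, i ≠ j → i ≠ l → j ≠ l → ∀ c, 2 * m ≤ 2 + c → ¬ Tau T S (c + 1) := by
    intro i j l hij hil hjl c hc
    obtain ⟨u, v, huv, hu, hv, hadj⟩ := three38 hT (h.memB i) (h.memB j) (h.memB l)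
      (fun h4 => hij (binj38 h h4)) (fun h4 => hil (binj38 h h4)) (fun h4 => hjl (binj38 h h4))
    have hmem : ∀ u, (u = b' i ∨ u = b' j ∨ u = b' l) → ∃ i, b' i = u := by
      rintro u (rfl | rfl | rfl)
      exacts [⟨i, rfl⟩, ⟨j, rfl⟩, ⟨l, rfl⟩]
    obtain ⟨i1, rfl⟩ := hmem u hu
    obtain ⟨i2, rfl⟩ := hmem v hv
    refine qcov38 h hM (Q := {b' i1, b' i2}) ?_ ?_ ?_ (by rw [Finset.card_pair huv]; exact hc)
    · intro x hx
      rw [Finset.mem_insert, Finset.mem_singleton] at hx
      rcases hx with rfl | rfl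
      · exact mem_vs38.2 (Or.inr ⟨i1, rfl⟩)
      · exact mem_vs38.2 (Or.inr ⟨i2, rfl⟩)
    · intro p hp q hq hpq
      rw [Finset.mem_insert, Finset.mem_singleton] at hp hq
      rcases hp with rfl | rfl <;> rcases hq with rfl | rfl
      · exact T.irrefl hpq
      · exact hadj hpq
      · exact hadj hpq.symm
      · exact T.irrefl hpq
    · intro p hp
      rw [Finset.mem_insert, Finset.mem_singleton] at hp
      rcases hp with rfl | rfl
      · exact hg i1
      · exact hg i2
  obtain rfl | rfl | rfl | rfl | rfl | rfl : m = 0 ∨ m = 1 ∨ m = 2 ∨ m = 3 ∨ m = 4 ∨ m = 5 := by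
    omega
  · exact qcov38 h hM (Q := ∅) (Finset.empty_subset _) (by simp) (by simp) (by simp)
  · exact hone 0 1 (by norm_num)
  · exact hone 0 3 (by norm_num)
  · exact htwo 0 1 2 (by decide) (by decide) (by decide) 4 (by norm_num)
  · exact htwo 0 1 2 (by decide) (by decide) (by decide) 6 (by norm_num)
  · intro hTau
    have hTau8 : Tau T S 8 := hTau
    have t1 := triple38 h hM hg hTau8
    have hFS := vs_sub38 h
    have hFc := card_vs38 h
    by_cases hex : ∃ i, ∃ r ∈ S, r ∉ vs38 a' b' ∧ T.Adj (a' i) r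
    · obtain ⟨i, r, hr, hr1, har⟩ := hex
      have st := fun (i : Fin 5) => step38 (i := i) h hT hM hg hTau8 hr hr1
      have hall : ∀ l, ∀ s ∈ S, s ∉ vs38 a' b' → T.Adj (a' l) s → s = r := by
        intro l
        by_cases hadj : T.Adj (b' i) (b' l)
        · exact (st i har l hadj).2
        · obtain ⟨j, hj1, hj2⟩ : ∃ j, T.Adj (b' i) (b' j) ∧ T.Adj (b' j) (b' l) := by
            by_cases hil : i = l
            · subst hil
              have f1 := five38 h.memB hT t1 i
              obtain ⟨j, hj⟩ := Finset.card_pos.1 (by rw [f1]; norm_num : 0 < _)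
              rw [Finset.mem_filter] at hj
              exact ⟨j, hj.2, hj.2.symm⟩
            · exact common38 h.memB hT t1 hil hadj
          exact (st j (st i har j hj1).1 l hj2).2
      -- eleven vertices
      have hrF : r ∉ vs38 a' b' := hr1
      have hF : insert r (vs38 a' b') ⊆ S := by
        intro x hx
        rcases Finset.mem_insert.1 hx with rfl | hx
        · exact hr
        · exact hFS hx
      have hFcard : (insert r (vs38 a' b')).card = 11 := by
        rw [Finset.card_insert_of_notMem hrF, hFc]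
      obtain ⟨Q, hQ, hQc, hQi⟩ := ind4_38 hT hF (by rw [hFcard]; norm_num)
      refine cov38 hF ?_ hQ hQi ?_ (c := 7) (by rw [hFcard, hQc]) hTau8
      · intro u hu v hv
        rw [Finset.mem_sdiff, Finset.mem_insert, not_or] at hu hv
        exact indR38 h hM u (Finset.mem_sdiff.2 ⟨hu.1, hu.2.2⟩) v
          (Finset.mem_sdiff.2 ⟨hv.1, hv.2.2⟩)
      · intro u hu v hv hadj
        rw [Finset.mem_sdiff, Finset.mem_insert, not_or] at hv
        rcases Finset.mem_insert.1 (hQ hu) with h1 | h1
        · rw [h1] at hadj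
          exact indR38 h hM r (Finset.mem_sdiff.2 ⟨hr, hr1⟩) v
            (Finset.mem_sdiff.2 ⟨hv.1, hv.2.2⟩) hadj
        · rcases mem_vs38.1 h1 with ⟨l, hl⟩ | ⟨l, hl⟩
          · rw [← hl] at hadj
            exact hv.2.1 (hall l v hv.1 hv.2.2 hadj)
          · rw [← hl] at hadj
            exact hg l v hv.1 hv.2.2 hadj
    · push Not at hex
      obtain ⟨Q, hQ, hQc, hQi⟩ := ind3_38 hT hFS (by rw [hFc]; norm_num)
      refine qcov38 h hM (c := 7) hQ hQi ?_ (by rw [hQc]) hTau8
      intro u hu v hv hv1 hadj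
      rcases mem_vs38.1 (hQ hu) with ⟨l, hl⟩ | ⟨l, hl⟩
      · rw [← hl] at hadj
        exact hex l v hv hv1 hadj
      · rw [← hl] at hadj
        exact hg l v hv hv1 hadj

theorem tf_bound (T : SimpleGraph α) (S : Finset α) (k : ℕ) (hk : k ≤ 5) (hT : TriFree T S)
    (hM : ∀ a b : Fin (k + 1) → α, ¬ IsMat T S (k + 1) a b) : ¬ Tau T S (tfb k + 1) := by
  classical
  have hex : ∃ n, ¬ ∃ a b : Fin n → α, IsMat T S n a b :=
    ⟨k + 1, fun ⟨a, b, hab⟩ => hM a b hab⟩
  have hn := Nat.find_spec hex
  have hmin := fun n (hn : n < Nat.find hex) => Nat.find_min hex hn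
  have hle : Nat.find hex ≤ k + 1 := Nat.find_min' hex (fun ⟨a, b, hab⟩ => hM a b hab)
  rcases Nat.eq_zero_or_pos (Nat.find hex) with h0 | h0
  · rw [h0] at hn
    exfalso
    apply hn
    refine ⟨fun i => i.elim0, fun i => i.elim0, ⟨?_, fun i => i.elim0, fun i => i.elim0,
      fun i => i.elim0⟩⟩
    rintro (i | i)
    · exact i.elim0
    · exact i.elim0
  · obtain ⟨m, hm⟩ : ∃ m, Nat.find hex = m + 1 := ⟨Nat.find hex - 1, by omega⟩
    rw [hm] at hn hmin hle
    have h1 := hmin m (by omega)
    rw [not_not] at h1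
    obtain ⟨a, b, hab⟩ := h1
    have h2 := core38 (by omega) hT hab (fun a b hab' => hn ⟨a, b, hab'⟩)
    intro hTau
    apply h2
    have h3 : tfb m ≤ tfb k := by
      have hmk : m ≤ k := by omega
      interval_cases k <;> interval_cases m <;> simp [tfb]
    exact hTau.mono (Finset.Subset.refl S) (by omega)

end Pool.Agent.Helper33.RG
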