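import Pool.Agent.Helper33.RG.CH

/-!
# Block RG-Z1 (MP_1f20e3_co)

`z1`: `τ(T[S]) ≥ 4`, `a ≠ a'` not adjacent: `S \ {a}` or `S \ {a'}` has savings 3.

PROOF. If `a ∉ S` then `S \ {a} = S` and `gl` with `k = 4` gives savings 3; same for `a'`. Assume both are in `S` and that neither set
has savings 3. `Tau T (S \ {a}) 3`, `Tau T (S \ {a'}) 3`, so by `c5_or_k4` the edges of `Q_a = T[S \ {a}]` form a `C5` or a `K4`, the same for `Q_a' = T[S \ {a'}]`.
(1) If `a'` has no neighbour in `S \ {a}`: the `C5` (`K4`) of `Q_a` has all its edges also in `Q_a'`, whose edges form a `C5` or `K4`, so (a `C5` or `K4` contained in a `C5` or `K4` is equal to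
it; e.g. compare: `K4` has triangles and `C5` not, and `C5` has 5 vertices) `Q_a'` has no other edges, so `a` has no neighbour in `S \ {a'}`, and as `a ≁ a'`, `a` has no neighbour in `S`;
then a cover of `Q_a` (with three elements) covers `T[S]`: contradiction to `Tau T S 4`.
(2) So `a'` is one of the vertices of the `C5` (`K4`) of `Q_a`. `K4` on `a', k1, k2, k3`: `{k1, k2, k3}` is a triangle in `Q_a'`, so `Q_a'` is a `K4` on `k1,k2,k3` and a fourth vertex, `a` must be it: if `k4 ≠ a` is the fourth vertex then `k4 ~ k1` in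
`Q_a`, not possible, as `k4 ≠ a'`. So all edges of `T[S]` at `a` go to `k1,k2,k3`, and `{k1,k2,k3}` covers `T[S]`: contradiction. `C5` on `a', c, d, d', c'` (in this order): `Q_a'` contains the path
`c d d' c'`, contains no `K4` with this path unless `c ~ c'`.. (not adjacent in `Q_a`, and `a ∉ {c, c'}`), so it is a `C5` `c, d, d', c', y` with `y ~ c`, `y ~ c'`; `y ≠ a` would be an edge of `Q_a` at `c` to a vertex other than `a'`, `d`: not possible, so
`y = a`. (The path has all the edges of `Q_a'` that do not contain `a`.) So the edges at `a` are `a c`, `a c'`, and `{c, c', d}` covers `T[S]`: contradiction.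
-/

set_option autoImplicit false

namespace Pool.Agent.Helper33.RG

variable {α : Type} [DecidableEq α]

private lemma h31_c5 {Q : Finset α} {T : SimpleGraph α} (h : IsC5 T Q) :
    ∃ c : ZMod 5 → α, Function.Injective c ∧ (∀ i, c i ∈ Q) ∧
      ∀ x ∈ Q, ∀ y ∈ Q, T.Adj x y ↔ ∃ i j, x = c i ∧ y = c j ∧ (j = i + 1 ∨ i = j + 1) := by
  obtain ⟨c, hinj, hmem, hiff⟩ := h
  refine ⟨c, hinj, hmem, fun x hx y hy => (hiff x hx y hy).trans ⟨?_, ?_⟩⟩
  · rintro ⟨i, ⟨h1, h2⟩ | ⟨h1, h2⟩⟩
    · exact ⟨i, i + 1, h1, h2, Or.inl rfl⟩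
    · exact ⟨i + 1, i, h2, h1, Or.inr rfl⟩
  · rintro ⟨i, j, h1, h2, rfl | rfl⟩
    · exact ⟨i, Or.inl ⟨h1, h2⟩⟩
    · exact ⟨j, Or.inr ⟨h2, h1⟩⟩

private lemma h31_k4 {Q : Finset α} {T : SimpleGraph α} (h : IsK4 T Q) (F : Finset α)
    (hF : ∀ x ∈ F, x ∈ Q ∧ ∃ y ∈ Q, T.Adj x y) : F.card ≤ 4 := by
  obtain ⟨k, hinj, hmem, hiff⟩ := h
  have h1 : F ⊆ Finset.univ.image k := by
    intro x hx
    obtain ⟨hxQ, y, hyQ, hxy⟩ := hF x hx
    obtain ⟨i, j, hij, h1, h2⟩ := (hiff x hxQ y hyQ).1 hxy
    exact Finset.mem_image.2 ⟨i, Finset.mem_univ _, h1.symm⟩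
  refine (Finset.card_le_card h1).trans (Finset.card_image_le.trans ?_)
  simp

private lemma h31_cov {S : Finset α} {T : SimpleGraph α} (h : Tau T S 4) (R : Finset α)
    (hR : R.card ≤ 3) (hc : ∀ u ∈ S, ∀ v ∈ S, T.Adj u v → u ∈ R ∨ v ∈ R) : False := by
  have h1 := h.le_cover R hc
  have h2 : (R ∩ S).card ≤ R.card := Finset.card_le_card Finset.inter_subset_left
  omega

private lemma h31_zc5 {S : Finset α} {T : SimpleGraph α} (h : Tau T S 4) {a a' : α}
    (haS : a ∈ S) (ha : a ≠ a') (haa : ¬ T.Adj a a') (h5 : IsC5 T (S \ {a}))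
    (h' : IsC5 T (S \ {a'}) ∨ IsK4 T (S \ {a'})) : False := by
  obtain ⟨c, hinj, hmem, hiff⟩ := h31_c5 h5
  have hcS : ∀ i, c i ∈ S := fun i => (Finset.mem_sdiff.1 (hmem i)).1
  have hca : ∀ i, c i ≠ a := fun i h1 => (Finset.mem_sdiff.1 (hmem i)).2 (by simp [h1])
  have hadj : ∀ i j : ZMod 5, (j = i + 1 ∨ i = j + 1) → T.Adj (c i) (c j) := fun i j hij =>
    (hiff _ (hmem i) _ (hmem j)).2 ⟨i, j, rfl, rfl, hij⟩
  have hedge : ∀ u ∈ S, ∀ v ∈ S, T.Adj u v → u ≠ a → v ≠ a →
      ∃ i j, u = c i ∧ v = c j ∧ (j = i + 1 ∨ i = j + 1) := fun u hu v hv huv hua hva =>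
    (hiff u (by simp [hu, hua]) v (by simp [hv, hva])).1 huv
  by_cases hn : ∃ x ∈ S, T.Adj a x
  · obtain ⟨x, hxS, hax⟩ := hn
    have hxa' : x ≠ a' := by rintro rfl; exact haa hax
    set F := insert a ((Finset.univ.image c) \ {a'}) with hF
    have hFn : ∀ y ∈ F, y ∈ S \ {a'} ∧ ∃ z ∈ S \ {a'}, T.Adj y z := by
      intro y hy
      rw [hF, Finset.mem_insert] at hy
      rcases hy with rfl | hy
      · exact ⟨by simp [haS, ha], x, by simp [hxS, hxa'], hax⟩
      · rw [Finset.mem_sdiff, Finset.mem_image, Finset.mem_singleton] at hy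
        obtain ⟨⟨i, _, rfl⟩, hya⟩ := hy
        refine ⟨by simp [hcS i, hya], ?_⟩
        by_cases h1 : c (i + 1) = a'
        · refine ⟨c (i + 4), ?_, hadj _ _ (Or.inr ?_)⟩
          · rw [Finset.mem_sdiff, Finset.mem_singleton]
            refine ⟨hcS _, ?_⟩
            rw [← h1]
            intro h2
            have h3 := hinj h2
            revert h3
            clear hya h1 h2
            revert i
            decide
          · have h5 : ∀ i : ZMod 5, i = i + 4 + 1 := by decide
            exact h5 i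
        · exact ⟨c (i + 1), by simp [hcS, h1], hadj _ _ (Or.inl rfl)⟩
    have hcard5 : (Finset.univ.image c).card = 5 := by
      rw [Finset.card_image_of_injective _ hinj, Finset.card_univ, ZMod.card]
    have haF : a ∉ (Finset.univ.image c) \ {a'} := by
      rw [Finset.mem_sdiff, Finset.mem_image]
      rintro ⟨⟨i, _, h1⟩, _⟩
      exact hca i h1
    have hFc : F.card = ((Finset.univ.image c) \ {a'}).card + 1 := Finset.card_insert_of_notMem haF
    have hF5 : 5 ≤ F.card := by
      have := Finset.le_card_sdiff {a'} (Finset.univ.image c)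
      rw [Finset.card_singleton] at this
      omega
    rcases h' with h5' | h4'
    · obtain ⟨c', hinj', hmem', hiff'⟩ := h31_c5 h5'
      have hsub : F ⊆ Finset.univ.image c' := by
        intro y hy
        obtain ⟨h1, z, h2, h3⟩ := hFn y hy
        obtain ⟨i, j, h4, _⟩ := (hiff' y h1 z h2).1 h3
        exact Finset.mem_image.2 ⟨i, Finset.mem_univ _, h4.symm⟩
      have hcard5' : (Finset.univ.image c').card = 5 := by
        rw [Finset.card_image_of_injective _ hinj', Finset.card_univ, ZMod.card]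
      have hFeq : F = Finset.univ.image c' := Finset.eq_of_subset_of_card_le hsub (by omega)
      have ha'F : a' ∈ Finset.univ.image c := by
        by_contra h1
        rw [Finset.sdiff_singleton_eq_erase, Finset.erase_eq_of_notMem h1] at hFc
        rw [hFeq] at hFc
        omega
      obtain ⟨i0, _, hi0⟩ := Finset.mem_image.1 ha'F
      have hdeg : ∀ x ∈ S \ {a'}, ∀ y1 ∈ S \ {a'}, ∀ y2 ∈ S \ {a'}, ∀ y3 ∈ S \ {a'}, T.Adj x y1 →
          T.Adj x y2 → T.Adj x y3 → y1 = y2 ∨ y1 = y3 ∨ y2 = y3 := by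
        intro x hx y1 hy1 y2 hy2 y3 hy3 h1 h2 h3
        obtain ⟨i, j1, hi, hj1, e1⟩ := (hiff' x hx y1 hy1).1 h1
        obtain ⟨i', j2, hi', hj2, e2⟩ := (hiff' x hx y2 hy2).1 h2
        obtain ⟨i'', j3, hi'', hj3, e3⟩ := (hiff' x hx y3 hy3).1 h3
        obtain rfl : i = i' := hinj' (hi.symm.trans hi')
        obtain rfl : i = i'' := hinj' (hi.symm.trans hi'')
        have key : ∀ i j1 j2 j3 : ZMod 5, (j1 = i + 1 ∨ i = j1 + 1) → (j2 = i + 1 ∨ i = j2 + 1) →
            (j3 = i + 1 ∨ i = j3 + 1) → j1 = j2 ∨ j1 = j3 ∨ j2 = j3 := by decide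
        rcases key i j1 j2 j3 e1 e2 e3 with h4 | h4 | h4
        · exact Or.inl (by rw [hj1, hj2, h4])
        · exact Or.inr (Or.inl (by rw [hj1, hj3, h4]))
        · exact Or.inr (Or.inr (by rw [hj2, hj3, h4]))
      have hcm : ∀ j, j ≠ i0 → c j ∈ S \ {a'} := by
        intro j hj
        rw [Finset.mem_sdiff, Finset.mem_singleton]
        exact ⟨hcS j, fun h1 => hj (hinj (h1.trans hi0.symm))⟩
      have haQ : a ∈ S \ {a'} := by simp [haS, ha]
      have hnb : ∀ z ∈ S, T.Adj a z → z = c (i0 + 1) ∨ z = c (i0 + 4) := by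
        intro z hz haz
        have hza' : z ≠ a' := by rintro rfl; exact haa haz
        have hzQ : z ∈ S \ {a'} := by simp [hz, hza']
        have hzF : z ∈ F := by
          rw [hFeq]
          obtain ⟨i, j, h4, _⟩ := (hiff' z hzQ a haQ).1 haz.symm
          exact Finset.mem_image.2 ⟨i, Finset.mem_univ _, h4.symm⟩
        rw [hF, Finset.mem_insert] at hzF
        rcases hzF with h1 | h1
        · exact absurd h1.symm haz.ne
        · rw [Finset.mem_sdiff, Finset.mem_image] at h1
          obtain ⟨⟨j, _, rfl⟩, _⟩ := h1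
          have hj0 : j ≠ i0 := by rintro rfl; exact hza' hi0
          have key : ∀ i j : ZMod 5, j ≠ i → j = i + 1 ∨ j = i + 2 ∨ j = i + 3 ∨ j = i + 4 := by
            decide
          have hne : ∀ i : ZMod 5, i + 1 ≠ i ∧ i + 2 ≠ i ∧ i + 3 ≠ i ∧ i + 4 ≠ i ∧ i + 1 ≠ i + 3 ∧
            i + 2 ≠ i + 4 := by decide
          obtain ⟨n1, n2, n3, n4, n13, n24⟩ := hne i0
          rcases key i0 j hj0 with rfl | rfl | rfl | rfl
          · exact Or.inl rfl
          · exfalso
            rcases hdeg _ hzQ _ (hcm _ n1) _ (hcm _ n3) _ haQ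
              (hadj _ _ (Or.inr (by ring))) (hadj _ _ (Or.inl (by ring))) haz.symm with h1 | h1 | h1
            · exact n13 (hinj h1)
            · exact hca _ h1
            · exact hca _ h1
          · exfalso
            rcases hdeg _ hzQ _ (hcm _ n2) _ (hcm _ n4) _ haQ
              (hadj _ _ (Or.inr (by ring))) (hadj _ _ (Or.inl (by ring))) haz.symm with h1 | h1 | h1
            · exact n24 (hinj h1)
            · exact hca _ h1
            · exact hca _ h1
          · exact Or.inr rfl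
      refine h31_cov h {c (i0 + 1), c (i0 + 4), c (i0 + 2)} Finset.card_le_three ?_
      intro u hu v hv huv
      by_cases hua : u = a
      · subst hua
        right
        rcases hnb v hv huv with h1 | h1 <;> simp [h1]
      by_cases hva : v = a
      · subst hva
        left
        rcases hnb u hu huv.symm with h1 | h1 <;> simp [h1]
      obtain ⟨i, j, rfl, rfl, hij⟩ := hedge u hu v hv huv hua hva
      have key : ∀ i0 i j : ZMod 5, (j = i + 1 ∨ i = j + 1) →
          (i = i0 + 1 ∨ i = i0 + 4 ∨ i = i0 + 2) ∨ (j = i0 + 1 ∨ j = i0 + 4 ∨ j = i0 + 2) := by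
        decide
      rcases key i0 i j hij with (h1 | h1 | h1) | (h1 | h1 | h1) <;> simp [h1]
    · have := h31_k4 h4' F hFn
      omega
  · push Not at hn
    refine h31_cov h {c 0, c 1, c 3} Finset.card_le_three ?_
    intro u hu v hv huv
    have hua : u ≠ a := by rintro rfl; exact hn v hv huv
    have hva : v ≠ a := by rintro rfl; exact hn u hu huv.symm
    obtain ⟨i, j, rfl, rfl, hij⟩ := hedge u hu v hv huv hua hva
    have key : ∀ i j : ZMod 5, (j = i + 1 ∨ i = j + 1) →
        (i = 0 ∨ i = 1 ∨ i = 3) ∨ (j = 0 ∨ j = 1 ∨ j = 3) := by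
      decide
    rcases key i j hij with (h1 | h1 | h1) | (h1 | h1 | h1) <;> simp [h1]

private lemma h31_zk4 {S : Finset α} {T : SimpleGraph α} (h : Tau T S 4) {a a' : α}
    (haS : a ∈ S) (ha : a ≠ a') (haa : ¬ T.Adj a a') (h4 : IsK4 T (S \ {a}))
    (h' : IsC5 T (S \ {a'}) ∨ IsK4 T (S \ {a'})) : False := by
  obtain ⟨k, hinj, hmem, hiff⟩ := h4
  set F := Finset.univ.image k with hF
  have hFc : F.card = 4 := by
    rw [hF, Finset.card_image_of_injective _ hinj]
    simp
  have hFS : ∀ x ∈ F, x ∈ S ∧ x ≠ a := by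
    intro x hx
    obtain ⟨i, _, rfl⟩ := Finset.mem_image.1 hx
    have := hmem i
    rw [Finset.mem_sdiff, Finset.mem_singleton] at this
    exact this
  have hadj : ∀ x ∈ F, ∀ y ∈ F, x ≠ y → T.Adj x y := by
    intro x hx y hy hxy
    obtain ⟨i, _, rfl⟩ := Finset.mem_image.1 hx
    obtain ⟨j, _, rfl⟩ := Finset.mem_image.1 hy
    exact (hiff _ (hmem i) _ (hmem j)).2 ⟨i, j, fun h1 => hxy (by rw [h1]), rfl, rfl⟩
  have hedge : ∀ u ∈ S, ∀ v ∈ S, T.Adj u v → u ≠ a → v ≠ a → u ∈ F ∧ v ∈ F := by
    intro u hu v hv huv hua hva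
    obtain ⟨i, j, _, rfl, rfl⟩ := (hiff u (by simp [hu, hua]) v (by simp [hv, hva])).1 huv
    exact ⟨Finset.mem_image_of_mem _ (Finset.mem_univ _),
      Finset.mem_image_of_mem _ (Finset.mem_univ _)⟩
  have h3 : 3 ≤ (F \ {a'}).card := by
    have := Finset.le_card_sdiff {a'} F
    rw [Finset.card_singleton] at this
    omega
  obtain ⟨R, hRs, hRc⟩ := Finset.exists_subset_card_eq h3
  have hRF : ∀ r ∈ R, r ∈ F ∧ r ≠ a' := by
    intro r hr
    have := hRs hr
    rw [Finset.mem_sdiff, Finset.mem_singleton] at this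
    exact this
  have hRQ : ∀ r ∈ R, r ∈ S \ {a'} := by
    intro r hr
    rw [Finset.mem_sdiff, Finset.mem_singleton]
    exact ⟨(hFS r (hRF r hr).1).1, (hRF r hr).2⟩
  have haQ : a ∈ S \ {a'} := by simp [haS, ha]
  rcases h' with h5' | h4'
  · obtain ⟨c, hcinj, hcmem, hciff⟩ := h31_c5 h5'
    obtain ⟨x, y, z, hxy, hxz, hyz, hR⟩ := Finset.card_eq_three.1 hRc
    have hx : x ∈ R := by simp [hR]
    have hy : y ∈ R := by simp [hR]
    have hz : z ∈ R := by simp [hR]
    obtain ⟨i, j, e1, e2, e3⟩ := (hciff x (hRQ x hx) y (hRQ y hy)).1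
      (hadj x (hRF x hx).1 y (hRF y hy).1 hxy)
    obtain ⟨i', l, e4, e5, e6⟩ := (hciff x (hRQ x hx) z (hRQ z hz)).1
      (hadj x (hRF x hx).1 z (hRF z hz).1 hxz)
    obtain ⟨j', l', e7, e8, e9⟩ := (hciff y (hRQ y hy) z (hRQ z hz)).1
      (hadj y (hRF y hy).1 z (hRF z hz).1 hyz)
    obtain rfl : i = i' := hcinj (e1.symm.trans e4)
    obtain rfl : j = j' := hcinj (e2.symm.trans e7)
    obtain rfl : l = l' := hcinj (e5.symm.trans e8)
    have key : ∀ i j l : ZMod 5, (j = i + 1 ∨ i = j + 1) → (l = i + 1 ∨ i = l + 1) →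
        (l = j + 1 ∨ j = l + 1) → False := by decide
    exact key i j l e3 e6 e9
  · obtain ⟨k', hinj', hmem', hiff'⟩ := h4'
    have hF'c : (Finset.univ.image k').card = 4 := by
      rw [Finset.card_image_of_injective _ hinj']
      simp
    have hnon : ∀ x ∈ S \ {a'}, ∀ y ∈ S \ {a'}, T.Adj x y → x ∈ Finset.univ.image k' := by
      intro x hx y hy hxy
      obtain ⟨i, j, _, h1, _⟩ := (hiff' x hx y hy).1 hxy
      exact Finset.mem_image.2 ⟨i, Finset.mem_univ _, h1.symm⟩
    have hother : ∀ u, ∃ r ∈ R, r ≠ u := by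
      intro u
      have : (R \ {u}).Nonempty := by
        rw [← Finset.card_pos]
        have := Finset.le_card_sdiff {u} R
        rw [Finset.card_singleton] at this
        omega
      obtain ⟨r, hr⟩ := this
      rw [Finset.mem_sdiff, Finset.mem_singleton] at hr
      exact ⟨r, hr.1, hr.2⟩
    have hFF : ∀ u ∈ F, u ≠ a' → u ∈ Finset.univ.image k' := by
      intro u hu hua'
      obtain ⟨r, hr, hru⟩ := hother u
      exact hnon u (by simp [(hFS u hu).1, hua']) r (hRQ r hr)
        (hadj u hu r (hRF r hr).1 hru.symm)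
    by_cases hn : ∃ x ∈ S, T.Adj a x
    · obtain ⟨x, hxS, hax⟩ := hn
      have hxa' : x ≠ a' := by rintro rfl; exact haa hax
      have haF' : a ∈ Finset.univ.image k' := hnon a haQ x (by simp [hxS, hxa']) hax
      have haR : a ∉ R := fun h1 => (hFS a (hRF a h1).1).2 rfl
      have hsub : insert a R ⊆ Finset.univ.image k' := by
        intro y hy
        rw [Finset.mem_insert] at hy
        rcases hy with rfl | hy
        · exact haF'
        · exact hFF y (hRF y hy).1 (hRF y hy).2
      have heq : insert a R = Finset.univ.image k' :=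
        Finset.eq_of_subset_of_card_le hsub (by rw [Finset.card_insert_of_notMem haR]; omega)
      have hin : ∀ y ∈ Finset.univ.image k', y ≠ a → y ∈ R := by
        intro y hy hya
        rw [← heq, Finset.mem_insert] at hy
        exact hy.resolve_left hya
      refine h31_cov h R hRc.le ?_
      intro u hu v hv huv
      by_cases hua : u = a
      · subst hua
        right
        have hva' : v ≠ a' := by rintro rfl; exact haa huv
        exact hin v (hnon v (by simp [hv, hva']) u haQ huv.symm) huv.ne'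
      by_cases hva : v = a
      · subst hva
        left
        have hua' : u ≠ a' := by rintro rfl; exact haa huv.symm
        exact hin u (hnon u (by simp [hu, hua']) v haQ huv) hua
      obtain ⟨huF, hvF⟩ := hedge u hu v hv huv hua hva
      by_cases hua' : u = a'
      · right
        have hva' : v ≠ a' := by
          intro h1
          exact huv.ne (hua'.trans h1.symm)
        exact hin v (hFF v hvF hva') hva
      · left
        exact hin u (hFF u huF hua') hua
    · push Not at hn
      refine h31_cov h R hRc.le ?_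
      intro u hu v hv huv
      have hua : u ≠ a := by rintro rfl; exact hn v hv huv
      have hva : v ≠ a := by rintro rfl; exact hn u hu huv.symm
      obtain ⟨huF, hvF⟩ := hedge u hu v hv huv hua hva
      by_contra hcon
      rw [not_or] at hcon
      have h1 : {u, v} ⊆ F \ R := by
        intro y hy
        rw [Finset.mem_insert, Finset.mem_singleton] at hy
        rw [Finset.mem_sdiff]
        rcases hy with rfl | rfl
        · exact ⟨huF, hcon.1⟩
        · exact ⟨hvF, hcon.2⟩
      have h2 := Finset.card_le_card h1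
      rw [Finset.card_pair huv.ne, Finset.card_sdiff_of_subset (fun r hr => (hRF r hr).1)] at h2
      omega

theorem z1 {T : SimpleGraph α} {S : Finset α} (h : Tau T S 4) {a a' : α} (ha : a ≠ a')
    (haa : ¬ T.Adj a a') : Sav T (S \ {a}) 3 ∨ Sav T (S \ {a'}) 3 := by
  have hgl : Sav T S 3 := gl (k := 4) (by omega) h
  by_contra hcon
  rw [not_or] at hcon
  have haS : a ∈ S := by
    by_contra h1
    rw [Finset.sdiff_singleton_eq_erase, Finset.erase_eq_of_notMem h1] at hcon
    exact hcon.1 hgl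
  have ht1 : Tau T (S \ {a}) 3 := h.sdiff' {a} (by simp)
  have ht2 : Tau T (S \ {a'}) 3 := h.sdiff' {a'} (by simp)
  have h2 := c5_or_k4 ht2 hcon.2
  rcases c5_or_k4 ht1 hcon.1 with h5 | h4
  · exact h31_zc5 h haS ha haa h5 h2
  · exact h31_zk4 h haS ha haa h4 h2

end Pool.Agent.Helper33.RG
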