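import Pool.Agent.Helper33.RG.LY
import Pool.Agent.Helper33.RG.Z1

/-!
# Hub lemma: hypotheses, one index, two indices with `n = (3, 6)` (MP_1f20e3_co)

Block RG-HL2a: `hub36`.

PROOF of `hub36` (index 0: `n = 3`, index 1: `n = 6`; saving k in R for 1 = `Sav T R k` from `gl` and `Sav.ach` with `i₀ = 1`). First a general remark: for every list of
disjoint classes the contribution to the index 0 is at least `-(number of classes which avoid V 0 and meet H 0) ≥ -|H 0|`, and if one of the classes is an edge `K ⊆ V 0` it is `≥ 1 - |H 0| ≥ r 0 - 2`.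
For this prove by induction on `Sav T R k` the variant of `Sav.ach` without disjointness: `Sav T R k`, `R ⊆ V 1`, `R ⊆ S` gives `Ach T V H S x` with `x 1 = k`, `x 0 = -|H 0 ∩ R|`.
(1) `r 0 ≥ 1`: `K = {u,v}` an edge in `V 0`; it contributes 1 to the index 0, the rest at least `-|H 0|`.
 `K ⊆ V 1`: it contributes 1 to the index 1, and `V 1 \ K` has `τ ≥ r 1 - 2`, so savings `≥ r 1 - 3` (`gl`: `k - k/3 ≥ k - 1` for `k ≤ 5`).
 `|K ∩ V 1| = 1`: `V 1 \ K` has `τ ≥ r 1 - 1`, savings `≥ r 1 - 2` (`gl`, `r 1 - 1 ≤ 5`).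
 `K ∩ V 1 = ∅`: `K` contributes `≥ -1`, and `≥ 0` if `K` misses `H 1`. `V 1` (disjoint from `K`) has savings `≥ r 1 - 1` if `r 1 ≤ 5` (this is the case if `H 1 ≠ ∅`), and `4` if `r 1 = 6`.
(2) `r 0 = 0`, `|H 0| ≤ 2`: classes in `V 1`, savings `≥ r 1 - 2` (`gl`, `r 1 ≤ 6`). `|H 0| = 3`: fix `h ∈ H 0`; classes in `V 1 \ {h}`, `τ ≥ r 1 - 1`, savings `≥ r 1 - 2`; the contribution to the index 0 is
`≥ -|H 0 ∩ (V 1 \ {h})| ≥ -2`.
-/

set_option autoImplicit false

namespace Pool.Agent.Helper33.RG

variable {α : Type} [DecidableEq α]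

/-- Hypotheses of the hub lemma, with `r i + |H i| ≤ n i`. -/
structure HubHyp {ι : Type} (T : SimpleGraph α) (V H : ι → Finset α) (S : Finset α)
    (r n : ι → ℕ) : Prop where
  tau : ∀ i, Tau T (V i) (r i)
  sub : ∀ i, V i ⊆ S
  disj : ∀ i, Disjoint (V i) (H i)
  card : ∀ i, r i + (H i).card ≤ n i

theorem hub1 {T : SimpleGraph α} {V H : Fin 1 → Finset α} {S : Finset α} {r n : Fin 1 → ℕ}
    (h : HubHyp T V H S r n) (hn : n 0 ≤ 8) : Ach T V H S (fun i => (r i : ℤ) - 2) := by
  have h8 : r 0 ≤ 8 := le_trans (Nat.le_add_right _ _) ((h.card 0).trans hn)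
  have h1 := gl h8 (h.tau 0)
  refine (h1.ach (V := V) (H := H) (S := S) (by simp) 0 (h.sub 0) subset_rfl
    fun j hj => absurd (Subsingleton.elim j 0) hj).mono subset_rfl fun i => ?_
  rw [Subsingleton.elim i 0, if_pos rfl]
  have : r 0 ≤ (r 0 - r 0 / 3) + 2 := by omega
  omega

/-- The contribution is at least `- |C ∩ H|`. -/
private lemma neg_card_le_ctr67 (V H C : Finset α) : -((C ∩ H).card : ℤ) ≤ ctr V H C True := by
  unfold ctr
  rw [if_pos trivial]
  split_ifs with h1 h2
  · have := Finset.card_pos.2 h1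
    omega
  · have := Finset.card_pos.2 h2
    omega
  · omega

private lemma card_inter67 {R C : Finset α} (hC : C ⊆ R) (H : Finset α) :
    (R ∩ H).card = ((R \ C) ∩ H).card + (C ∩ H).card := by
  rw [← Finset.card_union_of_disjoint]
  · congr 1
    rw [← Finset.union_inter_distrib_right, Finset.sdiff_union_of_subset hC]
  · exact (Finset.sdiff_disjoint.mono Finset.inter_subset_left Finset.inter_subset_left)

/-- Classes in `R ⊆ V 1` for two indices. -/
private lemma sav_ach67 {T : SimpleGraph α} {V H : Fin 2 → Finset α} {R : Finset α} {k : ℕ}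
    (h : Sav T R k) : R ⊆ V 1 →
    Ach T V H R (fun i => if i = 1 then (k : ℤ) else -((R ∩ H 0).card : ℤ)) := by
  induction h with
  | zero S =>
    intro _
    exact Ach.nil _ _ fun i => by split_ifs <;> simp
  | @two S u v k hu hv h hS ih =>
    intro hRV
    have hsub : ({u, v} : Finset α) ⊆ S := by
      intro y hy
      rw [Finset.mem_insert, Finset.mem_singleton] at hy
      rcases hy with rfl | rfl
      · exact hu
      · exact hv
    refine Ach.pair (by simp) hu hv h (ih (Finset.sdiff_subset.trans hRV)) ?_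
    intro i
    fin_cases i
    · have h1 := neg_card_le_ctr67 (V 0) (H 0) {u, v}
      have h2 := card_inter67 hsub (H 0)
      simp only [Fin.zero_eta, Fin.isValue, zero_ne_one, if_false]
      rw [h2]
      push_cast
      linarith
    · simp only [Fin.mk_one, Fin.isValue, if_true]
      rw [ctr_sub (hsub.trans hRV) ⟨u, by simp⟩, Finset.card_pair h.ne]
      push_cast
      omega
  | @three S u v w k hu hv hw huv huw hvw hS ih =>
    intro hRV
    have hsub : ({u, v, w} : Finset α) ⊆ S := by
      intro y hy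
      simp only [Finset.mem_insert, Finset.mem_singleton] at hy
      rcases hy with rfl | rfl | rfl
      · exact hu
      · exact hv
      · exact hw
    have hcard : ({u, v, w} : Finset α).card = 3 := by
      rw [Finset.card_insert_of_notMem, Finset.card_pair hvw.ne]
      simp [huv.ne, huw.ne]
    refine Ach.triple (cl := Finset.univ) (by simp) hu hv hw huv huw hvw
      (ih (Finset.sdiff_subset.trans hRV)) ?_
    intro i
    have htrue : ctr (V i) (H i) {u, v, w} (i ∈ (Finset.univ : Finset (Fin 2))) =
        ctr (V i) (H i) {u, v, w} True := by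
      simp [ctr]
    rw [htrue]
    fin_cases i
    · have h1 := neg_card_le_ctr67 (V 0) (H 0) {u, v, w}
      have h2 := card_inter67 hsub (H 0)
      simp only [Fin.zero_eta, Fin.isValue, zero_ne_one, if_false]
      rw [h2]
      push_cast
      linarith
    · simp only [Fin.mk_one, Fin.isValue, if_true]
      rw [ctr_sub (hsub.trans hRV) ⟨u, by simp⟩, hcard]
      push_cast
      omega

theorem hub36 {T : SimpleGraph α} {V H : Fin 2 → Finset α} {S : Finset α} {r n : Fin 2 → ℕ}
    (h : HubHyp T V H S r n) (h0 : n 0 ≤ 3) (h1 : n 1 ≤ 6) :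
    Ach T V H S (fun i => (r i : ℤ) - 2) := by
  have hc0 := h.card 0
  have hc1 := h.card 1
  have hr1 : r 1 ≤ 6 := by omega
  by_cases hr0 : 1 ≤ r 0
  · -- an edge in `V 0`
    obtain ⟨u, hu, v, hv, huv⟩ := (h.tau 0).edge hr0
    have hK0 : ({u, v} : Finset α) ⊆ V 0 := by
      intro y hy
      rw [Finset.mem_insert, Finset.mem_singleton] at hy
      rcases hy with rfl | rfl
      · exact hu
      · exact hv
    have hctr0 : ctr (V 0) (H 0) {u, v} True = 1 := by
      rw [ctr_sub hK0 ⟨u, by simp⟩, Finset.card_pair huv.ne]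
      norm_num
    have key : ∀ (R : Finset α) (m : ℕ), Sav T R m → R ⊆ V 1 \ {u, v} →
        (r 1 : ℤ) - 2 ≤ m + ctr (V 1) (H 1) {u, v} True →
        Ach T V H S (fun i => (r i : ℤ) - 2) := by
      intro R m hm hR hle
      have h1 := sav_ach67 (V := V) (H := H) hm (hR.trans Finset.sdiff_subset)
      refine Ach.pair (by simp) (h.sub 0 hu) (h.sub 0 hv) huv
        (h1.mono (hR.trans (Finset.sdiff_subset_sdiff (h.sub 1) subset_rfl)) fun i => le_rfl) ?_
      intro i
      fin_cases i
      · have h2 := Finset.card_le_card (Finset.inter_subset_right : R ∩ H 0 ⊆ H 0)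
        simp only [Fin.zero_eta, Fin.isValue, zero_ne_one, if_false]
        rw [hctr0]
        omega
      · simp only [Fin.mk_one, Fin.isValue, if_true]
        exact hle
    rcases pair_cases u v (V 1) huv.ne with ⟨hK, hK2⟩ | ⟨hK, hK1⟩ | ⟨hK, hK0'⟩
    · have h1 : Tau T (V 1 \ {u, v}) (r 1 - 2) := by
        by_cases h2 : 2 ≤ r 1
        · exact (h.tau 1).sdiff _ (by rw [hK2]; omega)
        · have h3 : r 1 - 2 = 0 := by omega
          rw [h3]
          exact fun X _ _ => Nat.zero_le _
      have h2 := gl (by omega) h1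
      refine key _ _ h2 subset_rfl ?_
      rw [ctr_sub hK ⟨u, by simp⟩, Finset.card_pair huv.ne]
      omega
    · have h1 : Tau T (V 1 \ {u, v}) (r 1 - 1) := by
        by_cases h2 : 1 ≤ r 1
        · exact (h.tau 1).sdiff _ (by rw [hK1]; omega)
        · have h3 : r 1 - 1 = 0 := by omega
          rw [h3]
          exact fun X _ _ => Nat.zero_le _
      have h2 := gl (by omega) h1
      refine key _ _ h2 subset_rfl ?_
      have h3 := ctr_nonneg_of_meets (H := H 1) hK
      omega
    · have h2 := gl (by omega) (h.tau 1)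
      refine key _ _ h2 ?_ ?_
      · intro y hy
        rw [Finset.mem_sdiff]
        exact ⟨hy, fun h3 => Finset.disjoint_left.1 hK h3 hy⟩
      · by_cases h6 : r 1 ≤ 5
        · have h3 := neg_one_le_ctr (V 1) (H 1) {u, v}
          omega
        · have h4 : H 1 = ∅ := by
            rw [← Finset.card_eq_zero]
            omega
          have h3 := ctr_nonneg_of_disj (V := V 1) (H := H 1) (C := {u, v}) True (by
            rw [h4]
            exact Finset.disjoint_empty_right _)
          omega
  · have h00 : r 0 = 0 := by omega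
    have key : ∀ (R : Finset α) (m : ℕ), Sav T R m → R ⊆ V 1 → (R ∩ H 0).card ≤ 2 →
        (r 1 : ℤ) - 2 ≤ m → Ach T V H S (fun i => (r i : ℤ) - 2) := by
      intro R m hm hR hR2 hle
      have h1 := sav_ach67 (V := V) (H := H) hm hR
      refine h1.mono (hR.trans (h.sub 1)) ?_
      intro i
      fin_cases i
      · simp only [Fin.zero_eta, Fin.isValue, zero_ne_one, if_false]
        rw [h00]
        push_cast
        omega
      · simp only [Fin.mk_one, Fin.isValue, if_true]
        exact hle
    by_cases hH : (H 0).card ≤ 2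
    · have h2 := gl (by omega) (h.tau 1)
      refine key _ _ h2 subset_rfl ?_ ?_
      · exact (Finset.card_le_card Finset.inter_subset_right).trans hH
      · omega
    · obtain ⟨a, ha⟩ : (H 0).Nonempty := by
        rw [← Finset.card_pos]
        omega
      have h1 : Tau T (V 1 \ {a}) (r 1 - 1) := by
        by_cases h2 : 1 ≤ r 1
        · exact (h.tau 1).sdiff' _ (by rw [Finset.card_singleton]; omega)
        · have h3 : r 1 - 1 = 0 := by omega
          rw [h3]
          exact fun X _ _ => Nat.zero_le _
      have h2 := gl (by omega) h1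
      refine key _ _ h2 Finset.sdiff_subset ?_ ?_
      · have h3 : (V 1 \ {a}) ∩ H 0 ⊆ (H 0).erase a := by
          intro y hy
          rw [Finset.mem_inter, Finset.mem_sdiff, Finset.mem_singleton] at hy
          exact Finset.mem_erase.2 ⟨hy.1.2, hy.2⟩
        have h4 := Finset.card_le_card h3
        rw [Finset.card_erase_of_mem ha] at h4
        omega
      · omega

end Pool.Agent.Helper33.RG
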