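import Pool.Agent.Helper33.RG.HL1

/-!
# Block RG-HL3a: hub lemma, three indices, `n = (3, 3, 4)`, cases `r 0, r 1 ≤ 2` and `r 0 = r 1 = 3` (MP_1f20e3_co)

Need total contributions `≥ r i - 2`. Classes: edges (`Ach.pair`, merged for all indices), and triangles with `cl = {2}` which miss `H 0` and `H 1` (`Tau.ach2` does this).
A hit of `i` is an edge class avoiding `V i` and meeting `H i`. At most `2 - r i` hits are allowed (minus the savings).

`hub3_small` (`r 0, r 1 ≤ 2`). `r 2 ≤ 2`: no classes. `r 2 = 3` (need 1): an edge in `V 2` avoiding `H 0` if `r 0 = 2` (then `|H 0| ≤ 1`) and `H 1` if `r 1 = 2`; (`r i ≤ 1`: one hit allowed).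
`r 2 = 4` (`H 2 = ∅`, need 2): `r 0 = r 1 = 2`: `τ(V 2 \ H 0 \ H 1) ≥ 2`: `Tau.ach2`. `r 0 = 2, r 1 = 1` (`|H 0| ≤ 1`, `|H 1| ≤ 2`): `e1` an edge in `V 2 \ H 0 \ H 1` (`τ ≥ 1`), `e2` in `V 2 \ H 0 \ e1` (`τ ≥ 1`), one hit of 1. `r 0 = 2, r 1 = 0`: two disjoint edges in
`V 2 \ H 0` (`Tau.three`). `r 0 = r 1 = 1` (`|H 0|, |H 1| ≤ 2`, one hit of each allowed): `e1` in `V 2 \ H 0`; if it misses `H 1`, `e2` any edge in `V 2 \ e1`; if it meets `H 1`, `|(e1 ∪ H 1)| ≤ 3` and `e2` in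
`V 2 \ e1 \ H 1`. `r 0 = 1, r 1 = 0`: `e1` in `V 2 \ H 0`, `e2` in `V 2 \ e1`. `r 0 = r 1 = 0`: two disjoint edges. The cases with `0` and `1` exchanged are the same.

`hub3_both` (`r 0 = r 1 = 3`, `H 0 = H 1 = ∅`, need 1 for both). `K1` an edge in `V 0`. If `K1 ⊆ V 1` put `K2 = K1`, else `K2` an edge in `V 1 \ K1` (`τ ≥ 2`). `r 2 = 0` (two hits allowed): done. `r 2 = 1`: if two different classes are both hits of 2, they
avoid `V 2`: add an edge in `V 2`. `r 2 = 2` (need 0): both are hits (different): `V 2` has two savings (`Tau.ach2`, `H 0 = H 1 = ∅`); exactly one is a hit (it avoids `V 2`): the other one is in `V 2`, or it meets `V 2` in at most one vertex and there is an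
edge of `V 2` in the rest (`τ ≥ 1`); if there is only one class and it is a hit: an edge in `V 2`. `r 2 = 3` (`|H 2| ≤ 1`, need 1): choose `K1` in `V 0 \ H 2` (`τ ≥ 2`), `K2` in `V 1 \ K1 \ H 2` (`τ ≥ 1` if `K1` is not in `V 1`), no hits. One of them in `V 2`: done; else `τ(V 2 \ K1 \ K2) ≥ 1`.
`r 2 = 4` (`H 2 = ∅`, need 2): `j2` of the classes in `V 2`, `j1` with one vertex in `V 2`: need `2 - j2` more, `τ ≥ 4 - 2 j2 - j1`, `j1 + j2 ≤ 2`: `j2 = 2`: done, `j2 = 1`: `τ ≥ 1`, `j2 = 0`: `τ ≥ 2`, `Tau.ach2`.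
-/

set_option autoImplicit false

namespace Pool.Agent.Helper33.RG

variable {α : Type} [DecidableEq α]

private lemma h74_tau_sub {T : SimpleGraph α} {S : Finset α} {k : ℕ} (h : Tau T S k) (R : Finset α) {c : ℕ}
    (hc : (R ∩ S).card ≤ c) : Tau T (S \ R) (k - c) := by
  by_cases hk : c ≤ k
  · exact h.sdiff R (by omega)
  · intro X _ _
    omega

private lemma h74_rest {T : SimpleGraph α} {V H : Fin 3 → Finset α} {S R : Finset α} {k : ℕ} (h0 : H 0 = ∅)
    (h1 : H 1 = ∅) (h : Tau T R k) (hk : k ≤ 2) (hRS : R ⊆ S) (hRV : R ⊆ V 2) :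
    Ach T V H S (fun i => if i = 2 then (k : ℤ) else 0) := by
  have hd : ∀ j : Fin 3, j ≠ 2 → H j = ∅ := by
    intro j hj
    fin_cases j
    · exact h0
    · exact h1
    · exact absurd rfl hj
  rcases (by omega : k = 0 ∨ k = 1 ∨ k = 2) with rfl | rfl | rfl
  · exact Ach.nil _ _ fun i => by split_ifs <;> simp
  · obtain ⟨u, hu, v, hv, huv⟩ := h.edge le_rfl
    refine Ach.pair (x' := fun _ => 0) (by simp) (hRS hu) (hRS hv) huv (Ach.nil _ _ fun _ => le_rfl) fun i => ?_
    by_cases hi : i = 2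
    · subst hi
      have hsub : ({u, v} : Finset α) ⊆ V 2 := by
        intro y hy
        rw [Finset.mem_insert, Finset.mem_singleton] at hy
        rcases hy with rfl | rfl
        · exact hRV hu
        · exact hRV hv
      rw [if_pos rfl, ctr_sub hsub ⟨u, by simp⟩, Finset.card_pair huv.ne]
      norm_num
    · rw [if_neg hi, zero_add]
      refine ctr_nonneg_of_disj _ ?_
      rw [hd i hi]
      exact Finset.disjoint_empty_right _
  · refine (Tau.ach2 (by simp) 2 h le_rfl hRS hRV fun j hj => ?_).mono subset_rfl fun i => by simp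
    rw [hd j hj]
    exact Finset.disjoint_empty_right _

private lemma h74_cfact (u v : α) (V H : Finset α) (huv : u ≠ v) :
    ((({u, v} : Finset α) ∩ V).card = 2 ∧ ctr V H {u, v} True = 1) ∨
    ((({u, v} : Finset α) ∩ V).card = 1 ∧ ctr V H {u, v} True = 0) ∨
    ((({u, v} : Finset α) ∩ V).card = 0 ∧ -1 ≤ ctr V H {u, v} True ∧
      (Disjoint ({u, v} : Finset α) H → 0 ≤ ctr V H {u, v} True)) := by
  rcases pair_cases u v V huv with ⟨h1, h2⟩ | ⟨h1, h2⟩ | ⟨h1, h2⟩
  · left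
    refine ⟨h2, ?_⟩
    rw [ctr_sub h1 ⟨u, by simp⟩, Finset.card_pair huv]
    norm_num
  · right; left
    refine ⟨h2, ?_⟩
    unfold ctr
    rw [if_pos trivial, if_pos h1, h2]
    norm_num
  · right; right
    exact ⟨h2, neg_one_le_ctr _ _ _, fun h => ctr_nonneg_of_disj _ h⟩

private lemma h74_two {T : SimpleGraph α} {V H : Fin 3 → Finset α} {S : Finset α} {x : Fin 3 → ℤ} {u v u' v' : α}
    (hV : V 2 ⊆ S) (hu : u ∈ V 2) (hv : v ∈ V 2) (huv : T.Adj u v) (hu' : u' ∈ V 2) (hv' : v' ∈ V 2)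
    (huv' : T.Adj u' v') (hu2 : u' ∉ ({u, v} : Finset α)) (hv2 : v' ∉ ({u, v} : Finset α)) (h2 : x 2 ≤ 2)
    (hx : ∀ i, i ≠ 2 → x i ≤ ctr (V i) (H i) {u, v} True + ctr (V i) (H i) {u', v'} True) : Ach T V H S x := by
  have hsub : ({u, v} : Finset α) ⊆ V 2 := by
    intro y hy
    rw [Finset.mem_insert, Finset.mem_singleton] at hy
    rcases hy with rfl | rfl
    · exact hu
    · exact hv
  have hsub' : ({u', v'} : Finset α) ⊆ V 2 := by
    intro y hy
    rw [Finset.mem_insert, Finset.mem_singleton] at hy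
    rcases hy with rfl | rfl
    · exact hu'
    · exact hv'
  refine Ach.pair (x' := fun i => ctr (V i) (H i) {u', v'} True) (by simp) (hV hu) (hV hv) huv ?_ fun i => ?_
  · refine Ach.pair (x' := fun _ => 0) (by simp) (Finset.mem_sdiff.2 ⟨hV hu', hu2⟩) (Finset.mem_sdiff.2 ⟨hV hv', hv2⟩)
      huv' (Ach.nil _ _ fun _ => le_rfl) fun i => ?_
    rw [zero_add]
  · by_cases hi : i = 2
    · subst hi
      rw [ctr_sub hsub ⟨u, by simp⟩, ctr_sub hsub' ⟨u', by simp⟩, Finset.card_pair huv.ne, Finset.card_pair huv'.ne]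
      push_cast
      omega
    · rw [add_comm]
      exact hx i hi

private lemma h74_pair_disj {u v : α} {X : Finset α} (hu : u ∉ X) (hv : v ∉ X) : Disjoint ({u, v} : Finset α) X := by
  rw [Finset.disjoint_left]
  intro y hy
  rw [Finset.mem_insert, Finset.mem_singleton] at hy
  rcases hy with rfl | rfl
  · exact hu
  · exact hv

/-- `r 2 = 4`, the indices `a`, `b` are the other two, `r b ≤ r a ≤ 2` -/
private lemma h74_small4 {T : SimpleGraph α} {V H : Fin 3 → Finset α} {S : Finset α} {r n : Fin 3 → ℕ}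
    (h : HubHyp T V H S r n) (a b : Fin 3) (hab : ∀ i : Fin 3, i ≠ 2 → i = a ∨ i = b) (ha2 : a ≠ 2) (hb2 : b ≠ 2)
    (ha : n a ≤ 3) (hb : n b ≤ 3) (hr2 : r 2 = 4) (hra : r a ≤ 2) (hrb : r b ≤ r a) :
    Ach T V H S (fun i => (r i : ℤ) - 2) := by
  have hca := (h.card a).trans ha
  have hcb := (h.card b).trans hb
  have htau := h.tau 2
  rw [hr2] at htau
  have hV := h.sub 2
  -- the general step: `e1` avoids `X1`, `e2` avoids `e1` and `X2`
  have e1ex : ∀ X1 : Finset α, X1.card < 4 → ∃ u ∈ V 2, ∃ v ∈ V 2, T.Adj u v ∧ u ∉ X1 ∧ v ∉ X1 :=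
    fun X1 hX => htau.edge_avoid X1 hX
  have fin : ∀ u v u' v', u ∈ V 2 → v ∈ V 2 → T.Adj u v → u' ∈ V 2 → v' ∈ V 2 → T.Adj u' v' →
      u' ∉ ({u, v} : Finset α) → v' ∉ ({u, v} : Finset α) →
      (r a : ℤ) - 2 ≤ ctr (V a) (H a) {u, v} True + ctr (V a) (H a) {u', v'} True →
      (r b : ℤ) - 2 ≤ ctr (V b) (H b) {u, v} True + ctr (V b) (H b) {u', v'} True →
      Ach T V H S (fun i => (r i : ℤ) - 2) := by
    intro u v u' v' hu hv huv hu' hv' huv' h1 h2 h3 h4
    refine h74_two hV hu hv huv hu' hv' huv' h1 h2 (by simp only [hr2]; norm_num) fun i hi => ?_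
    rcases hab i hi with rfl | rfl
    · exact h3
    · exact h4
  have card_un : ∀ (u v : α) (X : Finset α), (({u, v} : Finset α) ∪ X).card ≤ 2 + X.card := by
    intro u v X
    have h1 := Finset.card_union_le ({u, v} : Finset α) X
    have h2 : ({u, v} : Finset α).card ≤ 2 := Finset.card_le_two
    omega
  rcases (by omega : (r a = 2 ∧ r b = 2) ∨ (r a = 2 ∧ r b = 1) ∨ (r a = 2 ∧ r b = 0) ∨ (r a = 1 ∧ r b = 1) ∨
    (r a = 1 ∧ r b = 0) ∨ (r a = 0 ∧ r b = 0)) with ⟨e1, e2⟩ | ⟨e1, e2⟩ | ⟨e1, e2⟩ | ⟨e1, e2⟩ | ⟨e1, e2⟩ | ⟨e1, e2⟩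
  · -- (2, 2)
    have h1 : Tau T (V 2 \ (H a ∪ H b)) 2 := htau.sdiff' _ (by
      have := Finset.card_union_le (H a) (H b)
      omega)
    refine (Tau.ach2 (S := S) (V := V) (H := H) (by simp) 2 h1 le_rfl (Finset.sdiff_subset.trans hV) Finset.sdiff_subset
      fun j hj => ?_).mono subset_rfl fun i => ?_
    · rcases hab j hj with rfl | rfl
      · exact Finset.sdiff_disjoint.mono_right Finset.subset_union_left
      · exact Finset.sdiff_disjoint.mono_right Finset.subset_union_right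
    · by_cases hi : i = 2
      · subst hi
        rw [if_pos rfl, hr2]
        norm_num
      · rw [if_neg hi]
        rcases hab i hi with rfl | rfl
        · omega
        · omega
  · -- (2, 1)
    obtain ⟨u, hu, v, hv, huv, hu1, hv1⟩ := e1ex (H a ∪ H b) (by
      have := Finset.card_union_le (H a) (H b)
      omega)
    obtain ⟨u', hu', v', hv', huv', hu1', hv1'⟩ := e1ex ({u, v} ∪ H a) (by
      have := card_un u v (H a)
      omega)
    rw [Finset.mem_union, not_or] at hu1 hv1 hu1' hv1'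
    refine fin u v u' v' hu hv huv hu' hv' huv' hu1'.1 hv1'.1 ?_ ?_
    · have k1 := ctr_nonneg_of_disj (V := V a) (H := H a) True (h74_pair_disj hu1.1 hv1.1)
      have k2 := ctr_nonneg_of_disj (V := V a) (H := H a) True (h74_pair_disj hu1'.2 hv1'.2)
      omega
    · have k1 := ctr_nonneg_of_disj (V := V b) (H := H b) True (h74_pair_disj hu1.2 hv1.2)
      have k2 := neg_one_le_ctr (V b) (H b) {u', v'}
      omega
  · -- (2, 0)
    obtain ⟨u, hu, v, hv, huv, hu1, hv1⟩ := e1ex (H a) (by omega)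
    obtain ⟨u', hu', v', hv', huv', hu1', hv1'⟩ := e1ex ({u, v} ∪ H a) (by
      have := card_un u v (H a)
      omega)
    rw [Finset.mem_union, not_or] at hu1' hv1'
    refine fin u v u' v' hu hv huv hu' hv' huv' hu1'.1 hv1'.1 ?_ ?_
    · have k1 := ctr_nonneg_of_disj (V := V a) (H := H a) True (h74_pair_disj hu1 hv1)
      have k2 := ctr_nonneg_of_disj (V := V a) (H := H a) True (h74_pair_disj hu1'.2 hv1'.2)
      omega
    · have k1 := neg_one_le_ctr (V b) (H b) {u, v}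
      have k2 := neg_one_le_ctr (V b) (H b) {u', v'}
      omega
  · -- (1, 1)
    obtain ⟨u, hu, v, hv, huv, hu1, hv1⟩ := e1ex (H a) (by omega)
    have k1 := ctr_nonneg_of_disj (V := V a) (H := H a) True (h74_pair_disj hu1 hv1)
    by_cases hd : Disjoint ({u, v} : Finset α) (H b)
    · obtain ⟨u', hu', v', hv', huv', hu1', hv1'⟩ := e1ex ({u, v} : Finset α) (by
        have : ({u, v} : Finset α).card ≤ 2 := Finset.card_le_two
        omega)
      refine fin u v u' v' hu hv huv hu' hv' huv' hu1' hv1' ?_ ?_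
      · have k2 := neg_one_le_ctr (V a) (H a) {u', v'}
        omega
      · have k2 := neg_one_le_ctr (V b) (H b) {u', v'}
        have k3 := ctr_nonneg_of_disj (V := V b) (H := H b) True hd
        omega
    · obtain ⟨u', hu', v', hv', huv', hu1', hv1'⟩ := e1ex ({u, v} ∪ H b) (by
        have h1 := Finset.card_union_add_card_inter ({u, v} : Finset α) (H b)
        have h2 : ({u, v} : Finset α).card ≤ 2 := Finset.card_le_two
        have h3 : 0 < (({u, v} : Finset α) ∩ H b).card := by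
          rw [Finset.card_pos]
          exact Finset.not_disjoint_iff_nonempty_inter.1 hd
        omega)
      rw [Finset.mem_union, not_or] at hu1' hv1'
      refine fin u v u' v' hu hv huv hu' hv' huv' hu1'.1 hv1'.1 ?_ ?_
      · have k2 := neg_one_le_ctr (V a) (H a) {u', v'}
        omega
      · have k2 := neg_one_le_ctr (V b) (H b) {u, v}
        have k3 := ctr_nonneg_of_disj (V := V b) (H := H b) True (h74_pair_disj hu1'.2 hv1'.2)
        omega
  · -- (1, 0)
    obtain ⟨u, hu, v, hv, huv, hu1, hv1⟩ := e1ex (H a) (by omega)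
    obtain ⟨u', hu', v', hv', huv', hu1', hv1'⟩ := e1ex ({u, v} : Finset α) (by
      have : ({u, v} : Finset α).card ≤ 2 := Finset.card_le_two
      omega)
    refine fin u v u' v' hu hv huv hu' hv' huv' hu1' hv1' ?_ ?_
    · have k1 := ctr_nonneg_of_disj (V := V a) (H := H a) True (h74_pair_disj hu1 hv1)
      have k2 := neg_one_le_ctr (V a) (H a) {u', v'}
      omega
    · have k1 := neg_one_le_ctr (V b) (H b) {u, v}
      have k2 := neg_one_le_ctr (V b) (H b) {u', v'}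
      omega
  · -- (0, 0)
    obtain ⟨u, hu, v, hv, huv, -, -⟩ := e1ex ∅ (by simp)
    obtain ⟨u', hu', v', hv', huv', hu1', hv1'⟩ := e1ex ({u, v} : Finset α) (by
      have : ({u, v} : Finset α).card ≤ 2 := Finset.card_le_two
      omega)
    refine fin u v u' v' hu hv huv hu' hv' huv' hu1' hv1' ?_ ?_
    · have k1 := neg_one_le_ctr (V a) (H a) {u, v}
      have k2 := neg_one_le_ctr (V a) (H a) {u', v'}
      omega
    · have k1 := neg_one_le_ctr (V b) (H b) {u, v}
      have k2 := neg_one_le_ctr (V b) (H b) {u', v'}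
      omega

theorem hub3_small {T : SimpleGraph α} {V H : Fin 3 → Finset α} {S : Finset α} {r n : Fin 3 → ℕ}
    (h : HubHyp T V H S r n) (h0 : n 0 ≤ 3) (h1 : n 1 ≤ 3) (h2 : n 2 ≤ 4) (hr0 : r 0 ≤ 2)
    (hr1 : r 1 ≤ 2) : Ach T V H S (fun i => (r i : ℤ) - 2) := by
  have c0 := (h.card 0).trans h0
  have c1 := (h.card 1).trans h1
  have c2 := (h.card 2).trans h2
  rcases (by omega : r 2 ≤ 2 ∨ r 2 = 3 ∨ r 2 = 4) with hr2 | hr2 | hr2
  · refine Ach.nil _ _ fun i => ?_
    fin_cases i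
    · show (r 0 : ℤ) - 2 ≤ 0
      omega
    · show (r 1 : ℤ) - 2 ≤ 0
      omega
    · show (r 2 : ℤ) - 2 ≤ 0
      omega
  · obtain ⟨Q0, hQ0c, hQ0⟩ : ∃ Q : Finset α, Q.card ≤ 1 ∧ (r 0 = 2 → Q = H 0) := by
      by_cases hh : r 0 = 2
      · exact ⟨H 0, by omega, fun _ => rfl⟩
      · exact ⟨∅, by simp, fun h' => absurd h' hh⟩
    obtain ⟨Q1, hQ1c, hQ1⟩ : ∃ Q : Finset α, Q.card ≤ 1 ∧ (r 1 = 2 → Q = H 1) := by
      by_cases hh : r 1 = 2
      · exact ⟨H 1, by omega, fun _ => rfl⟩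
      · exact ⟨∅, by simp, fun h' => absurd h' hh⟩
    obtain ⟨u, hu, v, hv, huv, hu1, hv1⟩ := (h.tau 2).edge_avoid (Q0 ∪ Q1) (by
      have := Finset.card_union_le Q0 Q1
      omega)
    rw [Finset.mem_union, not_or] at hu1 hv1
    have hV := h.sub 2
    refine Ach.pair (x' := fun _ => 0) (by simp) (hV hu) (hV hv) huv (Ach.nil _ _ fun _ => le_rfl) fun i => ?_
    have k0 : (r 0 : ℤ) - 2 ≤ 0 + ctr (V 0) (H 0) {u, v} True := by
      by_cases hh : r 0 = 2
      · have := ctr_nonneg_of_disj (V := V 0) (H := H 0) (C := {u, v}) True (by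
          rw [← hQ0 hh]
          exact h74_pair_disj hu1.1 hv1.1)
        omega
      · have := neg_one_le_ctr (V 0) (H 0) {u, v}
        omega
    have k1 : (r 1 : ℤ) - 2 ≤ 0 + ctr (V 1) (H 1) {u, v} True := by
      by_cases hh : r 1 = 2
      · have := ctr_nonneg_of_disj (V := V 1) (H := H 1) (C := {u, v}) True (by
          rw [← hQ1 hh]
          exact h74_pair_disj hu1.2 hv1.2)
        omega
      · have := neg_one_le_ctr (V 1) (H 1) {u, v}
        omega
    have k2 : (r 2 : ℤ) - 2 ≤ 0 + ctr (V 2) (H 2) {u, v} True := by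
      have hsub : ({u, v} : Finset α) ⊆ V 2 := by
        intro y hy
        rw [Finset.mem_insert, Finset.mem_singleton] at hy
        rcases hy with rfl | rfl
        · exact hu
        · exact hv
      rw [ctr_sub hsub ⟨u, by simp⟩, Finset.card_pair huv.ne, hr2]
      norm_num
    fin_cases i
    · exact k0
    · exact k1
    · exact k2
  · rcases le_total (r 1) (r 0) with hle | hle
    · exact h74_small4 h 0 1 (by decide) (by decide) (by decide) h0 h1 hr2 hr0 hle
    · exact h74_small4 h 1 0 (by decide) (by decide) (by decide) h1 h0 hr2 hr1 hle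

theorem hub3_both {T : SimpleGraph α} {V H : Fin 3 → Finset α} {S : Finset α} {r n : Fin 3 → ℕ}
    (h : HubHyp T V H S r n) (h0 : n 0 ≤ 3) (h1 : n 1 ≤ 3) (h2 : n 2 ≤ 4) (hr0 : r 0 = 3)
    (hr1 : r 1 = 3) : Ach T V H S (fun i => (r i : ℤ) - 2) := by
  have c0 := (h.card 0).trans h0
  have c1 := (h.card 1).trans h1
  have c2 := (h.card 2).trans h2
  have e0 : H 0 = ∅ := Finset.card_eq_zero.1 (by omega)
  have e1 : H 1 = ∅ := Finset.card_eq_zero.1 (by omega)
  obtain ⟨Q, hQc, hQ⟩ : ∃ Q : Finset α, Q.card ≤ 1 ∧ (3 ≤ r 2 → Q = H 2) := by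
    by_cases hh : 3 ≤ r 2
    · exact ⟨H 2, by omega, fun _ => rfl⟩
    · exact ⟨∅, by simp, fun h' => absurd h' hh⟩
  have nn0 : ∀ C : Finset α, 0 ≤ ctr (V 0) (H 0) C True := fun C =>
    ctr_nonneg_of_disj _ (by rw [e0]; exact Finset.disjoint_empty_right _)
  have nn1 : ∀ C : Finset α, 0 ≤ ctr (V 1) (H 1) C True := fun C =>
    ctr_nonneg_of_disj _ (by rw [e1]; exact Finset.disjoint_empty_right _)
  obtain ⟨u, hu, v, hv, huv, hu1, hv1⟩ := (h.tau 0).edge_avoid Q (by omega)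
  have hsub : ({u, v} : Finset α) ⊆ V 0 := by
    intro y hy
    rw [Finset.mem_insert, Finset.mem_singleton] at hy
    rcases hy with rfl | rfl
    · exact hu
    · exact hv
  have k0 : ctr (V 0) (H 0) {u, v} True = 1 := by
    rw [ctr_sub hsub ⟨u, by simp⟩, Finset.card_pair huv.ne]
    norm_num
  have hdK1 : 3 ≤ r 2 → Disjoint ({u, v} : Finset α) (H 2) := fun hh => by
    rw [← hQ hh]
    exact h74_pair_disj hu1 hv1
  have hcf := h74_cfact u v (V 2) (H 2) huv.ne
  have hS0 := h.sub 0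
  have hS1 := h.sub 1
  have hS2 := h.sub 2
  by_cases hK1 : ({u, v} : Finset α) ⊆ V 1
  · -- one class
    obtain ⟨k, hk⟩ : ∃ k : ℕ, k = min 2 (r 2 - (({u, v} : Finset α) ∩ V 2).card) := ⟨_, rfl⟩
    have htau : Tau T (V 2 \ {u, v}) k :=
      (h74_tau_sub (h.tau 2) {u, v} le_rfl).mono subset_rfl (by omega)
    have hrest := h74_rest (V := V) (H := H) (S := S \ {u, v}) e0 e1 htau (by omega)
      (Finset.sdiff_subset_sdiff hS2 subset_rfl) Finset.sdiff_subset
    refine Ach.pair (by simp) (hS0 hu) (hS0 hv) huv hrest fun i => ?_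
    have k1 : ctr (V 1) (H 1) {u, v} True = 1 := by
      rw [ctr_sub hK1 ⟨u, by simp⟩, Finset.card_pair huv.ne]
      norm_num
    have g0 : (r 0 : ℤ) - 2 ≤ (if (0 : Fin 3) = 2 then (k : ℤ) else 0) + ctr (V 0) (H 0) {u, v} True := by
      rw [if_neg (by decide), k0, hr0]
      norm_num
    have g1 : (r 1 : ℤ) - 2 ≤ (if (1 : Fin 3) = 2 then (k : ℤ) else 0) + ctr (V 1) (H 1) {u, v} True := by
      rw [if_neg (by decide), k1, hr1]
      norm_num
    have g2 : (r 2 : ℤ) - 2 ≤ (if (2 : Fin 3) = 2 then (k : ℤ) else 0) + ctr (V 2) (H 2) {u, v} True := by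
      rw [if_pos rfl]
      rcases hcf with ⟨t1, t2⟩ | ⟨t1, t2⟩ | ⟨t1, t2, t3⟩
      · omega
      · omega
      · by_cases hh : 3 ≤ r 2
        · have := t3 (hdK1 hh)
          omega
        · omega
    fin_cases i
    · exact g0
    · exact g1
    · exact g2
  · -- two classes
    have hcard1 : (({u, v} : Finset α) ∩ V 1).card ≤ 1 := by
      rcases pair_cases u v (V 1) huv.ne with ⟨t1, -⟩ | ⟨-, t2⟩ | ⟨-, t2⟩
      · exact absurd t1 hK1
      · omega
      · omega
    obtain ⟨u', hu', v', hv', huv', hu1', hv1'⟩ := (h74_tau_sub (h.tau 1) {u, v} hcard1).edge_avoid Q (by omega)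
    rw [Finset.mem_sdiff] at hu' hv'
    have hsub' : ({u', v'} : Finset α) ⊆ V 1 := by
      intro y hy
      rw [Finset.mem_insert, Finset.mem_singleton] at hy
      rcases hy with rfl | rfl
      · exact hu'.1
      · exact hv'.1
    have k1 : ctr (V 1) (H 1) {u', v'} True = 1 := by
      rw [ctr_sub hsub' ⟨u', by simp⟩, Finset.card_pair huv'.ne]
      norm_num
    have hdK2 : 3 ≤ r 2 → Disjoint ({u', v'} : Finset α) (H 2) := fun hh => by
      rw [← hQ hh]
      exact h74_pair_disj hu1' hv1'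
    have hcf' := h74_cfact u' v' (V 2) (H 2) huv'.ne
    obtain ⟨k, hk⟩ : ∃ k : ℕ, k = min 2 (r 2 - (({u, v} : Finset α) ∩ V 2).card - (({u', v'} : Finset α) ∩ V 2).card) :=
      ⟨_, rfl⟩
    have htau1 : Tau T (V 2 \ {u, v}) (r 2 - (({u, v} : Finset α) ∩ V 2).card) := h74_tau_sub (h.tau 2) {u, v} le_rfl
    have htau : Tau T ((V 2 \ {u, v}) \ {u', v'}) k :=
      (h74_tau_sub htau1 {u', v'} (Finset.card_le_card (Finset.inter_subset_inter_left Finset.sdiff_subset))).mono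
        subset_rfl (by omega)
    have hrest := h74_rest (V := V) (H := H) (S := (S \ {u, v}) \ {u', v'}) e0 e1 htau (by omega)
      (Finset.sdiff_subset_sdiff (Finset.sdiff_subset_sdiff hS2 subset_rfl) subset_rfl)
      (Finset.sdiff_subset.trans Finset.sdiff_subset)
    refine Ach.pair (x' := fun i => (if i = 2 then (k : ℤ) else 0) + ctr (V i) (H i) {u', v'} True) (by simp)
      (hS0 hu) (hS0 hv) huv (Ach.pair (by simp) (Finset.mem_sdiff.2 ⟨hS1 hu'.1, hu'.2⟩)
        (Finset.mem_sdiff.2 ⟨hS1 hv'.1, hv'.2⟩) huv' hrest fun i => le_rfl) fun i => ?_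
    have g0 : (r 0 : ℤ) - 2 ≤ ((if (0 : Fin 3) = 2 then (k : ℤ) else 0) + ctr (V 0) (H 0) {u', v'} True) +
        ctr (V 0) (H 0) {u, v} True := by
      have := nn0 {u', v'}
      rw [if_neg (by decide), k0, hr0]
      push_cast
      omega
    have g1 : (r 1 : ℤ) - 2 ≤ ((if (1 : Fin 3) = 2 then (k : ℤ) else 0) + ctr (V 1) (H 1) {u', v'} True) +
        ctr (V 1) (H 1) {u, v} True := by
      have := nn1 {u, v}
      rw [if_neg (by decide), k1, hr1]
      push_cast
      omega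
    have g2 : (r 2 : ℤ) - 2 ≤ ((if (2 : Fin 3) = 2 then (k : ℤ) else 0) + ctr (V 2) (H 2) {u', v'} True) +
        ctr (V 2) (H 2) {u, v} True := by
      rw [if_pos rfl]
      have s1 : 3 ≤ r 2 → (({u, v} : Finset α) ∩ V 2).card = 0 → 0 ≤ ctr (V 2) (H 2) {u, v} True := fun hh _ =>
        ctr_nonneg_of_disj _ (hdK1 hh)
      have s2 : 3 ≤ r 2 → (({u', v'} : Finset α) ∩ V 2).card = 0 → 0 ≤ ctr (V 2) (H 2) {u', v'} True := fun hh _ =>
        ctr_nonneg_of_disj _ (hdK2 hh)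
      rcases hcf with ⟨t1, t2⟩ | ⟨t1, t2⟩ | ⟨t1, t2, -⟩ <;> rcases hcf' with ⟨t4, t5⟩ | ⟨t4, t5⟩ | ⟨t4, t5, -⟩ <;> omega
    fin_cases i
    · exact g0
    · exact g1
    · exact g2

end Pool.Agent.Helper33.RG
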