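import Pool.Agent.Helper33.RG.HL1

/-!
# Block RG-HL3b: hub lemma, three indices, `n = (3, 3, 4)`, case `r 0 = 3`, `r 1 ≤ 2` (MP_1f20e3_co)

Need total contributions `≥ r i - 2`. Classes: edges (`Ach.pair`, merged for all indices), and triangles with `cl = {2}` which miss `H 0` and `H 1` (`Tau.ach2` does this).
A 'hit' of `i` is an edge class avoiding `V i` and meeting `H i`. Here `H 0 = ∅` (all contributions to 0 are `≥ 0`, need 1, so one edge `K` in `V 0` is enough), `|H 1| ≤ 3 - r 1`, `2 - r 1` hits of 1 allowed.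

`r 2 ≤ 1` (one hit of 2 allowed): `K` an edge in `V 0`, avoiding `H 1` if `r 1 = 2` (`|H 1| ≤ 1`).
`r 2 = 2` (`|H 2| ≤ 2`, need 0): `r 1 ≤ 1`: `K` in `V 0 \ H 2` (`τ ≥ 1`). `r 1 = 2`: `K` in `V 0 \ H 1`; if it is a hit of 2 (so it avoids `V 2`) add an edge in `V 2 \ H 1` (`τ ≥ 1`).
`r 2 = 3` (`|H 2| ≤ 1`, need 1). `r 1 = 2`: `K` in `V 0 \ H 1 \ H 2` (`τ ≥ 1`), it is in `V 2`, or add `K'` in `V 2 \ K \ H 1` (`τ ≥ 1`). `r 1 = 1` (`|H 1| ≤ 2`): `K` in `V 0 \ H 2`; `K ⊆ V 2`: done; `K` misses `H 1`: `K'` any edge in `V 2 \ K` (`τ ≥ 2`); `K` meets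
`H 1`: `|(K ∪ H 1) ∩ V 2| ≤ 2` (`K ∪ H 1` has at most three elements, one element of `K` is not in `V 2`), `K'` in `V 2 \ K \ H 1`. `r 1 = 0` (two hits allowed): `K` in `V 0 \ H 2`, in `V 2` or `K'` in `V 2 \ K`.
`r 2 = 4` (`H 2 = ∅`, need 2). `r 1 = 2`: `K` in `V 0 \ H 1`; `K ⊆ V 2`: an edge in `V 2 \ K \ H 1` (`τ ≥ 1`); else `τ(V 2 \ K \ H 1) ≥ 2`: `Tau.ach2`. `r 1 = 1` (`|H 1| ≤ 2`, one hit): `K` in `V 0 \ H 1`; `K ⊆ V 2`: any edge in `V 2 \ K`;
else `e1` in `V 2 \ K \ H 1` (`τ ≥ 1`), `e2` in `V 2 \ K \ e1` (`τ ≥ 1`). `r 1 = 0` (`|H 1| ≤ 3`, two hits): `K` in `V 0`; `K ⊆ V 2`: any edge in `V 2 \ K`; `K` misses `H 1`: two disjoint edges in `V 2 \ K` (`τ ≥ 3`, `Tau.three`); `K` meets `H 1`, `K` not in `V 2`: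
`|(K ∪ H 1) ∩ V 2| ≤ 3`, `e1` in `V 2 \ K \ H 1`, `e2` in `V 2 \ K \ e1` (`τ ≥ 1`).
-/

set_option autoImplicit false

namespace Pool.Agent.Helper33.RG

variable {α : Type} [DecidableEq α]

private lemma fin3_94 {P : Fin 3 → Prop} (h0 : P 0) (h1 : P 1) (h2 : P 2) : ∀ i, P i := by
  intro i
  fin_cases i
  · exact h0
  · exact h1
  · exact h2

private lemma cin94 {V H : Finset α} {u v : α} (hu : u ∈ V) (hv : v ∈ V) (h : u ≠ v) :
    ctr V H {u, v} True = 1 := by
  have hsub : ({u, v} : Finset α) ⊆ V := by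
    intro y hy
    rw [Finset.mem_insert, Finset.mem_singleton] at hy
    rcases hy with rfl | rfl
    · exact hu
    · exact hv
  rw [ctr_sub hsub ⟨u, by simp⟩, Finset.card_pair h]
  norm_num

private lemma cmeet94 {V H : Finset α} {u v : α} (h : u ∈ V ∨ v ∈ V) :
    0 ≤ ctr V H {u, v} True := by
  refine ctr_nonneg_of_meets ?_
  rcases h with h | h
  · exact ⟨u, by simp [h]⟩
  · exact ⟨v, by simp [h]⟩

private lemma cmiss94 {V H : Finset α} {u v : α} (hu : u ∉ H) (hv : v ∉ H) :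
    0 ≤ ctr V H {u, v} True := by
  refine ctr_nonneg_of_disj True ?_
  rw [Finset.disjoint_insert_left, Finset.disjoint_singleton_left]
  exact ⟨hu, hv⟩

private lemma cardA94 {u v : α} {Z R : Finset α} (hu : u ∉ Z) :
    (({u, v} ∪ R) ∩ Z).card ≤ R.card + 1 := by
  have h1 : ({u, v} ∪ R) ∩ Z ⊆ insert v R := by
    intro y hy
    simp only [Finset.mem_inter, Finset.mem_union, Finset.mem_insert, Finset.mem_singleton] at hy ⊢
    rcases hy with ⟨(rfl | h) | h, hz⟩
    · exact absurd hz hu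
    · exact Or.inl h
    · exact Or.inr h
  exact (Finset.card_le_card h1).trans (Finset.card_insert_le _ _)

private lemma cardB94 {u v : α} {Z R : Finset α} (hu : u ∉ Z) (hm : u ∈ R ∨ v ∈ R) :
    (({u, v} ∪ R) ∩ Z).card ≤ R.card := by
  rcases hm with hm | hm
  · have h1 : ({u, v} ∪ R) ∩ Z ⊆ insert v (R.erase u) := by
      intro y hy
      simp only [Finset.mem_inter, Finset.mem_union, Finset.mem_insert, Finset.mem_singleton,
        Finset.mem_erase] at hy ⊢
      rcases hy with ⟨(rfl | h) | h, hz⟩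
      · exact absurd hz hu
      · exact Or.inl h
      · exact Or.inr ⟨fun h' => hu (h' ▸ hz), h⟩
    have h2 := (Finset.card_le_card h1).trans (Finset.card_insert_le _ _)
    rw [Finset.card_erase_of_mem hm] at h2
    have h3 := Finset.card_pos.2 ⟨u, hm⟩
    omega
  · refine Finset.card_le_card fun y hy => ?_
    simp only [Finset.mem_inter, Finset.mem_union, Finset.mem_insert, Finset.mem_singleton] at hy
    rcases hy with ⟨(rfl | h) | h, hz⟩
    · exact absurd hz hu
    · exact h ▸ hm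
    · exact h

private lemma cardC94 {u v : α} {Z R : Finset α} :
    (({u, v} ∪ R) ∩ Z).card ≤ R.card + 2 := by
  have h1 := Finset.card_le_card (Finset.inter_subset_left : ({u, v} ∪ R) ∩ Z ⊆ {u, v} ∪ R)
  have h2 := Finset.card_union_le {u, v} R
  have h3 := Finset.card_le_two (a := u) (b := v)
  omega

/-- an edge avoiding `R`, in `Z` or with first vertex not in `Z` -/
private lemma edge94 {T : SimpleGraph α} {W : Finset α} {k : ℕ} (h : Tau T W k) (R : Finset α)
    (hk : (R ∩ W).card < k) (Z : Finset α) : ∃ u v, u ∈ W ∧ v ∈ W ∧ T.Adj u v ∧ u ∉ R ∧ v ∉ R ∧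
      ((u ∈ Z ∧ v ∈ Z) ∨ u ∉ Z) := by
  obtain ⟨u, hu, v, hv, huv⟩ := (h.sdiff (l := 1) R (by omega)).edge le_rfl
  rw [Finset.mem_sdiff] at hu hv
  by_cases hu2 : u ∈ Z
  · by_cases hv2 : v ∈ Z
    · exact ⟨u, v, hu.1, hv.1, huv, hu.2, hv.2, Or.inl ⟨hu2, hv2⟩⟩
    · exact ⟨v, u, hv.1, hu.1, huv.symm, hv.2, hu.2, Or.inr hv2⟩
  · exact ⟨u, v, hu.1, hv.1, huv, hu.2, hv.2, Or.inr hu2⟩

private lemma le_of_inter94 {R W : Finset α} {k : ℕ} (h : R.card < k) : (R ∩ W).card < k :=
  (Finset.card_le_card Finset.inter_subset_left).trans_lt h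

private lemma notpair94 {u v y : α} {R : Finset α} (h : y ∉ ({u, v} ∪ R : Finset α)) :
    y ∉ ({u, v} : Finset α) ∧ y ∉ R := by
  rw [Finset.mem_union, not_or] at h
  exact h

theorem hub3_one {T : SimpleGraph α} {V H : Fin 3 → Finset α} {S : Finset α} {r n : Fin 3 → ℕ}
    (h : HubHyp T V H S r n) (h0 : n 0 ≤ 3) (h1 : n 1 ≤ 3) (h2 : n 2 ≤ 4) (hr0 : r 0 = 3)
    (hr1 : r 1 ≤ 2) : Ach T V H S (fun i => (r i : ℤ) - 2) := by
  have t0 : Tau T (V 0) 3 := by have t := h.tau 0; rwa [hr0] at t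
  have t2 := h.tau 2
  have c0 := h.card 0
  have c1 := h.card 1
  have c2 := h.card 2
  have s0 := h.sub 0
  have s2 := h.sub 2
  have hH0 : H 0 = ∅ := Finset.card_eq_zero.1 (by omega)
  have k0 : ∀ C : Finset α, 0 ≤ ctr (V 0) (H 0) C True := fun C =>
    ctr_nonneg_of_disj True (by rw [hH0]; exact Finset.disjoint_empty_right C)
  have k1 : ∀ C : Finset α, -1 ≤ ctr (V 1) (H 1) C True := fun C => neg_one_le_ctr _ _ _
  have k2 : ∀ C : Finset α, -1 ≤ ctr (V 2) (H 2) C True := fun C => neg_one_le_ctr _ _ _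
  have hr0' : (r 0 : ℤ) = 3 := by exact_mod_cast hr0
  -- assembly lemmas
  have one : ∀ u v, u ∈ S → v ∈ S → T.Adj u v →
      (∀ i, (r i : ℤ) - 2 ≤ ctr (V i) (H i) {u, v} True) → Ach T V H S (fun i => (r i : ℤ) - 2) := by
    intro u v hu hv huv hx
    exact Ach.pair (by simp) hu hv huv (Ach.nil _ (fun _ => 0) fun _ => le_rfl)
      fun i => by rw [zero_add]; exact hx i
  have two : ∀ u v u' v', u ∈ S → v ∈ S → T.Adj u v → u' ∈ S → v' ∈ S → T.Adj u' v' →
      u' ∉ ({u, v} : Finset α) → v' ∉ ({u, v} : Finset α) →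
      (∀ i, (r i : ℤ) - 2 ≤ ctr (V i) (H i) {u', v'} True + ctr (V i) (H i) {u, v} True) →
      Ach T V H S (fun i => (r i : ℤ) - 2) := by
    intro u v u' v' hu hv huv hu' hv' huv' hd hd' hx
    exact Ach.pair (by simp) hu hv huv
      (Ach.pair (x := fun i => ctr (V i) (H i) {u', v'} True) (by simp)
        (Finset.mem_sdiff.2 ⟨hu', hd⟩) (Finset.mem_sdiff.2 ⟨hv', hd'⟩) huv'
        (Ach.nil _ (fun _ => 0) fun _ => le_rfl) fun i => by rw [zero_add]) hx
  have three : ∀ u v u' v' u2 v2, u ∈ S → v ∈ S → T.Adj u v → u' ∈ S → v' ∈ S → T.Adj u' v' →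
      u' ∉ ({u, v} : Finset α) → v' ∉ ({u, v} : Finset α) → u2 ∈ S → v2 ∈ S → T.Adj u2 v2 →
      u2 ∉ ({u, v} : Finset α) → v2 ∉ ({u, v} : Finset α) →
      u2 ∉ ({u', v'} : Finset α) → v2 ∉ ({u', v'} : Finset α) →
      (∀ i, (r i : ℤ) - 2 ≤ ctr (V i) (H i) {u2, v2} True + ctr (V i) (H i) {u', v'} True +
        ctr (V i) (H i) {u, v} True) →
      Ach T V H S (fun i => (r i : ℤ) - 2) := by
    intro u v u' v' u2 v2 hu hv huv hu' hv' huv' hd hd' hu2 hv2 huv2 e1 e2 e3 e4 hx
    exact Ach.pair (by simp) hu hv huv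
      (Ach.pair (x := fun i => ctr (V i) (H i) {u2, v2} True + ctr (V i) (H i) {u', v'} True) (by simp)
        (Finset.mem_sdiff.2 ⟨hu', hd⟩) (Finset.mem_sdiff.2 ⟨hv', hd'⟩) huv'
        (Ach.pair (x := fun i => ctr (V i) (H i) {u2, v2} True) (by simp)
          (Finset.mem_sdiff.2 ⟨Finset.mem_sdiff.2 ⟨hu2, e1⟩, e3⟩)
          (Finset.mem_sdiff.2 ⟨Finset.mem_sdiff.2 ⟨hv2, e2⟩, e4⟩) huv2
          (Ach.nil _ (fun _ => 0) fun _ => le_rfl) fun i => by rw [zero_add]) fun i => le_rfl) hx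
  have hcase : r 2 ≤ 1 ∨ r 2 = 2 ∨ r 2 = 3 ∨ r 2 = 4 := by omega
  rcases hcase with hr2 | hr2 | hr2 | hr2
  · -- `r 2 ≤ 1`
    by_cases hr1' : r 1 = 0
    · obtain ⟨u, v, hu, hv, huv, -, -, -⟩ := edge94 t0 ∅ (by simp) ∅
      refine one u v (s0 hu) (s0 hv) huv (fin3_94 ?_ ?_ ?_)
      · rw [cin94 hu hv huv.ne]; omega
      · have := k1 {u, v}; omega
      · have := k2 {u, v}; omega
    · obtain ⟨u, v, hu, hv, huv, hu1, hv1, -⟩ := edge94 t0 (H 1) (le_of_inter94 (by omega)) ∅
      refine one u v (s0 hu) (s0 hv) huv (fin3_94 ?_ ?_ ?_)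
      · rw [cin94 hu hv huv.ne]; omega
      · have := cmiss94 (V := V 1) hu1 hv1; omega
      · have := k2 {u, v}; omega
  · -- `r 2 = 2`
    by_cases hr1' : r 1 ≤ 1
    · obtain ⟨u, v, hu, hv, huv, hu1, hv1, -⟩ := edge94 t0 (H 2) (le_of_inter94 (by omega)) ∅
      refine one u v (s0 hu) (s0 hv) huv (fin3_94 ?_ ?_ ?_)
      · rw [cin94 hu hv huv.ne]; omega
      · have := k1 {u, v}; omega
      · have := cmiss94 (V := V 2) hu1 hv1; omega
    · obtain ⟨u, v, hu, hv, huv, hu1, hv1, -⟩ := edge94 t0 (H 1) (le_of_inter94 (by omega)) ∅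
      have hc1 := cmiss94 (V := V 1) hu1 hv1
      by_cases hm : u ∈ V 2 ∨ v ∈ V 2
      · refine one u v (s0 hu) (s0 hv) huv (fin3_94 ?_ ?_ ?_)
        · rw [cin94 hu hv huv.ne]; omega
        · omega
        · have := cmeet94 (H := H 2) hm; omega
      · push Not at hm
        obtain ⟨u', v', hu', hv', huv', hu1', hv1', -⟩ := edge94 t2 (H 1) (le_of_inter94 (by omega)) ∅
        have hc1' := cmiss94 (V := V 1) hu1' hv1'
        refine two u v u' v' (s0 hu) (s0 hv) huv (s2 hu') (s2 hv') huv' ?_ ?_ (fin3_94 ?_ ?_ ?_)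
        · rw [Finset.mem_insert, Finset.mem_singleton, not_or]
          exact ⟨fun e => hm.1 (e ▸ hu'), fun e => hm.2 (e ▸ hu')⟩
        · rw [Finset.mem_insert, Finset.mem_singleton, not_or]
          exact ⟨fun e => hm.1 (e ▸ hv'), fun e => hm.2 (e ▸ hv')⟩
        · have := k0 {u', v'}
          rw [cin94 hu hv huv.ne]; omega
        · omega
        · have := k2 {u, v}
          rw [cin94 hu' hv' huv'.ne]; omega
  · -- `r 2 = 3`
    by_cases hr12 : r 1 = 2
    · have hu12 := Finset.card_union_le (H 1) (H 2)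
      obtain ⟨u, v, hu, hv, huv, hu1, hv1, hZ⟩ := edge94 t0 (H 1 ∪ H 2) (le_of_inter94 (by omega)) (V 2)
      rw [Finset.mem_union, not_or] at hu1 hv1
      have hc1 := cmiss94 (V := V 1) hu1.1 hv1.1
      have hc2 := cmiss94 (V := V 2) hu1.2 hv1.2
      rcases hZ with hZ | hZ
      · refine one u v (s0 hu) (s0 hv) huv (fin3_94 ?_ ?_ ?_)
        · rw [cin94 hu hv huv.ne]; omega
        · omega
        · rw [cin94 hZ.1 hZ.2 huv.ne]; omega
      · obtain ⟨u', v', hu', hv', huv', hu1', hv1', -⟩ := edge94 t2 ({u, v} ∪ H 1)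
          (by have := cardA94 (v := v) (R := H 1) hZ; omega) ∅
        obtain ⟨e1, e2⟩ := notpair94 hu1'
        obtain ⟨e3, e4⟩ := notpair94 hv1'
        have hc1' := cmiss94 (V := V 1) e2 e4
        refine two u v u' v' (s0 hu) (s0 hv) huv (s2 hu') (s2 hv') huv' e1 e3 (fin3_94 ?_ ?_ ?_)
        · have := k0 {u', v'}
          rw [cin94 hu hv huv.ne]; omega
        · omega
        · rw [cin94 hu' hv' huv'.ne]; omega
    · obtain ⟨u, v, hu, hv, huv, hu1, hv1, hZ⟩ := edge94 t0 (H 2) (le_of_inter94 (by omega)) (V 2)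
      have hc2 := cmiss94 (V := V 2) hu1 hv1
      rcases hZ with hZ | hZ
      · refine one u v (s0 hu) (s0 hv) huv (fin3_94 ?_ ?_ ?_)
        · rw [cin94 hu hv huv.ne]; omega
        · have := k1 {u, v}; omega
        · rw [cin94 hZ.1 hZ.2 huv.ne]; omega
      · by_cases hm : r 1 = 1 ∧ (u ∈ H 1 ∨ v ∈ H 1)
        · obtain ⟨hr11, hm⟩ := hm
          obtain ⟨u', v', hu', hv', huv', hu1', hv1', -⟩ := edge94 t2 ({u, v} ∪ H 1)
            (by have := cardB94 (v := v) (R := H 1) hZ hm; omega) ∅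
          obtain ⟨e1, e2⟩ := notpair94 hu1'
          obtain ⟨e3, e4⟩ := notpair94 hv1'
          have hc1' := cmiss94 (V := V 1) e2 e4
          refine two u v u' v' (s0 hu) (s0 hv) huv (s2 hu') (s2 hv') huv' e1 e3 (fin3_94 ?_ ?_ ?_)
          · have := k0 {u', v'}
            rw [cin94 hu hv huv.ne]; omega
          · have := k1 {u, v}; omega
          · rw [cin94 hu' hv' huv'.ne]; omega
        · obtain ⟨u', v', hu', hv', huv', hu1', hv1', -⟩ := edge94 t2 ({u, v} ∪ ∅)
            (by have := cardA94 (v := v) (R := ∅) hZ; rw [Finset.card_empty] at this; omega) ∅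
          obtain ⟨e1, -⟩ := notpair94 hu1'
          obtain ⟨e3, -⟩ := notpair94 hv1'
          refine two u v u' v' (s0 hu) (s0 hv) huv (s2 hu') (s2 hv') huv' e1 e3 (fin3_94 ?_ ?_ ?_)
          · have := k0 {u', v'}
            rw [cin94 hu hv huv.ne]; omega
          · have a1 := k1 {u, v}
            have a2 := k1 {u', v'}
            by_cases hr10 : r 1 = 0
            · omega
            · have hr11 : r 1 = 1 := by omega
              have hm' : u ∉ H 1 ∧ v ∉ H 1 := by
                constructor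
                · exact fun hh => hm ⟨hr11, Or.inl hh⟩
                · exact fun hh => hm ⟨hr11, Or.inr hh⟩
              have := cmiss94 (V := V 1) hm'.1 hm'.2
              omega
          · rw [cin94 hu' hv' huv'.ne]; omega
  · -- `r 2 = 4`
    have hH2 : H 2 = ∅ := Finset.card_eq_zero.1 (by omega)
    have k2' : ∀ C : Finset α, 0 ≤ ctr (V 2) (H 2) C True := fun C =>
      ctr_nonneg_of_disj True (by rw [hH2]; exact Finset.disjoint_empty_right C)
    by_cases hr12 : r 1 = 2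
    · obtain ⟨u, v, hu, hv, huv, hu1, hv1, hZ⟩ := edge94 t0 (H 1) (le_of_inter94 (by omega)) (V 2)
      have hc1 := cmiss94 (V := V 1) hu1 hv1
      rcases hZ with hZ | hZ
      · obtain ⟨u', v', hu', hv', huv', hu1', hv1', -⟩ := edge94 t2 ({u, v} ∪ H 1)
          (by have := cardC94 (u := u) (v := v) (Z := V 2) (R := H 1); omega) ∅
        obtain ⟨e1, e2⟩ := notpair94 hu1'
        obtain ⟨e3, e4⟩ := notpair94 hv1'
        have hc1' := cmiss94 (V := V 1) e2 e4
        refine two u v u' v' (s0 hu) (s0 hv) huv (s2 hu') (s2 hv') huv' e1 e3 (fin3_94 ?_ ?_ ?_)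
        · have := k0 {u', v'}
          rw [cin94 hu hv huv.ne]; omega
        · omega
        · rw [cin94 hu' hv' huv'.ne, cin94 hZ.1 hZ.2 huv.ne]; omega
      · have hτ : Tau T (V 2 \ ({u, v} ∪ H 1)) 2 := t2.sdiff ({u, v} ∪ H 1)
          (by have := cardA94 (v := v) (R := H 1) hZ; omega)
        have hA : Ach T V H (S \ {u, v}) (fun i => if i = 2 then 2 else 0) := by
          refine hτ.ach2 (by simp) 2 le_rfl ?_ Finset.sdiff_subset ?_
          · intro y hy
            rw [Finset.mem_sdiff] at hy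
            exact Finset.mem_sdiff.2 ⟨s2 hy.1, (notpair94 hy.2).1⟩
          · refine fin3_94 ?_ ?_ ?_
            · intro _
              rw [hH0]
              exact Finset.disjoint_empty_right _
            · intro _
              rw [Finset.disjoint_left]
              intro y hy
              rw [Finset.mem_sdiff] at hy
              exact (notpair94 hy.2).2
            · intro hh
              exact absurd rfl hh
        refine Ach.pair (by simp) (s0 hu) (s0 hv) huv hA (fin3_94 ?_ ?_ ?_)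
        · rw [cin94 hu hv huv.ne, if_neg (by decide)]; omega
        · rw [if_neg (by decide)]; omega
        · have := k2' {u, v}
          rw [if_pos rfl]; omega
    · by_cases hr11 : r 1 = 1
      · obtain ⟨u, v, hu, hv, huv, hu1, hv1, hZ⟩ := edge94 t0 (H 1) (le_of_inter94 (by omega)) (V 2)
        have hc1 := cmiss94 (V := V 1) hu1 hv1
        rcases hZ with hZ | hZ
        · obtain ⟨u', v', hu', hv', huv', hu1', hv1', -⟩ := edge94 t2 ({u, v} ∪ ∅)
            (by have := cardC94 (u := u) (v := v) (Z := V 2) (R := ∅); rw [Finset.card_empty] at this; omega) ∅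
          obtain ⟨e1, -⟩ := notpair94 hu1'
          obtain ⟨e3, -⟩ := notpair94 hv1'
          refine two u v u' v' (s0 hu) (s0 hv) huv (s2 hu') (s2 hv') huv' e1 e3 (fin3_94 ?_ ?_ ?_)
          · have := k0 {u', v'}
            rw [cin94 hu hv huv.ne]; omega
          · have := k1 {u', v'}; omega
          · rw [cin94 hu' hv' huv'.ne, cin94 hZ.1 hZ.2 huv.ne]; omega
        · obtain ⟨u', v', hu', hv', huv', hu1', hv1', -⟩ := edge94 t2 ({u, v} ∪ H 1)
            (by have := cardA94 (v := v) (R := H 1) hZ; omega) ∅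
          obtain ⟨e1, e2⟩ := notpair94 hu1'
          obtain ⟨e3, e4⟩ := notpair94 hv1'
          have hc1' := cmiss94 (V := V 1) e2 e4
          obtain ⟨u2, v2, hu2, hv2, huv2, hu2', hv2', -⟩ := edge94 t2 ({u, v} ∪ {u', v'})
            (by have := cardA94 (v := v) (R := {u', v'}) hZ; rw [Finset.card_pair huv'.ne] at this; omega) ∅
          obtain ⟨f1, f2⟩ := notpair94 hu2'
          obtain ⟨f3, f4⟩ := notpair94 hv2'
          refine three u v u' v' u2 v2 (s0 hu) (s0 hv) huv (s2 hu') (s2 hv') huv' e1 e3 (s2 hu2) (s2 hv2)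
            huv2 f1 f3 f2 f4 (fin3_94 ?_ ?_ ?_)
          · have a1 := k0 {u', v'}
            have a2 := k0 {u2, v2}
            rw [cin94 hu hv huv.ne]; omega
          · have a2 := k1 {u2, v2}
            omega
          · have := k2' {u, v}
            rw [cin94 hu' hv' huv'.ne, cin94 hu2 hv2 huv2.ne]; omega
      · have hr10 : r 1 = 0 := by omega
        obtain ⟨u, v, hu, hv, huv, -, -, hZ⟩ := edge94 t0 ∅ (by simp) (V 2)
        rcases hZ with hZ | hZ
        · obtain ⟨u', v', hu', hv', huv', hu1', hv1', -⟩ := edge94 t2 ({u, v} ∪ ∅)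
            (by have := cardC94 (u := u) (v := v) (Z := V 2) (R := ∅); rw [Finset.card_empty] at this; omega) ∅
          obtain ⟨e1, -⟩ := notpair94 hu1'
          obtain ⟨e3, -⟩ := notpair94 hv1'
          refine two u v u' v' (s0 hu) (s0 hv) huv (s2 hu') (s2 hv') huv' e1 e3 (fin3_94 ?_ ?_ ?_)
          · have := k0 {u', v'}
            rw [cin94 hu hv huv.ne]; omega
          · have a1 := k1 {u', v'}
            have a2 := k1 {u, v}
            omega
          · rw [cin94 hu' hv' huv'.ne, cin94 hZ.1 hZ.2 huv.ne]; omega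
        · by_cases hm : u ∈ H 1 ∨ v ∈ H 1
          · obtain ⟨u', v', hu', hv', huv', hu1', hv1', -⟩ := edge94 t2 ({u, v} ∪ H 1)
              (by have := cardB94 (v := v) (R := H 1) hZ hm; omega) ∅
            obtain ⟨e1, e2⟩ := notpair94 hu1'
            obtain ⟨e3, e4⟩ := notpair94 hv1'
            have hc1' := cmiss94 (V := V 1) e2 e4
            obtain ⟨u2, v2, hu2, hv2, huv2, hu2', hv2', -⟩ := edge94 t2 ({u, v} ∪ {u', v'})
              (by have := cardA94 (v := v) (R := {u', v'}) hZ; rw [Finset.card_pair huv'.ne] at this; omega) ∅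
            obtain ⟨f1, f2⟩ := notpair94 hu2'
            obtain ⟨f3, f4⟩ := notpair94 hv2'
            refine three u v u' v' u2 v2 (s0 hu) (s0 hv) huv (s2 hu') (s2 hv') huv' e1 e3 (s2 hu2) (s2 hv2)
              huv2 f1 f3 f2 f4 (fin3_94 ?_ ?_ ?_)
            · have a1 := k0 {u', v'}
              have a2 := k0 {u2, v2}
              rw [cin94 hu hv huv.ne]; omega
            · have a2 := k1 {u2, v2}
              have a3 := k1 {u, v}
              omega
            · have := k2' {u, v}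
              rw [cin94 hu' hv' huv'.ne, cin94 hu2 hv2 huv2.ne]; omega
          · have hc1 : 0 ≤ ctr (V 1) (H 1) {u, v} True :=
              cmiss94 (fun hh => hm (Or.inl hh)) (fun hh => hm (Or.inr hh))
            obtain ⟨u', v', hu', hv', huv', hu1', hv1', -⟩ := edge94 t2 ({u, v} ∪ ∅)
              (by have := cardA94 (v := v) (R := ∅) hZ; rw [Finset.card_empty] at this; omega) ∅
            obtain ⟨e1, -⟩ := notpair94 hu1'
            obtain ⟨e3, -⟩ := notpair94 hv1'
            obtain ⟨u2, v2, hu2, hv2, huv2, hu2', hv2', -⟩ := edge94 t2 ({u, v} ∪ {u', v'})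
              (by have := cardA94 (v := v) (R := {u', v'}) hZ; rw [Finset.card_pair huv'.ne] at this; omega) ∅
            obtain ⟨f1, f2⟩ := notpair94 hu2'
            obtain ⟨f3, f4⟩ := notpair94 hv2'
            refine three u v u' v' u2 v2 (s0 hu) (s0 hv) huv (s2 hu') (s2 hv') huv' e1 e3 (s2 hu2) (s2 hv2)
              huv2 f1 f3 f2 f4 (fin3_94 ?_ ?_ ?_)
            · have a1 := k0 {u', v'}
              have a2 := k0 {u2, v2}
              rw [cin94 hu hv huv.ne]; omega
            · have a2 := k1 {u2, v2}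
              have a3 := k1 {u', v'}
              omega
            · have := k2' {u, v}
              rw [cin94 hu' hv' huv'.ne, cin94 hu2 hv2 huv2.ne]; omega

end Pool.Agent.Helper33.RG
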