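import Pool.Agent.Helper33.RG.HL1

/-!
# Block RG-HL45a: hub lemma, two indices, `n = (4, 5)`, first cases (MP_1f20e3_co)

Index 0: `n = 4`, index 1: `n = 5`. We need total contributions `≥ r i - 2`. A 'hit' of `i` is a class avoiding `V i` and meeting `H i` (contribution `-1`; every other
merged class contributes `≥ 0`). 'Two savings in R': `Tau.two`: two disjoint edges or a triangle.

`hub45_small0` (`r 0 ≤ 1`).
`r 0 = 0` (`|H 0| ≤ 4`, two hits allowed): `r 1 ≤ 4`: `gl`: `Sav T (V 1) (r 1 - 2)` with at most two classes: for `r 1 = 4` use `Tau.two` in `V 1` (one or two classes), for `r 1 = 3` one edge, for `r 1 ≤ 2` nothing.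
`r 1 = 5` (`H 1 = ∅`): an edge `e` in `V 1` avoiding `H 0` (`Tau.edge_avoid`), then `τ(V 1 \ e) ≥ 3`: `Tau.two` there; three classes at most, the first is not a hit.
`r 0 = 1` (`|H 0| ≤ 3`, one hit allowed): `r 1 = 5`: `τ(V 1 \ H 0) ≥ 2`: `Tau.two` there, then another edge of `V 1` in the rest (`τ ≥ 1`); only the last one can be a hit. `r 1 = 4`: an edge in `V 1` avoiding `H 0`, another edge in the rest
(`τ ≥ 2`). `r 1 = 3`: one edge in `V 1`. `r 1 ≤ 2`: nothing. All classes are in `V 1`, so there are no hits of 1.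

`hub45_small1` (`r 1 ≤ 1`).
`r 1 = 0` (`|H 1| ≤ 5`, two hits allowed): at most two classes in `V 0` with savings `r 0 - 2 ≤ 2` (`Tau.two`).
`r 1 = 1` (`|H 1| ≤ 4`, one hit allowed): `r 0 ≤ 2` nothing, `r 0 = 3`: one edge in `V 0`. `r 0 = 4` (`H 0 = ∅`): if `V 0` contains a triangle: this class. Else if `T[V 0]` has an edge avoiding `H 1`: it and another edge of `V 0` in the
rest (`τ ≥ 2`). Else `H 1` covers `T[V 0]`. Let `K = {u,v}` be an edge in `V 1` (it misses `H 1`): contribution `1` to the index 1 and `≥ 0` to the index 0 (`H 0 = ∅`). `τ(V 0 \ K) ≥ 2`: `Tau.two` there: two savings for 0, at most two hits of 1: total `≥ 1 - 2`.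
-/

set_option autoImplicit false

namespace Pool.Agent.Helper33.RG

variable {α : Type} [DecidableEq α]

section helpers6

variable {T : SimpleGraph α} {V H : Fin 2 → Finset α} {S R : Finset α}

/-- A class `{u, v} ⊆ V i₀`. -/
lemma pairA6 (i₀ : Fin 2) {x x' : Fin 2 → ℤ} {u v : α} (hu : u ∈ V i₀) (hv : v ∈ V i₀)
    (huS : u ∈ S) (hvS : v ∈ S) (huv : T.Adj u v) (h : Ach T V H (S \ {u, v}) x')
    (h0 : x i₀ ≤ x' i₀ + 1) (h1 : ∀ j, j ≠ i₀ → x j ≤ x' j - 1) : Ach T V H S x := by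
  refine Ach.pair (by simp) huS hvS huv h fun i => ?_
  by_cases hi : i = i₀
  · subst hi
    have hsub : ({u, v} : Finset α) ⊆ V i := by
      intro y hy
      rw [Finset.mem_insert, Finset.mem_singleton] at hy
      rcases hy with rfl | rfl
      · exact hu
      · exact hv
    rw [ctr_sub hsub ⟨u, by simp⟩, Finset.card_pair huv.ne]
    push_cast
    linarith
  · have h2 := neg_one_le_ctr (V i) (H i) {u, v}
    have h3 := h1 i hi
    linarith

/-- A class `{u, v} ⊆ V i₀` which misses the other `H j`. -/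
lemma pairB6 (i₀ : Fin 2) {x x' : Fin 2 → ℤ} {u v : α} (hu : u ∈ V i₀) (hv : v ∈ V i₀)
    (huS : u ∈ S) (hvS : v ∈ S) (huv : T.Adj u v) (h : Ach T V H (S \ {u, v}) x')
    (h0 : x i₀ ≤ x' i₀ + 1) (h1 : ∀ j, j ≠ i₀ → x j ≤ x' j)
    (hd : ∀ j, j ≠ i₀ → u ∉ H j ∧ v ∉ H j) : Ach T V H S x := by
  refine Ach.pair (by simp) huS hvS huv h fun i => ?_
  by_cases hi : i = i₀
  · subst hi
    have hsub : ({u, v} : Finset α) ⊆ V i := by
      intro y hy
      rw [Finset.mem_insert, Finset.mem_singleton] at hy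
      rcases hy with rfl | rfl
      · exact hu
      · exact hv
    rw [ctr_sub hsub ⟨u, by simp⟩, Finset.card_pair huv.ne]
    push_cast
    linarith
  · have hdj : Disjoint ({u, v} : Finset α) (H i) := by
      rw [Finset.disjoint_insert_left, Finset.disjoint_singleton_left]
      exact hd i hi
    have h2 := ctr_nonneg_of_disj (V := V i) (H := H i) True hdj
    have h3 := h1 i hi
    linarith

/-- A class `{u, v, w} ⊆ V i₀`. -/
lemma tripA6 (i₀ : Fin 2) {x x' : Fin 2 → ℤ} {u v w : α} (hu : u ∈ V i₀) (hv : v ∈ V i₀)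
    (hw : w ∈ V i₀) (huS : u ∈ S) (hvS : v ∈ S) (hwS : w ∈ S) (huv : T.Adj u v)
    (huw : T.Adj u w) (hvw : T.Adj v w) (h : Ach T V H (S \ {u, v, w}) x')
    (h0 : x i₀ ≤ x' i₀ + 2) (h1 : ∀ j, j ≠ i₀ → x j ≤ x' j - 1) : Ach T V H S x := by
  refine Ach.triple (cl := Finset.univ) (by simp) huS hvS hwS huv huw hvw h fun i => ?_
  simp only [Finset.mem_univ]
  by_cases hi : i = i₀
  · subst hi
    have hsub : ({u, v, w} : Finset α) ⊆ V i := by
      intro y hy
      simp only [Finset.mem_insert, Finset.mem_singleton] at hy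
      rcases hy with rfl | rfl | rfl
      · exact hu
      · exact hv
      · exact hw
    have hcard : ({u, v, w} : Finset α).card = 3 := by
      rw [Finset.card_insert_of_notMem, Finset.card_pair hvw.ne]
      simp [huv.ne, huw.ne]
    have h2 := ctr_sub (V := V i) (H := H i) hsub ⟨u, by simp⟩
    rw [hcard] at h2
    push_cast at h2
    linarith
  · have h2 := neg_one_le_ctr (V i) (H i) {u, v, w}
    have h3 := h1 i hi
    linarith

/-- A class `{u, v, w} ⊆ V i₀` which misses the other `H j`. -/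
lemma tripB6 (i₀ : Fin 2) {x x' : Fin 2 → ℤ} {u v w : α} (hu : u ∈ V i₀) (hv : v ∈ V i₀)
    (hw : w ∈ V i₀) (huS : u ∈ S) (hvS : v ∈ S) (hwS : w ∈ S) (huv : T.Adj u v)
    (huw : T.Adj u w) (hvw : T.Adj v w) (h : Ach T V H (S \ {u, v, w}) x')
    (h0 : x i₀ ≤ x' i₀ + 2) (h1 : ∀ j, j ≠ i₀ → x j ≤ x' j)
    (hd : ∀ j, j ≠ i₀ → u ∉ H j ∧ v ∉ H j ∧ w ∉ H j) : Ach T V H S x := by
  refine Ach.triple (cl := Finset.univ) (by simp) huS hvS hwS huv huw hvw h fun i => ?_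
  simp only [Finset.mem_univ]
  by_cases hi : i = i₀
  · subst hi
    have hsub : ({u, v, w} : Finset α) ⊆ V i := by
      intro y hy
      simp only [Finset.mem_insert, Finset.mem_singleton] at hy
      rcases hy with rfl | rfl | rfl
      · exact hu
      · exact hv
      · exact hw
    have hcard : ({u, v, w} : Finset α).card = 3 := by
      rw [Finset.card_insert_of_notMem, Finset.card_pair hvw.ne]
      simp [huv.ne, huw.ne]
    have h2 := ctr_sub (V := V i) (H := H i) hsub ⟨u, by simp⟩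
    rw [hcard] at h2
    push_cast at h2
    linarith
  · have hdj : Disjoint ({u, v, w} : Finset α) (H i) := by
      rw [Finset.disjoint_insert_left, Finset.disjoint_insert_left, Finset.disjoint_singleton_left]
      exact hd i hi
    have h2 := ctr_nonneg_of_disj (V := V i) (H := H i) True hdj
    have h3 := h1 i hi
    linarith

/-- One edge in `V i₀`. -/
lemma oneA6 (i₀ : Fin 2) {k : ℕ} (h : Tau T R k) (hk : 1 ≤ k) (hRS : R ⊆ S) (hRV : R ⊆ V i₀)
    {x : Fin 2 → ℤ} (h0 : x i₀ ≤ 1) (h1 : ∀ j, j ≠ i₀ → x j ≤ -1) : Ach T V H S x := by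
  obtain ⟨u, hu, v, hv, huv⟩ := h.edge hk
  exact pairA6 i₀ (hRV hu) (hRV hv) (hRS hu) (hRS hv) huv
    (Ach.nil _ (fun _ => 0) fun _ => le_rfl) (by linarith) (fun j hj => by linarith [h1 j hj])

/-- Two savings for `i₀` with at most two hits. -/
lemma twoA6 (i₀ : Fin 2) {k : ℕ} (h : Tau T R k) (hk : 2 ≤ k) (hRS : R ⊆ S) (hRV : R ⊆ V i₀)
    {x : Fin 2 → ℤ} (h0 : x i₀ ≤ 2) (h1 : ∀ j, j ≠ i₀ → x j ≤ -2) : Ach T V H S x := by
  rcases h.two hk with ⟨u, v, u', v', hu, hv, huv, hu', hv', h'⟩ | ⟨u, v, w, hu, hv, hw, e1, e2, e3⟩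
  · have hu2 : u' ∈ R := (Finset.mem_sdiff.1 hu').1
    have hv2 : v' ∈ R := (Finset.mem_sdiff.1 hv').1
    refine pairA6 i₀ (hRV hu) (hRV hv) (hRS hu) (hRS hv) huv
      (x' := fun j => if j = i₀ then 1 else -1) ?_ (by simp only [if_pos]; linarith)
      (fun j hj => by simp only [if_neg hj]; linarith [h1 j hj])
    refine pairA6 i₀ (hRV hu2) (hRV hv2) ?_ ?_ h' (Ach.nil _ (fun _ => 0) fun _ => le_rfl)
      (by simp) (fun j hj => by simp only [if_neg hj]; norm_num)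
    · exact Finset.mem_sdiff.2 ⟨hRS hu2, (Finset.mem_sdiff.1 hu').2⟩
    · exact Finset.mem_sdiff.2 ⟨hRS hv2, (Finset.mem_sdiff.1 hv').2⟩
  · exact tripA6 i₀ (hRV hu) (hRV hv) (hRV hw) (hRS hu) (hRS hv) (hRS hw) e1 e2 e3
      (Ach.nil _ (fun _ => 0) fun _ => le_rfl) (by linarith) (fun j hj => by linarith [h1 j hj])

lemma fin2_ne0 {P : Fin 2 → Prop} (h : P 1) : ∀ j, j ≠ 0 → P j := by
  intro j hj
  have : j = 1 := by omega
  rw [this]
  exact h

lemma fin2_ne1 {P : Fin 2 → Prop} (h : P 0) : ∀ j, j ≠ 1 → P j := by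
  intro j hj
  have : j = 0 := by omega
  rw [this]
  exact h

end helpers6

theorem hub45_small0 {T : SimpleGraph α} {V H : Fin 2 → Finset α} {S : Finset α} {r n : Fin 2 → ℕ}
    (h : HubHyp T V H S r n) (h0 : n 0 ≤ 4) (h1 : n 1 ≤ 5) (hr : r 0 ≤ 1) :
    Ach T V H S (fun i => (r i : ℤ) - 2) := by
  have c0 := h.card 0
  have c1 := h.card 1
  have t1 := h.tau 1
  have s1 := h.sub 1
  have hr1 : r 1 ≤ 5 := by omega
  have h34 : (r 1 ≤ 2) ∨ r 1 = 3 ∨ r 1 = 4 ∨ r 1 = 5 := by omega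
  rcases h34 with h2 | h3 | h4 | h5
  · refine Ach.nil _ _ fun i => ?_
    fin_cases i
    · show ((r 0 : ℤ) - 2) ≤ 0
      omega
    · show ((r 1 : ℤ) - 2) ≤ 0
      omega
  · exact oneA6 1 t1 (by omega) s1 subset_rfl (by show ((r 1 : ℤ) - 2) ≤ 1; omega)
      (fin2_ne1 (by show ((r 0 : ℤ) - 2) ≤ -1; omega))
  · rcases (by omega : r 0 = 0 ∨ r 0 = 1) with hr0 | hr0
    · exact twoA6 1 t1 (by omega) s1 subset_rfl (by show ((r 1 : ℤ) - 2) ≤ 2; omega)
        (fin2_ne1 (by show ((r 0 : ℤ) - 2) ≤ -2; omega))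
    · -- an edge avoiding `H 0`
      obtain ⟨u, hu, v, hv, huv, hu0, hv0⟩ := t1.edge_avoid (H 0) (by omega)
      refine pairB6 1 hu hv (s1 hu) (s1 hv) huv (x' := fun j => if j = 1 then 1 else -1) ?_
        (by show ((r 1 : ℤ) - 2) ≤ 1 + 1; omega)
        (fin2_ne1 (by show ((r 0 : ℤ) - 2) ≤ -1; omega)) (fin2_ne1 ⟨hu0, hv0⟩)
      have t2 : Tau T (V 1 \ {u, v}) 2 := t1.sdiff' {u, v} (by rw [Finset.card_pair huv.ne]; omega)
      exact oneA6 1 t2 (by omega) (Finset.sdiff_subset_sdiff s1 subset_rfl)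
        Finset.sdiff_subset (by show (1 : ℤ) ≤ 1; norm_num)
        (fin2_ne1 (by show (-1 : ℤ) ≤ -1; norm_num))
  · rcases (by omega : r 0 = 0 ∨ r 0 = 1) with hr0 | hr0
    · obtain ⟨u, hu, v, hv, huv, hu0, hv0⟩ := t1.edge_avoid (H 0) (by omega)
      refine pairB6 1 hu hv (s1 hu) (s1 hv) huv (x' := fun j => if j = 1 then 2 else -2) ?_
        (by show ((r 1 : ℤ) - 2) ≤ 2 + 1; omega)
        (fin2_ne1 (by show ((r 0 : ℤ) - 2) ≤ -2; omega)) (fin2_ne1 ⟨hu0, hv0⟩)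
      have t2 : Tau T (V 1 \ {u, v}) 3 := t1.sdiff' {u, v} (by rw [Finset.card_pair huv.ne]; omega)
      exact twoA6 1 t2 (by omega) (Finset.sdiff_subset_sdiff s1 subset_rfl)
        Finset.sdiff_subset (by show (2 : ℤ) ≤ 2; norm_num)
        (fin2_ne1 (by show (-2 : ℤ) ≤ -2; norm_num))
    · have tR : Tau T (V 1 \ H 0) 2 := t1.sdiff' (H 0) (by omega)
      have hR1 : V 1 \ H 0 ⊆ V 1 := Finset.sdiff_subset
      rcases tR.two le_rfl with ⟨u, v, u', v', hu, hv, huv, hu', hv', h'⟩ |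
        ⟨u, v, w, hu, hv, hw, e1, e2, e3⟩
      · have hu2 : u' ∈ V 1 \ H 0 := (Finset.mem_sdiff.1 hu').1
        have hv2 : v' ∈ V 1 \ H 0 := (Finset.mem_sdiff.1 hv').1
        refine pairB6 1 (hR1 hu) (hR1 hv) (s1 (hR1 hu)) (s1 (hR1 hv)) huv
          (x' := fun j => if j = 1 then 2 else -1) ?_
          (by show ((r 1 : ℤ) - 2) ≤ 2 + 1; omega)
          (fin2_ne1 (by show ((r 0 : ℤ) - 2) ≤ -1; omega))
          (fin2_ne1 ⟨(Finset.mem_sdiff.1 hu).2, (Finset.mem_sdiff.1 hv).2⟩)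
        refine pairB6 1 (hR1 hu2) (hR1 hv2)
          (Finset.mem_sdiff.2 ⟨s1 (hR1 hu2), (Finset.mem_sdiff.1 hu').2⟩)
          (Finset.mem_sdiff.2 ⟨s1 (hR1 hv2), (Finset.mem_sdiff.1 hv').2⟩) h'
          (x' := fun j => if j = 1 then 1 else -1) ?_
          (by show (2 : ℤ) ≤ 1 + 1; norm_num)
          (fin2_ne1 (by show (-1 : ℤ) ≤ -1; norm_num))
          (fin2_ne1 ⟨(Finset.mem_sdiff.1 hu2).2, (Finset.mem_sdiff.1 hv2).2⟩)
        have t2 : Tau T (V 1 \ {u, v}) 3 :=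
          t1.sdiff' {u, v} (by rw [Finset.card_pair huv.ne]; omega)
        have t3 : Tau T ((V 1 \ {u, v}) \ {u', v'}) 1 :=
          t2.sdiff' {u', v'} (by rw [Finset.card_pair h'.ne])
        exact oneA6 1 t3 le_rfl
          (Finset.sdiff_subset_sdiff (Finset.sdiff_subset_sdiff s1 subset_rfl) subset_rfl)
          (Finset.sdiff_subset.trans Finset.sdiff_subset) (by show (1 : ℤ) ≤ 1; norm_num)
          (fin2_ne1 (by show (-1 : ℤ) ≤ -1; norm_num))
      · refine tripB6 1 (hR1 hu) (hR1 hv) (hR1 hw) (s1 (hR1 hu)) (s1 (hR1 hv)) (s1 (hR1 hw))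
          e1 e2 e3 (x' := fun j => if j = 1 then 1 else -1) ?_
          (by show ((r 1 : ℤ) - 2) ≤ 1 + 2; omega)
          (fin2_ne1 (by show ((r 0 : ℤ) - 2) ≤ -1; omega))
          (fin2_ne1 ⟨(Finset.mem_sdiff.1 hu).2, (Finset.mem_sdiff.1 hv).2,
            (Finset.mem_sdiff.1 hw).2⟩)
        have hcard : ({u, v, w} : Finset α).card ≤ 3 := Finset.card_le_three
        have t2 : Tau T (V 1 \ {u, v, w}) 2 := t1.sdiff' {u, v, w} (by omega)
        exact oneA6 1 t2 (by omega) (Finset.sdiff_subset_sdiff s1 subset_rfl)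
          Finset.sdiff_subset (by show (1 : ℤ) ≤ 1; norm_num)
          (fin2_ne1 (by show (-1 : ℤ) ≤ -1; norm_num))

theorem hub45_small1 {T : SimpleGraph α} {V H : Fin 2 → Finset α} {S : Finset α} {r n : Fin 2 → ℕ}
    (h : HubHyp T V H S r n) (h0 : n 0 ≤ 4) (h1 : n 1 ≤ 5) (hr : r 1 ≤ 1) :
    Ach T V H S (fun i => (r i : ℤ) - 2) := by
  have c0 := h.card 0
  have c1 := h.card 1
  have t0 := h.tau 0
  have s0 := h.sub 0
  have h34 : (r 0 ≤ 2) ∨ r 0 = 3 ∨ r 0 = 4 := by omega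
  rcases h34 with h2 | h3 | h4
  · refine Ach.nil _ _ fun i => ?_
    fin_cases i
    · show ((r 0 : ℤ) - 2) ≤ 0
      omega
    · show ((r 1 : ℤ) - 2) ≤ 0
      omega
  · exact oneA6 0 t0 (by omega) s0 subset_rfl (by show ((r 0 : ℤ) - 2) ≤ 1; omega)
      (fin2_ne0 (by show ((r 1 : ℤ) - 2) ≤ -1; omega))
  · rcases (by omega : r 1 = 0 ∨ r 1 = 1) with hr1 | hr1
    · exact twoA6 0 t0 (by omega) s0 subset_rfl (by show ((r 0 : ℤ) - 2) ≤ 2; omega)
        (fin2_ne0 (by show ((r 1 : ℤ) - 2) ≤ -2; omega))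
    · -- an edge in `V 1`
      have hH0 : H 0 = ∅ := Finset.card_eq_zero.1 (by omega)
      obtain ⟨u, hu, v, hv, huv⟩ := (h.tau 1).edge (by omega)
      refine pairB6 1 hu hv (h.sub 1 hu) (h.sub 1 hv) huv
        (x' := fun j => if j = 0 then 2 else -2) ?_
        (by show ((r 1 : ℤ) - 2) ≤ -2 + 1; omega)
        (fin2_ne1 (by show ((r 0 : ℤ) - 2) ≤ 2; omega))
        (fin2_ne1 (by rw [hH0]; exact ⟨Finset.notMem_empty _, Finset.notMem_empty _⟩))
      have t2 : Tau T (V 0 \ {u, v}) 2 := t0.sdiff' {u, v} (by rw [Finset.card_pair huv.ne]; omega)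
      exact twoA6 0 t2 le_rfl (Finset.sdiff_subset_sdiff s0 subset_rfl)
        Finset.sdiff_subset (by show (2 : ℤ) ≤ 2; norm_num)
        (fin2_ne0 (by show (-2 : ℤ) ≤ -2; norm_num))

end Pool.Agent.Helper33.RG
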