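import Pool.Agent.Helper33.RG.HL1

/-!
# Block RG-HL45b: hub lemma, two indices, `n = (4, 5)`, `r 0 = 2` and `r 0 = 3` (MP_1f20e3_co)

Index 0: `n = 4`, index 1: `n = 5`. We need total contributions `≥ r i - 2`. A 'hit' of `i` is a class avoiding `V i` and meeting `H i` (contribution `-1`; every other
merged class contributes `≥ 0`).

`hub45_two` (`r 0 = 2`, `|H 0| ≤ 2`, need `≥ 0` for the index 0). `r 1 ≤ 2`: no classes. `r 1 = 3`: an edge in `V 1 \ H 0` (`τ ≥ 1`; no hits, as it is in `V 1` and misses `H 0`). `r 1 = 4`: `τ(V 1 \ H 0) ≥ 2`: `Tau.ach2`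
(or `Sav.ach`). `r 1 = 5` (`H 1 = ∅`): `K = {u,v}` an edge in `V 0`, so one hit of 0 is allowed.
 `K ⊆ V 1`: contribution 1; an edge `e` in `V 1 \ K \ H 0` (`τ ≥ 5 - 2 - 2`), another edge in `V 1 \ K \ e` (`τ ≥ 1`): total 3, only the last one can be a hit.
 `|K ∩ V 1| ≤ 1`: `lemY` for `V 1 \ K` (`τ ≥ 4`) and `H 0`: savings 3, at most one of the classes meets `H 0`.

`hub45_three` (`r 0 = 3`, `|H 0| ≤ 1`, need `≥ 1` for the index 0).
`r 1 ≤ 2` (`|H 1| ≤ 5 - r 1`). `r 1 ≤ 1` is covered by `hub45_small1`, here only `r 1 = 2` (`|H 1| ≤ 3`, need 0): if there is an edge `K` in `V 0` which misses `H 1` or meets `V 1`: this class. Else all edges of `T[V 0]` avoid `V 1`; `K` an edge in `V 0` (one hit of 1) and an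
edge `K'` in `V 1 \ H 0` (`τ ≥ 1`; disjoint from `K` as `K` avoids `V 1`), it contributes 1 to the index 1 and `≥ 0` to 0.
`r 1 = 3` (`|H 1| ≤ 2`, need 1): `K` an edge in `V 0 \ H 1`. `K ⊆ V 1`: done. Else `K'` an edge in `V 1 \ K \ H 0` (`τ ≥ 3 - 1 - 1`).
`r 1 = 4` (`|H 1| ≤ 1`, need 2): `K` an edge in `V 0 \ H 1`. `K ⊆ V 1`: an edge in `V 1 \ K \ H 0` (`τ ≥ 1`). Else `τ(V 1 \ K \ H 0) ≥ 2`: two savings (`Tau.ach2`).
`r 1 = 5` (`H 1 = ∅`, need 3): if some edge `K` of `T[V 0]` is in `V 1`: `τ(V 1 \ K \ H 0) ≥ 2`, two savings. If some edge `K` of `T[V 0]` misses `V 1`: `τ(V 1 \ H 0) ≥ 4`, `gl`: three savings. Else every edge of `T[V 0]` has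
exactly one end in `V 1`. There are two edges in `V 0` with different ends `a ≠ a'` in `V 1` (else `{a}` covers `T[V 0]`, but `τ ≥ 3`). `a`, `a'` are not adjacent (an edge of `T[V 0]` in `V 1`). `z1` for `V 1 \ H 0` (`τ ≥ 4`): say
`Sav T ((V 1 \ H 0) \ {a}) 3`; classes: the edge `K` at `a` (`K ∩ V 1 = {a}`) and these.
-/

set_option autoImplicit false

namespace Pool.Agent.Helper33.RG

variable {α : Type} [DecidableEq α]

private lemma edge2_88 {T : SimpleGraph α} {V H : Fin 2 → Finset α} {S : Finset α} {u v : α}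
    (hu : u ∈ S) (hv : v ∈ S) (huv : T.Adj u v) {p q p' q' d e : ℤ}
    (h : Ach T V H (S \ {u, v}) ![p', q']) (hd : d ≤ ctr (V 0) (H 0) {u, v} True)
    (he : e ≤ ctr (V 1) (H 1) {u, v} True) (hp : p ≤ p' + d) (hq : q ≤ q' + e) :
    Ach T V H S ![p, q] := by
  refine Ach.pair (by simp) hu hv huv h ?_
  rw [Fin.forall_fin_two]
  constructor
  · simp only [Matrix.cons_val_zero]
    omega
  · simp only [Matrix.cons_val_one, Matrix.cons_val_fin_one]
    omega

private lemma tri2_88 {T : SimpleGraph α} {V H : Fin 2 → Finset α} {S : Finset α} {u v w : α}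
    (hu : u ∈ S) (hv : v ∈ S) (hw : w ∈ S) (huv : T.Adj u v) (huw : T.Adj u w) (hvw : T.Adj v w)
    {p q p' q' d e : ℤ}
    (h : Ach T V H (S \ {u, v, w}) ![p', q']) (hd : d ≤ ctr (V 0) (H 0) {u, v, w} True)
    (he : e ≤ ctr (V 1) (H 1) {u, v, w} True) (hp : p ≤ p' + d) (hq : q ≤ q' + e) :
    Ach T V H S ![p, q] := by
  refine Ach.triple (cl := Finset.univ) (by simp) hu hv hw huv huw hvw h ?_
  rw [Fin.forall_fin_two]
  constructor
  · simp only [Matrix.cons_val_zero, Finset.mem_univ]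
    omega
  · simp only [Matrix.cons_val_one, Matrix.cons_val_fin_one, Finset.mem_univ]
    omega

private lemma nil_88 {T : SimpleGraph α} {V H : Fin 2 → Finset α} {S : Finset α} {p q : ℤ}
    (hp : p ≤ 0) (hq : q ≤ 0) : Ach T V H S ![p, q] := by
  refine Ach.nil _ _ ?_
  rw [Fin.forall_fin_two]
  exact ⟨hp, hq⟩

private lemma psub_88 {u v : α} {R : Finset α} (hu : u ∈ R) (hv : v ∈ R) :
    ({u, v} : Finset α) ⊆ R := by
  intro y hy
  rw [Finset.mem_insert, Finset.mem_singleton] at hy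
  rcases hy with rfl | rfl
  · exact hu
  · exact hv

private lemma tsub_88 {u v w : α} {R : Finset α} (hu : u ∈ R) (hv : v ∈ R) (hw : w ∈ R) :
    ({u, v, w} : Finset α) ⊆ R := by
  intro y hy
  simp only [Finset.mem_insert, Finset.mem_singleton] at hy
  rcases hy with rfl | rfl | rfl
  · exact hu
  · exact hv
  · exact hw

private lemma one_88 {V H : Finset α} {u v : α} (hu : u ∈ V) (hv : v ∈ V) (huv : u ≠ v) :
    (1 : ℤ) ≤ ctr V H {u, v} True := by
  rw [ctr_sub (psub_88 hu hv) ⟨u, by simp⟩, Finset.card_pair huv]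
  norm_num

private lemma two_88 {V H : Finset α} {u v w : α} (hu : u ∈ V) (hv : v ∈ V) (hw : w ∈ V)
    (huv : u ≠ v) (huw : u ≠ w) (hvw : v ≠ w) :
    (2 : ℤ) ≤ ctr V H {u, v, w} True := by
  have hcard : ({u, v, w} : Finset α).card = 3 := by
    rw [Finset.card_insert_of_notMem, Finset.card_pair hvw]
    simp [huv, huw]
  rw [ctr_sub (tsub_88 hu hv hw) ⟨u, by simp⟩, hcard]
  norm_num

private lemma out_88 {V H : Finset α} {u v : α} (hu : u ∉ H) (hv : v ∉ H) :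
    (0 : ℤ) ≤ ctr V H {u, v} True := by
  apply ctr_nonneg_of_disj
  rw [Finset.disjoint_left]
  intro y hy hyH
  rw [Finset.mem_insert, Finset.mem_singleton] at hy
  rcases hy with rfl | rfl
  · exact hu hyH
  · exact hv hyH

/-- Savings in `R ⊆ V 1`, `R` disjoint from `H 0`. -/
private lemma sav_88 {T : SimpleGraph α} {V H : Fin 2 → Finset α} {S R : Finset α} {k : ℕ}
    (h : Sav T R k) (hRS : R ⊆ S) (hRV : R ⊆ V 1) (hd : Disjoint R (H 0)) :
    Ach T V H S ![0, (k : ℤ)] := by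
  refine (h.ach (V := V) (H := H) (by simp) 1 hRS hRV ?_).mono subset_rfl ?_
  · intro j hj
    have : j = 0 := by omega
    subst this
    exact hd
  · rw [Fin.forall_fin_two]
    constructor
    · simp
    · simp

/-- `lemY` as contributions. -/
private lemma lemY_88 {T : SimpleGraph α} {V H : Fin 2 → Finset α} {S R : Finset α}
    (h : Tau T R 4) (hRS : R ⊆ S) (hRV : R ⊆ V 1) (hH : (H 0).card ≤ 2) :
    Ach T V H S ![-1, 3] := by
  rcases lemY h (H 0) hH with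
    ⟨u, v, w, x, y, hu, hv, hw, huv, huw, hvw, hx, hy, hxy, hd⟩ |
    ⟨u, v, u', v', x, y, hu, hv, huv, hu', hv', huv', hx, hy, hxy, hd, hd'⟩
  · have hx' := Finset.mem_sdiff.1 hx
    have hy' := Finset.mem_sdiff.1 hy
    have hin : Ach T V H (S \ {u, v, w}) ![0, 0] := nil_88 le_rfl le_rfl
    rcases hd with hd | hd
    · refine tri2_88 (hRS hu) (hRS hv) (hRS hw) huv huw hvw (p' := -1) (q' := 1) (d := 0) (e := 2)
        ?_ (ctr_nonneg_of_disj _ hd) (two_88 (hRV hu) (hRV hv) (hRV hw) huv.ne huw.ne hvw.ne)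
        (by norm_num) (by norm_num)
      refine edge2_88 (Finset.mem_sdiff.2 ⟨hRS hx'.1, hx'.2⟩) (Finset.mem_sdiff.2 ⟨hRS hy'.1, hy'.2⟩)
        hxy (p' := 0) (q' := 0) (d := -1) (e := 1) (nil_88 le_rfl le_rfl) (neg_one_le_ctr _ _ _)
        (one_88 (hRV hx'.1) (hRV hy'.1) hxy.ne) (by norm_num) (by norm_num)
    · refine tri2_88 (hRS hu) (hRS hv) (hRS hw) huv huw hvw (p' := 0) (q' := 1) (d := -1) (e := 2)
        ?_ (neg_one_le_ctr _ _ _) (two_88 (hRV hu) (hRV hv) (hRV hw) huv.ne huw.ne hvw.ne)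
        (by norm_num) (by norm_num)
      refine edge2_88 (Finset.mem_sdiff.2 ⟨hRS hx'.1, hx'.2⟩) (Finset.mem_sdiff.2 ⟨hRS hy'.1, hy'.2⟩)
        hxy (p' := 0) (q' := 0) (d := 0) (e := 1) (nil_88 le_rfl le_rfl)
        (ctr_nonneg_of_disj _ hd)
        (one_88 (hRV hx'.1) (hRV hy'.1) hxy.ne) (by norm_num) (by norm_num)
  · have hu1 := Finset.mem_sdiff.1 hu'
    have hv1 := Finset.mem_sdiff.1 hv'
    have hx1 := Finset.mem_sdiff.1 hx
    have hy1 := Finset.mem_sdiff.1 hy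
    have hx2 := Finset.mem_sdiff.1 hx1.1
    have hy2 := Finset.mem_sdiff.1 hy1.1
    refine edge2_88 (hRS hu) (hRS hv) huv (p' := -1) (q' := 2) (d := 0) (e := 1) ?_
      (ctr_nonneg_of_disj _ hd) (one_88 (hRV hu) (hRV hv) huv.ne) (by norm_num) (by norm_num)
    refine edge2_88 (Finset.mem_sdiff.2 ⟨hRS hu1.1, hu1.2⟩) (Finset.mem_sdiff.2 ⟨hRS hv1.1, hv1.2⟩)
      huv' (p' := -1) (q' := 1) (d := 0) (e := 1) ?_
      (ctr_nonneg_of_disj _ hd') (one_88 (hRV hu1.1) (hRV hv1.1) huv'.ne) (by norm_num)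
      (by norm_num)
    refine edge2_88
      (Finset.mem_sdiff.2 ⟨Finset.mem_sdiff.2 ⟨hRS hx2.1, hx2.2⟩, hx1.2⟩)
      (Finset.mem_sdiff.2 ⟨Finset.mem_sdiff.2 ⟨hRS hy2.1, hy2.2⟩, hy1.2⟩)
      hxy (p' := 0) (q' := 0) (d := -1) (e := 1) (nil_88 le_rfl le_rfl) (neg_one_le_ctr _ _ _)
      (one_88 (hRV hx2.1) (hRV hy2.1) hxy.ne) (by norm_num) (by norm_num)

private lemma fin_88 {T : SimpleGraph α} {V H : Fin 2 → Finset α} {S : Finset α} {r : Fin 2 → ℕ}
    {p q : ℤ} (h : Ach T V H S ![p, q]) (hp : (r 0 : ℤ) - 2 ≤ p) (hq : (r 1 : ℤ) - 2 ≤ q) :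
    Ach T V H S (fun i => (r i : ℤ) - 2) := by
  refine h.mono subset_rfl ?_
  rw [Fin.forall_fin_two]
  exact ⟨hp, hq⟩

/-- An edge in `V 1 \ H 0`, contained in `R`. -/
private lemma edge_88 {T : SimpleGraph α} {V H : Fin 2 → Finset α} {S R : Finset α} {k : ℕ}
    (h : Tau T R k) (hk : 1 ≤ k) (hRS : R ⊆ S) (hRV : R ⊆ V 1) (hd : Disjoint R (H 0)) :
    Ach T V H S ![0, 1] := by
  have := sav_88 (V := V) (H := H) (h.sav1 hk) hRS hRV hd
  exact_mod_cast this

private lemma edges_88 {T : SimpleGraph α} {V H : Fin 2 → Finset α} {S R : Finset α} {k : ℕ}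
    (h : Tau T R k) (hk : 2 ≤ k) (hRS : R ⊆ S) (hRV : R ⊆ V 1) (hd : Disjoint R (H 0)) :
    Ach T V H S ![0, 2] := by
  have := sav_88 (V := V) (H := H) (h.sav2 hk) hRS hRV hd
  exact_mod_cast this

theorem hub45_two {T : SimpleGraph α} {V H : Fin 2 → Finset α} {S : Finset α} {r n : Fin 2 → ℕ}
    (h : HubHyp T V H S r n) (h0 : n 0 ≤ 4) (h1 : n 1 ≤ 5) (hr : r 0 = 2) :
    Ach T V H S (fun i => (r i : ℤ) - 2) := by
  have c0 := h.card 0
  have c1 := h.card 1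
  have t0 := h.tau 0
  have t1 := h.tau 1
  have s0 := h.sub 0
  have s1 := h.sub 1
  rw [hr] at c0 t0
  have hH0 : (H 0).card ≤ 2 := by omega
  have hdis : ∀ R : Finset α, Disjoint (R \ H 0) (H 0) := fun R => Finset.sdiff_disjoint
  rcases (by omega : r 1 ≤ 2 ∨ r 1 = 3 ∨ r 1 = 4 ∨ r 1 = 5) with h2 | h2 | h2 | h2
  · exact fin_88 (p := 0) (q := 0) (nil_88 le_rfl le_rfl) (by omega) (by omega)
  · rw [h2] at t1
    exact fin_88 (edge_88 (t1.sdiff' (l := 1) (H 0) (by omega)) le_rfl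
      (Finset.sdiff_subset.trans s1) Finset.sdiff_subset (hdis _)) (by omega) (by omega)
  · rw [h2] at t1
    exact fin_88 (edges_88 (t1.sdiff' (l := 2) (H 0) (by omega)) le_rfl
      (Finset.sdiff_subset.trans s1) Finset.sdiff_subset (hdis _)) (by omega) (by omega)
  · rw [h2] at t1
    have hH1 : H 1 = ∅ := Finset.card_eq_zero.1 (by omega)
    obtain ⟨u, hu, v, hv, huv⟩ := t0.edge (by norm_num)
    have hn1 : ∀ x, x ∉ H 1 := by
      intro x
      rw [hH1]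
      exact Finset.notMem_empty x
    refine fin_88 (p := 0) (q := 3) ?_ (by omega) (by omega)
    by_cases hK : u ∈ V 1 ∧ v ∈ V 1
    · refine edge2_88 (s0 hu) (s0 hv) huv (p' := -1) (q' := 2) (d := 1) (e := 1) ?_
        (one_88 hu hv huv.ne) (one_88 hK.1 hK.2 huv.ne) (by norm_num) (by norm_num)
      have t2 := t1.sdiff' (l := 3) {u, v} (by rw [Finset.card_pair huv.ne])
      obtain ⟨a, ha, b, hb, hab, haH, hbH⟩ := t2.edge_avoid (H 0) (by omega)
      have ha' := Finset.mem_sdiff.1 ha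
      have hb' := Finset.mem_sdiff.1 hb
      refine edge2_88 (Finset.mem_sdiff.2 ⟨s1 ha'.1, ha'.2⟩) (Finset.mem_sdiff.2 ⟨s1 hb'.1, hb'.2⟩)
        hab (p' := -1) (q' := 1) (d := 0) (e := 1) ?_
        (out_88 haH hbH) (one_88 ha'.1 hb'.1 hab.ne) (by norm_num) (by norm_num)
      obtain ⟨x, hx, y, hy, hxy⟩ := (t2.sdiff' (l := 1) {a, b}
        (by rw [Finset.card_pair hab.ne])).edge le_rfl
      have hx1 := Finset.mem_sdiff.1 hx
      have hy1 := Finset.mem_sdiff.1 hy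
      have hx2 := Finset.mem_sdiff.1 hx1.1
      have hy2 := Finset.mem_sdiff.1 hy1.1
      exact edge2_88
        (Finset.mem_sdiff.2 ⟨Finset.mem_sdiff.2 ⟨s1 hx2.1, hx2.2⟩, hx1.2⟩)
        (Finset.mem_sdiff.2 ⟨Finset.mem_sdiff.2 ⟨s1 hy2.1, hy2.2⟩, hy1.2⟩)
        hxy (p' := 0) (q' := 0) (d := -1) (e := 1) (nil_88 le_rfl le_rfl) (neg_one_le_ctr _ _ _)
        (one_88 hx2.1 hy2.1 hxy.ne) (by norm_num) (by norm_num)
    · have hc : (({u, v} : Finset α) ∩ V 1).card ≤ 1 := by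
        rcases pair_cases u v (V 1) huv.ne with h3 | h3 | h3
        · exact absurd ⟨h3.1 (by simp), h3.1 (by simp)⟩ hK
        · exact h3.2.le
        · rw [h3.2]
          norm_num
      refine edge2_88 (s0 hu) (s0 hv) huv (p' := -1) (q' := 3) (d := 1) (e := 0) ?_
        (one_88 hu hv huv.ne) (out_88 (hn1 u) (hn1 v)) (by norm_num) (by norm_num)
      exact lemY_88 (t1.sdiff {u, v} (l := 4) (by omega))
        (Finset.sdiff_subset_sdiff s1 subset_rfl) Finset.sdiff_subset hH0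

theorem hub45_three {T : SimpleGraph α} {V H : Fin 2 → Finset α} {S : Finset α} {r n : Fin 2 → ℕ}
    (h : HubHyp T V H S r n) (h0 : n 0 ≤ 4) (h1 : n 1 ≤ 5) (hr : r 0 = 3) (hr1 : 2 ≤ r 1) :
    Ach T V H S (fun i => (r i : ℤ) - 2) := by
  have c0 := h.card 0
  have c1 := h.card 1
  have t0 := h.tau 0
  have t1 := h.tau 1
  have s0 := h.sub 0
  have s1 := h.sub 1
  rw [hr] at c0 t0
  have hH0 : (H 0).card ≤ 1 := by omega
  have hdis : ∀ R : Finset α, Disjoint (R \ H 0) (H 0) := fun R => Finset.sdiff_disjoint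
  have hcard : ∀ u v : α, u ≠ v → ¬ (u ∈ V 1 ∧ v ∈ V 1) → (({u, v} : Finset α) ∩ V 1).card ≤ 1 := by
    intro u v huv hK
    rcases pair_cases u v (V 1) huv with h3 | h3 | h3
    · exact absurd ⟨h3.1 (by simp), h3.1 (by simp)⟩ hK
    · exact h3.2.le
    · rw [h3.2]
      norm_num
  have hsub : ∀ u v : α, (V 1 \ {u, v}) \ H 0 ⊆ S \ {u, v} := fun u v =>
    Finset.sdiff_subset.trans (Finset.sdiff_subset_sdiff s1 subset_rfl)
  have hsub1 : ∀ u v : α, (V 1 \ {u, v}) \ H 0 ⊆ V 1 := fun u v =>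
    Finset.sdiff_subset.trans Finset.sdiff_subset
  rcases (by omega : r 1 = 2 ∨ r 1 = 3 ∨ r 1 = 4 ∨ r 1 = 5) with h2 | h2 | h2 | h2
  · rw [h2] at t1
    refine fin_88 (p := 1) (q := 0) ?_ (by omega) (by omega)
    by_cases hex : ∃ u ∈ V 0, ∃ v ∈ V 0, T.Adj u v ∧ ((u ∉ H 1 ∧ v ∉ H 1) ∨ (u ∈ V 1 ∨ v ∈ V 1))
    · obtain ⟨u, hu, v, hv, huv, hc⟩ := hex
      refine edge2_88 (s0 hu) (s0 hv) huv (p' := 0) (q' := 0) (d := 1) (e := 0)
        (nil_88 le_rfl le_rfl) (one_88 hu hv huv.ne) ?_ (by norm_num) (by norm_num)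
      rcases hc with hc | hc | hc
      · exact out_88 hc.1 hc.2
      · exact ctr_nonneg_of_meets ⟨u, by simp [hc]⟩
      · exact ctr_nonneg_of_meets ⟨v, by simp [hc]⟩
    · obtain ⟨u, hu, v, hv, huv⟩ := t0.edge (by norm_num)
      have hu1 : u ∉ V 1 := fun hc => hex ⟨u, hu, v, hv, huv, Or.inr (Or.inl hc)⟩
      have hv1 : v ∉ V 1 := fun hc => hex ⟨u, hu, v, hv, huv, Or.inr (Or.inr hc)⟩
      refine edge2_88 (s0 hu) (s0 hv) huv (p' := 0) (q' := 1) (d := 1) (e := -1)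
        ?_ (one_88 hu hv huv.ne) (neg_one_le_ctr _ _ _) (by norm_num) (by norm_num)
      refine edge_88 (t1.sdiff' (l := 1) (H 0) (by omega)) le_rfl ?_ Finset.sdiff_subset (hdis _)
      intro y hy
      have hy1 := (Finset.mem_sdiff.1 hy).1
      rw [Finset.mem_sdiff, Finset.mem_insert, Finset.mem_singleton]
      refine ⟨s1 hy1, ?_⟩
      rintro (rfl | rfl)
      · exact hu1 hy1
      · exact hv1 hy1
  · rw [h2] at t1
    refine fin_88 (p := 1) (q := 1) ?_ (by omega) (by omega)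
    obtain ⟨u, hu, v, hv, huv, huH, hvH⟩ := t0.edge_avoid (H 1) (by omega)
    by_cases hK : u ∈ V 1 ∧ v ∈ V 1
    · exact edge2_88 (s0 hu) (s0 hv) huv (p' := 0) (q' := 0) (d := 1) (e := 1)
        (nil_88 le_rfl le_rfl) (one_88 hu hv huv.ne) (one_88 hK.1 hK.2 huv.ne) (by norm_num)
        (by norm_num)
    · have hc := hcard u v huv.ne hK
      refine edge2_88 (s0 hu) (s0 hv) huv (p' := 0) (q' := 1) (d := 1) (e := 0)
        ?_ (one_88 hu hv huv.ne) (out_88 huH hvH) (by norm_num) (by norm_num)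
      exact edge_88 ((t1.sdiff {u, v} (l := 2) (by omega)).sdiff' (l := 1) (H 0) (by omega)) le_rfl
        (hsub u v) (hsub1 u v) (hdis _)
  · rw [h2] at t1
    refine fin_88 (p := 1) (q := 2) ?_ (by omega) (by omega)
    obtain ⟨u, hu, v, hv, huv, huH, hvH⟩ := t0.edge_avoid (H 1) (by omega)
    by_cases hK : u ∈ V 1 ∧ v ∈ V 1
    · refine edge2_88 (s0 hu) (s0 hv) huv (p' := 0) (q' := 1) (d := 1) (e := 1)
        ?_ (one_88 hu hv huv.ne) (one_88 hK.1 hK.2 huv.ne) (by norm_num) (by norm_num)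
      exact edge_88 ((t1.sdiff' {u, v} (l := 2) (by rw [Finset.card_pair huv.ne])).sdiff' (l := 1)
        (H 0) (by omega)) le_rfl (hsub u v) (hsub1 u v) (hdis _)
    · have hc := hcard u v huv.ne hK
      refine edge2_88 (s0 hu) (s0 hv) huv (p' := 0) (q' := 2) (d := 1) (e := 0)
        ?_ (one_88 hu hv huv.ne) (out_88 huH hvH) (by norm_num) (by norm_num)
      exact edges_88 ((t1.sdiff {u, v} (l := 3) (by omega)).sdiff' (l := 2) (H 0) (by omega)) le_rfl
        (hsub u v) (hsub1 u v) (hdis _)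
  · rw [h2] at t1
    have hH1 : H 1 = ∅ := Finset.card_eq_zero.1 (by omega)
    have hn1 : ∀ x, x ∉ H 1 := by
      intro x
      rw [hH1]
      exact Finset.notMem_empty x
    refine fin_88 (p := 1) (q := 3) ?_ (by omega) (by omega)
    by_cases hA : ∃ u ∈ V 0, ∃ v ∈ V 0, T.Adj u v ∧ u ∈ V 1 ∧ v ∈ V 1
    · obtain ⟨u, hu, v, hv, huv, hu1, hv1⟩ := hA
      refine edge2_88 (s0 hu) (s0 hv) huv (p' := 0) (q' := 2) (d := 1) (e := 1)
        ?_ (one_88 hu hv huv.ne) (one_88 hu1 hv1 huv.ne) (by norm_num) (by norm_num)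
      exact edges_88 ((t1.sdiff' {u, v} (l := 3) (by rw [Finset.card_pair huv.ne])).sdiff' (l := 2)
        (H 0) (by omega)) le_rfl (hsub u v) (hsub1 u v) (hdis _)
    by_cases hB : ∃ u ∈ V 0, ∃ v ∈ V 0, T.Adj u v ∧ u ∉ V 1 ∧ v ∉ V 1
    · obtain ⟨u, hu, v, hv, huv, hu1, hv1⟩ := hB
      refine edge2_88 (s0 hu) (s0 hv) huv (p' := 0) (q' := 3) (d := 1) (e := 0)
        ?_ (one_88 hu hv huv.ne) (out_88 (hn1 u) (hn1 v)) (by norm_num) (by norm_num)
      have h3 := gl (by norm_num) (t1.sdiff' (l := 4) (H 0) (by omega))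
      have h4 := sav_88 (V := V) (H := H) (S := S \ {u, v}) h3 (by
        intro y hy
        have hy1 := (Finset.mem_sdiff.1 hy).1
        rw [Finset.mem_sdiff, Finset.mem_insert, Finset.mem_singleton]
        refine ⟨s1 hy1, ?_⟩
        rintro (rfl | rfl)
        · exact hu1 hy1
        · exact hv1 hy1) Finset.sdiff_subset (hdis _)
      exact h4
    push Not at hA hB
    -- every edge of `T[V 0]` has exactly one end in `V 1`
    have key : ∀ R : Finset α, R.card ≤ 1 → ∃ a ∈ V 0, ∃ b ∈ V 0, T.Adj a b ∧ a ∈ V 1 ∧ b ∉ V 1 ∧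
        a ∉ R := by
      intro R hR
      obtain ⟨u, hu, v, hv, huv, huR, hvR⟩ := t0.edge_avoid R (by omega)
      by_cases hu1 : u ∈ V 1
      · exact ⟨u, hu, v, hv, huv, hu1, hA u hu v hv huv hu1, huR⟩
      · exact ⟨v, hv, u, hu, huv.symm, hB u hu v hv huv hu1, hu1, hvR⟩
    obtain ⟨a, ha, b, hb, hab, ha1, hb1, -⟩ := key ∅ (by simp)
    obtain ⟨a', ha', b', hb', hab', ha1', hb1', haa⟩ := key {a} (by simp)
    rw [Finset.mem_singleton] at haa
    have hna : ¬ T.Adj a a' := fun hc => hA a ha a' ha' hc ha1 ha1'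
    have fin : ∀ x ∈ V 0, ∀ y ∈ V 0, T.Adj x y → x ∈ V 1 → y ∉ V 1 →
        Sav T ((V 1 \ H 0) \ {x}) 3 → Ach T V H S ![1, 3] := by
      intro x hx y hy hxy hx1 hy1 hs
      refine edge2_88 (s0 hx) (s0 hy) hxy (p' := 0) (q' := 3) (d := 1) (e := 0)
        ?_ (one_88 hx hy hxy.ne) (out_88 (hn1 x) (hn1 y)) (by norm_num) (by norm_num)
      have h4 := sav_88 (V := V) (H := H) (S := S \ {x, y}) hs (by
        intro z hz
        have hz1 := Finset.mem_sdiff.1 hz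
        have hz2 := (Finset.mem_sdiff.1 hz1.1).1
        rw [Finset.mem_sdiff, Finset.mem_insert, Finset.mem_singleton]
        refine ⟨s1 hz2, ?_⟩
        rintro (rfl | rfl)
        · exact hz1.2 (Finset.mem_singleton_self _)
        · exact hy1 hz2) (Finset.sdiff_subset.trans Finset.sdiff_subset)
        ((hdis _).mono_left Finset.sdiff_subset)
      exact h4
    rcases z1 (t1.sdiff' (l := 4) (H 0) (by omega)) (Ne.symm haa) hna with h3 | h3
    · exact fin a ha b hb hab ha1 hb1 h3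
    · exact fin a' ha' b' hb' hab' ha1' hb1' h3

end Pool.Agent.Helper33.RG
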