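import Pool.Agent.Helper33.RG.HL1

/-!
# Block RG-HL45c: hub lemma, two indices, `n = (4, 5)`, `r 0 = 4` (MP_1f20e3_co)

Index 0: `r 0 = 4`, `H 0 = ∅`, need `≥ 2`. Index 1: `r 1 + |H 1| ≤ 5`, `r 1 ≥ 2`, need `≥ r 1 - 2`. The contribution of every merged class to the index 0 is `≥ 0`.
`r 1 = 2` (`|H 1| ≤ 3`, need 0): `e1` an edge in `V 0 \ H 1` (`τ ≥ 1`), `e2` an edge in `V 0 \ e1` (`τ ≥ 2`). If `e2` is not a hit of 1 done. If it is (it avoids `V 1` and meets `H 1`): `e1 ⊆ V 1` contributes 1, done; else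
`τ(V 1 \ e1 \ e2) ≥ 1`: another edge in `V 1`.
`r 1 = 3` (`|H 1| ≤ 2`, need 1): `τ(V 0 \ H 1) ≥ 2`: two disjoint edges or a triangle (`Tau.two`), no hits. If one of these classes has two vertices in `V 1`: done. Else they contain at most two vertices of `V 1` (one for the triangle): another edge of `V 1` in the
rest.
`r 1 = 4` (`|H 1| ≤ 1`, need 2): `τ(V 0 \ H 1) ≥ 3`: `Tau.two` gives two disjoint edges or a triangle, no hits. Two edges, `j2` of them in `V 1`, `j1` with exactly one vertex in `V 1`: contribution `j2`, the rest of `V 1` has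
`τ ≥ 4 - 2 j2 - j1`, and `(j2,j1) = (2,0)`: fine; `(1,1)`, `(1,0)`: one more edge; `(0,*)`: `τ ≥ 2`, two savings. Triangle with 3, 2, `≤ 1` vertices in `V 1`: contribution 2; 1 and the rest has `τ ≥ 2`, one edge; `τ ≥ 3`, two savings.
`r 1 = 5` (`H 1 = ∅`, need 3): `V 0` contains a triangle with `j` vertices in `V 1`: `j = 3`: 2 and an edge (`τ ≥ 2`); `j = 2`: 1 and two savings (`τ ≥ 3`); `j ≤ 1`: three savings (`τ ≥ 4`, `gl`). `V 0` has no triangle: if there are two disjoint edges in `V 0` with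
`(j2,j1) ≠ (0,2)`: `(2,0)`: 2 and an edge (`τ ≥ 1`); `(1,1)`: 1 and two savings (`τ ≥ 2`); `(1,0)`: same; `(0,0)`, `(0,1)`: three savings (`τ ≥ 4`, `gl`). Else: every edge `e` of `T[V 0]` has exactly one end in `V 1` (there is an edge in
`V 0 \ e`, `τ ≥ 2`, use the pair). `exists_mat` gives three disjoint edges in `V 0`, with ends `a1, a2, a3` in `V 1`, pairwise not adjacent (an edge of `T[V 0]` with both ends in `V 1` does not exist). `z1` for `V 1 \ {a1}` (`τ ≥ 4`) and `a2, a3`: say
`Sav T ((V 1 \ {a1}) \ {a2}) 3`. Classes: the edges at `a1` and `a2` (their other ends are not in `V 1`) and these.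
-/

set_option autoImplicit false

namespace Pool.Agent.Helper33.RG

variable {α : Type} [DecidableEq α]

private lemma c45_ctr_lb {V H C : Finset α} (h : Disjoint C H ∨ (C ∩ V).Nonempty) :
    (((C ∩ V).card - 1 : ℕ) : ℤ) ≤ ctr V H C True := by
  unfold ctr
  rw [if_pos trivial]
  split_ifs with h1 h2
  · have := Finset.card_pos.2 h1
    omega
  · exfalso
    rcases h with h | h
    · exact h2.ne_empty (Finset.disjoint_iff_inter_eq_empty.1 h)
    · exact h1 h
  · rw [Finset.not_nonempty_iff_eq_empty] at h1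
    rw [h1]
    simp

private lemma c45_pairSub {u v : α} {W : Finset α} (hu : u ∈ W) (hv : v ∈ W) :
    ({u, v} : Finset α) ⊆ W := by
  intro y hy
  rw [Finset.mem_insert, Finset.mem_singleton] at hy
  rcases hy with rfl | rfl
  · exact hu
  · exact hv

private lemma c45_tripSub {u v w : α} {W : Finset α} (hu : u ∈ W) (hv : v ∈ W) (hw : w ∈ W) :
    ({u, v, w} : Finset α) ⊆ W := by
  intro y hy
  simp only [Finset.mem_insert, Finset.mem_singleton] at hy
  rcases hy with rfl | rfl | rfl
  · exact hu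
  · exact hv
  · exact hw

private lemma c45_tripCard {u v w : α} (h1 : u ≠ v) (h2 : u ≠ w) (h3 : v ≠ w) :
    ({u, v, w} : Finset α).card = 3 := by
  rw [Finset.card_insert_of_notMem, Finset.card_pair h3]
  simp [h1, h2]

private lemma c45_rest {T : SimpleGraph α} {V H : Fin 2 → Finset α} {S R : Finset α} {k : ℕ}
    (h : Sav T R k) (hR : R ⊆ S) (hRV : R ⊆ V 1) (hH : H 0 = ∅) :
    Ach T V H S (fun i => if i = 1 then (k : ℤ) else 0) :=
  h.ach (by simp) 1 hR hRV (fun j hj => by
    have h0 : j = 0 := by omega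
    rw [h0, hH]
    exact Finset.disjoint_empty_right _)

private lemma c45_step2 {T : SimpleGraph α} {V H : Fin 2 → Finset α} {S : Finset α} {u v : α}
    {x x' : Fin 2 → ℤ} (hu : u ∈ S) (hv : v ∈ S) (hu0 : u ∈ V 0) (hv0 : v ∈ V 0)
    (huv : T.Adj u v) (h : Ach T V H (S \ {u, v}) x') (h0 : x 0 ≤ x' 0 + 1)
    (h1 : x 1 ≤ x' 1 + ctr (V 1) (H 1) {u, v} True) : Ach T V H S x := by
  refine Ach.pair (by simp) hu hv huv h (Fin.forall_fin_two.2 ⟨?_, h1⟩)
  rw [ctr_sub (c45_pairSub hu0 hv0) ⟨u, by simp⟩, Finset.card_pair huv.ne]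
  push_cast
  linarith

private lemma c45_step3 {T : SimpleGraph α} {V H : Fin 2 → Finset α} {S : Finset α} {u v w : α}
    {x x' : Fin 2 → ℤ} (hu : u ∈ S) (hv : v ∈ S) (hw : w ∈ S) (hu0 : u ∈ V 0) (hv0 : v ∈ V 0)
    (hw0 : w ∈ V 0) (huv : T.Adj u v) (huw : T.Adj u w) (hvw : T.Adj v w)
    (h : Ach T V H (S \ {u, v, w}) x') (h0 : x 0 ≤ x' 0 + 2)
    (h1 : x 1 ≤ x' 1 + ctr (V 1) (H 1) {u, v, w} True) : Ach T V H S x := by
  refine Ach.triple (cl := Finset.univ) (by simp) hu hv hw huv huw hvw h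
    (Fin.forall_fin_two.2 ⟨?_, ?_⟩)
  · have h2 := ctr_sub (V := V 0) (H := H 0) (c45_tripSub hu0 hv0 hw0) ⟨u, by simp⟩
    rw [c45_tripCard huv.ne huw.ne hvw.ne] at h2
    simp only [Finset.mem_univ]
    rw [h2]
    push_cast
    linarith
  · simp only [Finset.mem_univ]
    exact h1

private lemma c45_tauSav {T : SimpleGraph α} {W A B : Finset α} {r k : ℕ} (h : Tau T W r)
    (hr : r ≤ 8) (hk : k ≤ (r - ((A ∩ W).card + (B ∩ W).card))
      - (r - ((A ∩ W).card + (B ∩ W).card)) / 3) : Sav T ((W \ A) \ B) k := by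
  by_cases hc : (A ∩ W).card + (B ∩ W).card ≤ r
  · have h1 := h.sdiff (l := r - (A ∩ W).card) A (by omega)
    have h2 : (B ∩ (W \ A)).card ≤ (B ∩ W).card :=
      Finset.card_le_card (Finset.inter_subset_inter_left Finset.sdiff_subset)
    have h3 := h1.sdiff (l := r - ((A ∩ W).card + (B ∩ W).card)) B (by omega)
    exact (gl (by omega) h3).mono subset_rfl hk
  · have h0 : k = 0 := by omega
    subst h0
    exact Sav.zero _

private lemma c45_tauSav1 {T : SimpleGraph α} {W A : Finset α} {r k : ℕ} (h : Tau T W r)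
    (hr : r ≤ 8) (hk : k ≤ (r - (A ∩ W).card) - (r - (A ∩ W).card) / 3) :
    Sav T (W \ A) k := by
  by_cases hc : (A ∩ W).card ≤ r
  · have h1 := h.sdiff (l := r - (A ∩ W).card) A (by omega)
    exact (gl (by omega) h1).mono subset_rfl hk
  · have h0 : k = 0 := by omega
    subst h0
    exact Sav.zero _

private lemma c45_twoE {T : SimpleGraph α} {V H : Fin 2 → Finset α} {S : Finset α}
    (hH : H 0 = ∅) (h0S : V 0 ⊆ S) (h1S : V 1 ⊆ S) {u v u' v' : α} {k : ℕ} {d1 d2 : ℤ}
    (hu : u ∈ V 0) (hv : v ∈ V 0) (huv : T.Adj u v) (hu' : u' ∈ V 0 \ {u, v})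
    (hv' : v' ∈ V 0 \ {u, v}) (huv' : T.Adj u' v')
    (hd1 : d1 ≤ ctr (V 1) (H 1) {u, v} True) (hd2 : d2 ≤ ctr (V 1) (H 1) {u', v'} True)
    (hk : Sav T ((V 1 \ {u, v}) \ {u', v'}) k) (x : Fin 2 → ℤ) (hx0 : x 0 ≤ 2)
    (hx1 : x 1 ≤ k + d1 + d2) : Ach T V H S x := by
  have hsub : ∀ {y : α}, y ∈ V 0 \ {u, v} → y ∈ S \ {u, v} := fun hy =>
    Finset.sdiff_subset_sdiff h0S subset_rfl hy
  have hr : Ach T V H ((S \ {u, v}) \ {u', v'}) (fun i => if i = 1 then (k : ℤ) else 0) :=
    c45_rest hk (Finset.sdiff_subset_sdiff (Finset.sdiff_subset_sdiff h1S subset_rfl) subset_rfl)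
      (Finset.sdiff_subset.trans Finset.sdiff_subset) hH
  refine c45_step2 (x' := fun i => if i = 1 then (k : ℤ) + d2 else 1) (h0S hu) (h0S hv) hu hv huv
    ?_ ?_ ?_
  · refine c45_step2 (hsub hu') (hsub hv') (Finset.mem_sdiff.1 hu').1 (Finset.mem_sdiff.1 hv').1
      huv' hr ?_ ?_
    · simp
    · simp only [if_true]
      linarith
  · simp only [if_neg (show ¬ ((0 : Fin 2) = 1) by decide)]
    linarith
  · simp only [if_true]
    linarith

private lemma c45_triE {T : SimpleGraph α} {V H : Fin 2 → Finset α} {S : Finset α}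
    (hH : H 0 = ∅) (h0S : V 0 ⊆ S) (h1S : V 1 ⊆ S) {u v w : α} {k : ℕ} {d1 : ℤ}
    (hu : u ∈ V 0) (hv : v ∈ V 0) (hw : w ∈ V 0) (huv : T.Adj u v) (huw : T.Adj u w)
    (hvw : T.Adj v w) (hd1 : d1 ≤ ctr (V 1) (H 1) {u, v, w} True)
    (hk : Sav T (V 1 \ {u, v, w}) k) (x : Fin 2 → ℤ) (hx0 : x 0 ≤ 2)
    (hx1 : x 1 ≤ k + d1) : Ach T V H S x := by
  have hr : Ach T V H (S \ {u, v, w}) (fun i => if i = 1 then (k : ℤ) else 0) :=
    c45_rest hk (Finset.sdiff_subset_sdiff h1S subset_rfl) Finset.sdiff_subset hH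
  refine c45_step3 (h0S hu) (h0S hv) (h0S hw) hu hv hw huv huw hvw hr ?_ ?_
  · simp only [if_neg (show ¬ ((0 : Fin 2) = 1) by decide)]
    linarith
  · simp only [if_true]
    linarith

theorem hub45_four {T : SimpleGraph α} {V H : Fin 2 → Finset α} {S : Finset α} {r n : Fin 2 → ℕ}
    (h : HubHyp T V H S r n) (h0 : n 0 ≤ 4) (h1 : n 1 ≤ 5) (hr : r 0 = 4) (hr1 : 2 ≤ r 1) :
    Ach T V H S (fun i => (r i : ℤ) - 2) := by
  have hc0 := h.card 0
  have hc1 := h.card 1
  have hH : H 0 = ∅ := by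
    rw [← Finset.card_eq_zero]
    omega
  have hr15 : r 1 ≤ 5 := by omega
  have ht0 : Tau T (V 0) 4 := hr ▸ h.tau 0
  have ht1 := h.tau 1
  have hx0 : (fun i => (r i : ℤ) - 2) 0 ≤ 2 := by
    simp only [hr]
    norm_num
  -- two disjoint edges without hits
  have key2 : ∀ u v u' v' : α, u ∈ V 0 → v ∈ V 0 → T.Adj u v → u' ∈ V 0 \ {u, v} →
      v' ∈ V 0 \ {u, v} → T.Adj u' v' →
      (Disjoint {u, v} (H 1) ∨ (({u, v} : Finset α) ∩ V 1).Nonempty) →
      (Disjoint {u', v'} (H 1) ∨ (({u', v'} : Finset α) ∩ V 1).Nonempty) →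
      (r 1 ≠ 5 ∨ ¬ ((({u, v} : Finset α) ∩ V 1).card = 1 ∧
        (({u', v'} : Finset α) ∩ V 1).card = 1)) →
      Ach T V H S (fun i => (r i : ℤ) - 2) := by
    intro u v u' v' hu hv huv hu' hv' huv' hd hd' hcase
    have hA : (({u, v} : Finset α) ∩ V 1).card ≤ 2 :=
      (Finset.card_le_card Finset.inter_subset_left).trans (Finset.card_pair huv.ne).le
    have hB : (({u', v'} : Finset α) ∩ V 1).card ≤ 2 :=
      (Finset.card_le_card Finset.inter_subset_left).trans (Finset.card_pair huv'.ne).le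
    refine c45_twoE hH (h.sub 0) (h.sub 1) hu hv huv hu' hv' huv' (c45_ctr_lb hd) (c45_ctr_lb hd')
      (c45_tauSav ht1 (by omega) le_rfl) _ hx0 ?_
    generalize (({u, v} : Finset α) ∩ V 1).card = a at *
    generalize (({u', v'} : Finset α) ∩ V 1).card = b at *
    generalize r 1 = t at *
    interval_cases t <;> interval_cases a <;> interval_cases b <;> simp_all
  have key3 : ∀ u v w : α, u ∈ V 0 → v ∈ V 0 → w ∈ V 0 → T.Adj u v → T.Adj u w → T.Adj v w →
      Disjoint {u, v, w} (H 1) → Ach T V H S (fun i => (r i : ℤ) - 2) := by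
    intro u v w hu hv hw huv huw hvw hd
    have hA : (({u, v, w} : Finset α) ∩ V 1).card ≤ 3 :=
      (Finset.card_le_card Finset.inter_subset_left).trans
        (c45_tripCard huv.ne huw.ne hvw.ne).le
    refine c45_triE hH (h.sub 0) (h.sub 1) hu hv hw huv huw hvw (c45_ctr_lb (Or.inl hd))
      (c45_tauSav1 ht1 (by omega) le_rfl) _ hx0 ?_
    generalize (({u, v, w} : Finset α) ∩ V 1).card = a at *
    generalize r 1 = t at *
    interval_cases t <;> interval_cases a <;> simp_all
  rcases (by omega : r 1 = 2 ∨ 3 ≤ r 1) with h2 | h3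
  · -- `r 1 = 2`
    obtain ⟨u, hu, v, hv, huv, huH, hvH⟩ := ht0.edge_avoid (H 1) (by omega)
    have hd : Disjoint {u, v} (H 1) := by
      rw [Finset.disjoint_left]
      intro y hy
      rw [Finset.mem_insert, Finset.mem_singleton] at hy
      rcases hy with rfl | rfl
      · exact huH
      · exact hvH
    obtain ⟨u', hu', v', hv', huv'⟩ := (ht0.sdiff' (l := 2) {u, v}
      (by rw [Finset.card_pair huv.ne])).edge (by omega)
    by_cases hd' : Disjoint {u', v'} (H 1) ∨ (({u', v'} : Finset α) ∩ V 1).Nonempty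
    · exact key2 u v u' v' hu hv huv hu' hv' huv' (Or.inl hd) hd' (Or.inl (by omega))
    · have hB : (({u', v'} : Finset α) ∩ V 1).card = 0 := by
        rw [Finset.card_eq_zero, ← Finset.not_nonempty_iff_eq_empty]
        exact fun hn => hd' (Or.inr hn)
      have hA : (({u, v} : Finset α) ∩ V 1).card ≤ 2 :=
        (Finset.card_le_card Finset.inter_subset_left).trans (Finset.card_pair huv.ne).le
      refine c45_twoE hH (h.sub 0) (h.sub 1) hu hv huv hu' hv' huv' (c45_ctr_lb (Or.inl hd))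
        (neg_one_le_ctr _ _ _) (c45_tauSav ht1 (by omega) le_rfl) _ hx0 ?_
      rw [hB, h2]
      generalize (({u, v} : Finset α) ∩ V 1).card = a at *
      interval_cases a <;> simp_all
  · have hdis2 : ∀ {u v : α}, u ∈ V 0 \ H 1 → v ∈ V 0 \ H 1 → Disjoint {u, v} (H 1) := by
      intro u v hu hv
      rw [Finset.disjoint_left]
      intro y hy
      rw [Finset.mem_insert, Finset.mem_singleton] at hy
      rcases hy with rfl | rfl
      · exact (Finset.mem_sdiff.1 hu).2
      · exact (Finset.mem_sdiff.1 hv).2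
    rcases (by omega : r 1 = 5 ∨ r 1 ≤ 4) with h5 | h4
    · -- `r 1 = 5`
      have hH1 : H 1 = ∅ := by
        rw [← Finset.card_eq_zero]
        omega
      have hdd : ∀ C : Finset α, Disjoint C (H 1) := fun C => by
        rw [hH1]
        exact Finset.disjoint_empty_right _
      by_cases htf : TriFree T (V 0)
      · by_contra hcon
        have hone : ∀ u ∈ V 0, ∀ v ∈ V 0, T.Adj u v → (({u, v} : Finset α) ∩ V 1).card = 1 := by
          intro u hu v hv huv
          obtain ⟨u', hu', v', hv', huv'⟩ := (ht0.sdiff' (l := 2) {u, v}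
            (by rw [Finset.card_pair huv.ne])).edge (by omega)
          by_contra hne
          exact hcon (key2 u v u' v' hu hv huv hu' hv' huv' (Or.inl (hdd _)) (Or.inl (hdd _))
            (Or.inr fun hh => hne hh.1))
        obtain ⟨a, b, hab⟩ := exists_mat htf ht0
        -- choose the end in `V 1`
        have hpq : ∀ i : Fin 3, ∃ p q : α, ((p = a i ∧ q = b i) ∨ (p = b i ∧ q = a i)) ∧
            p ∈ V 1 ∧ q ∉ V 1 := by
          intro i
          have h6 := hone _ (hab.memA i) _ (hab.memB i) (hab.adj i)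
          rcases pair_cases (a i) (b i) (V 1) (hab.adj i).ne with ⟨_, h7⟩ | ⟨h8, h7⟩ | ⟨_, h7⟩
          · omega
          · obtain ⟨p, hp⟩ := h8
            rw [Finset.mem_inter, Finset.mem_insert, Finset.mem_singleton] at hp
            rcases hp with ⟨rfl | rfl, hp⟩
            · refine ⟨a i, b i, Or.inl ⟨rfl, rfl⟩, hp, fun hq => ?_⟩
              have h9 : ({a i, b i} : Finset α) ∩ V 1 = {a i, b i} :=
                Finset.inter_eq_left.2 (c45_pairSub hp hq)
              rw [h9, Finset.card_pair (hab.adj i).ne] at h7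
              omega
            · refine ⟨b i, a i, Or.inr ⟨rfl, rfl⟩, hp, fun hq => ?_⟩
              have h9 : ({a i, b i} : Finset α) ∩ V 1 = {a i, b i} :=
                Finset.inter_eq_left.2 (c45_pairSub hq hp)
              rw [h9, Finset.card_pair (hab.adj i).ne] at h7
              omega
          · omega
        choose p q hpq hp hq using hpq
        have hp0 : ∀ i, p i ∈ V 0 := fun i => by
          rcases hpq i with ⟨h6, _⟩ | ⟨h6, _⟩
          · rw [h6]
            exact hab.memA i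
          · rw [h6]
            exact hab.memB i
        have hq0 : ∀ i, q i ∈ V 0 := fun i => by
          rcases hpq i with ⟨_, h6⟩ | ⟨_, h6⟩
          · rw [h6]
            exact hab.memB i
          · rw [h6]
            exact hab.memA i
        have hadj : ∀ i, T.Adj (p i) (q i) := fun i => by
          rcases hpq i with ⟨h6, h7⟩ | ⟨h6, h7⟩
          · rw [h6, h7]
            exact hab.adj i
          · rw [h6, h7]
            exact (hab.adj i).symm
        have haa : ∀ i j, i ≠ j → a i ≠ a j := fun i j hij he =>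
          hij (Sum.inl_injective (hab.inj (show Sum.elim a b (Sum.inl i) = Sum.elim a b (Sum.inl j)
            from he)))
        have hbb : ∀ i j, i ≠ j → b i ≠ b j := fun i j hij he =>
          hij (Sum.inr_injective (hab.inj (show Sum.elim a b (Sum.inr i) = Sum.elim a b (Sum.inr j)
            from he)))
        have hab' : ∀ i j, a i ≠ b j := fun i j he =>
          absurd (hab.inj (show Sum.elim a b (Sum.inl i) = Sum.elim a b (Sum.inr j)
            from he)) Sum.inl_ne_inr
        have hpp : ∀ i j, i ≠ j → p i ≠ p j := by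
          intro i j hij
          rcases hpq i with ⟨h6, _⟩ | ⟨h6, _⟩ <;> rcases hpq j with ⟨h7, _⟩ | ⟨h7, _⟩ <;>
            rw [h6, h7]
          · exact haa i j hij
          · exact hab' i j
          · exact (hab' j i).symm
          · exact hbb i j hij
        have hqq : ∀ i j, i ≠ j → q i ≠ q j := by
          intro i j hij
          rcases hpq i with ⟨_, h6⟩ | ⟨_, h6⟩ <;> rcases hpq j with ⟨_, h7⟩ | ⟨_, h7⟩ <;>
            rw [h6, h7]
          · exact hbb i j hij
          · exact (hab' j i).symm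
          · exact hab' i j
          · exact haa i j hij
        have hpqne : ∀ i j, p i ≠ q j := fun i j he => hq j (he ▸ hp i)
        have hnadj : ∀ i j, ¬ T.Adj (p i) (p j) := by
          intro i j hij
          have h6 := hone _ (hp0 i) _ (hp0 j) hij
          have h9 : ({p i, p j} : Finset α) ∩ V 1 = {p i, p j} :=
            Finset.inter_eq_left.2 (c45_pairSub (hp i) (hp j))
          rw [h9, Finset.card_pair hij.ne] at h6
          omega
        have hfin : ∀ j : Fin 3, j ≠ 0 → Sav T ((V 1 \ {p 0}) \ {p j}) 3 → False := by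
          intro j hj hs
          refine hcon (c45_twoE hH (h.sub 0) (h.sub 1) (hp0 0) (hq0 0) (hadj 0) (u' := p j)
            (v' := q j) ?_ ?_ (hadj j) (d1 := 0) (d2 := 0)
            (ctr_nonneg_of_disj _ (hdd _)) (ctr_nonneg_of_disj _ (hdd _)) (k := 3) ?_ _ hx0 ?_)
          · rw [Finset.mem_sdiff, Finset.mem_insert, Finset.mem_singleton, not_or]
            exact ⟨hp0 j, hpp j 0 hj, hpqne j 0⟩
          · rw [Finset.mem_sdiff, Finset.mem_insert, Finset.mem_singleton, not_or]
            exact ⟨hq0 j, (hpqne 0 j).symm, hqq j 0 hj⟩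
          · refine hs.mono ?_ le_rfl
            intro y hy
            rw [Finset.mem_sdiff, Finset.mem_sdiff, Finset.mem_singleton,
              Finset.mem_singleton] at hy
            obtain ⟨⟨hy1, hy2⟩, hy3⟩ := hy
            rw [Finset.mem_sdiff, Finset.mem_sdiff, Finset.mem_insert, Finset.mem_singleton,
              Finset.mem_insert, Finset.mem_singleton, not_or, not_or]
            refine ⟨⟨hy1, hy2, fun he => hq 0 (he ▸ hy1)⟩, hy3, fun he => hq j (he ▸ hy1)⟩
          · rw [h5]
            norm_num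
        have ht4 : Tau T (V 1 \ {p 0}) 4 := ht1.sdiff' {p 0} (by
          rw [Finset.card_singleton]
          omega)
        rcases z1 ht4 (hpp 1 2 (by decide)) (hnadj 1 2) with hs | hs
        · exact hfin 1 (by decide) hs
        · exact hfin 2 (by decide) hs
      · unfold TriFree at htf
        push Not at htf
        obtain ⟨u, hu, v, hv, w, hw, huv, huw, hvw⟩ := htf
        exact key3 u v w hu hv hw huv huw hvw (hdd _)
    · have ht2 : Tau T (V 0 \ H 1) 2 := ht0.sdiff' (H 1) (by omega)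
      rcases ht2.two le_rfl with ⟨u, v, u', v', hu, hv, huv, hu', hv', huv'⟩ |
        ⟨u, v, w, hu, hv, hw, huv, huw, hvw⟩
      · have hu'' := Finset.mem_sdiff.1 hu'
        have hv'' := Finset.mem_sdiff.1 hv'
        refine key2 u v u' v' (Finset.mem_sdiff.1 hu).1 (Finset.mem_sdiff.1 hv).1 huv
          (Finset.mem_sdiff.2 ⟨(Finset.mem_sdiff.1 hu''.1).1, hu''.2⟩)
          (Finset.mem_sdiff.2 ⟨(Finset.mem_sdiff.1 hv''.1).1, hv''.2⟩) huv'
          (Or.inl (hdis2 hu hv)) (Or.inl (hdis2 hu''.1 hv''.1)) (Or.inl (by omega))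
      · refine key3 u v w (Finset.mem_sdiff.1 hu).1 (Finset.mem_sdiff.1 hv).1
          (Finset.mem_sdiff.1 hw).1 huv huw hvw ?_
        rw [Finset.disjoint_left]
        intro y hy
        have := c45_tripSub hu hv hw hy
        exact (Finset.mem_sdiff.1 this).2

end Pool.Agent.Helper33.RG
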