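import Pool.Agent.Helper33.RG.HL45a
import Pool.Agent.Helper33.RG.HL45b
import Pool.Agent.Helper33.RG.HL45c
import Pool.Agent.Helper33.RG.HL3a
import Pool.Agent.Helper33.RG.HL3b

/-!
# Block RG-HLG: the hub lemma (assembly) (MP_1f20e3_co)

PROOF of `hub_lemma`. (a) Reindexing: `Ach T (V ∘ e) (H ∘ e) S (x ∘ e) → Ach T V H S x` for `e : κ ≃ ι` (induction, `cl ↦ cl.map e`).
(b) Smaller `H`: if `H' i ⊆ H i` for all `i` then `Ach T V H' S x → Ach T V H S (fun i => x i - ((H i \ H' i) ∩ S).card)`: induction; for one class `ctr (V i) (H i) C c ≥ ctr (V i) (H' i) C c - ((H i \ H' i) ∩ C).card`, and the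
classes are disjoint. So if `r i < 0` choose `H' i ⊆ H i` with `|H' i| ≤ q i + r i` and `|H i \ H' i| ≤ -r i` (possible as `|H i| ≤ q i`, `q i + r i ≥ 3 ≥ 0`) and replace `r i` by `0`: with `ρ i = (r i).toNat` and `n i = (r i + q i).toNat` we get `HubHyp T V H' S ρ n`, `n i ≥ 3`,
`∑ (n i - 1) ≤ 7`, and it is enough to show `Ach T V H' S (fun i => ρ i - 2)`, since `r i = ρ i - (-r i)⁺`.
(c) Every `n i - 1 ≥ 2`, so `card ι ≤ 3`. `card ι = 0`: `Ach.nil`. `card ι = 1`: `hub1` (`n ≤ 8`). `card ι = 2`: `n i + n j ≤ 9`, after exchanging the two indices `n 0 ≤ n 1`: `n 0 = 3`, `n 1 ≤ 6`: `hub36`; `n 0 = 4`, `n 1 ≤ 5`: `hub45_small0` (`r 0 ≤ 1`), `hub45_small1` (`r 1 ≤ 1`),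
`hub45_two`, `hub45_three`, `hub45_four`. `card ι = 3`: `∑ n i ≤ 10`, so two of the `n i` are `3` and the third is `≤ 4`: order them such that `n 0 = n 1 = 3`, `n 2 ≤ 4`, and `r 1 ≤ r 0` (`≤ 3`): `hub3_small`, `hub3_one`, `hub3_both`.
-/

set_option autoImplicit false

namespace Pool.Agent.Helper33.RG

variable {α : Type} [DecidableEq α]

private lemma ctr_congr1 {V H C : Finset α} {c c' : Prop} [Decidable c] [Decidable c'] (h : c ↔ c') :
    ctr V H C c = ctr V H C c' := by
  unfold ctr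
  by_cases hc : c
  · rw [if_pos hc, if_pos (h.1 hc)]
  · rw [if_neg hc, if_neg fun h' => hc (h.2 h')]

private lemma reindex1 {ι κ : Type} [DecidableEq ι] [DecidableEq κ] {T : SimpleGraph α}
    {V H : ι → Finset α} {S : Finset α} (e : κ ≃ ι) {y : κ → ℤ}
    (h : Ach T (fun k => V (e k)) (fun k => H (e k)) S y) : Ach T V H S (fun i => y (e.symm i)) := by
  induction h with
  | nil S y hy => exact Ach.nil S _ fun i => hy _
  | cons S C cl y y' hCS hC hcl hS hy ih =>
    refine Ach.cons S C (cl.map e.toEmbedding) _ _ hCS hC (by rw [Finset.card_map]; exact hcl) ih ?_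
    intro i
    have h1 := hy (e.symm i)
    rw [e.apply_symm_apply] at h1
    refine h1.trans (le_of_eq ?_)
    congr 1
    refine ctr_congr1 ?_
    rw [Finset.mem_map_equiv]

private lemma ctr_shrink1 {V H H' C : Finset α} (c : Prop) [Decidable c] (hH : H' ⊆ H) :
    ctr V H' C c - ((H \ H') ∩ C).card ≤ ctr V H C c := by
  unfold ctr
  by_cases hc : c
  · rw [if_pos hc, if_pos hc]
    by_cases h1 : (C ∩ V).Nonempty
    · rw [if_pos h1, if_pos h1]
      have : (0 : ℤ) ≤ ((H \ H') ∩ C).card := Nat.cast_nonneg _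
      linarith
    · rw [if_neg h1, if_neg h1]
      by_cases h2 : (C ∩ H').Nonempty
      · have h3 : (C ∩ H).Nonempty := h2.mono (Finset.inter_subset_inter_left hH)
        rw [if_pos h2, if_pos h3]
        have : (0 : ℤ) ≤ ((H \ H') ∩ C).card := Nat.cast_nonneg _
        linarith
      · rw [if_neg h2]
        by_cases h3 : (C ∩ H).Nonempty
        · rw [if_pos h3]
          have h4 : ((H \ H') ∩ C).Nonempty := by
            obtain ⟨x, hx⟩ := h3
            rw [Finset.mem_inter] at hx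
            refine ⟨x, ?_⟩
            rw [Finset.mem_inter, Finset.mem_sdiff]
            exact ⟨⟨hx.2, fun hx' => h2 ⟨x, Finset.mem_inter.2 ⟨hx.1, hx'⟩⟩⟩, hx.1⟩
          have h5 : (1 : ℤ) ≤ ((H \ H') ∩ C).card := by exact_mod_cast Finset.card_pos.2 h4
          linarith
        · rw [if_neg h3]
          have : (0 : ℤ) ≤ ((H \ H') ∩ C).card := Nat.cast_nonneg _
          linarith
  · rw [if_neg hc, if_neg hc]
    have h1 : (C ∩ H).card ≤ (C ∩ H').card + ((H \ H') ∩ C).card := by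
      have h2 : C ∩ H ⊆ (C ∩ H') ∪ ((H \ H') ∩ C) := by
        intro x hx
        rw [Finset.mem_inter] at hx
        by_cases hx' : x ∈ H'
        · exact Finset.mem_union_left _ (Finset.mem_inter.2 ⟨hx.1, hx'⟩)
        · exact Finset.mem_union_right _ (Finset.mem_inter.2 ⟨Finset.mem_sdiff.2 ⟨hx.2, hx'⟩, hx.1⟩)
      exact (Finset.card_le_card h2).trans (Finset.card_union_le _ _)
    have h2 : ((C ∩ H).card : ℤ) ≤ (C ∩ H').card + ((H \ H') ∩ C).card := by exact_mod_cast h1
    linarith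

private lemma shrink1 {ι : Type} [DecidableEq ι] {T : SimpleGraph α} {V H H' : ι → Finset α} {S : Finset α}
    {x : ι → ℤ} (hH : ∀ i, H' i ⊆ H i) (h : Ach T V H' S x) :
    Ach T V H S (fun i => x i - ((H i \ H' i) ∩ S).card) := by
  induction h with
  | nil S x hx =>
    refine Ach.nil S _ fun i => ?_
    have : (0 : ℤ) ≤ ((H i \ H' i) ∩ S).card := Nat.cast_nonneg _
    have := hx i
    linarith
  | cons S C cl x x' hCS hC hcl hS hx ih =>
    refine Ach.cons S C cl _ _ hCS hC hcl ih ?_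
    intro i
    have h1 := hx i
    have h2 := ctr_shrink1 (V := V i) (C := C) (i ∈ cl) (hH i)
    have h3 : ((H i \ H' i) ∩ (S \ C)).card + ((H i \ H' i) ∩ C).card ≤ ((H i \ H' i) ∩ S).card := by
      rw [← Finset.card_union_of_disjoint]
      · refine Finset.card_le_card ?_
        intro y hy
        rw [Finset.mem_union, Finset.mem_inter, Finset.mem_inter] at hy
        rcases hy with hy | hy
        · exact Finset.mem_inter.2 ⟨hy.1, (Finset.mem_sdiff.1 hy.2).1⟩
        · exact Finset.mem_inter.2 ⟨hy.1, hCS hy.2⟩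
      · rw [Finset.disjoint_left]
        intro y hy hy'
        exact (Finset.mem_sdiff.1 (Finset.mem_inter.1 hy).2).2 (Finset.mem_inter.1 hy').2
    have h4 : (((H i \ H' i) ∩ (S \ C)).card : ℤ) + ((H i \ H' i) ∩ C).card ≤ ((H i \ H' i) ∩ S).card := by
      exact_mod_cast h3
    linarith

private lemma HubHyp.comp1 {ι κ : Type} {T : SimpleGraph α} {V H : ι → Finset α} {S : Finset α} {r n : ι → ℕ}
    (h : HubHyp T V H S r n) (e : κ → ι) :
    HubHyp T (fun k => V (e k)) (fun k => H (e k)) S (fun k => r (e k)) (fun k => n (e k)) :=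
  ⟨fun k => h.tau _, fun k => h.sub _, fun k => h.disj _, fun k => h.card _⟩

private lemma back1 {ι κ : Type} [DecidableEq ι] [DecidableEq κ] {T : SimpleGraph α}
    {V H : ι → Finset α} {S : Finset α} {r : ι → ℕ} (e : κ ≃ ι)
    (h : Ach T (fun k => V (e k)) (fun k => H (e k)) S (fun k => (r (e k) : ℤ) - 2)) :
    Ach T V H S (fun i => (r i : ℤ) - 2) := by
  refine (reindex1 e h).mono subset_rfl fun i => ?_
  rw [e.apply_symm_apply]

private lemma two1 {ι : Type} [DecidableEq ι] {T : SimpleGraph α} {V H : ι → Finset α} {S : Finset α}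
    {r n : ι → ℕ} (h : HubHyp T V H S r n) (e : Fin 2 ≃ ι) (h01 : n (e 0) ≤ n (e 1))
    (h03 : 3 ≤ n (e 0)) (hs : n (e 0) + n (e 1) ≤ 9) : Ach T V H S (fun i => (r i : ℤ) - 2) := by
  have hc := h.comp1 e
  have h0 := h.card (e 0)
  by_cases h3 : n (e 0) ≤ 3
  · exact back1 e (hub36 hc h3 (by omega))
  · have h4 : n (e 0) ≤ 4 := by omega
    have h5 : n (e 1) ≤ 5 := by omega
    by_cases a0 : r (e 0) ≤ 1
    · exact back1 e (hub45_small0 hc h4 h5 a0)
    by_cases a1 : r (e 1) ≤ 1
    · exact back1 e (hub45_small1 hc h4 h5 a1)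
    have hr : r (e 0) = 2 ∨ r (e 0) = 3 ∨ r (e 0) = 4 := by omega
    rcases hr with hr | hr | hr
    · exact back1 e (hub45_two hc h4 h5 hr)
    · exact back1 e (hub45_three hc h4 h5 hr (by omega))
    · exact back1 e (hub45_four hc h4 h5 hr (by omega))

private lemma three1 {ι : Type} [DecidableEq ι] {T : SimpleGraph α} {V H : ι → Finset α} {S : Finset α}
    {r n : ι → ℕ} (h : HubHyp T V H S r n) (e : Fin 3 ≃ ι) (h0 : n (e 0) ≤ 3) (h1 : n (e 1) ≤ 3)
    (h2 : n (e 2) ≤ 4) : Ach T V H S (fun i => (r i : ℤ) - 2) := by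
  have key : ∀ e : Fin 3 ≃ ι, n (e 0) ≤ 3 → n (e 1) ≤ 3 → n (e 2) ≤ 4 → r (e 1) ≤ r (e 0) →
      Ach T V H S (fun i => (r i : ℤ) - 2) := by
    intro e h0 h1 h2 h01
    have hc := h.comp1 e
    have c0 := h.card (e 0)
    by_cases a0 : r (e 0) ≤ 2
    · exact back1 e (hub3_small hc h0 h1 h2 a0 (by omega))
    have a0' : r (e 0) = 3 := by omega
    by_cases a1 : r (e 1) ≤ 2
    · exact back1 e (hub3_one hc h0 h1 h2 a0' a1)
    · exact back1 e (hub3_both hc h0 h1 h2 a0' (by omega))
  rcases le_total (r (e 1)) (r (e 0)) with h01 | h01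
  · exact key e h0 h1 h2 h01
  · refine key ((Equiv.swap 0 1).trans e) ?_ ?_ ?_ ?_
    · simpa using h1
    · simpa using h0
    · have : (Equiv.swap (0 : Fin 3) 1) 2 = 2 := by decide
      simpa [this] using h2
    · simpa using h01

theorem hub_lemma {ι : Type} [Fintype ι] [DecidableEq ι] {T : SimpleGraph α} {V H : ι → Finset α}
    {S : Finset α} {r : ι → ℤ} {q : ι → ℕ} (hV : ∀ i, Tau T (V i) (r i).toNat)
    (hS : ∀ i, V i ⊆ S) (hd : ∀ i, Disjoint (V i) (H i)) (hq : ∀ i, (H i).card ≤ q i)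
    (hn : ∀ i, 3 ≤ r i + q i) (hs : ∑ i, (r i + q i - 1) ≤ 7) :
    Ach T V H S (fun i => r i - 2) := by
  -- smaller sets `H'`
  have hex : ∀ i, ∃ K : Finset α, K ⊆ H i ∧ (r i).toNat + K.card ≤ (r i + q i).toNat ∧
      ((H i \ K).card : ℤ) ≤ (r i).toNat - r i := by
    intro i
    have hqi := hq i
    have hni := hn i
    obtain ⟨K, hK1, hK2⟩ := Finset.exists_subset_card_eq
      (show min (H i).card (r i + q i - (r i).toNat).toNat ≤ (H i).card from min_le_left _ _)
    refine ⟨K, hK1, ?_, ?_⟩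
    · rw [hK2]
      omega
    · rw [Finset.card_sdiff_of_subset hK1, hK2]
      omega
  choose H' hH1 hH2 hH3 using hex
  set ρ : ι → ℕ := fun i => (r i).toNat with hρ
  set m : ι → ℕ := fun i => (r i + q i).toNat with hm
  have hmz : ∀ i, (m i : ℤ) = r i + q i := by
    intro i
    have := hn i
    simp only [hm]
    omega
  have hm3 : ∀ i, 3 ≤ m i := by
    intro i
    have h1 := hn i
    have h2 := hmz i
    omega
  have hyp : HubHyp T V H' S ρ m :=
    ⟨hV, hS, fun i => Finset.disjoint_of_subset_right (hH1 i) (hd i), hH2⟩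
  suffices hh : Ach T V H' S (fun i => (ρ i : ℤ) - 2) by
    refine (shrink1 hH1 hh).mono subset_rfl fun i => ?_
    have h1 : (((H i \ H' i) ∩ S).card : ℤ) ≤ (H i \ H' i).card := by
      exact_mod_cast Finset.card_le_card Finset.inter_subset_left
    have h2 := hH3 i
    simp only [hρ]
    linarith
  have hsum : ∑ i, ((m i : ℤ) - 1) ≤ 7 := by
    refine le_trans (le_of_eq (Finset.sum_congr rfl fun i _ => ?_)) hs
    rw [hmz i]
  have hcard : (Fintype.card ι : ℤ) * 2 ≤ 7 := by
    have h1 : ∑ i : ι, (2 : ℤ) ≤ ∑ i, ((m i : ℤ) - 1) := Finset.sum_le_sum fun i _ => by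
      have := hm3 i
      omega
    rw [Finset.sum_const, nsmul_eq_mul, Finset.card_univ] at h1
    linarith
  have hc4 : Fintype.card ι = 0 ∨ Fintype.card ι = 1 ∨ Fintype.card ι = 2 ∨ Fintype.card ι = 3 := by omega
  rcases hc4 with hc | hc | hc | hc
  · have : IsEmpty ι := Fintype.card_eq_zero_iff.1 hc
    exact Ach.nil _ _ fun i => this.elim i
  · let e : Fin 1 ≃ ι := (Fintype.equivFinOfCardEq hc).symm
    rw [← e.sum_comp, Fin.sum_univ_one] at hsum
    exact back1 e (hub1 (hyp.comp1 e) (by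
      show m (e 0) ≤ 8
      omega))
  · let e : Fin 2 ≃ ι := (Fintype.equivFinOfCardEq hc).symm
    rw [← e.sum_comp, Fin.sum_univ_two] at hsum
    have h0 := hm3 (e 0)
    have h1 := hm3 (e 1)
    rcases le_total (m (e 0)) (m (e 1)) with h01 | h01
    · exact two1 hyp e h01 h0 (by omega)
    · refine two1 hyp ((Equiv.swap 0 1).trans e) ?_ ?_ ?_
      · simpa using h01
      · simpa using h1
      · have : m (e 1) + m (e 0) ≤ 9 := by omega
        simpa using this
  · let e : Fin 3 ≃ ι := (Fintype.equivFinOfCardEq hc).symm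
    rw [← e.sum_comp, Fin.sum_univ_three] at hsum
    have h0 := hm3 (e 0)
    have h1 := hm3 (e 1)
    have h2 := hm3 (e 2)
    by_cases a0 : m (e 0) ≤ 3
    · by_cases a1 : m (e 1) ≤ 3
      · exact three1 hyp e a0 a1 (by omega)
      · have b2 : m (e 2) ≤ 3 := by omega
        have b1 : m (e 1) ≤ 4 := by omega
        have hsw : (Equiv.swap (1 : Fin 3) 2) 0 = 0 := by decide
        refine three1 hyp ((Equiv.swap 1 2).trans e) ?_ ?_ ?_
        · simpa [hsw] using a0
        · simpa using b2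
        · simpa using b1
    · have b2 : m (e 2) ≤ 3 := by omega
      have b1 : m (e 1) ≤ 3 := by omega
      have b0 : m (e 0) ≤ 4 := by omega
      have hsw : (Equiv.swap (0 : Fin 3) 2) 1 = 1 := by decide
      refine three1 hyp ((Equiv.swap 0 2).trans e) ?_ ?_ ?_
      · simpa using b2
      · simpa [hsw] using b1
      · simpa using b0

end Pool.Agent.Helper33.RG
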