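import Pool.Agent.Helper33.RG.CDefs

/-!
# Block RG-HUBB: the choice of the typical vertex (MP_1f20e3_co)

`choose_x`. PROOF. Let `Z` = the `x ∈ P` which have no neighbour in some `C' ⊆ B` with `1 ≤ |C'| ≤ 3`, `cov G P C' ≥ (1-θ/2)|P|`, `θ = ε/10^17`. There are at most `1531^3` such `C'` (`|B| ≤ 1530`; e.g. they are images of functions `Fin 3 → B`, so at most `1530^3`), each excludes at most `(θ/2)|P|` vertices: `|Z| ≤ κ |P|`,
`κ = 1.8 · 10^9 θ ≤ 1.8 · 10^(-8) ε`. If all `x ∈ P \ Z` had at least `q + 1` neighbours in `W` then `(q + 1)(1 - κ)|P| ≤ ∑_{u ∈ W} cov G P {u} ≤ (q + 1 - ε/20)|P|`, so `ε/20 ≤ (q + 1) κ ≤ 220002 · 1.8 · 10^(-8) ε`: contradiction.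
-/

set_option autoImplicit false

namespace Pool.Agent.Helper33.RG

open Classical Finset

variable {V : Type} [Fintype V]

omit [Fintype V] in
private lemma mem_triples85 {B C : Finset V} (hC : C ⊆ B) (h1 : 1 ≤ C.card) (h3 : C.card ≤ 3) :
    C ∈ (B ×ˢ B ×ˢ B).image (fun t => ({t.1, t.2.1, t.2.2} : Finset V)) := by
  rw [Finset.mem_image]
  have h : C.card = 1 ∨ C.card = 2 ∨ C.card = 3 := by omega
  rcases h with h | h | h
  · obtain ⟨a, rfl⟩ := Finset.card_eq_one.1 h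
    have ha : a ∈ B := hC (Finset.mem_singleton_self a)
    refine ⟨(a, a, a), ?_, ?_⟩
    · simp only [Finset.mem_product]
      exact ⟨ha, ha, ha⟩
    · simp
  · obtain ⟨a, b, _, rfl⟩ := Finset.card_eq_two.1 h
    have ha : a ∈ B := hC (by simp)
    have hb : b ∈ B := hC (by simp)
    refine ⟨(a, a, b), ?_, ?_⟩
    · simp only [Finset.mem_product]
      exact ⟨ha, ha, hb⟩
    · simp
  · obtain ⟨a, b, c, _, _, _, rfl⟩ := Finset.card_eq_three.1 h
    have ha : a ∈ B := hC (by simp)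
    have hb : b ∈ B := hC (by simp)
    have hc : c ∈ B := hC (by simp)
    refine ⟨(a, b, c), ?_, rfl⟩
    simp only [Finset.mem_product]
    exact ⟨ha, hb, hc⟩

theorem choose_x {G : SimpleGraph V} {P W B : Finset V} {q : ℕ} {ε : ℝ} (hε : 0 < ε)
    (hε1 : ε ≤ 1) (hP : 1 ≤ P.card) (hq : q ≤ 220001) (hB : B.card ≤ 1530)
    (hW : ((∑ u ∈ W, cov G P {u} : ℕ) : ℝ) ≤ ((q : ℝ) + 1 - ε / 20) * (P.card : ℝ)) :
    ∃ x ∈ P, (W.filter fun u => G.Adj x u).card ≤ q ∧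
      ∀ C' ⊆ B, 1 ≤ C'.card → C'.card ≤ 3 →
        (1 - ε / 10 ^ 17 / 2) * (P.card : ℝ) ≤ cov G P C' → ∃ u ∈ C', G.Adj x u := by
  by_contra hcon
  push Not at hcon
  set θ : ℝ := ε / 10 ^ 17 with hθ
  have hθ0 : 0 < θ := by positivity
  set 𝒞 := ((B ×ˢ B ×ˢ B).image (fun t => ({t.1, t.2.1, t.2.2} : Finset V))).filter
    (fun C' => (1 - θ / 2) * (P.card : ℝ) ≤ cov G P C') with h𝒞
  have hcard : 𝒞.card ≤ 1530 ^ 3 := by
    calc 𝒞.card ≤ ((B ×ˢ B ×ˢ B).image (fun t => ({t.1, t.2.1, t.2.2} : Finset V))).card :=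
          Finset.card_filter_le _ _
      _ ≤ (B ×ˢ B ×ˢ B).card := Finset.card_image_le
      _ = B.card * (B.card * B.card) := by rw [Finset.card_product, Finset.card_product]
      _ ≤ 1530 * (1530 * 1530) := Nat.mul_le_mul hB (Nat.mul_le_mul hB hB)
      _ = 1530 ^ 3 := by norm_num
  set Z := P.filter (fun x => ∃ C' ∈ 𝒞, ∀ u ∈ C', ¬ G.Adj x u) with hZ
  have hZsub : Z ⊆ 𝒞.biUnion (fun C' => P.filter (fun x => ∀ u ∈ C', ¬ G.Adj x u)) := by
    intro x hx
    rw [hZ, Finset.mem_filter] at hx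
    obtain ⟨hxP, C', hC', hxC⟩ := hx
    rw [Finset.mem_biUnion]
    exact ⟨C', hC', Finset.mem_filter.2 ⟨hxP, hxC⟩⟩
  have hP0 : (0 : ℝ) < P.card := by exact_mod_cast hP
  have hone : ∀ C' ∈ 𝒞, ((P.filter (fun x => ∀ u ∈ C', ¬ G.Adj x u)).card : ℝ) ≤
      θ / 2 * P.card := by
    intro C' hC'
    rw [h𝒞, Finset.mem_filter] at hC'
    have h1 := Finset.card_filter_add_card_filter_not (s := P) (fun x => ∃ u ∈ C', G.Adj x u)
    have h2 : P.filter (fun x => ¬ ∃ u ∈ C', G.Adj x u) =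
        P.filter (fun x => ∀ u ∈ C', ¬ G.Adj x u) := by
      apply Finset.filter_congr
      intro x _
      push Not
      rfl
    rw [h2] at h1
    have h3 : (cov G P C' : ℝ) + ((P.filter (fun x => ∀ u ∈ C', ¬ G.Adj x u)).card : ℝ) =
        P.card := by
      unfold cov
      exact_mod_cast h1
    have h4 := hC'.2
    linarith
  have hZcard : (Z.card : ℝ) ≤ 1530 ^ 3 * (θ / 2 * P.card) := by
    calc (Z.card : ℝ) ≤ ((𝒞.biUnion (fun C' =>
          P.filter (fun x => ∀ u ∈ C', ¬ G.Adj x u))).card : ℝ) := by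
          exact_mod_cast Finset.card_le_card hZsub
      _ ≤ ((∑ C' ∈ 𝒞, (P.filter (fun x => ∀ u ∈ C', ¬ G.Adj x u)).card : ℕ) : ℝ) := by
          exact_mod_cast Finset.card_biUnion_le
      _ = ∑ C' ∈ 𝒞, ((P.filter (fun x => ∀ u ∈ C', ¬ G.Adj x u)).card : ℝ) := by
          push_cast; rfl
      _ ≤ ∑ _C' ∈ 𝒞, θ / 2 * (P.card : ℝ) := Finset.sum_le_sum hone
      _ = 𝒞.card * (θ / 2 * P.card) := by rw [Finset.sum_const, nsmul_eq_mul]
      _ ≤ 1530 ^ 3 * (θ / 2 * P.card) := by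
          apply mul_le_mul_of_nonneg_right _ (by positivity)
          exact_mod_cast hcard
  have hbig : ∀ x ∈ P \ Z, q + 1 ≤ (W.filter fun u => G.Adj x u).card := by
    intro x hx
    rw [Finset.mem_sdiff] at hx
    by_contra hlt
    obtain ⟨C', hC1, hC2, hC3, hC4, hC5⟩ := hcon x hx.1 (by omega)
    apply hx.2
    rw [hZ, Finset.mem_filter]
    refine ⟨hx.1, C', ?_, hC5⟩
    rw [h𝒞, Finset.mem_filter]
    exact ⟨mem_triples85 hC1 hC2 hC3, hC4⟩
  have hdc : ∑ u ∈ W, cov G P {u} = ∑ x ∈ P, (W.filter fun u => G.Adj x u).card := by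
    have h1 : ∀ u ∈ W, cov G P {u} = ∑ x ∈ P, if G.Adj x u then 1 else 0 := by
      intro u _
      unfold cov
      rw [Finset.card_filter]
      refine Finset.sum_congr rfl fun x _ => ?_
      simp
    have h2 : ∀ x ∈ P, (W.filter fun u => G.Adj x u).card = ∑ u ∈ W, if G.Adj x u then 1 else 0 :=
      fun x _ => Finset.card_filter _ _
    rw [Finset.sum_congr rfl h1, Finset.sum_congr rfl h2, Finset.sum_comm]
  have hlow : (q + 1) * (P \ Z).card ≤ ∑ u ∈ W, cov G P {u} := by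
    rw [hdc]
    calc (q + 1) * (P \ Z).card = ∑ _x ∈ P \ Z, (q + 1) := by
          rw [Finset.sum_const, smul_eq_mul, mul_comm]
      _ ≤ ∑ x ∈ P \ Z, (W.filter fun u => G.Adj x u).card := Finset.sum_le_sum hbig
      _ ≤ ∑ x ∈ P, (W.filter fun u => G.Adj x u).card :=
          Finset.sum_le_sum_of_subset Finset.sdiff_subset
  have hPZ : ((P \ Z).card : ℝ) = P.card - Z.card := by
    have h1 := Finset.card_sdiff_add_card_eq_card (Finset.filter_subset _ _ : Z ⊆ P)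
    have h2 : ((P \ Z).card : ℝ) + Z.card = P.card := by exact_mod_cast h1
    linarith
  have h1 : ((q : ℝ) + 1) * (P.card - Z.card) ≤ ((q : ℝ) + 1 - ε / 20) * P.card := by
    rw [← hPZ]
    refine le_trans ?_ hW
    exact_mod_cast hlow
  have hq' : (q : ℝ) + 1 ≤ 220002 := by
    have : (q : ℝ) ≤ 220001 := by exact_mod_cast hq
    linarith
  have h2 : ε / 20 * P.card ≤ ((q : ℝ) + 1) * Z.card := by nlinarith
  have h3 : ((q : ℝ) + 1) * Z.card ≤ 220002 * (1530 ^ 3 * (θ / 2 * P.card)) :=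
    mul_le_mul hq' hZcard (Nat.cast_nonneg _) (by norm_num)
  have h4 : ε / 20 * (P.card : ℝ) ≤ (220002 * 1530 ^ 3 / 10 ^ 17 / 2 * ε) * P.card := by
    refine (h2.trans h3).trans (le_of_eq ?_)
    rw [hθ]
    ring
  have h5 := le_of_mul_le_mul_right h4 hP0
  norm_num at h5
  linarith

end Pool.Agent.Helper33.RG
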