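import Pool.Agent.Helper33.RG.HubBasic

/-!
# Block RG-KER: the kernel lemma and classes from `Ach` (MP_1f20e3_co)

`kernel`: proof in its docstring. `ach_classes`: PROOF by induction on `Ach`: `nil`: `𝒞 = ∅`. `cons`: classes `𝒞'`, `cl'` for `S \ C`; `𝒞 = insert C 𝒞'`, `cl` = `cl'` updated at `C` (`C ∉ 𝒞'` since the elements of `𝒞'` are subsets of `S \ C` and `C` is nonempty); `∑` over `insert`.
-/

set_option autoImplicit false

namespace Pool.Agent.Helper33.RG

variable {α : Type} [DecidableEq α]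

/-- The kernel lemma. PROOF: induction on `r`. `r = 0`: `∅`. `r + 1`: let `uv` be an edge of `T[A]`; `A \ {u}` and `A \ {v}` have `τ ≥ r`, with kernels `B₁`, `B₂` of size `≤ 2^(r+1) - 2`;
`B = {u, v} ∪ B₁ ∪ B₂`: a vertex cover `X` of `T[B]` contains `u` or `v`; if `u ∈ X` then `X \ {u}` contains a cover of `T[B₁]`, so `|X| ≥ 1 + r`. -/
theorem kernel {T : SimpleGraph α} {A : Finset α} {r : ℕ} (h : Tau T A r) :
    ∃ B ⊆ A, B.card ≤ 2 ^ (r + 1) - 2 ∧ Tau T B r := by
  induction r generalizing A with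
  | zero => exact ⟨∅, Finset.empty_subset _, by simp, fun X _ _ => Nat.zero_le _⟩
  | succ r ih =>
    obtain ⟨u, hu, v, hv, huv⟩ := h.edge (by omega)
    obtain ⟨B₁, hB₁, hc₁, ht₁⟩ := ih (h.sdiff' (l := r) {u} (by rw [Finset.card_singleton]))
    obtain ⟨B₂, hB₂, hc₂, ht₂⟩ := ih (h.sdiff' (l := r) {v} (by rw [Finset.card_singleton]))
    have key : ∀ (w : α) (B' X : Finset α), w ∈ X → B' ⊆ A \ {w} → Tau T B' r →
        (∀ a ∈ B' \ X, ∀ b ∈ B' \ X, ¬ T.Adj a b) → r + 1 ≤ X.card := by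
      intro w B' X hw hB' ht hcov
      have h1 := ht ((X \ {w}) ∩ B') Finset.inter_subset_right ?_
      · have h2 : ((X \ {w}) ∩ B').card ≤ (X \ {w}).card :=
          Finset.card_le_card Finset.inter_subset_left
        have h3 : (X \ {w}).card + 1 = X.card := by
          rw [Finset.sdiff_singleton_eq_erase]
          exact Finset.card_erase_add_one hw
        omega
      · have h4 : ∀ a ∈ B' \ ((X \ {w}) ∩ B'), a ∈ B' \ X := by
          intro a ha
          rw [Finset.mem_sdiff, Finset.mem_inter, Finset.mem_sdiff] at ha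
          rw [Finset.mem_sdiff]
          refine ⟨ha.1, fun hX => ha.2 ⟨⟨hX, ?_⟩, ha.1⟩⟩
          exact (Finset.mem_sdiff.1 (hB' ha.1)).2
        exact fun a ha b hb => hcov a (h4 a ha) b (h4 b hb)
    refine ⟨{u, v} ∪ (B₁ ∪ B₂), ?_, ?_, ?_⟩
    · intro y hy
      rcases Finset.mem_union.1 hy with hy | hy
      · rw [Finset.mem_insert, Finset.mem_singleton] at hy
        rcases hy with rfl | rfl
        · exact hu
        · exact hv
      · rcases Finset.mem_union.1 hy with hy | hy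
        · exact (Finset.mem_sdiff.1 (hB₁ hy)).1
        · exact (Finset.mem_sdiff.1 (hB₂ hy)).1
    · have e1 := Finset.card_union_le ({u, v} : Finset α) (B₁ ∪ B₂)
      have e2 := Finset.card_union_le B₁ B₂
      have e3 : ({u, v} : Finset α).card = 2 := Finset.card_pair huv.ne
      have e4 : 2 ^ (r + 1 + 1) = 2 * 2 ^ (r + 1) := by rw [pow_succ]; ring
      have e5 : 2 ≤ 2 ^ (r + 1) := by
        calc 2 = 2 ^ 1 := (pow_one 2).symm
          _ ≤ 2 ^ (r + 1) := Nat.pow_le_pow_right (by norm_num) (by omega)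
      omega
    · intro X hX hcov
      have hsub₁ : ∀ a ∈ B₁ \ X, a ∈ ({u, v} ∪ (B₁ ∪ B₂)) \ X := fun a ha => by
        rw [Finset.mem_sdiff] at ha ⊢
        exact ⟨Finset.mem_union_right _ (Finset.mem_union_left _ ha.1), ha.2⟩
      have hsub₂ : ∀ a ∈ B₂ \ X, a ∈ ({u, v} ∪ (B₁ ∪ B₂)) \ X := fun a ha => by
        rw [Finset.mem_sdiff] at ha ⊢
        exact ⟨Finset.mem_union_right _ (Finset.mem_union_right _ ha.1), ha.2⟩
      by_cases huX : u ∈ X
      · exact key u B₁ X huX hB₁ ht₁ fun a ha b hb => hcov a (hsub₁ a ha) b (hsub₁ b hb)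
      by_cases hvX : v ∈ X
      · exact key v B₂ X hvX hB₂ ht₂ fun a ha b hb => hcov a (hsub₂ a ha) b (hsub₂ b hb)
      exfalso
      refine hcov u ?_ v ?_ huv
      · rw [Finset.mem_sdiff]
        exact ⟨Finset.mem_union_left _ (Finset.mem_insert_self _ _), huX⟩
      · rw [Finset.mem_sdiff]
        exact ⟨Finset.mem_union_left _ (Finset.mem_insert_of_mem (Finset.mem_singleton_self _)), hvX⟩

theorem ach_classes {ι : Type} [DecidableEq ι] {T : SimpleGraph α} {V H : ι → Finset α}
    {S : Finset α} {x : ι → ℤ} (h : Ach T V H S x) :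
    ∃ (𝒞 : Finset (Finset α)) (cl : Finset α → Finset ι),
      (∀ C ∈ 𝒞, C ⊆ S ∧ T.IsClique (C : Set α) ∧
        ((C.card = 2 ∧ (cl C).card ≤ 3) ∨ (C.card = 3 ∧ (cl C).card ≤ 2))) ∧
      (∀ C ∈ 𝒞, ∀ C' ∈ 𝒞, C ≠ C' → Disjoint C C') ∧
      ∀ i, x i ≤ ∑ C ∈ 𝒞, ctr (V i) (H i) C (i ∈ cl C) := by
  induction h with
  | nil S x hx =>
    refine ⟨∅, fun _ => ∅, ?_, ?_, ?_⟩
    · intro C hC
      exact absurd hC (Finset.notMem_empty C)
    · intro C hC
      exact absurd hC (Finset.notMem_empty C)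
    · intro i
      rw [Finset.sum_empty]
      exact hx i
  | cons S C cl₀ x x' hCS hC hcl hS hx ih =>
    obtain ⟨𝒞', cl', h1, h2, h3⟩ := ih
    have hsub : ∀ D ∈ 𝒞', D ⊆ S ∧ Disjoint C D := by
      intro D hD
      have h4 := (h1 D hD).1
      exact ⟨h4.trans Finset.sdiff_subset, Finset.disjoint_of_subset_right h4 Finset.disjoint_sdiff⟩
    have hCn : C ∉ 𝒞' := by
      intro hmem
      have h4 := (hsub C hmem).2
      rw [Finset.disjoint_self_iff_empty] at h4
      rw [h4, Finset.card_empty] at hcl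
      omega
    set cl : Finset α → Finset ι := fun D => if D = C then cl₀ else cl' D with hcldef
    have e1 : cl C = cl₀ := if_pos rfl
    have e2 : ∀ D ∈ 𝒞', cl D = cl' D := by
      intro D hD
      have hne : D ≠ C := by
        rintro rfl
        exact hCn hD
      exact if_neg hne
    refine ⟨insert C 𝒞', cl, ?_, ?_, ?_⟩
    · intro D hD
      rcases Finset.mem_insert.1 hD with rfl | hD
      · rw [e1]
        exact ⟨hCS, hC, hcl⟩
      · rw [e2 D hD]
        exact ⟨(hsub D hD).1, (h1 D hD).2⟩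
    · intro D hD D' hD' hne
      rcases Finset.mem_insert.1 hD with rfl | hD1
      · rcases Finset.mem_insert.1 hD' with rfl | hD2
        · exact absurd rfl hne
        · exact (hsub D' hD2).2
      · rcases Finset.mem_insert.1 hD' with rfl | hD2
        · exact (hsub D hD1).2.symm
        · exact h2 D hD1 D' hD2 hne
    · intro i
      rw [Finset.sum_insert hCn, e1]
      have e3 : ∑ D ∈ 𝒞', ctr (V i) (H i) D (i ∈ cl D) =
          ∑ D ∈ 𝒞', ctr (V i) (H i) D (i ∈ cl' D) :=
        Finset.sum_congr rfl fun D hD => by rw [e2 D hD]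
      rw [e3]
      have h5 := hx i
      have h6 := h3 i
      linarith

end Pool.Agent.Helper33.RG
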