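import Pool.Agent.Helper33.RG.HUBA
import Pool.Agent.Helper33.RG.HUBB
import Pool.Agent.Helper33.RG.KER
import Pool.Agent.Helper33.RG.HLG

/-!
# Block RG-HUB: from the structure to the hub game (MP_1f20e3_co)

PROOF of `hub_game`. `θ = ε / 10^17`, `m i = |M i \ U| ≥ (1 - ε/50) L ≥ L/2`. `T = Gᶜ` (`T.Adj u v` iff `u ≠ v` and `¬ G.Adj u v`).
(1) `hub_numbers` gives `F i`, `q i`, `J`. `a i = L - |M i| ≥ 2` (`clique`, `clq`), `r i = |F i| - a i + 2 = |F i| + |M i| - L + 2 ∈ ℤ`. Every summand `r i + q i - 1` (`i ∈ J`) is `≥ 2`, so `|J| ≤ 3`, `r i ≤ 8`.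
(2) For `i ∈ J`: `Tau T (F i ∪ M i) (r i).toNat`: for a cover `X` the set `(F i ∪ M i) \ X` is a clique of `G`, so `|F i| + |M i| - |X| + 2 ≤ L`. `kernel`: `B i ⊆ F i ∪ M i`, `|B i| ≤ 510`, `Tau T (B i) (r i).toNat`. `B = ⋃_{i ∈ J} B i`, `|B| ≤ 1530`. `S = U ∪ B`, `P i = M i \ S`,
`Vf i = F i ∪ (M i ∩ S)`; `F i` and `M i` are disjoint. `m i - 1530 ≤ |P i| ≤ m i`.
(3) `nonfull`: `u ∈ S \ Vf i`: if `u ∈ U`: `u ∈ (U \ M i) \ F i`, `cov (P i) {u} ≤ cov (M i \ U) {u} < (1-θ) m i < (1 - θ/2)|P i|` (`(θ/2) |P i| > 1530` by `hL`); if `u ∈ B \ U`: `u ∈ M j` for some `j ≠ i`, `u ∉ M i`: `cov (P i) {u} ≤ η L < (1 - θ/2)|P i|` (`Str.cross`).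
`∑_{u ∈ S \ Vf i} cov (P i) {u} ≤ (q i + 1 - ε/10) m i + 1530 η L ≤ (q i + 1 - ε/20) |P i|` (`m i ≤ |P i| + 1530`, `(q i + 1) 1530 ≤ (ε/100) |P i|`, `1530 η L ≤ (ε/100)|P i|`).
(4) `choose_x` for every `i` with `P i`, `W = S \ Vf i`, `B`: `x i`. `Hf i = (S \ Vf i) ∩ N(x i)`, `|Hf i| ≤ q i`.
(5) `hub_lemma` for the indices `{i // i ∈ J}`, `V i = Vf i ∩ B ⊇ B i` (`Tau.mono`), `H i = Hf i ∩ B`, `S := B`: `Ach T V H B (fun i => r i - 2)`. `ach_classes`: `𝒞`, `cl`; map `cl C` to `Finset I` (`Finset.map`), `i ∈ cl C` only for `i ∈ J`. `T`-cliques are independent sets of `G`.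
`bb Vf Hf cl i C = |C ∩ Vf i| - ctr (V i) (H i) C (i ∈ cl C)` for `i ∈ J`, `C ∈ 𝒞` (`C ⊆ B`; for `i ∈ cl C`: `C` meets `Vf i`: `1`; else meets `Hf i`: `0 + 1`; else `0`). So for `i ∈ J`: `|Vf i \ ⋃𝒞| + ∑ bb = |Vf i| - ∑ ctr ≤ |Vf i| - r i + 2 = |F i| + |M i ∩ S| - |F i| + a i = L - |P i|` (the classes are disjoint).
For `i ∉ J`: `i ∉ cl C`, `|Vf i \ ⋃𝒞| + ∑ bb ≤ |Vf i| + |Hf i| ≤ |F i| + |M i ∩ S| + q i ≤ a i + |M i ∩ S| = L - |P i|` (as `|F i| - a i + 2 + q i ≤ 2`).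
`block`: `C' ⊆ C ∈ 𝒞` (so `C' ⊆ B`, `|C'| ≤ 3`), disjoint from `Vf i`, covering `≥ (1-θ/2)|P i| > 0` vertices (so `C' ≠ ∅`): `x i` has a neighbour in `C'`, it is in `Hf i`.
-/

set_option autoImplicit false

namespace Pool.Agent.Helper33.RG

open Classical Finset

variable {V : Type} [Fintype V]

omit [Fintype V] in
theorem cov_mono {G : SimpleGraph V} {P P' C : Finset V} (h : P ⊆ P') :
    cov G P C ≤ cov G P' C :=
  Finset.card_le_card (Finset.filter_subset_filter _ h)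

omit [Fintype V] in
theorem bb_add_ctr {I : Type} (Vf Hf : I → Finset V) (cl : Finset V → Finset I) (i : I)
    (C V' H' : Finset V) (hV : C ∩ V' = C ∩ Vf i) (hH : C ∩ H' = C ∩ Hf i) (c : Prop)
    [Decidable c] (hc : c ↔ i ∈ cl C) :
    (bb Vf Hf cl i C : ℤ) + ctr V' H' C c ≤ (C ∩ Vf i).card := by
  unfold bb ctr
  rw [hV, hH]
  by_cases h : c
  · rw [if_pos (hc.1 h), if_pos h]
    by_cases h1 : (C ∩ Vf i).Nonempty
    · rw [if_pos h1]
      have h2 : (C ∩ (Vf i ∪ Hf i)).Nonempty := by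
        obtain ⟨y, hy⟩ := h1
        rw [Finset.mem_inter] at hy
        exact ⟨y, by simp [hy.1, hy.2]⟩
      rw [if_pos h2]
      push_cast
      linarith
    · rw [if_neg h1]
      by_cases h2 : (C ∩ Hf i).Nonempty
      · rw [if_pos h2]
        split_ifs <;> push_cast <;> have := (C ∩ Vf i).card.zero_le <;> omega
      · rw [if_neg h2]
        have h3 : ¬ (C ∩ (Vf i ∪ Hf i)).Nonempty := by
          rw [Finset.inter_union_distrib_left, Finset.union_nonempty]
          rintro (h | h)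
          · exact h1 h
          · exact h2 h
        rw [if_neg h3]
        push_cast
        omega
  · rw [if_neg (fun h' => h (hc.2 h')), if_neg h]
    push_cast
    linarith

theorem hub_game {G : SimpleGraph V} {L : ℕ} {I : Type} [Fintype I] {M : I → Finset V}
    {U : Finset V} {ε δ η : ℝ} {KU : ℕ} (hst : Str G L M U ε δ η KU) (hε : 0 < ε) (hε1 : ε ≤ 1)
    (hδ : δ ≤ ε / 100) (hη : 0 ≤ η) (hη1 : η ≤ ε / 10 ^ 6)
    (hL : ((KU : ℝ) + 1600) * 10 ^ 22 ≤ ε * L) :
    ∃ (S : Finset V) (Vf Hf : I → Finset V) (𝒞 : Finset (Finset V)) (cl : Finset V → Finset I),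
      U ⊆ S ∧ S.card ≤ KU + 1600 ∧ HubData G L M S Vf Hf 𝒞 cl (ε / 10 ^ 17) := by
  obtain ⟨F, q, J, hF, hnf, hsum, hq, hJ, hJs⟩ := hub_numbers hst hε hε1 hδ hL
  have hKU : (0 : ℝ) ≤ KU := Nat.cast_nonneg _
  have hL0 : (0 : ℝ) ≤ L := Nat.cast_nonneg _
  have hεL : ε * L ≤ L := by nlinarith
  have hLbig : (1600 : ℝ) * 10 ^ 22 ≤ ε * L := by nlinarith
  -- the numbers `r i`
  set r : I → ℤ := fun i => ((F i).card : ℤ) + (M i).card - L + 2 with hr
  have hJs' : ∑ i ∈ J, (r i + q i - 1) ≤ 7 := hJs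
  have hJ' : ∀ i, i ∈ J ↔ (3 : ℤ) ≤ r i + q i := hJ
  have hJ2 : ∀ i ∈ J, (2 : ℤ) ≤ r i + q i - 1 := by
    intro i hi
    have := (hJ' i).1 hi
    linarith
  have hJcard : J.card ≤ 3 := by
    have h1 : J.card • (2 : ℤ) ≤ ∑ i ∈ J, (r i + q i - 1) := Finset.card_nsmul_le_sum _ _ _ hJ2
    rw [nsmul_eq_mul] at h1
    have h2 : (J.card : ℤ) * 2 ≤ 7 := h1.trans hJs'
    omega
  have hr8 : ∀ i ∈ J, r i ≤ 8 := by
    intro i hi
    have h1 : r i + q i - 1 ≤ ∑ i ∈ J, (r i + q i - 1) :=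
      Finset.single_le_sum (f := fun i => r i + q i - 1)
        (fun j hj => le_trans (by norm_num) (hJ2 j hj)) hi
    have h2 : (0 : ℤ) ≤ q i := Int.natCast_nonneg _
    linarith
  -- the vertex cover number
  have hτ : ∀ i, Tau Gᶜ (F i ∪ M i) (r i).toNat := by
    intro i X hX hcov
    have h1 : G.IsClique (((F i ∪ M i) \ X : Finset V) : Set V) := by
      rw [SimpleGraph.isClique_iff]
      intro u hu v hv huv
      have h2 := hcov u (Finset.mem_coe.1 hu) v (Finset.mem_coe.1 hv)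
      rw [SimpleGraph.compl_adj] at h2
      by_contra h3
      exact h2 ⟨huv, h3⟩
    have h2 := hst.clq _ h1
    have h3 : ((F i ∪ M i) \ X).card + X.card = (F i ∪ M i).card :=
      Finset.card_sdiff_add_card_eq_card hX
    have h4 : (F i ∪ M i).card = (F i).card + (M i).card := by
      refine Finset.card_union_of_disjoint ?_
      rw [Finset.disjoint_left]
      intro y hy hy'
      exact (Finset.mem_sdiff.1 (hF i hy)).2 hy'
    rw [Int.toNat_le]
    show ((F i).card : ℤ) + (M i).card - L + 2 ≤ X.card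
    omega
  choose Bk hB1 hB2 hB3 using fun i => kernel (hτ i)
  set B : Finset V := J.biUnion Bk with hB
  have hBcard : B.card ≤ 1530 := by
    refine (Finset.card_biUnion_le).trans ?_
    have h1 : ∀ i ∈ J, (Bk i).card ≤ 510 := by
      intro i hi
      refine (hB2 i).trans ?_
      have h2 : (r i).toNat ≤ 8 := by
        rw [Int.toNat_le]; exact_mod_cast hr8 i hi
      have h3 : 2 ^ ((r i).toNat + 1) ≤ 2 ^ 9 := Nat.pow_le_pow_right (by norm_num) (by omega)
      omega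
    refine (Finset.sum_le_card_nsmul _ _ _ h1).trans ?_
    rw [smul_eq_mul]
    omega
  set S : Finset V := U ∪ B with hS
  have hScard : S.card ≤ KU + 1600 := by
    have h1 : S.card ≤ U.card + B.card := Finset.card_union_le U B
    have h2 := hst.cardU
    omega
  set P : I → Finset V := fun i => M i \ S with hP
  set Vf : I → Finset V := fun i => F i ∪ (M i ∩ S) with hVf
  have hSV : ∀ i u, u ∈ S \ Vf i → u ∈ S ∧ u ∉ F i ∧ u ∉ M i := by
    intro i u hu
    have h1 := Finset.mem_sdiff.1 hu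
    refine ⟨h1.1, fun h => h1.2 (Finset.mem_union_left _ h), fun h => h1.2 ?_⟩
    exact Finset.mem_union_right _ (Finset.mem_inter.2 ⟨h, h1.1⟩)
  have hPU : ∀ i, P i ⊆ M i \ U := fun i =>
    Finset.sdiff_subset_sdiff subset_rfl Finset.subset_union_left
  -- sizes
  have hm1 : ∀ i, (98 / 100 : ℝ) * L ≤ ((M i \ U).card : ℝ) := by
    intro i
    have h1 := hst.big i
    have h2 : ((M i).card : ℝ) ≤ ((M i \ U).card : ℝ) + U.card := by
      have := Finset.card_le_card_sdiff_add_card (s := M i) (t := U)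
      exact_mod_cast this
    have h3 : (U.card : ℝ) ≤ KU := by exact_mod_cast hst.cardU
    have h4 : (1 - δ) * (L : ℝ) ≥ (99 / 100) * L := by nlinarith
    nlinarith
  have hmP : ∀ i, ((M i \ U).card : ℝ) ≤ ((P i).card : ℝ) + 1530 := by
    intro i
    have h1 : (M i \ U).card ≤ (P i).card + B.card := by
      have h2 : M i \ U ⊆ P i ∪ B := by
        intro y hy
        rw [Finset.mem_sdiff] at hy
        by_cases hyB : y ∈ B
        · exact Finset.mem_union_right _ hyB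
        · refine Finset.mem_union_left _ (Finset.mem_sdiff.2 ⟨hy.1, ?_⟩)
          rw [hS, Finset.mem_union]
          rintro (h | h)
          · exact hy.2 h
          · exact hyB h
      exact (Finset.card_le_card h2).trans (Finset.card_union_le _ _)
    have h2 : (M i \ U).card ≤ (P i).card + 1530 := by omega
    exact_mod_cast h2
  have hP1 : ∀ i, (9 / 10 : ℝ) * L ≤ ((P i).card : ℝ) := by
    intro i
    have h1 := hm1 i
    have h2 := hmP i
    nlinarith
  have hPpos : ∀ i, 1 ≤ (P i).card := by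
    intro i
    have h1 := hP1 i
    have h2 : (1 : ℝ) ≤ (P i).card := by nlinarith
    exact_mod_cast h2
  have hθ0 : 0 ≤ ε / 10 ^ 17 := by positivity
  have hθP : ∀ i, (1530 : ℝ) < ε / 10 ^ 17 / 2 * (P i).card := by
    intro i
    have h1 := hP1 i
    have h2 : ε * ((9 / 10 : ℝ) * L) ≤ ε * (P i).card := mul_le_mul_of_nonneg_left h1 hε.le
    nlinarith
  have hθ1 : ε / 10 ^ 17 / 2 ≤ 1 / 2 := by
    rw [div_div, div_le_iff₀ (by norm_num)]
    nlinarith
  -- other cliques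
  have hother : ∀ i, ∀ u, u ∉ U → u ∉ M i → (cov G (P i) {u} : ℝ) ≤ ε / 10 ^ 6 * L := by
    intro i u hu hui
    obtain ⟨j, hj⟩ := (hst.cover u).resolve_left hu
    have hji : j ≠ i := by
      rintro rfl
      exact hui hj
    have h1 := hst.cross j i hji u hj hu
    have h2 : cov G (P i) {u} ≤ ((M i).filter fun x => G.Adj u x).card := by
      refine Finset.card_le_card ?_
      intro y hy
      rw [Finset.mem_filter] at hy ⊢
      obtain ⟨hy1, u', hu', hy2⟩ := hy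
      rw [Finset.mem_singleton] at hu'
      subst hu'
      exact ⟨(Finset.mem_sdiff.1 hy1).1, hy2.symm⟩
    have h3 : (cov G (P i) {u} : ℝ) ≤ η * L := le_trans (by exact_mod_cast h2) h1
    exact h3.trans (mul_le_mul_of_nonneg_right hη1 hL0)
  have hnonfull : ∀ i, ∀ u ∈ S \ Vf i,
      (cov G (P i) {u} : ℝ) < (1 - ε / 10 ^ 17 / 2) * ((P i).card : ℝ) := by
    intro i u hu
    obtain ⟨huS, huF, huM'⟩ := hSV i u hu
    have h5 := hP1 i
    by_cases huU : u ∈ U
    · have h1 := hnf i u (Finset.mem_sdiff.2 ⟨Finset.mem_sdiff.2 ⟨huU, huM'⟩, huF⟩)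
      have h2 : (cov G (P i) {u} : ℝ) ≤ cov G (M i \ U) {u} := by
        exact_mod_cast cov_mono (hPU i)
      have h3 := hmP i
      have h4 := hθP i
      have h6 : (1 - ε / 10 ^ 17) * ((M i \ U).card : ℝ) ≤
          (1 - ε / 10 ^ 17) * (((P i).card : ℝ) + 1530) :=
        mul_le_mul_of_nonneg_left h3 (by linarith)
      have h7 : (1 - ε / 10 ^ 17) * (((P i).card : ℝ) + 1530) ≤
          (1 - ε / 10 ^ 17) * ((P i).card : ℝ) + 1530 := by
        have : (1 - ε / 10 ^ 17) * 1530 ≤ (1530 : ℝ) := by nlinarith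
        linarith [mul_add (1 - ε / 10 ^ 17) ((P i).card : ℝ) 1530]
      have h8 : (1 - ε / 10 ^ 17 / 2) * ((P i).card : ℝ) =
          (1 - ε / 10 ^ 17) * ((P i).card : ℝ) + ε / 10 ^ 17 / 2 * (P i).card := by ring
      rw [h8]
      linarith
    · have h1 := hother i u huU huM'
      have h2 : ε / 10 ^ 6 * L ≤ L / 10 := by
        rw [div_mul_eq_mul_div, div_le_iff₀ (by norm_num)]
        nlinarith
      have h3 : (1 / 2 : ℝ) * ((P i).card : ℝ) ≤ (1 - ε / 10 ^ 17 / 2) * ((P i).card : ℝ) :=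
        mul_le_mul_of_nonneg_right (by linarith) (Nat.cast_nonneg _)
      have h4 : (0 : ℝ) < L := by nlinarith
      linarith
  have hsumW : ∀ i, ((∑ u ∈ S \ Vf i, cov G (P i) {u} : ℕ) : ℝ) ≤
      ((q i : ℝ) + 1 - ε / 20) * ((P i).card : ℝ) := by
    intro i
    have h0 : S \ Vf i ⊆ ((U \ M i) \ F i) ∪ ((S \ Vf i) \ U) := by
      intro u hu
      by_cases huU : u ∈ U
      · refine Finset.mem_union_left _ ?_
        obtain ⟨huS, huF, huM'⟩ := hSV i u hu
        exact Finset.mem_sdiff.2 ⟨Finset.mem_sdiff.2 ⟨huU, huM'⟩, huF⟩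
      · exact Finset.mem_union_right _ (Finset.mem_sdiff.2 ⟨hu, huU⟩)
    have h1 : ∑ u ∈ S \ Vf i, cov G (P i) {u} ≤ ∑ u ∈ (U \ M i) \ F i, cov G (M i \ U) {u} +
        ∑ u ∈ (S \ Vf i) \ U, cov G (P i) {u} := by
      calc ∑ u ∈ S \ Vf i, cov G (P i) {u}
          ≤ ∑ u ∈ ((U \ M i) \ F i) ∪ ((S \ Vf i) \ U), cov G (P i) {u} :=
            Finset.sum_le_sum_of_subset h0
        _ ≤ ∑ u ∈ (U \ M i) \ F i, cov G (P i) {u} + ∑ u ∈ (S \ Vf i) \ U, cov G (P i) {u} := by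
            rw [← Finset.sum_union_inter]
            exact Nat.le_add_right _ _
        _ ≤ _ := by
            refine Nat.add_le_add_right (Finset.sum_le_sum fun u _ => cov_mono (hPU i)) _
    have h2 : ((∑ u ∈ (S \ Vf i) \ U, cov G (P i) {u} : ℕ) : ℝ) ≤ 1530 * (ε / 10 ^ 6 * L) := by
      push_cast
      have h3 : ∀ u ∈ (S \ Vf i) \ U, (cov G (P i) {u} : ℝ) ≤ ε / 10 ^ 6 * L := by
        intro u hu
        rw [Finset.mem_sdiff] at hu
        exact hother i u hu.2 (hSV i u hu.1).2.2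
      refine (Finset.sum_le_card_nsmul _ _ _ h3).trans ?_
      rw [nsmul_eq_mul]
      refine mul_le_mul_of_nonneg_right ?_ (by positivity)
      have h4 : (S \ Vf i) \ U ⊆ B := by
        intro u hu
        rw [Finset.mem_sdiff, Finset.mem_sdiff, hS, Finset.mem_union] at hu
        exact hu.1.1.resolve_left hu.2
      exact_mod_cast (Finset.card_le_card h4).trans hBcard
    have h3 := hsum i
    have h4 := hmP i
    have h5 := hP1 i
    have hqi : (q i : ℝ) ≤ 220001 := by exact_mod_cast hq i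
    have hqi0 : (0 : ℝ) ≤ q i := Nat.cast_nonneg _
    have h6 : ((∑ u ∈ S \ Vf i, cov G (P i) {u} : ℕ) : ℝ) ≤
        ((∑ u ∈ (U \ M i) \ F i, cov G (M i \ U) {u} : ℕ) : ℝ) +
        ((∑ u ∈ (S \ Vf i) \ U, cov G (P i) {u} : ℕ) : ℝ) := by
      exact_mod_cast h1
    have h7 : ((q i : ℝ) + 1 - ε / 10) * ((M i \ U).card : ℝ) ≤
        ((q i : ℝ) + 1 - ε / 10) * (((P i).card : ℝ) + 1530) :=
      mul_le_mul_of_nonneg_left h4 (by linarith)
    have h8 : ((q i : ℝ) + 1 - ε / 10) * 1530 ≤ 220002 * 1530 := by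
      refine mul_le_mul_of_nonneg_right ?_ (by norm_num)
      linarith
    have h9 : ε * ((9 / 10 : ℝ) * L) ≤ ε * (P i).card := mul_le_mul_of_nonneg_left h5 hε.le
    have h10 : ((q i : ℝ) + 1 - ε / 10) * (((P i).card : ℝ) + 1530) =
      ((q i : ℝ) + 1 - ε / 20) * ((P i).card : ℝ) - ε * (P i).card / 20 +
        ((q i : ℝ) + 1 - ε / 10) * 1530 := by ring
    have h11 : 1530 * (ε / 10 ^ 6 * L) = 1530 / 10 ^ 6 * (ε * L) := by ring
    rw [h11] at h2
    linarith
  choose x hx1 hx2 hx3 using fun i => choose_x (G := G) (W := S \ Vf i) hε hε1 (hPpos i) (hq i)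
    hBcard (hsumW i)
  set Hf : I → Finset V := fun i => (S \ Vf i).filter fun u => G.Adj (x i) u with hHf
  have hHfc : ∀ i, (Hf i).card ≤ q i := hx2
  have hBS : B ⊆ S := Finset.subset_union_right
  have hFd : ∀ i, Disjoint (F i) (M i ∩ S) := by
    intro i
    rw [Finset.disjoint_left]
    intro y hy hy'
    exact (Finset.mem_sdiff.1 (hF i hy)).2 (Finset.mem_inter.1 hy').1
  have hVfc : ∀ i, (Vf i).card = (F i).card + (M i ∩ S).card := fun i =>
    Finset.card_union_of_disjoint (hFd i)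
  have hMc : ∀ i, (M i ∩ S).card + (P i).card = (M i).card := fun i =>
    Finset.card_inter_add_card_sdiff _ _
  -- the hub game
  have hach : Ach Gᶜ (fun i : {i // i ∈ J} => Vf i.1 ∩ B) (fun i : {i // i ∈ J} => Hf i.1 ∩ B) B
      (fun i => r i.1 - 2) := by
    refine hub_lemma (q := fun i : {i // i ∈ J} => q i.1) ?_ ?_ ?_ ?_ ?_ ?_
    · intro i
      refine (hB3 i.1).mono ?_ le_rfl
      intro y hy
      have hyB : y ∈ B := Finset.mem_biUnion.2 ⟨i.1, i.2, hy⟩
      refine Finset.mem_inter.2 ⟨?_, hyB⟩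
      rcases Finset.mem_union.1 (hB1 i.1 hy) with h | h
      · exact Finset.mem_union_left _ h
      · exact Finset.mem_union_right _ (Finset.mem_inter.2 ⟨h, hBS hyB⟩)
    · exact fun i => Finset.inter_subset_right
    · intro i
      rw [Finset.disjoint_left]
      intro y hy hy'
      have h1 := (Finset.mem_filter.1 (Finset.mem_inter.1 hy').1).1
      exact (Finset.mem_sdiff.1 h1).2 (Finset.mem_inter.1 hy).1
    · intro i
      exact (Finset.card_le_card Finset.inter_subset_left).trans (hHfc i.1)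
    · intro i
      exact (hJ' i.1).1 i.2
    · have h1 : ∑ i : {i // i ∈ J}, (r i.1 + q i.1 - 1) = ∑ i ∈ J, (r i + q i - 1) :=
        Finset.sum_coe_sort J (fun i => r i + q i - 1)
      exact h1.le.trans hJs'
  obtain ⟨𝒞, cl', hC1, hC2, hC3⟩ := ach_classes hach
  set cl : Finset V → Finset I := fun C => (cl' C).map (Function.Embedding.subtype _) with hcl
  have hclmem : ∀ C (i : I) (hi : i ∈ J), (⟨i, hi⟩ : {i // i ∈ J}) ∈ cl' C ↔ i ∈ cl C := by
    intro C i hi
    rw [hcl, Finset.mem_map]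
    constructor
    · intro h
      exact ⟨_, h, rfl⟩
    · rintro ⟨j, hj, hj'⟩
      have : j = ⟨i, hi⟩ := Subtype.ext hj'
      rwa [← this]
  have hclJ : ∀ C (i : I), i ∉ J → i ∉ cl C := by
    intro C i hi h
    rw [hcl, Finset.mem_map] at h
    obtain ⟨j, _, hj'⟩ := h
    exact hi (hj' ▸ j.2)
  have hVsum : ∀ i, (Vf i \ 𝒞.biUnion id).card + ∑ C ∈ 𝒞, (C ∩ Vf i).card = (Vf i).card := by
    intro i
    have h1 : ∑ C ∈ 𝒞, (C ∩ Vf i).card = (𝒞.biUnion fun C => C ∩ Vf i).card := by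
      rw [Finset.card_biUnion]
      intro C hC C' hC' hne
      exact (hC2 C hC C' hC' hne).mono Finset.inter_subset_left Finset.inter_subset_left
    have h2 : (𝒞.biUnion fun C => C ∩ Vf i) = Vf i ∩ 𝒞.biUnion id := by
      ext y
      simp only [Finset.mem_biUnion, Finset.mem_inter, id]
      constructor
      · rintro ⟨C, hC, h3, h4⟩
        exact ⟨h4, C, hC, h3⟩
      · rintro ⟨h4, C, hC, h3⟩
        exact ⟨C, hC, h3, h4⟩
    rw [h1, h2, add_comm]
    exact Finset.card_inter_add_card_sdiff _ _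
  have hHsum : ∀ i, ∑ C ∈ 𝒞, (C ∩ Hf i).card ≤ (Hf i).card := by
    intro i
    have h1 : ∑ C ∈ 𝒞, (C ∩ Hf i).card = (𝒞.biUnion fun C => C ∩ Hf i).card := by
      rw [Finset.card_biUnion]
      intro C hC C' hC' hne
      exact (hC2 C hC C' hC' hne).mono Finset.inter_subset_left Finset.inter_subset_left
    rw [h1]
    refine Finset.card_le_card ?_
    intro y hy
    obtain ⟨C, _, h⟩ := Finset.mem_biUnion.1 hy
    exact (Finset.mem_inter.1 h).2
  refine ⟨S, Vf, Hf, 𝒞, cl, Finset.subset_union_left, hScard, ?_⟩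
  constructor
  · exact fun C hC => (hC1 C hC).1.trans hBS
  · exact hC2
  · intro C hC u hu v hv huv
    have h1 := (hC1 C hC).2.1
    rw [SimpleGraph.isClique_iff] at h1
    have h2 := h1 (Finset.mem_coe.2 hu) (Finset.mem_coe.2 hv) huv.ne
    rw [SimpleGraph.compl_adj] at h2
    exact h2.2 huv
  · intro C hC
    have h1 := (hC1 C hC).2.2
    have h2 : (cl C).card = (cl' C).card := Finset.card_map _
    rw [h2]
    exact h1
  · exact hnonfull
  · intro i C hC C' hC' hd hcov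
    have hCB := (hC1 C hC).1
    have hC3' : C.card ≤ 3 := by
      rcases (hC1 C hC).2.2 with h | h
      · omega
      · omega
    have h1 : 1 ≤ C'.card := by
      rw [Nat.one_le_iff_ne_zero]
      intro h0
      rw [Finset.card_eq_zero] at h0
      subst h0
      have h2 : cov G (M i \ S) (∅ : Finset V) = 0 := by
        unfold cov
        simp
      rw [h2] at hcov
      have h3 := hPpos i
      have h4 : (1 : ℝ) ≤ ((M i \ S).card : ℝ) := by exact_mod_cast h3
      have h5 : 0 < (1 - ε / 10 ^ 17 / 2) * ((M i \ S).card : ℝ) :=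
        mul_pos (by linarith) (by linarith)
      push_cast at hcov
      linarith
    obtain ⟨u, hu, hxu⟩ := hx3 i C' (hC'.trans hCB) h1 ((Finset.card_le_card hC').trans hC3') hcov
    rw [Finset.not_disjoint_iff]
    refine ⟨u, hu, Finset.mem_filter.2 ⟨Finset.mem_sdiff.2 ⟨hBS (hCB (hC' hu)), ?_⟩, hxu⟩⟩
    exact Finset.disjoint_left.1 hd hu
  · intro i
    have h1 := hVsum i
    have h2 := hVfc i
    have h3 := hMc i
    have h3' : (M i ∩ S).card + (M i \ S).card = (M i).card := h3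
    by_cases hi : i ∈ J
    · have h4 : ∀ C ∈ 𝒞, (bb Vf Hf cl i C : ℤ) + ctr (Vf i ∩ B) (Hf i ∩ B) C
          ((⟨i, hi⟩ : {i // i ∈ J}) ∈ cl' C) ≤ (C ∩ Vf i).card := by
        intro C hC
        have hCB := (hC1 C hC).1
        refine bb_add_ctr Vf Hf cl i C _ _ ?_ ?_ _ (hclmem C i hi)
        · rw [Finset.inter_comm (Vf i), ← Finset.inter_assoc, Finset.inter_eq_left.2 hCB]
        · rw [Finset.inter_comm (Hf i), ← Finset.inter_assoc, Finset.inter_eq_left.2 hCB]
      have h5 := Finset.sum_le_sum h4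
      rw [Finset.sum_add_distrib] at h5
      have h6 := hC3 ⟨i, hi⟩
      have h7 : r i = ((F i).card : ℤ) + (M i).card - L + 2 := rfl
      have h8 : ((∑ C ∈ 𝒞, bb Vf Hf cl i C : ℕ) : ℤ) = ∑ C ∈ 𝒞, (bb Vf Hf cl i C : ℤ) := by
        push_cast; rfl
      have h9 : ((∑ C ∈ 𝒞, (C ∩ Vf i).card : ℕ) : ℤ) = ∑ C ∈ 𝒞, ((C ∩ Vf i).card : ℤ) := by
        push_cast; rfl
      simp only at h6
      omega
    · have h4 : ∀ C ∈ 𝒞, bb Vf Hf cl i C = (C ∩ Vf i).card + (C ∩ Hf i).card := by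
        intro C _
        unfold bb
        rw [if_neg (hclJ C i hi)]
      have h5 : ∑ C ∈ 𝒞, bb Vf Hf cl i C = ∑ C ∈ 𝒞, (C ∩ Vf i).card + ∑ C ∈ 𝒞, (C ∩ Hf i).card := by
        rw [← Finset.sum_add_distrib]
        exact Finset.sum_congr rfl h4
      have h6 := hHsum i
      have h7 := hHfc i
      have h8 : ¬ (3 : ℤ) ≤ r i + q i := fun h => hi ((hJ' i).2 h)
      have h9 : r i = ((F i).card : ℤ) + (M i).card - L + 2 := rfl
      rw [h5]
      omega

end Pool.Agent.Helper33.RG
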