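import Pool.Agent.Helper33.RG.CDefs

/-!
# Block RG-HUBA: the full hubs and the numbers `q i` (MP_1f20e3_co)

`hub_numbers`. PROOF. Constants: `θ = ε / 10^17`, `c₀ = 110000`, `m i = |M i \ U| ≥ (1 - ε/50) L ≥ L/2`, `P i = M i \ U`.
`F i` = the `u ∈ U \ M i` with `cov G (P i) {u} ≥ (1-θ) m i`; `p i m i = ∑ cov G (P i) {u}` over the `u ∈ (U \ M i) \ F i`; `X i = ∑_{u ∈ U \ M i} cov G (P i) {u}` = number of pairs `(v,x)`, `v ∈ P i`, `x ∈ U \ M i` adjacent, `X i ≤ c₀ L` by `sum`. So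
`p i ≤ 2 c₀`, `|F i| ≤ 3 c₀`, and `X i ≥ ((1-θ)|F i| + p i) m i`. `q i = ⌊p i + ε/10⌋`; so `q i ≤ p i + ε/10 < q i + 1`. `a i = L - |M i| ≥ 2` (`clq`, `clique`). `J` = the `i` with `3 ≤ |F i| - a i + 2 + q i`.
`∑_{i ∈ J} (|F i| + q i - 1) ≤ 7`: for `i ∈ J`, `|F i| + q i ≥ a i + 1 ≥ 3` and `X i ≥ m i (|F i| + q i - θ |F i| - ε/10) ≥ m i (|F i| + q i - ε/9)`. `cost` for `J`: `∑_J m i (|F i| + q i - 1 - ε/9) ≤ (8 - 3ε) L`, `m i ≥ (1 - ε/50) L`. Let `s = ∑_J (|F i| + q i - 1)`, an integer, all summands `≥ 2`, so `|J| ≤ s/2`, and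
`(1-ε/50) (s - |J| ε/9) ≤ 8 - 3ε`, so `(1-ε/50) (1 - ε/18) s ≤ 8 - 3ε`. If `s ≥ 8`: `8 (1 - ε/50)(1 - ε/18) ≥ 8 - 0.61 ε > 8 - 3 ε`: contradiction. So `s ≤ 7` and `∑_J (|F i| - a i + 2 + q i - 1) ≤ 7` because `a i ≥ 2`.
-/

set_option autoImplicit false

namespace Pool.Agent.Helper33.RG

open Classical Finset

variable {V : Type} [Fintype V]

private lemma h31_dc (G : SimpleGraph V) (P A : Finset V) :
    ∑ v ∈ P, (A.filter fun x => G.Adj v x).card = ∑ u ∈ A, cov G P {u} := by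
  have h := Finset.sum_card_bipartiteAbove_eq_sum_card_bipartiteBelow (s := P) (t := A) G.Adj
  unfold Finset.bipartiteAbove Finset.bipartiteBelow at h
  rw [h]
  refine Finset.sum_congr rfl fun u _ => ?_
  unfold cov
  congr 1
  ext x
  simp

theorem hub_numbers {G : SimpleGraph V} {L : ℕ} {I : Type} [Fintype I] {M : I → Finset V}
    {U : Finset V} {ε δ η : ℝ} {KU : ℕ} (hst : Str G L M U ε δ η KU) (hε : 0 < ε) (hε1 : ε ≤ 1)
    (hδ : δ ≤ ε / 100) (hL : ((KU : ℝ) + 1600) * 10 ^ 22 ≤ ε * L) :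
    ∃ (F : I → Finset V) (q : I → ℕ) (J : Finset I), (∀ i, F i ⊆ U \ M i) ∧
      (∀ i, ∀ u ∈ (U \ M i) \ F i,
        (cov G (M i \ U) {u} : ℝ) < (1 - ε / 10 ^ 17) * ((M i \ U).card : ℝ)) ∧
      (∀ i, ((∑ u ∈ (U \ M i) \ F i, cov G (M i \ U) {u} : ℕ) : ℝ) ≤
        ((q i : ℝ) + 1 - ε / 10) * ((M i \ U).card : ℝ)) ∧
      (∀ i, q i ≤ 220001) ∧
      (∀ i, i ∈ J ↔ (3 : ℤ) ≤ ((F i).card : ℤ) + (M i).card - L + 2 + q i) ∧
      ∑ i ∈ J, (((F i).card : ℤ) + (M i).card - L + 2 + q i - 1) ≤ 7 := by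
  have hKU : (0 : ℝ) ≤ (KU : ℝ) := Nat.cast_nonneg _
  have hL0 : (0 : ℝ) < (L : ℝ) := by
    have h1 : (0 : ℝ) < ((KU : ℝ) + 1600) * 10 ^ 22 := by positivity
    by_contra h2
    push Not at h2
    nlinarith
  have hm : ∀ i, (1 - ε / 50) * (L : ℝ) ≤ ((M i \ U).card : ℝ) := by
    intro i
    have h1 : (M i).card ≤ (M i \ U).card + U.card := by
      have := Finset.le_card_sdiff U (M i)
      omega
    have h2 : ((M i).card : ℝ) ≤ ((M i \ U).card : ℝ) + U.card := by exact_mod_cast h1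
    have h3 : (U.card : ℝ) ≤ KU := by exact_mod_cast hst.cardU
    have h4 := hst.big i
    have h5 : (KU : ℝ) ≤ ε * L / 10 ^ 22 := by
      rw [le_div_iff₀ (by positivity)]
      linarith
    have h6 : δ * L ≤ ε / 100 * L := mul_le_mul_of_nonneg_right hδ hL0.le
    have h7 : 0 < ε * L := mul_pos hε hL0
    nlinarith
  have hmpos : ∀ i, (0 : ℝ) < ((M i \ U).card : ℝ) := by
    intro i
    refine lt_of_lt_of_le ?_ (hm i)
    have : 0 < 1 - ε / 50 := by linarith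
    positivity
  have hmL : ∀ i, ((M i).card : ℤ) + 2 ≤ L := fun i => by
    exact_mod_cast hst.clq _ (hst.clique i)
  -- the numbers
  obtain ⟨F, hF⟩ : ∃ F : I → Finset V, ∀ i, F i = (U \ M i).filter fun u =>
      (1 - ε / 10 ^ 17) * ((M i \ U).card : ℝ) ≤ (cov G (M i \ U) {u} : ℝ) :=
    ⟨_, fun i => rfl⟩
  obtain ⟨Y, hY⟩ : ∃ Y : I → ℕ, ∀ i, Y i = ∑ u ∈ (U \ M i) \ F i, cov G (M i \ U) {u} :=
    ⟨_, fun i => rfl⟩
  obtain ⟨q, hq⟩ : ∃ q : I → ℕ, ∀ i, q i = ⌊(Y i : ℝ) / ((M i \ U).card : ℝ) + ε / 10⌋₊ :=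
    ⟨_, fun i => rfl⟩
  have hq1 : ∀ i, (q i : ℝ) ≤ (Y i : ℝ) / ((M i \ U).card : ℝ) + ε / 10 := by
    intro i
    rw [hq]
    exact Nat.floor_le (by positivity)
  have hq2 : ∀ i, (Y i : ℝ) / ((M i \ U).card : ℝ) + ε / 10 < q i + 1 := by
    intro i
    rw [hq]
    exact Nat.lt_floor_add_one _
  have hFU : ∀ i, F i ⊆ U \ M i := by
    intro i
    rw [hF]
    exact Finset.filter_subset _ _
  -- the sum of the degrees
  have hX : ∀ i, (1 - ε / 10 ^ 17) * ((M i \ U).card : ℝ) * (F i).card + Y i ≤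
      ((∑ v ∈ M i \ U, ((U \ M i).filter fun x => G.Adj v x).card : ℕ) : ℝ) := by
    intro i
    rw [h31_dc, ← Finset.sum_sdiff (hFU i), Nat.cast_add, ← hY, add_comm]
    refine add_le_add le_rfl ?_
    rw [Nat.cast_sum, mul_comm, ← nsmul_eq_mul, ← Finset.sum_const]
    refine Finset.sum_le_sum fun u hu => ?_
    rw [hF, Finset.mem_filter] at hu
    exact hu.2
  have hX2 : ∀ i, ((∑ v ∈ M i \ U, ((U \ M i).filter fun x => G.Adj v x).card : ℕ) : ℝ) ≤
      110000 * L := by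
    intro i
    have h1 := hst.sum i
    have h2 : ∑ v ∈ M i \ U, ((U \ M i).filter fun x => G.Adj v x).card ≤ 110000 * L := by
      refine le_trans (Finset.sum_le_sum fun v _ => Finset.card_le_card ?_) h1
      intro x hx
      rw [Finset.mem_filter, Finset.mem_sdiff] at hx
      exact Finset.mem_filter.2 ⟨Finset.mem_univ _, hx.1.2, hx.2⟩
    exact_mod_cast h2
  have hθ : (0 : ℝ) < 1 - ε / 10 ^ 17 := by
    have : ε / 10 ^ 17 ≤ 1 / 10 ^ 17 := by gcongr
    have h2 : (1 : ℝ) / 10 ^ 17 < 1 := by norm_num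
    linarith
  have hYL : ∀ i, (Y i : ℝ) ≤ 110000 * L := by
    intro i
    have h1 := hX i
    have h2 := hX2 i
    have h3 : 0 ≤ (1 - ε / 10 ^ 17) * ((M i \ U).card : ℝ) * (F i).card :=
      mul_nonneg (mul_pos hθ (hmpos i)).le (Nat.cast_nonneg _)
    linarith
  have hqb : ∀ i, q i ≤ 220001 := by
    intro i
    have h1 : (Y i : ℝ) / ((M i \ U).card : ℝ) ≤ 220000 := by
      rw [div_le_iff₀ (hmpos i)]
      have h2 := hYL i
      have h3 := hm i
      nlinarith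
    have h2 := hq1 i
    have h3 : (q i : ℝ) ≤ 220001 := by linarith
    exact_mod_cast h3
  have hFb : ∀ i, ((F i).card : ℝ) ≤ 440000 := by
    intro i
    have h1 := hX i
    have h2 := hX2 i
    have h3 := hm i
    have h4 : (1 / 4 : ℝ) * L ≤ (1 - ε / 10 ^ 17) * ((M i \ U).card : ℝ) := by
      have h5 : (1 / 2 : ℝ) ≤ 1 - ε / 10 ^ 17 := by
        have : ε / 10 ^ 17 ≤ 1 / 10 ^ 17 := by gcongr
        have h2 : (1 : ℝ) / 10 ^ 17 < 1 / 2 := by norm_num
        linarith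
      have h6 : (1 / 2 : ℝ) * L ≤ ((M i \ U).card : ℝ) := by nlinarith
      nlinarith
    have h5 : (0 : ℝ) ≤ (F i).card := Nat.cast_nonneg _
    have h6 : (0 : ℝ) ≤ Y i := Nat.cast_nonneg _
    have h7 : (1 / 4 : ℝ) * L * (F i).card ≤ 110000 * L := by nlinarith
    by_contra h8
    push Not at h8
    nlinarith
  refine ⟨F, q, Finset.univ.filter fun i => (3 : ℤ) ≤ ((F i).card : ℤ) + (M i).card - L + 2 + q i,
    hFU, ?_, ?_, hqb, fun i => by simp, ?_⟩
  · intro i u hu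
    rw [Finset.mem_sdiff, hF, Finset.mem_filter, not_and] at hu
    exact lt_of_not_ge (hu.2 hu.1)
  · intro i
    rw [← hY]
    have h1 := hq2 i
    have h2 : (Y i : ℝ) / ((M i \ U).card : ℝ) ≤ q i + 1 - ε / 10 := by linarith
    rwa [div_le_iff₀ (hmpos i)] at h2
  · set J := Finset.univ.filter fun i => (3 : ℤ) ≤ ((F i).card : ℤ) + (M i).card - L + 2 + q i
      with hJ
    have hJ3 : ∀ i ∈ J, (2 : ℤ) ≤ ((F i).card : ℤ) + q i - 1 := by
      intro i hi
      have h1 := (Finset.mem_filter.1 hi).2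
      have h2 := hmL i
      linarith
    have hcost := hst.cost J
    have hkey : ∀ i ∈ J, (1 - ε / 50) * (1 - ε / 18) * L * (((F i).card : ℝ) + q i - 1) +
        ((M i \ U).card : ℝ) ≤
        ((∑ v ∈ M i \ U, ((U \ M i).filter fun x => G.Adj v x).card : ℕ) : ℝ) := by
      intro i hi
      refine le_trans ?_ (hX i)
      have h1 : (2 : ℝ) ≤ ((F i).card : ℝ) + q i - 1 := by exact_mod_cast hJ3 i hi
      have h2 : ((q i : ℝ) - ε / 10) * ((M i \ U).card : ℝ) ≤ Y i := by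
        rw [← le_div_iff₀ (hmpos i)]
        linarith [hq1 i]
      have h3 : ε / 10 ^ 17 * (F i).card ≤ ε / 100 := by
        have h4 := hFb i
        calc ε / 10 ^ 17 * (F i).card ≤ ε / 10 ^ 17 * 440000 := by gcongr
          _ ≤ ε / 100 := by nlinarith
      have h4 := hm i
      have h5 := hmpos i
      set m : ℝ := ((M i \ U).card : ℝ)
      set f : ℝ := ((F i).card : ℝ)
      set s : ℝ := f + q i - 1 with hs
      have h6 : m * (s - ε / 9) + m ≤ (1 - ε / 10 ^ 17) * m * f + Y i := by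
        have h7 : m * (ε / 10 ^ 17 * f) ≤ m * (ε / 100) := mul_le_mul_of_nonneg_left h3 h5.le
        have h8 : 0 < m * ε := mul_pos h5 hε
        nlinarith
      have h7 : s * (1 - ε / 18) ≤ s - ε / 9 := by nlinarith
      have h8 : 0 ≤ s * (1 - ε / 18) := mul_nonneg (by linarith) (by linarith)
      calc (1 - ε / 50) * (1 - ε / 18) * L * s + m
          = ((1 - ε / 50) * L) * (s * (1 - ε / 18)) + m := by ring
        _ ≤ m * (s * (1 - ε / 18)) + m := by
            have := mul_le_mul_of_nonneg_right h4 h8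
            linarith
        _ ≤ m * (s - ε / 9) + m := by
            have := mul_le_mul_of_nonneg_left h7 h5.le
            linarith
        _ ≤ _ := h6
    have hsum := Finset.sum_le_sum hkey
    rw [Finset.sum_add_distrib, ← Finset.mul_sum] at hsum
    have hc1 : ∑ i ∈ J, ((∑ v ∈ M i \ U, ((U \ M i).filter fun x => G.Adj v x).card : ℕ) : ℝ) =
        ((∑ i ∈ J, ∑ v ∈ M i \ U, ((U \ M i).filter fun x => G.Adj v x).card : ℕ) : ℝ) := by
      push_cast
      rfl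
    have hc2 : ∑ i ∈ J, ((M i \ U).card : ℝ) = ((∑ i ∈ J, (M i \ U).card : ℕ) : ℝ) := by
      push_cast
      rfl
    rw [hc1, hc2] at hsum
    have hfin : (1 - ε / 50) * (1 - ε / 18) * L * ∑ i ∈ J, (((F i).card : ℝ) + q i - 1) ≤
        (8 - 3 * ε) * L := by linarith
    have hs7 : ∑ i ∈ J, (((F i).card : ℤ) + q i - 1) ≤ 7 := by
      by_contra h1
      push Not at h1
      have h2 : (8 : ℝ) ≤ ∑ i ∈ J, (((F i).card : ℝ) + q i - 1) := by
        have h3 : (8 : ℤ) ≤ ∑ i ∈ J, (((F i).card : ℤ) + q i - 1) := h1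
        exact_mod_cast h3
      set s := ∑ i ∈ J, (((F i).card : ℝ) + q i - 1)
      have h3 : (1 - ε / 50) * (1 - ε / 18) * s ≤ 8 - 3 * ε := by
        have h4 : ((1 - ε / 50) * (1 - ε / 18) * s) * L ≤ (8 - 3 * ε) * L := by linarith
        exact le_of_mul_le_mul_right h4 hL0
      have h5 : 0 ≤ (1 - ε / 50) * (1 - ε / 18) := mul_nonneg (by linarith) (by linarith)
      nlinarith
    refine le_trans (Finset.sum_le_sum fun i _ => ?_) hs7
    have := hmL i
    linarith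

end Pool.Agent.Helper33.RG
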