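import Pool.Agent.Helper33.RG.HubBasic

/-!
# Hub game: more basic lemmas (MP_1f20e3_co)
-/

set_option autoImplicit false

namespace Pool.Agent.Helper33.RG

variable {α : Type} [DecidableEq α] {T : SimpleGraph α} {S R : Finset α} {k l : ℕ}

/-- `τ ≥ 2`: two disjoint edges or a triangle. -/
lemma Tau.two (h : Tau T S k) (hk : 2 ≤ k) :
    (∃ u v u' v', u ∈ S ∧ v ∈ S ∧ T.Adj u v ∧ u' ∈ S \ {u, v} ∧ v' ∈ S \ {u, v} ∧ T.Adj u' v') ∨
    ∃ u v w, u ∈ S ∧ v ∈ S ∧ w ∈ S ∧ T.Adj u v ∧ T.Adj u w ∧ T.Adj v w := by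
  obtain ⟨u, hu, v, hv, huv⟩ := h.edge (by omega)
  by_cases h1 : ∃ u' ∈ S \ {u, v}, ∃ v' ∈ S \ {u, v}, T.Adj u' v'
  · obtain ⟨u', hu', v', hv', h2⟩ := h1
    exact Or.inl ⟨u, v, u', v', hu, hv, huv, hu', hv', h2⟩
  push Not at h1
  -- `u` alone does not cover, so there is an edge `v w` with `w ≠ u`
  obtain ⟨a, ha, b, hb, hab, hau, hbu⟩ := h.edge_avoid {u} (by simp; omega)
  obtain ⟨c, hc, d, hd, hcd, hcv, hdv⟩ := h.edge_avoid {v} (by simp; omega)
  rw [Finset.mem_singleton] at hau hbu hcv hdv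
  -- one of `a`, `b` is `v`; one of `c`, `d` is `u`
  have key1 : ∃ w ∈ S, w ≠ u ∧ w ≠ v ∧ T.Adj v w := by
    by_cases hav : a = v
    · subst hav
      exact ⟨b, hb, hbu, hab.ne', hab⟩
    · by_cases hbv : b = v
      · subst hbv
        exact ⟨a, ha, hau, hab.ne, hab.symm⟩
      · exact absurd hab (h1 a (by simp [ha, hau, hav]) b (by simp [hb, hbu, hbv]))
  have key2 : ∃ w ∈ S, w ≠ u ∧ w ≠ v ∧ T.Adj u w := by
    by_cases hcu : c = u
    · subst hcu
      exact ⟨d, hd, hcd.ne', hdv, hcd⟩
    · by_cases hdu : d = u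
      · subst hdu
        exact ⟨c, hc, hcd.ne, hcv, hcd.symm⟩
      · exact absurd hcd (h1 c (by simp [hc, hcu, hcv]) d (by simp [hd, hdu, hdv]))
  obtain ⟨w, hw, hwu, hwv, hvw⟩ := key1
  obtain ⟨w', hw', hwu', hwv', huw'⟩ := key2
  by_cases hww : w = w'
  · subst hww
    exact Or.inr ⟨u, v, w, hu, hv, hw, huv, huw', hvw⟩
  · left
    refine ⟨v, w, u, w', hv, hw, hvw, ?_, ?_, huw'⟩
    · simp [hu, huv.ne, Ne.symm hwu]
    · simp [hw', hwv', Ne.symm hww]

/-- `τ ≥ 3`: two disjoint edges. -/
lemma Tau.three (h : Tau T S k) (hk : 3 ≤ k) :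
    ∃ u v u' v', u ∈ S ∧ v ∈ S ∧ T.Adj u v ∧ u' ∈ S \ {u, v} ∧ v' ∈ S \ {u, v} ∧ T.Adj u' v' := by
  obtain ⟨u, hu, v, hv, huv⟩ := h.edge (by omega)
  obtain ⟨u', hu', v', hv', h2⟩ := (h.sdiff' (l := 1) {u, v}
    (by rw [Finset.card_pair huv.ne]; omega)).edge le_rfl
  exact ⟨u, v, u', v', hu, hv, huv, hu', hv', h2⟩

lemma Tau.sav2 (h : Tau T S k) (hk : 2 ≤ k) : Sav T S 2 := by
  rcases h.two hk with ⟨u, v, u', v', hu, hv, huv, hu', hv', h'⟩ | ⟨u, v, w, hu, hv, hw, h1, h2, h3⟩
  · exact Sav.two hu hv huv (Sav.two hu' hv' h' (Sav.zero _))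
  · exact Sav.three hu hv hw h1 h2 h3 (Sav.zero _)

lemma Tau.sav1 (h : Tau T S k) (hk : 1 ≤ k) : Sav T S 1 := by
  obtain ⟨u, hu, v, hv, huv⟩ := h.edge hk
  exact Sav.two hu hv huv (Sav.zero _)

section Ach

variable {ι : Type} [DecidableEq ι] [Fintype ι] {V H : ι → Finset α}

/-- Classes in `R ⊆ V i₀`, `R` disjoint from the `H j`, `j ≠ i₀` (at most two indices). -/
lemma Sav.ach (hι : Fintype.card ι ≤ 2) (i₀ : ι) (h : Sav T R k) : R ⊆ S → R ⊆ V i₀ →
    (∀ j, j ≠ i₀ → Disjoint R (H j)) → Ach T V H S (fun i => if i = i₀ then (k : ℤ) else 0) := by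
  intro hRS hRV hd
  suffices hh : Ach T V H R (fun i => if i = i₀ then (k : ℤ) else 0) from
    hh.mono hRS fun i => le_rfl
  clear hRS
  induction h with
  | zero S => exact Ach.nil _ _ fun i => by split_ifs <;> simp
  | @two S u v k hu hv h hS ih =>
    have hsub : ({u, v} : Finset α) ⊆ S := by
      intro y hy
      rw [Finset.mem_insert, Finset.mem_singleton] at hy
      rcases hy with rfl | rfl
      · exact hu
      · exact hv
    refine Ach.pair (by omega) hu hv h (ih (Finset.sdiff_subset.trans hRV)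
      fun j hj => (hd j hj).mono_left Finset.sdiff_subset) ?_
    intro i
    by_cases hi : i = i₀
    · subst hi
      rw [if_pos rfl, if_pos rfl, ctr_sub (hsub.trans hRV) ⟨u, by simp⟩, Finset.card_pair h.ne]
      push_cast
      omega
    · rw [if_neg hi, if_neg hi, zero_add]
      exact ctr_nonneg_of_disj _ ((hd i hi).mono_left hsub)
  | @three S u v w k hu hv hw huv huw hvw hS ih =>
    have hsub : ({u, v, w} : Finset α) ⊆ S := by
      intro y hy
      simp only [Finset.mem_insert, Finset.mem_singleton] at hy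
      rcases hy with rfl | rfl | rfl
      · exact hu
      · exact hv
      · exact hw
    have hcard : ({u, v, w} : Finset α).card = 3 := by
      rw [Finset.card_insert_of_notMem, Finset.card_pair hvw.ne]
      simp [huv.ne, huw.ne]
    refine Ach.triple (cl := Finset.univ) (by simpa using hι) hu hv hw huv huw hvw
      (ih (Finset.sdiff_subset.trans hRV) fun j hj => (hd j hj).mono_left Finset.sdiff_subset) ?_
    intro i
    by_cases hi : i = i₀
    · subst hi
      have := ctr_sub (V := V i) (H := H i) (hsub.trans hRV) ⟨u, by simp⟩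
      simp only [Finset.mem_univ, if_true]
      rw [this, hcard]
      push_cast
      omega
    · simp only [Finset.mem_univ, if_neg hi, zero_add]
      exact ctr_nonneg_of_disj _ ((hd i hi).mono_left hsub)

/-- `τ ≥ 2` in `R ⊆ V i₀`: two savings for `i₀`, also for three indices; `R` misses all other
`H j`. -/
lemma Tau.ach2 (hι : Fintype.card ι ≤ 3) (i₀ : ι) (h : Tau T R k) (hk : 2 ≤ k) (hRS : R ⊆ S)
    (hRV : R ⊆ V i₀) (hd : ∀ j, j ≠ i₀ → Disjoint R (H j)) :
    Ach T V H S (fun i => if i = i₀ then 2 else 0) := by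
  refine Ach.mono ?_ hRS fun i => le_rfl
  rcases h.two hk with ⟨u, v, u', v', hu, hv, huv, hu', hv', h'⟩ | ⟨u, v, w, hu, hv, hw, h1, h2, h3⟩
  · have hsub : ({u, v} : Finset α) ⊆ R := by
      intro y hy
      rw [Finset.mem_insert, Finset.mem_singleton] at hy
      rcases hy with rfl | rfl
      · exact hu
      · exact hv
    have hsub' : ({u', v'} : Finset α) ⊆ R := by
      intro y hy
      rw [Finset.mem_insert, Finset.mem_singleton] at hy
      rcases hy with rfl | rfl
      · exact (Finset.mem_sdiff.1 hu').1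
      · exact (Finset.mem_sdiff.1 hv').1
    refine Ach.pair hι hu hv huv (x' := fun i => if i = i₀ then 1 else 0) ?_ ?_
    · refine Ach.pair hι hu' hv' h' (x' := fun _ => 0) (Ach.nil _ _ fun _ => le_rfl) ?_
      intro i
      by_cases hi : i = i₀
      · subst hi
        rw [if_pos rfl, ctr_sub (hsub'.trans hRV) ⟨u', by simp⟩, Finset.card_pair h'.ne]
        norm_num
      · rw [if_neg hi, zero_add]
        exact ctr_nonneg_of_disj _ ((hd i hi).mono_left hsub')
    · intro i
      by_cases hi : i = i₀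
      · subst hi
        simp only [if_pos]
        rw [ctr_sub (hsub.trans hRV) ⟨u, by simp⟩, Finset.card_pair huv.ne]
        norm_num
      · simp only [if_neg hi, zero_add]
        exact ctr_nonneg_of_disj _ ((hd i hi).mono_left hsub)
  · have hsub : ({u, v, w} : Finset α) ⊆ R := by
      intro y hy
      simp only [Finset.mem_insert, Finset.mem_singleton] at hy
      rcases hy with rfl | rfl | rfl
      · exact hu
      · exact hv
      · exact hw
    have hcard : ({u, v, w} : Finset α).card = 3 := by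
      rw [Finset.card_insert_of_notMem, Finset.card_pair h3.ne]
      simp [h1.ne, h2.ne]
    refine Ach.triple (cl := {i₀}) (by simp) hu hv hw h1 h2 h3 (x' := fun _ => 0)
      (Ach.nil _ _ fun _ => le_rfl) ?_
    intro i
    by_cases hi : i = i₀
    · subst hi
      have := ctr_sub (V := V i) (H := H i) (hsub.trans hRV) ⟨u, by simp⟩
      simp only [Finset.mem_singleton, if_true]
      rw [this, hcard]
      norm_num
    · simp only [if_neg hi, zero_add]
      exact ctr_nonneg_of_disj _ ((hd i hi).mono_left hsub)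

end Ach

/-- `|{u, v} ∩ V| = 2, 1, 0` as a trichotomy for an edge. -/
lemma pair_cases (u v : α) (V : Finset α) (huv : u ≠ v) :
    (({u, v} : Finset α) ⊆ V ∧ (({u, v} : Finset α) ∩ V).card = 2) ∨
    ((({u, v} : Finset α) ∩ V).Nonempty ∧ (({u, v} : Finset α) ∩ V).card = 1) ∨
    (Disjoint ({u, v} : Finset α) V ∧ (({u, v} : Finset α) ∩ V).card = 0) := by
  by_cases hu : u ∈ V <;> by_cases hv : v ∈ V
  · left
    have h1 : ({u, v} : Finset α) ⊆ V := by
      intro y hy
      rw [Finset.mem_insert, Finset.mem_singleton] at hy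
      rcases hy with rfl | rfl
      · exact hu
      · exact hv
    exact ⟨h1, by rw [Finset.inter_eq_left.2 h1, Finset.card_pair huv]⟩
  · right; left
    have h1 : ({u, v} : Finset α) ∩ V = {u} := by
      ext y
      simp only [Finset.mem_inter, Finset.mem_insert, Finset.mem_singleton]
      constructor
      · rintro ⟨rfl | rfl, h⟩
        · rfl
        · exact absurd h hv
      · rintro rfl
        exact ⟨Or.inl rfl, hu⟩
    rw [h1]
    simp
  · right; left
    have h1 : ({u, v} : Finset α) ∩ V = {v} := by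
      ext y
      simp only [Finset.mem_inter, Finset.mem_insert, Finset.mem_singleton]
      constructor
      · rintro ⟨rfl | rfl, h⟩
        · exact absurd h hu
        · rfl
      · rintro rfl
        exact ⟨Or.inr rfl, hv⟩
    rw [h1]
    simp
  · right; right
    have h1 : ({u, v} : Finset α) ∩ V = ∅ := by
      ext y
      simp only [Finset.mem_inter, Finset.mem_insert, Finset.mem_singleton, Finset.notMem_empty,
        iff_false]
      rintro ⟨rfl | rfl, h⟩
      · exact hu h
      · exact hv h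
    exact ⟨Finset.disjoint_iff_inter_eq_empty.2 h1, by rw [h1]; rfl⟩

end Pool.Agent.Helper33.RG
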