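import Pool.Agent.Helper33.RG.LG

/-!
# Lower bound: the start (MP_1f20e3_co)

Block RG-LBA: `start`: `redGenus (HG k N ∅) ≤ 4 k + 240`.
PROOF. `M` = the vertices `inl (a, 0)`, `inl (a, 1)` (`a : Fin 3`) and all `x_j`: a clique. Hyperedges: `E = Option {s : Sym2 V // s ∈ G.edgeSet ∧ ¬ (∀ v ∈ s, v ∈ M)}`, `e none = M`, `e (some s) = s.toFinset`. Let `h : {i : ZMod 10 // i ≠ 0} ≃ Fin 3 × {2,3,4}` be a bijection with the nine other vertices of the 5-cycles. `f : Core k → Inc e`,
`inl (0,j) ↦ (x_j, none)`, `inl (i,j) ↦ (x_j, {x_j, h_i})`, `inr (i,j) ↦ (h_i, {x_j, h_i})` is injective and compatible with `cv`, `cw`. The other incidences: `(v, none)`, `v` one of six vertices, and `(v, {v, v'})` with `v, v'` among the 15 vertices of the 5-cycles: at most `15 + 15 * 15 = 240`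
(`M` contains `x_j` and the six; an edge not inside `M` with an end `x_j` is an `{x_j, h_i}`; for `D = ∅` the bipartite part has no edges). So `Nat.card (Inc e) ≤ Nat.card (Core k) + 240` and `GLE.extend` applies to `core`.
-/

set_option autoImplicit false

namespace Pool.Agent.Helper33.RG

section h27

/-- the vertices of the 5-cycles -/
abbrev H27 : Type := Fin 3 × ZMod 5

/-- a numbering of the vertices of the 5-cycles -/
def key27 (h : H27) : ℕ := 5 * h.1.val + h.2.val

/-- the six vertices of the 5-cycles in the clique `M` -/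
def mb27 (h : H27) : Prop := h.2 = 0 ∨ h.2 = 1

/-- adjacency between the vertices of the 5-cycles -/
def hadj27 (h h' : H27) : Prop := h.1 ≠ h'.1 ∨ h'.2 = h.2 + 1 ∨ h.2 = h'.2 + 1

instance (h : H27) : Decidable (mb27 h) := by unfold mb27; infer_instance

instance (h h' : H27) : Decidable (hadj27 h h') := by unfold hadj27; infer_instance

/-- the nine other vertices of the 5-cycles -/
abbrev Q27 : Type := {h : H27 // ¬ mb27 h}

/-- the edges between vertices of the 5-cycles which are not inside `M` -/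
abbrev P27 : Type :=
  {p : H27 × H27 // key27 p.1 < key27 p.2 ∧ hadj27 p.1 p.2 ∧ ¬ (mb27 p.1 ∧ mb27 p.2)}

/-- the hyperedges -/
abbrev E27 (k : ℕ) : Type := Option ((ZMod (2 * k) × Q27) ⊕ P27)

theorem key27_inj : ∀ h h' : H27, key27 h = key27 h' → h = h' := by decide

theorem clique27 : ∀ h h' : H27, h ≠ h' → mb27 h → mb27 h' → hadj27 h h' := by decide

theorem hadj27_symm : ∀ h h' : H27, hadj27 h h' → hadj27 h' h := by
  intro h h' hh
  rcases hh with h1 | h1 | h1
  · exact Or.inl (Ne.symm h1)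
  · exact Or.inr (Or.inr h1)
  · exact Or.inr (Or.inl h1)

theorem cardQ27 : Fintype.card Q27 = 9 := by decide

theorem cardZ27 : Fintype.card {i : ZMod 10 // i ≠ 0} = 9 := by decide

theorem cardP27 : Fintype.card P27 ≤ 117 := by decide +kernel

theorem cardM27 : ((Finset.univ : Finset H27).filter mb27).card = 6 := by decide

end h27

open Classical Finset

section h27

variable (k N : ℕ) [NeZero (2 * k)]

/-- the hypergraph -/
noncomputable def e27 : E27 k → Finset (HV k N)
  | none => ((Finset.univ : Finset H27).filter mb27).image Sum.inl ∪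
      (Finset.univ : Finset (ZMod (2 * k))).image (fun j => Sum.inr (Sum.inl j))
  | some (Sum.inl x) => {Sum.inr (Sum.inl x.1), Sum.inl x.2.1}
  | some (Sum.inr p) => {Sum.inl p.1.1, Sum.inl p.1.2}

variable {k N}

theorem m1_27 (h : H27) : (Sum.inl h : HV k N) ∈ e27 k N none ↔ mb27 h := by
  simp [e27]

theorem m2_27 (j : ZMod (2 * k)) : (Sum.inr (Sum.inl j) : HV k N) ∈ e27 k N none := by
  simp [e27]

theorem m3_27 (x : Fin N ⊕ Fin N) (i : E27 k) : (Sum.inr (Sum.inr x) : HV k N) ∉ e27 k N i := by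
  rcases i with _ | ⟨y⟩ | p <;> simp [e27]

theorem m4_27 (h : H27) (y : ZMod (2 * k) × Q27) :
    (Sum.inl h : HV k N) ∈ e27 k N (some (Sum.inl y)) ↔ h = y.2.1 := by
  simp [e27]

theorem m5_27 (j : ZMod (2 * k)) (y : ZMod (2 * k) × Q27) :
    (Sum.inr (Sum.inl j) : HV k N) ∈ e27 k N (some (Sum.inl y)) ↔ j = y.1 := by
  simp [e27]

theorem m6_27 (h : H27) (p : P27) :
    (Sum.inl h : HV k N) ∈ e27 k N (some (Sum.inr p)) ↔ h = p.1.1 ∨ h = p.1.2 := by
  simp [e27]

theorem m7_27 (j : ZMod (2 * k)) (p : P27) :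
    (Sum.inr (Sum.inl j) : HV k N) ∉ e27 k N (some (Sum.inr p)) := by
  simp [e27]

theorem adj_hh27 (h h' : H27) : (HG k N ∅).Adj (Sum.inl h) (Sum.inl h') ↔ hadj27 h h' := Iff.rfl

/-- the condition for a pair of vertices -/
def Gd27 (u v : HV k N) : Prop :=
  ((HG k N ∅).Adj u v → ∃! j, u ∈ e27 k N j ∧ v ∈ e27 k N j) ∧
    (¬ (HG k N ∅).Adj u v → ∀ j, ¬ (u ∈ e27 k N j ∧ v ∈ e27 k N j))

theorem Gd27.symm {u v : HV k N} (h : Gd27 u v) : Gd27 v u := by
  refine ⟨fun h1 => ?_, fun h1 j hj => h.2 (fun h2 => h1 h2.symm) j ⟨hj.2, hj.1⟩⟩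
  obtain ⟨j, hj, hu⟩ := h.1 h1.symm
  exact ⟨j, ⟨hj.2, hj.1⟩, fun j' hj' => hu j' ⟨hj'.2, hj'.1⟩⟩

theorem gd_hh27 {h h' : H27} (hne : h ≠ h') : Gd27 (k := k) (N := N) (Sum.inl h) (Sum.inl h') := by
  -- the case of increasing keys for edges not inside `M`
  have hlt : ∀ a b : H27, a ≠ b → hadj27 a b → ¬ (mb27 a ∧ mb27 b) → key27 a < key27 b →
      ∃! j, (Sum.inl a : HV k N) ∈ e27 k N j ∧ (Sum.inl b : HV k N) ∈ e27 k N j := by
    intro a b hab h1 h2 h3
    refine ⟨some (Sum.inr ⟨(a, b), h3, h1, h2⟩), ⟨?_, ?_⟩, ?_⟩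
    · rw [m6_27]; exact Or.inl rfl
    · rw [m6_27]; exact Or.inr rfl
    · rintro (_ | y | p) ⟨q1, q2⟩
      · rw [m1_27] at q1 q2
        exact absurd ⟨q1, q2⟩ h2
      · rw [m4_27] at q1 q2
        exact absurd (q1.trans q2.symm) hab
      · rw [m6_27] at q1 q2
        have hp := p.2.1
        rcases q1 with q1 | q1 <;> rcases q2 with q2 | q2
        · exact absurd (q1.trans q2.symm) hab
        · have : p = ⟨(a, b), h3, h1, h2⟩ := by
            apply Subtype.ext
            apply Prod.ext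
            · exact q1.symm
            · exact q2.symm
          rw [this]
        · rw [← q1, ← q2] at hp
          omega
        · exact absurd (q1.trans q2.symm) hab
  refine ⟨fun h1 => ?_, fun h1 j hj => ?_⟩
  · rw [adj_hh27] at h1
    by_cases hm : mb27 h ∧ mb27 h'
    · refine ⟨none, ⟨(m1_27 h).2 hm.1, (m1_27 h').2 hm.2⟩, ?_⟩
      rintro (_ | y | p) ⟨q1, q2⟩
      · rfl
      · rw [m4_27] at q1 q2
        exact absurd (q1.trans q2.symm) hne
      · rw [m6_27] at q1 q2
        exfalso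
        apply p.2.2.2
        rcases q1 with q1 | q1 <;> rcases q2 with q2 | q2
        · exact absurd (q1.trans q2.symm) hne
        · rw [← q1, ← q2]; exact hm
        · rw [← q1, ← q2]; exact ⟨hm.2, hm.1⟩
        · exact absurd (q1.trans q2.symm) hne
    · rcases lt_trichotomy (key27 h) (key27 h') with hk | hk | hk
      · exact hlt h h' hne h1 hm hk
      · exact absurd (key27_inj _ _ hk) hne
      · obtain ⟨j, hj, hu⟩ := hlt h' h (Ne.symm hne) (hadj27_symm _ _ h1) (fun h => hm ⟨h.2, h.1⟩) hk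
        exact ⟨j, ⟨hj.2, hj.1⟩, fun j' hj' => hu j' ⟨hj'.2, hj'.1⟩⟩
  · rw [adj_hh27] at h1
    obtain ⟨q1, q2⟩ := hj
    rcases j with _ | y | p
    · rw [m1_27] at q1 q2
      exact h1 (clique27 _ _ hne q1 q2)
    · rw [m4_27] at q1 q2
      exact hne (q1.trans q2.symm)
    · rw [m6_27] at q1 q2
      have hp := p.2.2.1
      rcases q1 with q1 | q1 <;> rcases q2 with q2 | q2
      · exact hne (q1.trans q2.symm)
      · rw [← q1, ← q2] at hp
        exact h1 hp
      · rw [← q1, ← q2] at hp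
        exact h1 (hadj27_symm _ _ hp)
      · exact hne (q1.trans q2.symm)

theorem gd_hx27 (h : H27) (j : ZMod (2 * k)) :
    Gd27 (k := k) (N := N) (Sum.inl h) (Sum.inr (Sum.inl j)) := by
  refine ⟨fun _ => ?_, fun h1 => absurd trivial h1⟩
  by_cases hm : mb27 h
  · refine ⟨none, ⟨(m1_27 h).2 hm, m2_27 j⟩, ?_⟩
    rintro (_ | y | p) ⟨q1, q2⟩
    · rfl
    · rw [m4_27] at q1
      rw [q1] at hm
      exact absurd hm y.2.2
    · exact absurd q2 (m7_27 j p)
  · refine ⟨some (Sum.inl (j, ⟨h, hm⟩)), ⟨(m4_27 h _).2 rfl, (m5_27 j _).2 rfl⟩, ?_⟩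
    rintro (_ | y | p) ⟨q1, q2⟩
    · rw [m1_27] at q1
      exact absurd q1 hm
    · rw [m4_27] at q1
      rw [m5_27] at q2
      have : y = (j, ⟨h, hm⟩) := Prod.ext q2.symm (Subtype.ext q1.symm)
      rw [this]
    · exact absurd q2 (m7_27 j p)

theorem gd_xx27 {j j' : ZMod (2 * k)} (hne : j ≠ j') :
    Gd27 (k := k) (N := N) (Sum.inr (Sum.inl j)) (Sum.inr (Sum.inl j')) := by
  refine ⟨fun _ => ?_, fun h1 => absurd hne h1⟩
  refine ⟨none, ⟨m2_27 j, m2_27 j'⟩, ?_⟩
  rintro (_ | y | p) ⟨q1, q2⟩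
  · rfl
  · rw [m5_27] at q1 q2
    exact absurd (q1.trans q2.symm) hne
  · exact absurd q2 (m7_27 j' p)

theorem gd_y27 (u : HV k N) (x : Fin N ⊕ Fin N) : Gd27 u (Sum.inr (Sum.inr x)) := by
  refine ⟨fun h1 => ?_, fun _ j hj => m3_27 x j hj.2⟩
  exfalso
  rcases u with h | j | y | y <;> rcases x with x | x
  · exact h1
  · exact h1
  · exact h1
  · exact h1
  · exact h1
  · exact absurd h1 (Finset.notMem_empty _)
  · exact absurd h1 (Finset.notMem_empty _)
  · exact h1

theorem isAdj27 : IsAdj (e27 k N) (HG k N ∅) := by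
  intro u v huv
  have : Gd27 u v := by
    rcases u with h | j | x
    · rcases v with h' | j' | x'
      · exact gd_hh27 (fun h1 => huv (congrArg _ h1))
      · exact gd_hx27 h j'
      · exact gd_y27 _ x'
    · rcases v with h' | j' | x'
      · exact (gd_hx27 h' j).symm
      · exact gd_xx27 (fun h1 => huv (by rw [h1]))
      · exact gd_y27 _ x'
    · exact (gd_y27 v x).symm
  exact this

theorem card_inc27 : Nat.card (Inc (e27 k N)) ≤ 38 * k + 240 := by
  have h1 : Nat.card (Inc (e27 k N)) = ∑ j, (e27 k N j).card := by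
    have e : Inc (e27 k N) ≃ (Σ j, {v : HV k N // v ∈ e27 k N j}) :=
      { toFun := fun x => ⟨x.1.2, x.1.1, x.2⟩
        invFun := fun y => ⟨(y.2.1, y.1), y.2.2⟩
        left_inv := fun _ => rfl
        right_inv := fun _ => rfl }
    rw [Nat.card_congr e, Nat.card_sigma]
    refine Finset.sum_congr rfl fun j _ => ?_
    rw [Nat.card_eq_fintype_card, Fintype.card_coe]
  rw [h1, Fintype.sum_option, Fintype.sum_sum_type]
  have h2 : (e27 k N none).card ≤ 6 + 2 * k := by
    refine (Finset.card_union_le _ _).trans (add_le_add ?_ ?_)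
    · refine Finset.card_image_le.trans ?_
      have := cardM27
      convert this.le
    · refine Finset.card_image_le.trans ?_
      rw [Finset.card_univ, ZMod.card]
  have h3 : ∑ x : ZMod (2 * k) × Q27, (e27 k N (some (Sum.inl x))).card ≤ 36 * k := by
    have h4 : ∀ x ∈ (Finset.univ : Finset (ZMod (2 * k) × Q27)), (e27 k N (some (Sum.inl x))).card ≤ 2 :=
      fun x _ => Finset.card_le_two
    refine (Finset.sum_le_card_nsmul _ _ _ h4).trans ?_
    have h5 : Fintype.card Q27 = 9 := by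
      have := cardQ27
      convert this
    rw [Finset.card_univ, Fintype.card_prod, ZMod.card, h5, smul_eq_mul]
    omega
  have h4 : ∑ x : P27, (e27 k N (some (Sum.inr x))).card ≤ 234 := by
    have h5 : ∀ x ∈ (Finset.univ : Finset P27), (e27 k N (some (Sum.inr x))).card ≤ 2 :=
      fun x _ => Finset.card_le_two
    refine (Finset.sum_le_card_nsmul _ _ _ h5).trans ?_
    have h6 : Fintype.card P27 ≤ 117 := by
      have := cardP27
      convert this
    rw [Finset.card_univ, smul_eq_mul]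
    omega
  omega

theorem nonempty27 (j : E27 k) : (e27 k N j).Nonempty := by
  rcases j with _ | y | p
  · exact ⟨_, m2_27 0⟩
  · exact ⟨_, (m5_27 y.1 y).2 rfl⟩
  · exact ⟨_, (m6_27 p.1.1 p).2 (Or.inl rfl)⟩

end h27

theorem start (k N : ℕ) (hk : 1 ≤ k) : redGenus (HG k N ∅) ≤ 4 * k + 240 := by
  have hk2 : NeZero (2 * k) := ⟨by omega⟩
  refine redGenus_le (e27 k N) nonempty27 isAdj27 ?_
  have hq : Fintype.card {i : ZMod 10 // i ≠ 0} = Fintype.card Q27 := by
    have h1 : Fintype.card Q27 = 9 := by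
      have := cardQ27
      convert this
    rw [h1]
    have := cardZ27
    convert this
  let φ : {i : ZMod 10 // i ≠ 0} ≃ Q27 := Fintype.equivOfCardEq hq
  -- the map of the incidences
  let fV : Core k → HV k N := fun x => match x with
    | Sum.inl (_, j) => Sum.inr (Sum.inl j)
    | Sum.inr (i, _) => Sum.inl (φ i).1
  let fE : Core k → E27 k := fun x => match x with
    | Sum.inl (i, j) => if h : i = 0 then none else some (Sum.inl (j, φ ⟨i, h⟩))
    | Sum.inr (i, j) => some (Sum.inl (j, φ i))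
  have hmem : ∀ x, fV x ∈ e27 k N (fE x) := by
    rintro (⟨i, j⟩ | ⟨i, j⟩)
    · change Sum.inr (Sum.inl j) ∈ e27 k N (if h : i = 0 then none else some (Sum.inl (j, φ ⟨i, h⟩)))
      split_ifs with h
      · exact m2_27 j
      · exact (m5_27 j _).2 rfl
    · exact (m4_27 _ _).2 rfl
  let f : Core k → Inc (e27 k N) := fun x => ⟨(fV x, fE x), hmem x⟩
  have hv : ∀ x y, cv k x = cv k y ↔ fV x = fV y := by
    rintro (⟨i, j⟩ | ⟨i, j⟩) (⟨i', j'⟩ | ⟨i', j'⟩)
    · change (Sum.inl j : ZMod (2 * k) ⊕ {i : ZMod 10 // i ≠ 0}) = Sum.inl j' ↔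
        (Sum.inr (Sum.inl j) : HV k N) = Sum.inr (Sum.inl j')
      rw [Sum.inl.injEq, Sum.inr.injEq, Sum.inl.injEq]
    · change (Sum.inl j : ZMod (2 * k) ⊕ {i : ZMod 10 // i ≠ 0}) = Sum.inr i' ↔
        (Sum.inr (Sum.inl j) : HV k N) = Sum.inl (φ i').1
      exact ⟨fun h => absurd h (by simp), fun h => absurd h (by simp)⟩
    · change (Sum.inr i : ZMod (2 * k) ⊕ {i : ZMod 10 // i ≠ 0}) = Sum.inl j' ↔
        (Sum.inl (φ i).1 : HV k N) = Sum.inr (Sum.inl j')
      exact ⟨fun h => absurd h (by simp), fun h => absurd h (by simp)⟩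
    · change (Sum.inr i : ZMod (2 * k) ⊕ {i : ZMod 10 // i ≠ 0}) = Sum.inr i' ↔
        (Sum.inl (φ i).1 : HV k N) = Sum.inl (φ i').1
      rw [Sum.inr.injEq, Sum.inl.injEq]
      exact ⟨fun h => by rw [h], fun h => φ.injective (Subtype.ext h)⟩
  have hE : ∀ (i i' : {i : ZMod 10 // i ≠ 0}) (j j' : ZMod (2 * k)),
      ((some (i.1, j) : Option (ZMod 10 × ZMod (2 * k))) = some (i'.1, j') ↔
        (some (Sum.inl (j, φ i)) : E27 k) = some (Sum.inl (j', φ i'))) := by
    intro i i' j j'
    rw [Option.some.injEq, Option.some.injEq, Sum.inl.injEq, Prod.mk.injEq, Prod.mk.injEq]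
    constructor
    · rintro ⟨h1, h2⟩
      exact ⟨h2, by rw [Subtype.ext h1]⟩
    · rintro ⟨h1, h2⟩
      exact ⟨congrArg Subtype.val (φ.injective h2), h1⟩
  have hw : ∀ x y, cw k x = cw k y ↔ fE x = fE y := by
    have hcw : ∀ (i : ZMod 10) (j : ZMod (2 * k)), cw k (Sum.inl (i, j)) = if i = 0 then none else some (i, j) :=
      fun i j => by simp only [cw]
    have hfE : ∀ (i : ZMod 10) (j : ZMod (2 * k)), fE (Sum.inl (i, j)) =
      if h : i = 0 then none else some (Sum.inl (j, φ ⟨i, h⟩)) := fun i j => rfl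
    have hcw' : ∀ (i : {i : ZMod 10 // i ≠ 0}) (j : ZMod (2 * k)), cw k (Sum.inr (i, j)) = some (i.1, j) :=
      fun i j => rfl
    have hfE' : ∀ (i : {i : ZMod 10 // i ≠ 0}) (j : ZMod (2 * k)), fE (Sum.inr (i, j)) =
      some (Sum.inl (j, φ i)) := fun i j => rfl
    rintro (⟨i, j⟩ | ⟨i, j⟩) (⟨i', j'⟩ | ⟨i', j'⟩)
    · rw [hcw, hcw, hfE, hfE]
      by_cases h : i = 0 <;> by_cases h' : i' = 0
      · rw [if_pos h, if_pos h', dif_pos h, dif_pos h']
        exact ⟨fun _ => rfl, fun _ => rfl⟩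
      · rw [if_pos h, if_neg h', dif_pos h, dif_neg h']
        exact ⟨fun h => absurd h (by simp), fun h => absurd h (by simp)⟩
      · rw [if_neg h, if_pos h', dif_neg h, dif_pos h']
        exact ⟨fun h => absurd h (by simp), fun h => absurd h (by simp)⟩
      · rw [if_neg h, if_neg h', dif_neg h, dif_neg h']
        exact hE ⟨i, h⟩ ⟨i', h'⟩ j j'
    · rw [hcw, hfE, hcw', hfE']
      by_cases h : i = 0
      · rw [if_pos h, dif_pos h]
        exact ⟨fun h => absurd h (by simp), fun h => absurd h (by simp)⟩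
      · rw [if_neg h, dif_neg h]
        exact hE ⟨i, h⟩ i' j j'
    · rw [hcw, hfE, hcw', hfE']
      by_cases h' : i' = 0
      · rw [if_pos h', dif_pos h']
        exact ⟨fun h => absurd h (by simp), fun h => absurd h (by simp)⟩
      · rw [if_neg h', dif_neg h']
        exact hE i ⟨i', h'⟩ j j'
    · rw [hcw', hfE', hcw', hfE']
      exact hE i i' j j'
  have hf : Function.Injective f := by
    intro x y hxy
    have h1 : fV x = fV y := congrArg (fun z : Inc (e27 k N) => z.1.1) hxy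
    have h2 : fE x = fE y := congrArg (fun z : Inc (e27 k N) => z.1.2) hxy
    rw [← hv] at h1
    rw [← hw] at h2
    rcases x with ⟨i, j⟩ | ⟨i, j⟩ <;> rcases y with ⟨i', j'⟩ | ⟨i', j'⟩
    · have h3 : j = j' := by simpa [cv] using h1
      subst h3
      by_cases h : i = 0 <;> by_cases h' : i' = 0
      · rw [h, h']
      · simp [cw, h, h'] at h2
      · simp [cw, h, h'] at h2
      · have h4 : i = i' := by simpa [cw, h, h'] using h2
        rw [h4]
    · simp [cv] at h1
    · simp [cv] at h1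
    · have h3 : i = i' := by simpa [cv] using h1
      subst h3
      have h4 : j = j' := by simpa [cw] using h2
      rw [h4]
  have hcard : Nat.card (Inc (e27 k N)) ≤ Nat.card (Core k) + 240 := by
    have h1 : Nat.card (Core k) = 38 * k := by
      have h2 : Fintype.card {i : ZMod 10 // i ≠ 0} = 9 := by
        have := cardZ27
        convert this
      rw [Nat.card_eq_fintype_card, Fintype.card_sum, Fintype.card_prod, Fintype.card_prod,
        h2, ZMod.card, ZMod.card]
      omega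
    rw [h1]
    exact card_inc27
  exact GLE.extend (v' := cv k) (w' := cw k) f hf hv hw (core k hk) hcard

end Pool.Agent.Helper33.RG
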