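import Pool.Agent.Helper33.RG.LG

/-!
# Lower bound: the end (MP_1f20e3_co)

Block RG-LBC: `final`: `N^2 + 6 ≤ 6 N + 6 * redGenus (HG k N univ)` for `N ≥ 2`, `k ≠ 0` (for `k = 0` the type `ZMod (2 * k)` is infinite).
PROOF. Let `e : E → Finset V` be a hypergraph for `G = HG k N univ`, `GenusLE e g`. For `(x,y) : Fin N × Fin N` let `j x y` be the hyperedge containing the two vertices `l x = inr (inr (inl x))`, `r y = inr (inr (inr y))`. `j x y = j x' y'` implies `(x,y) = (x',y')`: `l x`, `l x'` in the same hyperedge are equal (not adjacent). `e' : Fin N × Fin N → Finset (Fin N ⊕ Fin N)`,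
`e' (x,y) = {inl x, inr y}` is a hypergraph for `K_{N,N}` (`IsAdj`), and `f : Inc e' → Inc e`, `(v, (x,y)) ↦ (v, j x y)` is as in `GLE.restrict`; so `GenusLE e' g`. `euler3`: `2 (2 N^2) + 6 ≤ 3 (2 N) + 3 N^2 + 6 g` (`Nat.card (Inc e') = 2 N^2`).
-/

set_option autoImplicit false

namespace Pool.Agent.Helper33.RG

open Classical Finset

theorem final (k N : ℕ) [NeZero (2 * k)] (hN : 2 ≤ N) :
    N ^ 2 + 6 ≤ 6 * N + 6 * redGenus (HG k N univ) := by
  obtain ⟨E, _, e, he1, he2, he3⟩ := redGenus_spec (HG k N univ)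
  obtain ⟨em, hem⟩ : ∃ em : Fin N ⊕ Fin N → HV k N, ∀ v, em v = Sum.inr (Sum.inr v) :=
    ⟨_, fun _ => rfl⟩
  have hemi : Function.Injective em := by
    intro a b hab
    rw [hem, hem] at hab
    exact Sum.inr_injective (Sum.inr_injective hab)
  have hadj : ∀ x y : Fin N, (HG k N univ).Adj (em (Sum.inl x)) (em (Sum.inr y)) := by
    intro x y
    rw [hem, hem]
    exact mem_univ (x, y)
  have hnl : ∀ x x' : Fin N, ¬ (HG k N univ).Adj (em (Sum.inl x)) (em (Sum.inl x')) := by
    intro x x'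
    rw [hem, hem]
    exact fun h => h
  have hnr : ∀ x x' : Fin N, ¬ (HG k N univ).Adj (em (Sum.inr x)) (em (Sum.inr x')) := by
    intro x x'
    rw [hem, hem]
    exact fun h => h
  have hex : ∀ q : Fin N × Fin N, ∃ j, em (Sum.inl q.1) ∈ e j ∧ em (Sum.inr q.2) ∈ e j := by
    intro q
    obtain ⟨j, hj, -⟩ := (he2 _ _ (fun h => by
      have := hemi h
      simp at this)).1 (hadj q.1 q.2)
    exact ⟨j, hj⟩
  choose j hj1 hj2 using hex
  have hji : Function.Injective j := by
    intro q q' h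
    have h1 := hj1 q
    have h2 := hj2 q
    rw [h] at h1 h2
    refine Prod.ext ?_ ?_
    · by_contra hne
      exact (he2 (em (Sum.inl q.1)) (em (Sum.inl q'.1)) (fun h => hne (Sum.inl_injective (hemi h)))).2
        (hnl _ _) (j q') ⟨h1, hj1 q'⟩
    · by_contra hne
      exact (he2 (em (Sum.inr q.2)) (em (Sum.inr q'.2)) (fun h => hne (Sum.inr_injective (hemi h)))).2
        (hnr _ _) (j q') ⟨h2, hj2 q'⟩
  let e' : Fin N × Fin N → Finset (Fin N ⊕ Fin N) := fun q => {Sum.inl q.1, Sum.inr q.2}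
  have hmem : ∀ (v : Fin N ⊕ Fin N) (q : Fin N × Fin N), v ∈ e' q → em v ∈ e (j q) := by
    intro v q hv
    rcases Finset.mem_insert.1 hv with rfl | hv
    · exact hj1 q
    · rw [Finset.mem_singleton.1 hv]
      exact hj2 q
  let f : Inc e' → Inc e := fun i => ⟨(em i.1.1, j i.1.2), hmem _ _ i.2⟩
  have hf : Function.Injective f := by
    intro a b hab
    have h1 : em a.1.1 = em b.1.1 := congrArg (fun i : Inc e => i.1.1) hab
    have h2 : j a.1.2 = j b.1.2 := congrArg (fun i : Inc e => i.1.2) hab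
    exact Subtype.ext (Prod.ext (hemi h1) (hji h2))
  have hG : GenusLE e' (redGenus (HG k N univ)) := by
    refine GLE.restrict he3 f hf _ _ ?_ ?_
    · intro x y
      exact ⟨fun h => congrArg em h, fun h => hemi h⟩
    · intro x y
      exact ⟨fun h => congrArg j h, fun h => hji h⟩
  have hI : IsAdj e' (completeBipartiteGraph (Fin N) (Fin N)) := by
    intro u v huv
    constructor
    · intro h
      rcases u with x | y <;> rcases v with x' | y'
      · simp at h
      · refine ⟨(x, y'), ⟨by simp [e'], by simp [e']⟩, ?_⟩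
        rintro ⟨a, b⟩ ⟨h1, h2⟩
        simp only [e', Finset.mem_insert, Finset.mem_singleton, Sum.inl.injEq, Sum.inr.injEq,
          reduceCtorEq, or_false, false_or] at h1 h2
        rw [h1, h2]
      · refine ⟨(x', y), ⟨by simp [e'], by simp [e']⟩, ?_⟩
        rintro ⟨a, b⟩ ⟨h1, h2⟩
        simp only [e', Finset.mem_insert, Finset.mem_singleton, Sum.inl.injEq, Sum.inr.injEq,
          reduceCtorEq, or_false, false_or] at h1 h2
        rw [h1, h2]
      · simp at h
    · rintro h ⟨a, b⟩ ⟨h1, h2⟩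
      apply h
      simp only [e', Finset.mem_insert, Finset.mem_singleton] at h1 h2
      rcases h1 with rfl | rfl <;> rcases h2 with rfl | rfl
      · exact absurd rfl huv
      · simp
      · simp
      · exact absurd rfl huv
  have hne : Nonempty (Fin N ⊕ Fin N) := ⟨Sum.inl ⟨0, by omega⟩⟩
  have h2 : ∀ q, 2 ≤ (e' q).card := by
    intro q
    rw [Finset.card_pair (by simp)]
  have hd : ∀ v, ∃ i j, i ≠ j ∧ v ∈ e' i ∧ v ∈ e' j := by
    rintro (x | y)
    · exact ⟨(x, ⟨0, by omega⟩), (x, ⟨1, by omega⟩), by simp, by simp [e'], by simp [e']⟩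
    · exact ⟨(⟨0, by omega⟩, y), (⟨1, by omega⟩, y), by simp, by simp [e'], by simp [e']⟩
  have hE := euler3 hI h2 hd hG
  have hc : Nat.card (Inc e') = 2 * N ^ 2 := by
    have eq : Inc e' ≃ (Fin N × Fin N) × Bool :=
      { toFun := fun i => (i.1.2, i.1.1.isLeft)
        invFun := fun q => ⟨(if q.2 then Sum.inl q.1.1 else Sum.inr q.1.2, q.1), by
          rcases q with ⟨⟨x, y⟩, _ | _⟩ <;> simp [e']⟩
        left_inv := by
          rintro ⟨⟨v, ⟨x, y⟩⟩, hv⟩
          simp only [e', Finset.mem_insert, Finset.mem_singleton] at hv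
          rcases hv with rfl | rfl <;> simp
        right_inv := by
          rintro ⟨⟨x, y⟩, _ | _⟩ <;> simp }
    rw [Nat.card_congr eq, Nat.card_prod, Nat.card_prod, Nat.card_fin, Nat.card_eq_fintype_card,
      Fintype.card_bool]
    ring
  rw [hc, Fintype.card_sum, Fintype.card_prod, Fintype.card_fin] at hE
  nlinarith

end Pool.Agent.Helper33.RG
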