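import Pool.Agent.Helper33.RG.LG

/-!
# Lower bound: clique number and choice number (MP_1f20e3_co)

Block RG-LBD: `clique_le`: cliques have at most `2k + 6` elements; `chrom`: no proper colouring with `2k + 8` colours; so `ch ≥ 2k + 9`.
PROOF. A clique contains at most two vertices of every 5-cycle (three vertices of `ZMod 5` are not pairwise at distance `±1`: `decide`), at most `2k` vertices `x_j`; or it is in the bipartite part (the other parts are not adjacent to it), where it has at most two elements. A proper colouring: the colour sets of the three 5-cycles and of the `x_j` are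
pairwise disjoint; every 5-cycle needs three colours, the `x_j` need `2k`. `ch`: `Choosable G n` for some `n` (e.g. greedy with `n = card V`: order the vertices, or: an injective choice by Hall), and for `n < 2k + 9` not: constant lists `range n`. (`le_csInf`.)
-/

set_option autoImplicit false

namespace Pool.Agent.Helper33.RG

open Classical Finset

private theorem h22_c5 (x y z : ZMod 5) (hxy : x ≠ y) (hxz : x ≠ z) (hyz : y ≠ z) (h1 : y = x + 1 ∨ x = y + 1)
    (h2 : z = x + 1 ∨ x = z + 1) (h3 : z = y + 1 ∨ y = z + 1) : False := by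
  revert x y z
  decide

/-- the class of a vertex -/
private def h22_cls (k N : ℕ) : HV k N → ℕ
  | Sum.inl (a, _) => a.val
  | Sum.inr (Sum.inl _) => 3
  | Sum.inr (Sum.inr (Sum.inl _)) => 4
  | Sum.inr (Sum.inr (Sum.inr _)) => 5

theorem clique_le (k N : ℕ) (hk : 1 ≤ k) (D : Finset (Fin N × Fin N)) :
    (HG k N D).cliqueNum ≤ 2 * k + 6 := by
  haveI : NeZero (2 * k) := ⟨by omega⟩
  obtain ⟨s, hs⟩ := (HG k N D).exists_isNClique_cliqueNum
  rw [← hs.card_eq]
  have hadj : ∀ x ∈ s, ∀ y ∈ s, x ≠ y → (HG k N D).Adj x y := fun x hx y hy hne => hs.isClique hx hy hne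
  by_cases hb : ∃ x ∈ s, 4 ≤ h22_cls k N x
  · obtain ⟨x, hx, hx4⟩ := hb
    have hcl : ∀ y ∈ s, h22_cls k N y = 4 ∨ h22_cls k N y = 5 := by
      intro y hy
      by_cases hxy : x = y
      · subst hxy
        rcases x with ⟨a, b⟩ | j | x | x
        · have := a.isLt
          simp only [h22_cls] at hx4
          omega
        · simp only [h22_cls] at hx4
          omega
        · exact Or.inl rfl
        · exact Or.inr rfl
      · have h := hadj x hx y hy hxy
        rcases x with ⟨a, b⟩ | j | x | x
        · have := a.isLt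
          simp only [h22_cls] at hx4
          omega
        · simp only [h22_cls] at hx4
          omega
        · rcases y with ⟨a, b⟩ | j | y | y
          · exact absurd h (by simp [HG])
          · exact absurd h (by simp [HG])
          · exact Or.inl rfl
          · exact Or.inr rfl
        · rcases y with ⟨a, b⟩ | j | y | y
          · exact absurd h (by simp [HG])
          · exact absurd h (by simp [HG])
          · exact Or.inl rfl
          · exact Or.inr rfl
    have hinj : Set.InjOn (h22_cls k N) s := by
      intro y hy z hz hyz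
      by_contra hne
      have h := hadj y hy z hz hne
      have hy' := hcl y hy
      have hz' := hcl z hz
      rcases y with ⟨a, b⟩ | j | y | y
      · have := a.isLt
        simp only [h22_cls] at hy'
        omega
      · simp only [h22_cls] at hy'
        omega
      · rcases z with ⟨a, b⟩ | j | z | z
        · have := a.isLt
          simp only [h22_cls] at hz'
          omega
        · simp only [h22_cls] at hz'
          omega
        · exact absurd h (by simp [HG])
        · simp [h22_cls] at hyz
      · rcases z with ⟨a, b⟩ | j | z | z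
        · have := a.isLt
          simp only [h22_cls] at hz'
          omega
        · simp only [h22_cls] at hz'
          omega
        · simp [h22_cls] at hyz
        · exact absurd h (by simp [HG])
    have h1 : s.card ≤ ({4, 5} : Finset ℕ).card := by
      apply Finset.card_le_card_of_injOn (h22_cls k N) _ hinj
      intro y hy
      have := hcl y hy
      simp only [Finset.coe_insert, Finset.coe_singleton, Set.mem_insert_iff, Set.mem_singleton_iff]
      exact this
    have h2 : ({4, 5} : Finset ℕ).card = 2 := rfl
    omega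
  · simp only [not_exists, not_and, not_le] at hb
    have hfib := Finset.card_eq_sum_card_fiberwise (f := h22_cls k N) (s := s) (t := Finset.range 4) (by
      intro x hx
      exact Finset.mem_coe.2 (Finset.mem_range.2 (hb x hx)))
    have hc : ∀ a : ℕ, a < 3 → (s.filter fun x => h22_cls k N x = a).card ≤ 2 := by
      intro a ha
      by_contra hcon
      rw [not_le, Finset.two_lt_card_iff] at hcon
      obtain ⟨x, y, z, hx, hy, hz, hxy, hxz, hyz⟩ := hcon
      rw [Finset.mem_filter] at hx hy hz
      have key : ∀ u : HV k N, h22_cls k N u = a → ∃ b : ZMod 5, u = Sum.inl (⟨a, ha⟩, b) := by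
        intro u hu
        rcases u with ⟨a', b⟩ | j | u | u
        · simp only [h22_cls] at hu
          refine ⟨b, ?_⟩
          congr 2
          exact Fin.ext hu
        · simp only [h22_cls] at hu
          omega
        · simp only [h22_cls] at hu
          omega
        · simp only [h22_cls] at hu
          omega
      have hxs := hx.1
      have hys := hy.1
      have hzs := hz.1
      obtain ⟨bx, rfl⟩ := key x hx.2
      obtain ⟨by', rfl⟩ := key y hy.2
      obtain ⟨bz, rfl⟩ := key z hz.2
      have g : ∀ b c : ZMod 5, (HG k N D).Adj (Sum.inl (⟨a, ha⟩, b)) (Sum.inl (⟨a, ha⟩, c)) → c = b + 1 ∨ b = c + 1 := by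
        intro b c h
        simpa [HG] using h
      have e : ∀ b c : ZMod 5, (Sum.inl ((⟨a, ha⟩ : Fin 3), b) : HV k N) ≠ Sum.inl (⟨a, ha⟩, c) → b ≠ c := by
        rintro b c h rfl
        exact h rfl
      exact h22_c5 bx by' bz (e _ _ hxy) (e _ _ hxz) (e _ _ hyz) (g _ _ (hadj _ hxs _ hys hxy)) (g _ _ (hadj _ hxs _ hzs hxz))
        (g _ _ (hadj _ hys _ hzs hyz))
    have h3 : (s.filter fun x => h22_cls k N x = 3).card ≤ 2 * k := by
      have hsub : (s.filter fun x => h22_cls k N x = 3) ⊆
          (Finset.univ : Finset (ZMod (2 * k))).image (fun j => (Sum.inr (Sum.inl j) : HV k N)) := by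
        intro x hx
        rw [Finset.mem_filter] at hx
        rcases x with ⟨a', b⟩ | j | u | u
        · have := a'.isLt
          have := hx.2
          simp only [h22_cls] at this
          omega
        · exact Finset.mem_image_of_mem _ (Finset.mem_univ _)
        · have := hx.2
          simp only [h22_cls] at this
          omega
        · have := hx.2
          simp only [h22_cls] at this
          omega
      refine (Finset.card_le_card hsub).trans (Finset.card_image_le.trans ?_)
      rw [Finset.card_univ, ZMod.card]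
    rw [Finset.sum_range_succ, Finset.sum_range_succ, Finset.sum_range_succ, Finset.sum_range_succ,
      Finset.sum_range_zero] at hfib
    have a0 := hc 0 (by norm_num)
    have a1 := hc 1 (by norm_num)
    have a2 := hc 2 (by norm_num)
    omega

private theorem h22_three {α : Type} [DecidableEq α] (g : ZMod 5 → α) (hg : ∀ b : ZMod 5, g b ≠ g (b + 1)) :
    3 ≤ (Finset.univ.image g).card := by
  have m : ∀ b : ZMod 5, g b ∈ Finset.univ.image g := fun b => Finset.mem_image_of_mem _ (Finset.mem_univ _)
  have h0 : g 0 ≠ g 1 := hg 0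
  have h1 : g 1 ≠ g 2 := hg 1
  have h2 : g 2 ≠ g 3 := hg 2
  have h3 : g 3 ≠ g 4 := hg 3
  have h4 : g 4 ≠ g 0 := hg 4
  show 2 < (Finset.univ.image g).card
  rw [Finset.two_lt_card_iff]
  by_cases c1 : g 2 = g 0
  · by_cases c2 : g 3 = g 1
    · exact ⟨g 3, g 4, g 0, m _, m _, m _, h3, by rw [c2]; exact h0.symm, h4⟩
    · exact ⟨g 1, g 2, g 3, m _, m _, m _, h1, fun h => c2 h.symm, h2⟩
  · exact ⟨g 0, g 1, g 2, m _, m _, m _, h0, fun h => c1 h.symm, h1⟩

theorem chrom (k N : ℕ) (hk : 1 ≤ k) (D : Finset (Fin N × Fin N))
    (f : HV k N → Fin (2 * k + 8)) : ∃ u v, (HG k N D).Adj u v ∧ f u = f v := by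
  haveI : NeZero (2 * k) := ⟨by omega⟩
  by_contra hcon
  have hf : ∀ u v, (HG k N D).Adj u v → f u ≠ f v := fun u v h1 h2 => hcon ⟨u, v, h1, h2⟩
  set S : Fin 3 → Finset (Fin (2 * k + 8)) := fun a => Finset.univ.image fun b : ZMod 5 => f (Sum.inl (a, b)) with hS
  set X : Finset (Fin (2 * k + 8)) := Finset.univ.image fun j : ZMod (2 * k) => f (Sum.inr (Sum.inl j)) with hX
  have hSc : ∀ a, 3 ≤ (S a).card := by
    intro a
    apply h22_three
    intro b
    apply hf
    simp [HG]
  have hXc : X.card = 2 * k := by
    rw [hX, Finset.card_image_of_injective, Finset.card_univ, ZMod.card]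
    intro j j' h
    by_contra hne
    exact hf (Sum.inr (Sum.inl j)) (Sum.inr (Sum.inl j')) (by simp [HG, hne]) h
  have hSS : ∀ a a', a ≠ a' → Disjoint (S a) (S a') := by
    intro a a' hne
    rw [Finset.disjoint_left]
    intro c hc hc'
    rw [hS, Finset.mem_image] at hc hc'
    obtain ⟨b, -, rfl⟩ := hc
    obtain ⟨b', -, h⟩ := hc'
    exact hf (Sum.inl (a', b')) (Sum.inl (a, b)) (by simp [HG, hne.symm]) h
  have hSX : ∀ a, Disjoint (S a) X := by
    intro a
    rw [Finset.disjoint_left]
    intro c hc hc'
    rw [hS, Finset.mem_image] at hc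
    rw [hX, Finset.mem_image] at hc'
    obtain ⟨b, -, rfl⟩ := hc
    obtain ⟨j, -, h⟩ := hc'
    exact hf (Sum.inr (Sum.inl j)) (Sum.inl (a, b)) (by simp [HG]) h
  have h01 : Disjoint (S 0) (S 1) := hSS 0 1 (by decide)
  have h02 : Disjoint (S 0 ∪ S 1) (S 2) := Finset.disjoint_union_left.2 ⟨hSS 0 2 (by decide), hSS 1 2 (by decide)⟩
  have h03 : Disjoint (S 0 ∪ S 1 ∪ S 2) X :=
    Finset.disjoint_union_left.2 ⟨Finset.disjoint_union_left.2 ⟨hSX 0, hSX 1⟩, hSX 2⟩
  have htot : (S 0 ∪ S 1 ∪ S 2 ∪ X).card ≤ 2 * k + 8 := by
    have := Finset.card_le_univ (S 0 ∪ S 1 ∪ S 2 ∪ X)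
    rwa [Fintype.card_fin] at this
  rw [Finset.card_union_of_disjoint h03, Finset.card_union_of_disjoint h02, Finset.card_union_of_disjoint h01, hXc] at htot
  have a0 := hSc 0
  have a1 := hSc 1
  have a2 := hSc 2
  omega

theorem le_ch (k N : ℕ) (hk : 1 ≤ k) (D : Finset (Fin N × Fin N)) :
    2 * k + 9 ≤ ch (HG k N D) := by
  haveI : NeZero (2 * k) := ⟨by omega⟩
  unfold ch
  apply le_csInf
  · refine ⟨Fintype.card (HV k N), ?_⟩
    intro L hL
    have hall : ∀ s : Finset (HV k N), s.card ≤ (s.biUnion L).card := by
      intro s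
      rcases s.eq_empty_or_nonempty with rfl | ⟨v, hv⟩
      · simp
      · calc s.card ≤ Fintype.card (HV k N) := Finset.card_le_univ s
          _ = (L v).card := (hL v).symm
          _ ≤ (s.biUnion L).card := Finset.card_le_card (Finset.subset_biUnion_of_mem L hv)
    obtain ⟨f, hf1, hf2⟩ := (Finset.all_card_le_biUnion_card_iff_exists_injective L).1 hall
    exact ⟨f, hf2, fun u v huv h => huv.ne (hf1 h)⟩
  · intro n hn
    by_contra hcon
    rw [not_le] at hcon
    obtain ⟨f, hf1, hf2⟩ := hn (fun _ => Finset.range n) (fun _ => Finset.card_range n)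
    have hlt : ∀ v, f v < 2 * k + 8 := fun v => by
      have := Finset.mem_range.1 (hf1 v)
      omega
    obtain ⟨u, v, h1, h2⟩ := chrom k N hk D (fun v => ⟨f v, hlt v⟩)
    exact hf2 u v h1 (by simpa using h2)

end Pool.Agent.Helper33.RG
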