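import Pool.Agent.Helper33.RG.CORE
import Pool.Agent.Helper33.RG.RES
import Pool.Agent.Helper33.RG.EUL

/-!
# The graphs for the lower bound (MP_1f20e3_co)

`HG k N D`: the join of `K_{2k}` and three 5-cycles, and a disjoint bipartite graph with edge set `D`.

Block RG-RGB: `redGenus_spec`, `redGenus_add_edge`.
PROOF. `redGenus_spec`: the infimum is attained (`Nat.sInf_mem`); the set is nonempty: `E = {s : Sym2 V // s ∈ G.edgeSet}`, `e s = s.toFinset` (or all pairs `(u,v)` with `u < v`..), `GLE.exists` (`Inc e` is finite). `redGenus_le`: `Nat.sInf_le`.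
`redGenus_add_edge`: let `e` be a hypergraph for `G` of genus `≤ g = redGenus G`. `e' : Option E → Finset V`, `e' none = {u, v}`, `e' (some j) = e j`: `IsAdj e' G'`. `Inc e ⊂ Inc e'`, two new incidences `(u, none)`, `(v, none)`. With `X₁ = {x : Inc e' // x ≠ (v, none)}`: `GLE.extend_leaf` from `Inc e` to `X₁` (the new incidence `(u, none)` is alone in its hyperedge),
then `GLE.extend` with `k = 1` to `Inc e'`.
-/

set_option autoImplicit false

namespace Pool.Agent.Helper33.RG

open Classical Finset

/-- Vertices: three 5-cycles, the `2k` vertices `x_j`, and two sets of `N` vertices. -/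
abbrev HV (k N : ℕ) : Type := (Fin 3 × ZMod 5) ⊕ (ZMod (2 * k) ⊕ (Fin N ⊕ Fin N))

/-- The graph for the lower bound. -/
def HG (k N : ℕ) (D : Finset (Fin N × Fin N)) : SimpleGraph (HV k N) where
  Adj x y := match x, y with
    | Sum.inl (a, b), Sum.inl (a', b') => a ≠ a' ∨ b' = b + 1 ∨ b = b' + 1
    | Sum.inl _, Sum.inr (Sum.inl _) => True
    | Sum.inr (Sum.inl _), Sum.inl _ => True
    | Sum.inr (Sum.inl j), Sum.inr (Sum.inl j') => j ≠ j'
    | Sum.inr (Sum.inr (Sum.inl x)), Sum.inr (Sum.inr (Sum.inr y)) => (x, y) ∈ D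
    | Sum.inr (Sum.inr (Sum.inr y)), Sum.inr (Sum.inr (Sum.inl x)) => (x, y) ∈ D
    | _, _ => False
  symm := ⟨by
    rintro (⟨a, b⟩ | j | x | y) (⟨a', b'⟩ | j' | x' | y') h <;> simp_all
    · rcases h with h | h | h
      · exact Or.inl (Ne.symm h)
      · exact Or.inr (Or.inr h)
      · exact Or.inr (Or.inl h)
    · exact Ne.symm h⟩
  loopless := ⟨by
    rintro (⟨a, b⟩ | j | x | y) h <;> simp_all
    exact absurd h (by decide)⟩

theorem redGenus_spec {V : Type} [Fintype V] (G : SimpleGraph V) :
    ∃ (E : Type) (_ : Fintype E) (e : E → Finset V),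
      (∀ j, (e j).Nonempty) ∧ IsAdj e G ∧ GenusLE e (redGenus G) := by
  have hne : {g | ∃ (E : Type) (_ : Fintype E) (e : E → Finset V),
    (∀ j, (e j).Nonempty) ∧ IsAdj e G ∧ GenusLE e g}.Nonempty := by
    refine ⟨_, {s : Finset V // s.card = 2 ∧ G.IsClique (s : Set V)}, inferInstance,
      fun s => s.1, ?_, ?_, GLE.exists _ _⟩
    · intro s
      refine Finset.card_pos.1 ?_
      rw [s.2.1]; norm_num
    · intro u v huv
      constructor
      · intro h
        refine ⟨⟨{u, v}, Finset.card_pair huv, ?_⟩, ?_, ?_⟩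
        · rw [Finset.coe_pair, SimpleGraph.isClique_iff]
          intro a ha b hb hab
          rcases ha with rfl | ha <;> rcases hb with rfl | hb
          · exact absurd rfl hab
          · rw [Set.mem_singleton_iff] at hb; subst hb; exact h
          · rw [Set.mem_singleton_iff] at ha; subst ha; exact h.symm
          · rw [Set.mem_singleton_iff] at ha hb; subst ha; subst hb; exact absurd rfl hab
        · simp
        · rintro ⟨s, hs, hs'⟩ ⟨h1, h2⟩
          refine Subtype.ext (Eq.symm ?_)
          refine Finset.eq_of_subset_of_card_le ?_ ?_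
          · intro y hy
            rw [Finset.mem_insert, Finset.mem_singleton] at hy
            rcases hy with rfl | rfl
            · exact h1
            · exact h2
          · rw [Finset.card_pair huv]
            exact hs.le
      · intro h s hs
        have h1 := s.2.2
        rw [SimpleGraph.isClique_iff] at h1
        exact h (h1 (Finset.mem_coe.2 hs.1) (Finset.mem_coe.2 hs.2) huv)
  exact Nat.sInf_mem hne

theorem redGenus_le {V : Type} [Fintype V] {G : SimpleGraph V} {E : Type} [Fintype E]
    (e : E → Finset V) (h1 : ∀ j, (e j).Nonempty) (h2 : IsAdj e G) {g : ℕ} (h3 : GenusLE e g) :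
    redGenus G ≤ g :=
  Nat.sInf_le ⟨E, inferInstance, e, h1, h2, h3⟩

theorem redGenus_add_edge {V : Type} [Fintype V] (G G' : SimpleGraph V) (u v : V) (huv : u ≠ v)
    (h : ¬ G.Adj u v)
    (h' : ∀ x y, G'.Adj x y ↔ G.Adj x y ∨ (x = u ∧ y = v) ∨ (x = v ∧ y = u)) :
    redGenus G' ≤ redGenus G + 1 := by
  obtain ⟨E, _, e, he1, he2, he3⟩ := redGenus_spec G
  set e' : Option E → Finset V := fun o => match o with
    | none => {u, v}
    | some j => e j with he'
  have hadj : IsAdj e' G' := by
    intro x y hxy
    constructor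
    · intro hG
      rcases (h' x y).1 hG with h1 | h1
      · obtain ⟨j, hj, hj'⟩ := (he2 x y hxy).1 h1
        refine ⟨some j, hj, ?_⟩
        rintro (_ | j') hj''
        · exfalso
          have hx : x = u ∨ x = v := by simpa [he'] using hj''.1
          have hy : y = u ∨ y = v := by simpa [he'] using hj''.2
          rcases hx with rfl | rfl <;> rcases hy with rfl | rfl
          · exact hxy rfl
          · exact h h1
          · exact h h1.symm
          · exact hxy rfl
        · exact congrArg some (hj' j' hj'')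
      · have hnG : ¬ G.Adj x y := by
          rcases h1 with ⟨rfl, rfl⟩ | ⟨rfl, rfl⟩
          · exact h
          · exact fun h2 => h h2.symm
        refine ⟨none, ?_, ?_⟩
        · rcases h1 with ⟨rfl, rfl⟩ | ⟨rfl, rfl⟩ <;> simp [he']
        · rintro (_ | j') hj''
          · rfl
          · exact absurd hj'' ((he2 x y hxy).2 hnG j')
    · intro hG
      have hnG : ¬ G.Adj x y := fun h1 => hG ((h' x y).2 (Or.inl h1))
      have hn2 : ¬ ((x = u ∧ y = v) ∨ (x = v ∧ y = u)) := fun h1 => hG ((h' x y).2 (Or.inr h1))
      rintro (_ | j) hj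
      · have hx : x = u ∨ x = v := by simpa [he'] using hj.1
        have hy : y = u ∨ y = v := by simpa [he'] using hj.2
        rcases hx with rfl | rfl <;> rcases hy with rfl | rfl
        · exact hxy rfl
        · exact hn2 (Or.inl ⟨rfl, rfl⟩)
        · exact hn2 (Or.inr ⟨rfl, rfl⟩)
        · exact hxy rfl
      · exact (he2 x y hxy).2 hnG j hj
  refine redGenus_le e' ?_ hadj ?_
  · rintro (_ | j)
    · exact ⟨u, by simp [he']⟩
    · exact he1 j
  · -- the two new incidences
    have hun : u ∈ e' none := by simp [he']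
    have hvn : v ∈ e' none := by simp [he']
    set iu : Inc e' := ⟨(u, none), hun⟩ with hiu
    set iv : Inc e' := ⟨(v, none), hvn⟩ with hiv
    have hne : iu ≠ iv := by
      intro h1
      exact huv (congrArg (fun z : Inc e' => z.1.1) h1)
    let f : Inc e → {z : Inc e' // z ≠ iv} := fun x => ⟨⟨(x.1.1, some x.1.2), x.2⟩, by
      intro h1
      have := congrArg (fun z : Inc e' => z.1.2) h1
      exact absurd this (by simp [hiv])⟩
    have h1 : GLE (fun z : {z : Inc e' // z ≠ iv} => z.1.1.1)
        (fun z : {z : Inc e' // z ≠ iv} => z.1.1.2) (redGenus G) := by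
      refine GLE.extend_leaf (v := fun z : {z : Inc e' // z ≠ iv} => z.1.1.1)
        (w := fun z : {z : Inc e' // z ≠ iv} => z.1.1.2) f ?_ ?_ ?_ he3 ⟨iu, hne⟩ ?_ ?_
      · intro x y hxy
        have h2 := congrArg (fun z : {z : Inc e' // z ≠ iv} => z.1.1) hxy
        simp only [f, Prod.mk.injEq, Option.some.injEq] at h2
        exact Subtype.ext (Prod.ext h2.1 h2.2)
      · intro x y
        exact Iff.rfl
      · intro x y
        simp only [f, Option.some.injEq]
      · rintro ⟨⟨⟨x, _ | j⟩, hx⟩, hz⟩ hz'
        · exfalso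
          have hx' : x = u ∨ x = v := by simpa [he'] using hx
          rcases hx' with rfl | rfl
          · exact hz' rfl
          · exact hz rfl
        · exact ⟨⟨(x, j), hx⟩, rfl⟩
      · right
        rintro ⟨⟨⟨x, _ | j⟩, hx⟩, hz⟩ hz'
        · exfalso
          have hx' : x = u ∨ x = v := by simpa [he'] using hx
          rcases hx' with rfl | rfl
          · exact hz' rfl
          · exact hz rfl
        · simp [hiu]
    exact (GLE.extend_one iv h1).1

end Pool.Agent.Helper33.RG
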