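import Pool.Agent.Helper33.RG.ST
import Pool.Agent.Helper33.RG.CT
import Pool.Agent.Helper33.RG.LG

/-!
# Block RG-UB: the upper bound (MP_1f20e3_co)

PROOF of `upper`. `KU, L₀` from `str_exists` (and `L₀ ≥ 1`). Strong induction on `card V` (for all `V`, `G`, `E`, `e`, `Lst` with fixed `ε, L, g`). If `V` is empty: trivial. First replace `E` by the hyperedges with at least two elements (`{j // 2 ≤ (e j).card}`): `IsAdj` remains true, `GenusLE` by `GLE.restrict`. If some vertex `v₀` has fewer than `L`
neighbours: apply the induction hypothesis to `V' = {v // v ≠ v₀}`, `G' = G.comap Subtype.val`, `e' j = (e j).subtype _` (`IsAdj`, cliques: images of cliques of `G'` are cliques of `G`; `GenusLE e' g` by `GLE.restrict`), and colour `v₀` with a colour of `Lst v₀` not used by its neighbours. Otherwise `HypG G e L g`, and `str_exists`, `ct` give the colouring.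
`upper_ch`: for `redGenus G = g`, `(1/2 + ε) g ≤ C`, `L = max C (ω + 2)`: the infimum in `redGenus` is attained (`Nat.sInf_mem`; the set is nonempty: hyperedges = edges of `G`, `GLE.exists`), `g ≤ 2L/(1+2ε) ≤ (2 - ε) L` (`ε ≤ 1/2`), `G.IsClique s → s.card ≤ ω` (`SimpleGraph.IsClique.card_le_cliqueNum`), so `Choosable G L`, `ch G ≤ L` (`Nat.sInf_le`). `L ≥ L₀` if `g` is large.
-/

set_option autoImplicit false

namespace Pool.Agent.Helper33.RG

open Classical Finset

/-- `GenusLE` for a hypergraph with an incidence preserving injection. -/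
theorem GenusLE.of_inj {V E V' E' : Type} [Finite V] [Finite E] {e : E → Finset V}
    {e' : E' → Finset V'} {g : ℕ} (h : GenusLE e g) (a : V' → V) (b : E' → E)
    (ha : Function.Injective a) (hb : Function.Injective b)
    (hm : ∀ v j, v ∈ e' j → a v ∈ e (b j)) : GenusLE e' g := by
  unfold GenusLE at h ⊢
  refine GLE.restrict h (fun x : Inc e' => (⟨(a x.1.1, b x.1.2), hm _ _ x.2⟩ : Inc e)) ?_ _ _ ?_ ?_
  · intro x y hxy
    have h1 := Subtype.ext_iff.1 hxy
    simp only [Prod.mk.injEq] at h1
    exact Subtype.ext (Prod.ext (ha h1.1) (hb h1.2))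
  · intro x y
    exact (ha.eq_iff).symm
  · intro x y
    exact (hb.eq_iff).symm

theorem upper_aux (ε : ℝ) (hε : 0 < ε) (hε1 : ε ≤ 1) (KU L₀ : ℕ)
    (hnum : ∀ L : ℕ, L₀ ≤ L → ((KU : ℝ) + 1600) * 10 ^ 40 ≤ ε * L)
    (hst : ∀ {V E : Type} [Fintype V] [Fintype E] (G : SimpleGraph V) (e : E → Finset V)
      (L g : ℕ), HypG G e L g → (g : ℝ) ≤ (2 - ε) * L → L₀ ≤ L →
      ∃ (I : Type) (_ : Fintype I) (M : I → Finset V) (U : Finset V),
        Str G L M U ε (ε / 100) (ε / 10 ^ 32) KU) (L g : ℕ) (hL : L₀ ≤ L)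
    (hg : (g : ℝ) ≤ (2 - ε) * L) : ∀ (n : ℕ) (V E : Type) (_ : Fintype V) (_ : Fintype E)
      (G : SimpleGraph V) (e : E → Finset V), Fintype.card V = n → IsAdj e G → GenusLE e g →
      (∀ s : Finset V, G.IsClique (s : Set V) → s.card + 2 ≤ L) →
      ∀ Lst : V → Finset ℕ, (∀ v, (Lst v).card = L) →
        ∃ f : V → ℕ, (∀ v, f v ∈ Lst v) ∧ ∀ u v, G.Adj u v → f u ≠ f v := by
  intro n
  induction n with
  | zero =>
    intro V E _ _ G e hV _ _ _ Lst _
    have := Fintype.card_eq_zero_iff.1 hV
    exact ⟨fun _ => 0, fun v => isEmptyElim v, fun v => isEmptyElim v⟩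
  | succ n ih =>
    intro V E _ _ G e hV hadj hgen hclq Lst hlst
    have : Nonempty V := by
      rw [← Fintype.card_pos_iff]; omega
    by_cases hdeg : ∀ v, L ≤ (univ.filter fun x => G.Adj v x).card
    · -- all degrees are large
      have hG : HypG G (fun j : {j // 2 ≤ (e j).card} => e j.1) L g := by
        constructor
        · intro u v huv
          constructor
          · intro h
            obtain ⟨j, hj, hj'⟩ := (hadj u v huv).1 h
            have h2 : 2 ≤ (e j).card := by
              rw [← Finset.card_pair huv]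
              refine Finset.card_le_card ?_
              intro y hy
              rw [Finset.mem_insert, Finset.mem_singleton] at hy
              rcases hy with rfl | rfl
              · exact hj.1
              · exact hj.2
            exact ⟨⟨j, h2⟩, hj, fun y hy => Subtype.ext (hj' y.1 hy)⟩
          · intro h j
            exact (hadj u v huv).2 h j.1
        · exact fun j => j.2
        · exact hdeg
        · exact hclq
        · exact hgen.of_inj id Subtype.val Function.injective_id Subtype.val_injective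
            (fun v j h => h)
        · infer_instance
      obtain ⟨I, _, M, U, hS⟩ := hst G _ L g hG hg hL
      exact ct hS hε hε1 le_rfl (by positivity) le_rfl (hnum L hL) hlst
    · push Not at hdeg
      obtain ⟨v₀, hv₀⟩ := hdeg
      have hcard : Fintype.card {v // v ≠ v₀} = n := by
        have h1 := Fintype.card_subtype_compl (fun v => v = v₀)
        have h2 : Fintype.card {v // v = v₀} = 1 := Fintype.card_subtype_eq v₀
        have h3 : Fintype.card {v // v ≠ v₀} = Fintype.card {v // ¬ v = v₀} :=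
          Fintype.card_congr (Equiv.refl _)
        omega
      have hA : IsAdj (fun j => (e j).subtype (· ≠ v₀)) (G.comap (Subtype.val : {v // v ≠ v₀} → V)) := by
        intro u v huv
        have huv' : u.1 ≠ v.1 := fun h => huv (Subtype.ext h)
        constructor
        · intro h
          obtain ⟨j, hj, hj'⟩ := (hadj u.1 v.1 huv').1 h
          refine ⟨j, ?_, ?_⟩
          · simpa using hj
          · intro y hy
            refine hj' y ?_
            simpa using hy
        · intro h j hj
          refine (hadj u.1 v.1 huv').2 h j ?_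
          simpa using hj
      have hB : GenusLE (fun j => (e j).subtype (· ≠ v₀)) g := by
        refine hgen.of_inj Subtype.val id Subtype.val_injective Function.injective_id ?_
        intro v j h
        simpa using h
      have hC : ∀ s : Finset {v // v ≠ v₀},
          (G.comap (Subtype.val : {v // v ≠ v₀} → V)).IsClique (s : Set {v // v ≠ v₀}) →
          s.card + 2 ≤ L := by
        intro s hs
        have h1 := hclq (s.map (Function.Embedding.subtype _)) (by
          rw [SimpleGraph.isClique_iff] at hs ⊢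
          intro x hx y hy hxy
          rw [Finset.mem_coe, Finset.mem_map] at hx hy
          obtain ⟨x', hx', rfl⟩ := hx
          obtain ⟨y', hy', rfl⟩ := hy
          exact hs (Finset.mem_coe.2 hx') (Finset.mem_coe.2 hy') (fun h => hxy (by rw [h])))
        rwa [Finset.card_map] at h1
      obtain ⟨f, hf1, hf2⟩ := ih {v // v ≠ v₀} E inferInstance inferInstance
        (G.comap Subtype.val) (fun j => (e j).subtype (· ≠ v₀)) hcard hA hB hC
        (fun v => Lst v.1) (fun v => hlst v.1)
      obtain ⟨z, hz, hz'⟩ : ∃ z ∈ Lst v₀, z ∉ (univ.filter fun x : {v // v ≠ v₀} =>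
          G.Adj v₀ x.1).image f := by
        refine Finset.exists_mem_notMem_of_card_lt_card ?_
        refine lt_of_le_of_lt Finset.card_image_le ?_
        rw [hlst]
        refine lt_of_le_of_lt ?_ hv₀
        rw [← Finset.card_map (Function.Embedding.subtype _)]
        refine Finset.card_le_card ?_
        intro y hy
        rw [Finset.mem_map] at hy
        obtain ⟨y', hy', rfl⟩ := hy
        rw [Finset.mem_filter] at hy' ⊢
        exact ⟨Finset.mem_univ _, hy'.2⟩
      have hz2 : ∀ x (hx : x ≠ v₀), G.Adj v₀ x → z ≠ f ⟨x, hx⟩ := by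
        intro x hx hxa he
        exact hz' (Finset.mem_image.2 ⟨⟨x, hx⟩, Finset.mem_filter.2 ⟨Finset.mem_univ _, hxa⟩,
          he.symm⟩)
      refine ⟨fun v => if h : v = v₀ then z else f ⟨v, h⟩, ?_, ?_⟩
      · intro v
        by_cases h : v = v₀
        · subst h; simpa using hz
        · simpa [h] using hf1 ⟨v, h⟩
      · intro u v huv
        by_cases hu : u = v₀
        · by_cases hv : v = v₀
          · subst hu; subst hv; exact absurd rfl huv.ne
          · subst hu
            simpa [hv] using hz2 v hv huv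
        · by_cases hv : v = v₀
          · subst hv
            simpa [hu] using (hz2 u hu huv.symm).symm
          · simpa [hu, hv] using hf2 ⟨u, hu⟩ ⟨v, hv⟩ huv

theorem upper (ε : ℝ) (hε : 0 < ε) (hε1 : ε ≤ 1) : ∃ L₀ : ℕ, ∀ L : ℕ, L₀ ≤ L → ∀ g : ℕ,
    (g : ℝ) ≤ (2 - ε) * L → ∀ {V E : Type} [Fintype V] [Fintype E] (G : SimpleGraph V)
      (e : E → Finset V), IsAdj e G → GenusLE e g →
      (∀ s : Finset V, G.IsClique (s : Set V) → s.card + 2 ≤ L) → Choosable G L := by
  obtain ⟨KU, L₀, hnum, hst⟩ := str_exists ε hε hε1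
  refine ⟨L₀, ?_⟩
  intro L hL g hg V E _ _ G e h1 h2 h3 Lst hlst
  exact upper_aux ε hε hε1 KU L₀ hnum hst L g hL hg (Fintype.card V) V E inferInstance
    inferInstance G e rfl h1 h2 h3 Lst hlst

theorem upper_ch (ε : ℝ) (hε : 0 < ε) (hε1 : ε ≤ 1 / 2) : ∃ g₀ : ℕ, ∀ g : ℕ, g₀ ≤ g → ∀ C : ℕ,
    (1 / 2 + ε) * (g : ℝ) ≤ C → ∀ (V : Type) (_ : Fintype V) (G : SimpleGraph V),
      redGenus G = g → ch G ≤ max C (G.cliqueNum + 2) := by
  obtain ⟨L₀, hup⟩ := upper ε hε (by linarith)
  refine ⟨2 * L₀, ?_⟩
  intro g hg C hC V _ G hr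
  obtain ⟨E, _, e, _, he, hgen⟩ := redGenus_spec G
  rw [hr] at hgen
  have hg0 : (0 : ℝ) ≤ g := Nat.cast_nonneg _
  have hg2 : 2 * (L₀ : ℝ) ≤ g := by exact_mod_cast hg
  have hCL : (C : ℝ) ≤ (max C (G.cliqueNum + 2) : ℕ) := by
    exact_mod_cast le_max_left _ _
  have hL : L₀ ≤ max C (G.cliqueNum + 2) := by
    refine le_trans ?_ (le_max_left _ _)
    have h1 : (L₀ : ℝ) ≤ C := by nlinarith
    exact_mod_cast h1
  refine Nat.sInf_le (hup _ hL g ?_ G e he hgen ?_)
  · set L : ℝ := ((max C (G.cliqueNum + 2) : ℕ) : ℝ) with hLd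
    have h1 : (1 / 2 + ε) * (g : ℝ) ≤ L := hC.trans hCL
    have h2 : (1 : ℝ) ≤ (2 - ε) * (1 / 2 + ε) := by nlinarith
    calc (g : ℝ) = 1 * g := by ring
      _ ≤ (2 - ε) * (1 / 2 + ε) * g := by gcongr
      _ = (2 - ε) * ((1 / 2 + ε) * g) := by ring
      _ ≤ (2 - ε) * L := mul_le_mul_of_nonneg_left h1 (by linarith)
  · intro s hs
    have h1 := hs.card_le_cliqueNum
    have h2 := le_max_right C (G.cliqueNum + 2)
    omega

end Pool.Agent.Helper33.RG
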