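import Pool.Agent.Helper33.RG.LBA
import Pool.Agent.Helper33.RG.LBC
import Pool.Agent.Helper33.RG.LBD
import Pool.Agent.Helper33.RG.UB

/-!
# Block RG-LOW: lower bound and final theorem (assembly) (MP_1f20e3_co)

PROOF of `exists_graph`. `k ≥ 1`, `4 k + 240 ≤ g`, `N = 6 g + 10`, so `(N^2 + 6 - 6N)/6 ≥ g`. Enumerate the `N^2` pairs, `D_0 = ∅ ⊂ D_1 ⊂ ... ⊂ univ`; `redGenus (HG k N D_(i+1)) ≤ redGenus (HG k N D_i) + 1` (`redGenus_add_edge`), start `≤ 4k + 240 ≤ g` (`start`), end `≥ g` (`final`): some `D_i` has `redGenus = g`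
(the least `i` with `redGenus ≥ g`; or induction on finsets: every `D` with `redGenus (HG k N D) ≥ g` contains a `D'` with `redGenus = g`).
`lower`: if `C` is in the set defining `Cg g` then `2 k + 9 ≤ ch G ≤ max C (ω + 2) ≤ max C (2 k + 8)`, so `2k + 9 ≤ C`. The set is nonempty for large `g` (`upper_ch`), so `2k + 9 ≤ Cg g`; with `k = (g - 240)/4`: `g/2 - 113 ≤ Cg g` (`k ≥ (g - 243)/4`).
`main`: for `ε > 0` and large `g`: `Cg g ≤ ⌈(1/2 + ε) g⌉ ≤ (1/2 + ε) g + 1` (`Nat.sInf_le`).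
-/

set_option autoImplicit false

namespace Pool.Agent.Helper33.RG

open Classical Finset

theorem exists_graph (k g : ℕ) (hk : 1 ≤ k) (hg : 4 * k + 240 ≤ g) :
    ∃ (N : ℕ) (D : Finset (Fin N × Fin N)), redGenus (HG k N D) = g := by
  have : NeZero (2 * k) := ⟨by omega⟩
  set N : ℕ := 6 * g + 10 with hN
  have hfin := final k N (by omega)
  have hbig : g ≤ redGenus (HG k N univ) := by
    have h1 : 6 * g + 6 * N ≤ N ^ 2 + 6 := by
      rw [hN]; ring_nf; nlinarith
    omega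
  have hind : ∀ D : Finset (Fin N × Fin N), g ≤ redGenus (HG k N D) →
      ∃ D' : Finset (Fin N × Fin N), redGenus (HG k N D') = g := by
    intro D
    induction D using Finset.induction_on with
    | empty =>
      intro h
      exact ⟨∅, le_antisymm ((start k N hk).trans hg) h⟩
    | insert a D ha ih =>
      intro h
      by_cases h1 : g ≤ redGenus (HG k N D)
      · exact ih h1
      · refine ⟨insert a D, le_antisymm ?_ h⟩
        obtain ⟨x, y⟩ := a
        have h2 := redGenus_add_edge (HG k N D) (HG k N (insert (x, y) D))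
          (Sum.inr (Sum.inr (Sum.inl x))) (Sum.inr (Sum.inr (Sum.inr y))) (by simp)
          (by simpa [HG] using ha) (by
            rintro (⟨a, b⟩ | j | u | u) (⟨a', b'⟩ | j' | v | v) <;> simp [HG]
            · exact or_comm
            · rw [or_comm, and_comm (a := v = x)])
        omega
  obtain ⟨D, hD⟩ := hind univ hbig
  exact ⟨N, D, hD⟩

theorem lower : ∃ g₀ : ℕ, ∀ g : ℕ, g₀ ≤ g → (g : ℝ) / 2 - 113 ≤ Cg g := by
  obtain ⟨g₁, h1⟩ := upper_ch (1 / 2) (by norm_num) le_rfl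
  refine ⟨g₁ + 244, ?_⟩
  intro g hg
  have hne : {C | ∀ (V : Type) (_ : Fintype V) (G : SimpleGraph V), redGenus G = g →
      ch G ≤ max C (G.cliqueNum + 2)}.Nonempty := by
    refine ⟨g, ?_⟩
    exact h1 g (by omega) g (by linarith)
  have hC : ∀ (V : Type) (_ : Fintype V) (G : SimpleGraph V), redGenus G = g →
      ch G ≤ max (Cg g) (G.cliqueNum + 2) := Nat.sInf_mem hne
  set k : ℕ := (g - 240) / 4 with hk
  have : NeZero (2 * k) := ⟨by omega⟩
  obtain ⟨N, D, hD⟩ := exists_graph k g (by omega) (by omega)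
  have h2 := hC _ inferInstance (HG k N D) hD
  have h3 := le_ch k N (by omega) D
  have h4 := clique_le k N (by omega) D
  have h5 : 2 * k + 9 ≤ Cg g := by
    by_contra hcon
    have h6 : max (Cg g) ((HG k N D).cliqueNum + 2) ≤ 2 * k + 8 := max_le (by omega) (by omega)
    omega
  have h6 : g ≤ 4 * k + 243 := by omega
  have h7 : (g : ℝ) ≤ 4 * k + 243 := by exact_mod_cast h6
  have h8 : (2 : ℝ) * k + 9 ≤ Cg g := by exact_mod_cast h5
  linarith

theorem main : Filter.Tendsto (fun g : ℕ => (Cg g : ℝ) / g) Filter.atTop (nhds (1 / 2)) := by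
  rw [Metric.tendsto_atTop]
  intro ε hε
  obtain ⟨g₀, h0⟩ := lower
  obtain ⟨g₁, h1⟩ := upper_ch (min (ε / 2) (1 / 2)) (lt_min (by linarith) (by norm_num))
    (min_le_right _ _)
  refine ⟨g₀ + g₁ + ⌈200 / ε⌉₊ + 1, ?_⟩
  intro g hg
  have hg1 : 200 / ε < g := by
    refine lt_of_le_of_lt (Nat.le_ceil _) ?_
    exact_mod_cast (by omega : ⌈200 / ε⌉₊ < g)
  rw [div_lt_iff₀ hε] at hg1
  have hg0 : (0 : ℝ) < g := by exact_mod_cast (by omega : 0 < g)
  have hlow := h0 g (by omega)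
  have hup : Cg g ≤ ⌈(1 / 2 + min (ε / 2) (1 / 2)) * (g : ℝ)⌉₊ :=
    Nat.sInf_le (h1 g (by omega) _ (Nat.le_ceil _))
  have hup2 : (Cg g : ℝ) ≤ (1 / 2 + ε / 2) * g + 1 := by
    have h2 : (Cg g : ℝ) ≤ (⌈(1 / 2 + min (ε / 2) (1 / 2)) * (g : ℝ)⌉₊ : ℝ) := by
      exact_mod_cast hup
    have h3 : (0 : ℝ) ≤ (1 / 2 + min (ε / 2) (1 / 2)) * (g : ℝ) := by
      have : 0 < min (ε / 2) (1 / 2) := lt_min (by linarith) (by norm_num)
      positivity
    have h4 := (Nat.ceil_lt_add_one h3).le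
    have h5 : (1 / 2 + min (ε / 2) (1 / 2)) * (g : ℝ) ≤ (1 / 2 + ε / 2) * g := by
      have := min_le_left (ε / 2) (1 / 2 : ℝ)
      nlinarith
    linarith
  rw [Real.dist_eq, abs_lt]
  constructor
  · rw [lt_sub_iff_add_lt, lt_div_iff₀ hg0]
    nlinarith
  · rw [sub_lt_iff_lt_add, div_lt_iff₀ hg0]
    nlinarith

end Pool.Agent.Helper33.RG
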