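import Pool.Agent.Helper33.RG.GL

/-!
# Block RG-LY (MP_1f20e3_co)

`lemY`: `τ(T[S]) ≥ 4`, `|H| ≤ 2`: there are disjoint classes in `S` with savings 3, at most one of them meets `H`. The conclusion is
written with the two possible shapes: a triangle and an edge, or three edges.

PROOF. If `T[S \ H]` has a triangle: it and an edge of the rest (`τ ≥ 1`). Assume `T[S \ H]` triangle-free. `τ(T[S \ H]) ≥ 2`, so (`Tau.two`) there are
disjoint edges `ab`, `cd` in `S \ H`. If for some such pair `S \ {a,b,c,d}` contains an edge: three edges, only the last one may meet `H`. Assume (*): for all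
disjoint edges `ab`, `cd` in `S \ H` the set `{a,b,c,d}` covers `T[S]`. Fix one pair. (A) no `r ∈ S \ H`, `r ∉ {a,b,c,d}` is adjacent to one of `a,b,c,d`: say `r ~ a` (the other cases by symmetry: the names
`a,b,c,d` can be exchanged). Then `ar`, `cd` are disjoint, so `{a,r,c,d}` covers `T[S]`; so all neighbours of `b` are in `{a,r,c,d}`, `b ≁ r` (triangle `a b r`), so `N(b) ⊆ {a,c,d}` and
`{a,c,d}` covers `T[S]` (every edge meets `{a,b,c,d}`, an edge at `b` ends in `{a,c,d}`), contradiction to `τ ≥ 4`. So all edges of `T[S]` are inside `{a,b,c,d} ∪ H`, and the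
elements of `H` are pairwise not adjacent (`{a,b,c,d}` is a cover). (B) If an element `h ∈ H ∩ S` is in a triangle `h x y`, then `x, y ∈ {a,b,c,d}` (`H` is independent). If the two other elements of `{a,b,c,d}`
are adjacent we are done: triangle `h x y` and this edge. So `x, y` is not one of the given edges; names: `x = a`, `y = c`, `b ≁ d`. `b ≁ h`: else the triangle `a b h` and the
edge `c d`; `d ≁ h`: else the triangle `c d h` and the edge `a b`. So `{b, d, h}` is independent, and with the other element `h'` of `H` the set `{a, c, h'}` (or `{a,c}`) is a cover: contradiction to `τ ≥ 4`.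
(C) If no element of `H` is in a triangle then `T[S]` is triangle-free and all edges are on `≤ 6` vertices `{a,b,c,d} ∪ H`. Then there are three independent elements among these six (or: a cover with three elements):
`|H ∩ S| ≤ 1`: `a ≁ c` or `a ≁ d` (else triangle `a c d`), and then `{b, d, h}` or `{b, c, h}`, hmm: simply R(3,3) = 6: a vertex with three neighbours (independent) or three non-neighbours among the other five, two of which are
non-adjacent; the other three of the six vertices are a cover. Contradiction to `τ ≥ 4`.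
-/

set_option autoImplicit false

namespace Pool.Agent.Helper33.RG

variable {α : Type} [DecidableEq α]

private structure LP (T : SimpleGraph α) (S H : Finset α) (a b c d : α) : Prop where
  aS : a ∈ S
  bS : b ∈ S
  cS : c ∈ S
  dS : d ∈ S
  aH : a ∉ H
  bH : b ∉ H
  cH : c ∉ H
  dH : d ∉ H
  ab : T.Adj a b
  cd : T.Adj c d
  ac : a ≠ c
  ad : a ≠ d
  bc : b ≠ c
  bd : b ≠ d

omit [DecidableEq α] in
private lemma LP.swap1 {T : SimpleGraph α} {S H : Finset α} {a b c d : α}
    (h : LP T S H a b c d) : LP T S H b a c d :=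
  ⟨h.bS, h.aS, h.cS, h.dS, h.bH, h.aH, h.cH, h.dH, h.ab.symm, h.cd, h.bc, h.bd, h.ac, h.ad⟩

omit [DecidableEq α] in
private lemma LP.swap2 {T : SimpleGraph α} {S H : Finset α} {a b c d : α}
    (h : LP T S H a b c d) : LP T S H c d a b :=
  ⟨h.cS, h.dS, h.aS, h.bS, h.cH, h.dH, h.aH, h.bH, h.cd, h.ab, h.ac.symm, h.bc.symm, h.ad.symm,
    h.bd.symm⟩

omit [DecidableEq α] in
private lemma LP.swap3 {T : SimpleGraph α} {S H : Finset α} {a b c d : α}
    (h : LP T S H a b c d) : LP T S H a b d c :=
  h.swap2.swap1.swap2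

private lemma disjPair {a b : α} {H : Finset α} (ha : a ∉ H) (hb : b ∉ H) :
    Disjoint ({a, b} : Finset α) H := by
  rw [Finset.disjoint_left]
  intro y hy
  rw [Finset.mem_insert, Finset.mem_singleton] at hy
  rcases hy with rfl | rfl
  · exact ha
  · exact hb

theorem lemY {T : SimpleGraph α} {S : Finset α} (h : Tau T S 4) (H : Finset α) (hH : H.card ≤ 2) :
    (∃ u v w x y, u ∈ S ∧ v ∈ S ∧ w ∈ S ∧ T.Adj u v ∧ T.Adj u w ∧ T.Adj v w ∧
      x ∈ S \ {u, v, w} ∧ y ∈ S \ {u, v, w} ∧ T.Adj x y ∧
      (Disjoint {u, v, w} H ∨ Disjoint {x, y} H)) ∨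
    (∃ u v u' v' x y, u ∈ S ∧ v ∈ S ∧ T.Adj u v ∧ u' ∈ S \ {u, v} ∧ v' ∈ S \ {u, v} ∧ T.Adj u' v' ∧
      x ∈ (S \ {u, v}) \ {u', v'} ∧ y ∈ (S \ {u, v}) \ {u', v'} ∧ T.Adj x y ∧
      Disjoint {u, v} H ∧ Disjoint {u', v'} H) := by
  by_contra hcon
  rw [not_or] at hcon
  obtain ⟨hc1, hc2⟩ := hcon
  -- the two negated alternatives in a convenient form
  have hN1 : ∀ u v w x y : α, u ∈ S → v ∈ S → w ∈ S → T.Adj u v → T.Adj u w → T.Adj v w →
      x ∈ S → y ∈ S → x ≠ u → x ≠ v → x ≠ w → y ≠ u → y ≠ v → y ≠ w → T.Adj x y →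
      x ∉ H → y ∉ H → False := by
    intro u v w x y hu hv hw huv huw hvw hx hy h1 h2 h3 h4 h5 h6 hxy hxH hyH
    exact hc1 ⟨u, v, w, x, y, hu, hv, hw, huv, huw, hvw, by simp [hx, h1, h2, h3],
      by simp [hy, h4, h5, h6], hxy, Or.inr (disjPair hxH hyH)⟩
  -- no triangle in `S \ H`
  have htf : ∀ u v w : α, u ∈ S → v ∈ S → w ∈ S → u ∉ H → v ∉ H → w ∉ H → T.Adj u v →
      T.Adj u w → T.Adj v w → False := by
    intro u v w hu hv hw huH hvH hwH huv huw hvw
    have hcard : ({u, v, w} : Finset α).card ≤ 3 := Finset.card_le_three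
    obtain ⟨x, hx, y, hy, hxy⟩ := (h.sdiff' (l := 1) {u, v, w} (by omega)).edge le_rfl
    refine hc1 ⟨u, v, w, x, y, hu, hv, hw, huv, huw, hvw, hx, hy, hxy, Or.inl ?_⟩
    rw [Finset.disjoint_left]
    intro z hz
    simp only [Finset.mem_insert, Finset.mem_singleton] at hz
    rcases hz with rfl | rfl | rfl
    · exact huH
    · exact hvH
    · exact hwH
  -- (*)
  have star : ∀ a b c d : α, LP T S H a b c d → ∀ x ∈ S, ∀ y ∈ S, T.Adj x y →
      (x = a ∨ x = b ∨ x = c ∨ x = d) ∨ (y = a ∨ y = b ∨ y = c ∨ y = d) := by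
    intro a b c d hp x hx y hy hxy
    by_contra hne
    push Not at hne
    obtain ⟨⟨h1, h2, h3, h4⟩, h5, h6, h7, h8⟩ := hne
    refine hc2 ⟨a, b, c, d, x, y, hp.aS, hp.bS, hp.ab, ?_, ?_, hp.cd, ?_, ?_, hxy,
      disjPair hp.aH hp.bH, disjPair hp.cH hp.dH⟩
    · simp [hp.cS, hp.ac.symm, hp.bc.symm]
    · simp [hp.dS, hp.ad.symm, hp.bd.symm]
    · simp [hx, h1, h2, h3, h4]
    · simp [hy, h5, h6, h7, h8]
  -- (A)
  have stepA : ∀ a b c d : α, LP T S H a b c d → ∀ r ∈ S, r ∉ H → r ≠ a → r ≠ b → r ≠ c → r ≠ d →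
      ¬ T.Adj a r := by
    intro a b c d hp r hr hrH hra hrb hrc hrd har
    have hp' : LP T S H a r c d :=
      ⟨hp.aS, hr, hp.cS, hp.dS, hp.aH, hrH, hp.cH, hp.dH, har, hp.cd, hp.ac, hp.ad, hrc, hrd⟩
    have hbr : ¬ T.Adj b r := fun hbr =>
      htf a b r hp.aS hp.bS hr hp.aH hp.bH hrH hp.ab har hbr
    obtain ⟨x, hx, y, hy, hxy, hxX, hyX⟩ := h.edge_avoid {a, c, d}
      (lt_of_le_of_lt Finset.card_le_three (by norm_num))
    simp only [Finset.mem_insert, Finset.mem_singleton, not_or] at hxX hyX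
    obtain ⟨hx1, hx2, hx3⟩ := hxX
    obtain ⟨hy1, hy2, hy3⟩ := hyX
    have hs := star a b c d hp x hx y hy hxy
    have hs' := star a r c d hp' x hx y hy hxy
    have hs1 : x = b ∨ y = b := by tauto
    have hs2 : x = r ∨ y = r := by tauto
    rcases hs1 with rfl | rfl
    · rcases hs2 with h1 | rfl
      · exact hrb h1.symm
      · exact hbr hxy
    · rcases hs2 with rfl | h1
      · exact hbr hxy.symm
      · exact hrb h1.symm
  -- all edges are inside
  have inside : ∀ a b c d : α, LP T S H a b c d → ∀ x ∈ S, ∀ y ∈ S, T.Adj x y →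
      x = a ∨ x = b ∨ x = c ∨ x = d ∨ x ∈ H := by
    intro a b c d hp x hx y hy hxy
    by_contra hne
    push Not at hne
    obtain ⟨h1, h2, h3, h4, h5⟩ := hne
    rcases star a b c d hp x hx y hy hxy with h6 | h6
    · tauto
    · rcases h6 with rfl | rfl | rfl | rfl
      · exact stepA _ _ _ _ hp x hx h5 h1 h2 h3 h4 hxy.symm
      · exact stepA _ _ _ _ hp.swap1 x hx h5 h2 h1 h3 h4 hxy.symm
      · exact stepA _ _ _ _ hp.swap2 x hx h5 h3 h4 h1 h2 hxy.symm
      · exact stepA _ _ _ _ hp.swap2.swap1 x hx h5 h4 h3 h1 h2 hxy.symm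
  -- the two edges
  have hex : ∃ a b c d : α, LP T S H a b c d := by
    have h2 : Tau T (S \ H) 2 := h.sdiff' H (by omega)
    rcases h2.two le_rfl with ⟨u, v, u', v', hu, hv, huv, hu', hv', huv'⟩ |
      ⟨u, v, w, hu, hv, hw, huv, huw, hvw⟩
    · rw [Finset.mem_sdiff] at hu hv
      simp only [Finset.mem_sdiff, Finset.mem_insert, Finset.mem_singleton, not_or] at hu' hv'
      exact ⟨u, v, u', v', hu.1, hv.1, hu'.1.1, hv'.1.1, hu.2, hv.2, hu'.1.2, hv'.1.2, huv, huv',
        Ne.symm hu'.2.1, Ne.symm hv'.2.1, Ne.symm hu'.2.2, Ne.symm hv'.2.2⟩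
    · rw [Finset.mem_sdiff] at hu hv hw
      exact (htf u v w hu.1 hv.1 hw.1 hu.2 hv.2 hw.2 huv huw hvw).elim
  obtain ⟨a, b, c, d, hp⟩ := hex
  by_cases hHS : (H ∩ S).card ≤ 1
  · -- at most one element of `H` in `S`
    have hmain : ∀ a b c d : α, LP T S H a b c d → ¬ T.Adj a c → False := by
      intro a b c d hp hac
      have hcard : ({b, d} ∪ (H ∩ S) : Finset α).card < 4 := by
        have h1 := Finset.card_union_le ({b, d} : Finset α) (H ∩ S)
        have h2 : ({b, d} : Finset α).card ≤ 2 := Finset.card_le_two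
        omega
      obtain ⟨x, hx, y, hy, hxy, hxX, hyX⟩ := h.edge_avoid _ hcard
      simp only [Finset.mem_union, Finset.mem_insert, Finset.mem_singleton, Finset.mem_inter,
        not_or, not_and] at hxX hyX
      have h3 := inside a b c d hp x hx y hy hxy
      have h4 := inside a b c d hp y hy x hx hxy.symm
      have h5 : x = a ∨ x = c := by tauto
      have h6 : y = a ∨ y = c := by tauto
      rcases h5 with rfl | rfl <;> rcases h6 with rfl | rfl
      · exact T.irrefl hxy
      · exact hac hxy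
      · exact hac hxy.symm
      · exact T.irrefl hxy
    by_cases hac : T.Adj a c
    · by_cases had : T.Adj a d
      · exact htf a c d hp.aS hp.cS hp.dS hp.aH hp.cH hp.dH hac had hp.cd
      · exact hmain a b d c hp.swap3 had
    · exact hmain a b c d hp hac
  · have hH2 : (H ∩ S).card ≤ H.card := Finset.card_le_card Finset.inter_subset_left
    have hHcard : H.card = 2 := by omega
    have hHeq : H ∩ S = H := Finset.eq_of_subset_of_card_le Finset.inter_subset_left (by omega)
    have hHsub : H ⊆ S := Finset.inter_eq_left.1 hHeq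
    obtain ⟨e, f, hef, hHef⟩ := Finset.card_eq_two.1 hHcard
    have heH : e ∈ H := by simp [hHef]
    have hfH : f ∈ H := by simp [hHef]
    have heS := hHsub heH
    have hfS := hHsub hfH
    have hmem : ∀ x, x ∈ H ↔ x = e ∨ x = f := fun x => by simp [hHef]
    have hneE : ∀ {x}, x ∉ H → x ≠ e := fun hx he => hx (he ▸ heH)
    have hneF : ∀ {x}, x ∉ H → x ≠ f := fun hx he => hx (he ▸ hfH)
    have hefn : ¬ T.Adj e f := by
      intro hadj
      rcases star a b c d hp e heS f hfS hadj with (h1 | h1 | h1 | h1) | (h1 | h1 | h1 | h1)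
      · exact hp.aH (h1 ▸ heH)
      · exact hp.bH (h1 ▸ heH)
      · exact hp.cH (h1 ▸ heH)
      · exact hp.dH (h1 ▸ heH)
      · exact hp.aH (h1 ▸ hfH)
      · exact hp.bH (h1 ▸ hfH)
      · exact hp.cH (h1 ▸ hfH)
      · exact hp.dH (h1 ▸ hfH)
    -- independent triples
    have htri : ∀ x y z u v w : α, (∀ s, s = a ∨ s = b ∨ s = c ∨ s = d ∨ s ∈ H →
        s ∈ ({u, v, w} : Finset α) ∨ s = x ∨ s = y ∨ s = z) →
        ¬ T.Adj x y → ¬ T.Adj x z → ¬ T.Adj y z → False := by
      intro x y z u v w hall hxy hxz hyz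
      obtain ⟨s, hs, t, ht, hst, hsX, htX⟩ := h.edge_avoid {u, v, w}
        (lt_of_le_of_lt Finset.card_le_three (by norm_num))
      have h1 := hall s (inside a b c d hp s hs t ht hst)
      have h2 := hall t (inside a b c d hp t ht s hs hst.symm)
      have h3 : s = x ∨ s = y ∨ s = z := h1.resolve_left hsX
      have h4 : t = x ∨ t = y ∨ t = z := h2.resolve_left htX
      rcases h3 with rfl | rfl | rfl <;> rcases h4 with rfl | rfl | rfl
      · exact T.irrefl hst
      · exact hxy hst
      · exact hxz hst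
      · exact hxy hst.symm
      · exact T.irrefl hst
      · exact hyz hst
      · exact hxz hst.symm
      · exact hyz hst.symm
      · exact T.irrefl hst
    have hA : T.Adj a e ∨ T.Adj a f := by
      by_contra hne
      rw [not_or] at hne
      refine htri a e f b c d ?_ hne.1 hne.2 hefn
      intro s hs
      rw [hmem] at hs
      rcases hs with hs | hs | hs | hs | hs | hs <;> simp [hs]
    have hB : T.Adj b e ∨ T.Adj b f := by
      by_contra hne
      rw [not_or] at hne
      refine htri b e f a c d ?_ hne.1 hne.2 hefn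
      intro s hs
      rw [hmem] at hs
      rcases hs with hs | hs | hs | hs | hs | hs <;> simp [hs]
    have hC : T.Adj c e ∨ T.Adj c f := by
      by_contra hne
      rw [not_or] at hne
      refine htri c e f a b d ?_ hne.1 hne.2 hefn
      intro s hs
      rw [hmem] at hs
      rcases hs with hs | hs | hs | hs | hs | hs <;> simp [hs]
    have hD : T.Adj d e ∨ T.Adj d f := by
      by_contra hne
      rw [not_or] at hne
      refine htri d e f a b c ?_ hne.1 hne.2 hefn
      intro s hs
      rw [hmem] at hs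
      rcases hs with hs | hs | hs | hs | hs | hs <;> simp [hs]
    -- an element of `H` is not adjacent to both ends of an edge
    have hboth : ∀ a b c d : α, LP T S H a b c d → ∀ g ∈ H, T.Adj a g → ¬ T.Adj b g := by
      intro a b c d hp g hg hag hbg
      have hgS := hHsub hg
      have hne : ∀ {x}, x ∉ H → x ≠ g := fun hx he => hx (he ▸ hg)
      exact hN1 a b g c d hp.aS hp.bS hgS hp.ab hag hbg hp.cS hp.dS hp.ac.symm hp.bc.symm
        (hne hp.cH) hp.ad.symm hp.bd.symm (hne hp.dH) hp.cd hp.cH hp.dH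
    have hfin : ∀ p p' q q' : α, LP T S H p p' q q' →
        (∀ s, s = a ∨ s = b ∨ s = c ∨ s = d → s = p ∨ s = p' ∨ s = q ∨ s = q') →
        T.Adj p e → T.Adj p' f → T.Adj q e → T.Adj q' f → False := by
      intro p p' q q' hq hiff h1 h2 h3 h4
      have hpf : ¬ T.Adj p f := fun hh => hboth _ _ _ _ hq f hfH hh h2
      have hpe : ¬ T.Adj p' e := fun hh => hboth _ _ _ _ hq e heH h1 hh
      have hqf : ¬ T.Adj q f := fun hh => hboth _ _ _ _ hq.swap2 f hfH hh h4
      have hqe : ¬ T.Adj q' e := fun hh => hboth _ _ _ _ hq.swap2 e heH h3 hh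
      have hpq : T.Adj p q := by
        by_contra hne
        refine htri p q f p' q' e ?_ hne hpf hqf
        intro s hs
        have h5 : (s = p ∨ s = p' ∨ s = q ∨ s = q') ∨ (s = e ∨ s = f) := by
          rcases hs with hs | hs | hs | hs | hs
          · exact Or.inl (hiff s (Or.inl hs))
          · exact Or.inl (hiff s (Or.inr (Or.inl hs)))
          · exact Or.inl (hiff s (Or.inr (Or.inr (Or.inl hs))))
          · exact Or.inl (hiff s (Or.inr (Or.inr (Or.inr hs))))
          · exact Or.inr ((hmem s).1 hs)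
        rcases h5 with (h5 | h5 | h5 | h5) | (h5 | h5) <;> simp [h5]
      have hpq' : T.Adj p' q' := by
        by_contra hne
        refine htri p' q' e p q f ?_ hne hpe hqe
        intro s hs
        have h5 : (s = p ∨ s = p' ∨ s = q ∨ s = q') ∨ (s = e ∨ s = f) := by
          rcases hs with hs | hs | hs | hs | hs
          · exact Or.inl (hiff s (Or.inl hs))
          · exact Or.inl (hiff s (Or.inr (Or.inl hs)))
          · exact Or.inl (hiff s (Or.inr (Or.inr (Or.inl hs))))
          · exact Or.inl (hiff s (Or.inr (Or.inr (Or.inr hs))))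
          · exact Or.inr ((hmem s).1 hs)
        rcases h5 with (h5 | h5 | h5 | h5) | (h5 | h5) <;> simp [h5]
      exact hN1 p q e p' q' hq.aS hq.cS heS hpq h1 h3 hq.bS hq.dS hq.ab.ne' hq.bc (hneE hq.bH)
        hq.ad.symm hq.cd.ne' (hneE hq.dH) hpq' hq.bH hq.dH
    rcases hA with hA | hA
    · have hB' : T.Adj b f := hB.resolve_left fun hh => hboth _ _ _ _ hp e heH hA hh
      rcases hC with hC | hC
      · have hD' : T.Adj d f := hD.resolve_left fun hh => hboth _ _ _ _ hp.swap2 e heH hC hh
        exact hfin a b c d hp (fun s hs => hs) hA hB' hC hD'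
      · have hD' : T.Adj d e := hD.resolve_right fun hh => hboth _ _ _ _ hp.swap2 f hfH hC hh
        exact hfin a b d c hp.swap3 (fun s hs => by
          rcases hs with hs | hs | hs | hs <;> simp [hs]) hA hB' hD' hC
    · have hB' : T.Adj b e := hB.resolve_right fun hh => hboth _ _ _ _ hp f hfH hA hh
      rcases hC with hC | hC
      · have hD' : T.Adj d f := hD.resolve_left fun hh => hboth _ _ _ _ hp.swap2 e heH hC hh
        exact hfin b a c d hp.swap1 (fun s hs => by
          rcases hs with hs | hs | hs | hs <;> simp [hs]) hB' hA hC hD'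
      · have hD' : T.Adj d e := hD.resolve_right fun hh => hboth _ _ _ _ hp.swap2 f hfH hC hh
        exact hfin b a d c hp.swap3.swap1 (fun s hs => by
          rcases hs with hs | hs | hs | hs <;> simp [hs]) hB' hA hD' hC

end Pool.Agent.Helper33.RG
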