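import Pool.Agent.Helper33.RG.EUL
import Pool.Agent.Helper33.RG.CDefs

/-!
# Block RG-NB: the number of incidences (MP_1f20e3_co)

`nb`: under `HypG`, `L ≥ 1000`: `∑_j |e j| ≤ 156 g`.

PROOF. `d v` = number of `j` with `v ∈ e j`; `∑_v d v = ∑_j |e j| = Nat.card (Inc e) =: N`. Every hyperedge is a clique (`adj`), so `|e j| + 2 ≤ L` (`clq`). The neighbours of `v` are the elements of the sets `e j \ {v}`, `v ∈ e j`, so
`∑_{j ∋ v} (|e j| - 1) ≥ L` (`deg`). In particular `d v ≥ 2`. `euler3` (file EUL): `2 N + 6 ≤ 3 |V| + 3 |E| + 6 g` (all hyperedges have at least two elements, all vertices are in at least two hyperedges). With `|E| = ∑_v ∑_{j ∋ v} 1/|e j|`: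
`∑_v c v ≤ 2 g - 2`, `c v = ∑_{j ∋ v} (2/3 - 1/|e j|) - 1`. Claim `c v ≥ d v / 78`. `d v ≥ 7`: `c v ≥ d v/6 - 1 ≥ d v/42`. `d v ≤ 6`: let `j₀` be a hyperedge at `v` of maximal size; `|e j₀| - 1 ≥ L/6`, and the other hyperedges have
`∑ (|e j| - 1) ≥ L - (L - 3) = 3`; `2/3 - 1/(k+1) ≥ (5/36) min(k, 3)` for `k ≥ 1` (`k = 1, 2`, `k ≥ 3`), so `c v ≥ 2/3 - 6/L - 1 + (5/36) 3 = 1/12 - 6/L ≥ 1/13 ≥ d v/78`. So `N/78 ≤ 2 g - 2`.
-/

set_option autoImplicit false

namespace Pool.Agent.Helper33.RG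

open Classical Finset

/-- Hypotheses on a graph of minimum degree `≥ L` with clique number `≤ L - 2`, embedded with reduced
genus `≤ g`. -/
structure HypG {V E : Type} [Fintype V] [Fintype E] (G : SimpleGraph V) (e : E → Finset V)
    (L g : ℕ) : Prop where
  adj : IsAdj e G
  two : ∀ j, 2 ≤ (e j).card
  deg : ∀ v, L ≤ (univ.filter fun x => G.Adj v x).card
  clq : ∀ s : Finset V, G.IsClique (s : Set V) → s.card + 2 ≤ L
  gen : GenusLE e g
  ne : Nonempty V

private theorem nb_min {ι : Type} (s : Finset ι) (f : ι → ℕ) (h : 3 ≤ ∑ j ∈ s, f j) :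
    3 ≤ ∑ j ∈ s, min (f j) 3 := by
  by_cases hex : ∃ j ∈ s, 3 ≤ f j
  · obtain ⟨j, hj, h3⟩ := hex
    have h1 := Finset.single_le_sum (f := fun j => min (f j) 3) (fun i _ => Nat.zero_le _) hj
    rw [min_eq_right h3] at h1
    exact h1
  · push Not at hex
    have h1 : ∑ j ∈ s, min (f j) 3 = ∑ j ∈ s, f j :=
      Finset.sum_congr rfl fun j hj => min_eq_left (hex j hj).le
    rw [h1]
    exact h

private theorem nb_frac (k : ℕ) (hk : 1 ≤ k) :
    (5 / 36 : ℝ) * (min k 3 : ℕ) ≤ 2 / 3 - 1 / ((k : ℝ) + 1) := by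
  rcases Nat.lt_or_ge k 3 with h | h
  · interval_cases k
    · norm_num
    · norm_num
  · rw [min_eq_right h]
    have h1 : (3 : ℝ) ≤ k := by exact_mod_cast h
    have h2 : 1 / ((k : ℝ) + 1) ≤ 1 / 4 := by
      apply one_div_le_one_div_of_le <;> linarith
    push_cast
    linarith

private theorem nb_swap {V E : Type} [Fintype V] [Fintype E] (e : E → Finset V) (F : V → E → ℝ) :
    ∑ j, ∑ v ∈ e j, F v j = ∑ v, ∑ j ∈ univ.filter (fun j => v ∈ e j), F v j := by
  apply Finset.sum_comm'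
  intro j v
  simp

private theorem nb_card {V E : Type} [Fintype V] [Fintype E] (e : E → Finset V) :
    Nat.card (Inc e) = ∑ j, (e j).card := by
  rw [Nat.card_eq_fintype_card, Fintype.card_subtype, Finset.card_filter,
    Fintype.sum_prod_type_right]
  refine Finset.sum_congr rfl fun j _ => ?_
  simp

theorem nb {V E : Type} [Fintype V] [Fintype E] {G : SimpleGraph V} {e : E → Finset V} {L g : ℕ}
    (h : HypG G e L g) (hL : 1000 ≤ L) : ∑ j, (e j).card ≤ 156 * g := by
  have hne := h.ne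
  set J : V → Finset E := fun v => univ.filter (fun j => v ∈ e j) with hJ
  have hmemJ : ∀ v j, j ∈ J v ↔ v ∈ e j := by
    intro v j
    simp [hJ]
  -- hyperedges are cliques
  have hclq : ∀ j, (e j).card + 2 ≤ L := by
    intro j
    apply h.clq
    intro u hu v hv huv
    by_contra hadj
    exact (h.adj u v huv).2 hadj j ⟨hu, hv⟩
  have hdeg : ∀ v, L ≤ ∑ j ∈ J v, ((e j).card - 1) := by
    intro v
    refine (h.deg v).trans ?_
    have h1 : (univ.filter fun x => G.Adj v x) ⊆ (J v).biUnion (fun j => (e j).erase v) := by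
      intro x hx
      have hx' := (Finset.mem_filter.mp hx).2
      obtain ⟨j, hj, -⟩ := (h.adj v x hx'.ne).1 hx'
      rw [Finset.mem_biUnion]
      exact ⟨j, (hmemJ v j).mpr hj.1, Finset.mem_erase.mpr ⟨hx'.ne', hj.2⟩⟩
    refine (Finset.card_le_card h1).trans (Finset.card_biUnion_le.trans (le_of_eq ?_))
    refine Finset.sum_congr rfl fun j hj => ?_
    rw [Finset.card_erase_of_mem ((hmemJ v j).mp hj)]
  have hd2 : ∀ v, 1 < (J v).card := by
    intro v
    by_contra hcon
    have h1 : (J v).card ≤ 1 := by omega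
    have h2 : ∑ j ∈ J v, ((e j).card - 1) ≤ (J v).card * (L - 3) := by
      rw [← smul_eq_mul]
      apply Finset.sum_le_card_nsmul
      intro j _
      have := hclq j
      omega
    have h3 := hdeg v
    have h4 : (J v).card * (L - 3) ≤ 1 * (L - 3) := Nat.mul_le_mul_right _ h1
    omega
  have hd : ∀ v, ∃ i j, i ≠ j ∧ v ∈ e i ∧ v ∈ e j := by
    intro v
    obtain ⟨i, hi, j, hj, hij⟩ := Finset.one_lt_card.mp (hd2 v)
    exact ⟨i, j, hij, (hmemJ v i).mp hi, (hmemJ v j).mp hj⟩
  have heul := euler3 h.adj h.two hd h.gen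
  rw [nb_card] at heul
  -- the charges
  have hc : ∀ v, ((J v).card : ℝ) / 78 ≤ ∑ j ∈ J v, (2 / 3 - 1 / ((e j).card : ℝ)) - 1 := by
    intro v
    by_cases h7 : 7 ≤ (J v).card
    · have h1 : (J v).card • (1 / 6 : ℝ) ≤ ∑ j ∈ J v, (2 / 3 - 1 / ((e j).card : ℝ)) := by
        apply Finset.card_nsmul_le_sum
        intro j _
        have h2 : (2 : ℝ) ≤ (e j).card := by exact_mod_cast h.two j
        have h3 : 1 / ((e j).card : ℝ) ≤ 1 / 2 := one_div_le_one_div_of_le (by norm_num) h2
        linarith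
      rw [nsmul_eq_mul] at h1
      have h2 : (7 : ℝ) ≤ (J v).card := by exact_mod_cast h7
      linarith
    · have h6 : (J v).card ≤ 6 := by omega
      have hJne : (J v).Nonempty := Finset.card_pos.mp (by have := hd2 v; omega)
      obtain ⟨j₀, hj₀, hmax⟩ := Finset.exists_max_image (J v) (fun j => (e j).card) hJne
      have h1 : L ≤ 6 * ((e j₀).card - 1) := by
        refine (hdeg v).trans ?_
        refine le_trans (b := (J v).card * ((e j₀).card - 1)) ?_ (Nat.mul_le_mul_right _ h6)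
        rw [← smul_eq_mul]
        apply Finset.sum_le_card_nsmul
        intro j hj
        have := hmax j hj
        omega
      have h2 : 3 ≤ ∑ j ∈ (J v).erase j₀, ((e j).card - 1) := by
        have h3 := Finset.add_sum_erase (J v) (fun j => (e j).card - 1) hj₀
        have h4 := hdeg v
        have h5 := hclq j₀
        omega
      have h3 := nb_min _ _ h2
      have h4 : (5 / 36 : ℝ) * ((∑ j ∈ (J v).erase j₀, min ((e j).card - 1) 3 : ℕ) : ℝ) ≤
          ∑ j ∈ (J v).erase j₀, (2 / 3 - 1 / ((e j).card : ℝ)) := by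
        push_cast [Finset.mul_sum]
        refine Finset.sum_le_sum fun j _ => ?_
        have h5 := h.two j
        have h6 := nb_frac ((e j).card - 1) (by omega)
        have h7 : (((e j).card - 1 : ℕ) : ℝ) + 1 = (e j).card := by
          have : (e j).card - 1 + 1 = (e j).card := by omega
          exact_mod_cast this
        rw [h7] at h6
        push_cast at h6
        exact h6
      have h5 : (3 : ℝ) ≤ ((∑ j ∈ (J v).erase j₀, min ((e j).card - 1) 3 : ℕ) : ℝ) := by
        exact_mod_cast h3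
      rw [← Finset.add_sum_erase (J v) _ hj₀]
      have h8 : 1 / ((e j₀).card : ℝ) ≤ 6 / 1000 := by
        have h9 : 1000 ≤ 6 * (e j₀).card := by omega
        have h10 : (1000 : ℝ) ≤ 6 * (e j₀).card := by exact_mod_cast h9
        have h11 : (0 : ℝ) < (e j₀).card := by linarith
        rw [div_le_div_iff₀ h11 (by norm_num)]
        linarith
      have h9 : ((J v).card : ℝ) ≤ 6 := by exact_mod_cast h6
      linarith
  -- summation
  have hN : ((∑ j, (e j).card : ℕ) : ℝ) = ∑ v, ((J v).card : ℝ) := by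
    have h1 := nb_swap e (fun _ _ => (1 : ℝ))
    simp only [Finset.sum_const, nsmul_eq_mul, mul_one] at h1
    push_cast
    rw [h1]
  have hE : (Fintype.card E : ℝ) = ∑ v, ∑ j ∈ J v, 1 / ((e j).card : ℝ) := by
    have h1 := nb_swap e (fun _ j => 1 / ((e j).card : ℝ))
    rw [← h1]
    have h2 : ∀ j ∈ (univ : Finset E), ∑ _v ∈ e j, 1 / ((e j).card : ℝ) = 1 := by
      intro j _
      have h3 : (0 : ℝ) < (e j).card := by
        have := h.two j
        have h4 : 0 < (e j).card := by omega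
        exact_mod_cast h4
      rw [Finset.sum_const, nsmul_eq_mul]
      field_simp
    rw [Finset.sum_congr rfl h2]
    simp
  have hsum : ∑ v, (((J v).card : ℝ) / 78) ≤
      ∑ v, (∑ j ∈ J v, (2 / 3 - 1 / ((e j).card : ℝ)) - 1) :=
    Finset.sum_le_sum fun v _ => hc v
  have hrhs : ∑ v, (∑ j ∈ J v, (2 / 3 - 1 / ((e j).card : ℝ)) - 1) =
      2 / 3 * ((∑ j, (e j).card : ℕ) : ℝ) - Fintype.card E - Fintype.card V := by
    rw [hN, hE, Finset.sum_sub_distrib]
    simp only [Finset.sum_sub_distrib, Finset.sum_const, nsmul_eq_mul, mul_one, Finset.card_univ]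
    rw [Finset.mul_sum]
    congr 2
    refine Finset.sum_congr rfl fun v _ => ?_
    ring
  rw [← Finset.sum_div, ← hN, hrhs] at hsum
  have heulR : 2 * ((∑ j, (e j).card : ℕ) : ℝ) + 6 ≤
      3 * Fintype.card V + 3 * Fintype.card E + 6 * g := by exact_mod_cast heul
  have hfin : ((∑ j, (e j).card : ℕ) : ℝ) ≤ 156 * g := by linarith
  exact_mod_cast hfin

end Pool.Agent.Helper33.RG
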