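import Pool.Agent.Helper33.RG.NB

/-!
# Block RG-S0: vertices in no huge hyperedge (MP_1f20e3_co)

`few_huge`: `(1-δ) L |𝓜| ≤ ∑_j |e j| ≤ 156 g ≤ 312 L` (`nb`), so `|𝓜| ≤ 350` for `δ ≤ 1/10`.
`small_W`. PROOF. `N = ∑_j |e j| = ∑_v d v ≤ 312 L`, `d v` the number of hyperedges at `v`. `b = δ/1248`; hyperedges with `|e j| ≥ b L` (large): at most `312/b`. Two hyperedges have at most one common vertex (`IsAdj`). `W` = the set of the `v` such that all hyperedges at `v` have size `< (1-δ)L`. The vertices in two large hyperedges: at most `(312/b)^2`.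
Any other `v ∈ W` is in at most one large hyperedge, its size is `< (1-δ)L`, so, as `∑_{j ∋ v} (|e j| - 1) ≥ L` (`deg`; the neighbours of `v` are in the hyperedges at `v`), the other hyperedges at `v` satisfy `∑ (|e j| - 1) ≥ L - (1-δ)L = δ L`, each summand is `< b L`: more than `δ/b = 1248` hyperedges at `v`; so there are at most `N/1248 ≤ L/4` such `v`.
So `|W| ≤ L/3` for large `L`. Let `v ∈ W`: at most `|W| ≤ L/3` neighbours of `v` are in `W`, so at least `2L/3` neighbours are in huge hyperedges; a hyperedge containing `v` is not huge, so it contains at most `|𝓜| ≤ 350` vertices of the union of the huge ones; so `350 d v ≥ 2L/3`. `|W| · 2L/1050 ≤ N ≤ 312 L`, `|W| ≤ 163800`.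
-/

set_option autoImplicit false

namespace Pool.Agent.Helper33.RG

open Classical Finset

section h31

variable {V E : Type} [Fintype V] [Fintype E] {G : SimpleGraph V} {e : E → Finset V} {L g : ℕ}

private lemma h31_count (e : E → Finset V) :
    ∑ v : V, (univ.filter fun j => v ∈ e j).card = ∑ j, (e j).card := by
  have h1 : ∀ v : V, (univ.filter fun j => v ∈ e j).card = ∑ j : E, if v ∈ e j then 1 else 0 := by
    intro v
    rw [Finset.card_filter]
  have h2 : ∀ j : E, (e j).card = ∑ v : V, if v ∈ e j then 1 else 0 := by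
    intro j
    rw [← Finset.card_filter]
    congr 1
    ext v
    simp
  rw [Finset.sum_congr rfl fun v _ => h1 v, Finset.sum_comm, Finset.sum_congr rfl fun j _ => h2 j]

private lemma h31_lin (h : IsAdj e G) {j j' : E} (hj : j ≠ j') : (e j ∩ e j').card ≤ 1 := by
  rw [Finset.card_le_one]
  intro u hu v hv
  by_contra huv
  rw [Finset.mem_inter] at hu hv
  by_cases ha : G.Adj u v
  · obtain ⟨i, -, hi⟩ := (h u v huv).1 ha
    exact hj ((hi j ⟨hu.1, hv.1⟩).trans (hi j' ⟨hu.2, hv.2⟩).symm)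
  · exact (h u v huv).2 ha j ⟨hu.1, hv.1⟩

private lemma h31_nb (h : IsAdj e G) {v x : V} (hx : G.Adj v x) : ∃ j, v ∈ e j ∧ x ∈ e j := by
  obtain ⟨j, hj, -⟩ := (h v x hx.ne).1 hx
  exact ⟨j, hj⟩

private lemma h31_deg (h : HypG G e L g) (v : V) :
    (L : ℝ) ≤ ∑ j ∈ univ.filter (fun j => v ∈ e j), (((e j).card : ℝ) - 1) := by
  have h1 : (univ.filter fun x => G.Adj v x) ⊆
      (univ.filter fun j => v ∈ e j).biUnion fun j => (e j).erase v := by
    intro x hx
    have hx' := (Finset.mem_filter.1 hx).2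
    obtain ⟨j, hj1, hj2⟩ := h31_nb h.adj hx'
    rw [Finset.mem_biUnion]
    exact ⟨j, Finset.mem_filter.2 ⟨Finset.mem_univ _, hj1⟩, Finset.mem_erase.2 ⟨hx'.ne', hj2⟩⟩
  have h2 := (h.deg v).trans ((Finset.card_le_card h1).trans Finset.card_biUnion_le)
  have h3 : (L : ℝ) ≤ ((∑ j ∈ univ.filter (fun j => v ∈ e j), ((e j).erase v).card : ℕ) : ℝ) := by
    exact_mod_cast h2
  refine h3.trans (le_of_eq ?_)
  push_cast
  refine Finset.sum_congr rfl fun j hj => ?_
  have hv : v ∈ e j := (Finset.mem_filter.1 hj).2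
  have h4 : 1 ≤ (e j).card := Finset.card_pos.2 ⟨v, hv⟩
  rw [Finset.card_erase_of_mem hv]
  push_cast [Nat.cast_sub h4]
  ring

private lemma h31_N (h : HypG G e L g) (hg : g ≤ 2 * L) (hL : 1000 ≤ L) :
    ((∑ j, (e j).card : ℕ) : ℝ) ≤ 312 * L := by
  have h1 := nb h hL
  have h2 : ∑ j, (e j).card ≤ 312 * L := by omega
  exact_mod_cast h2

/-- the number of hyperedges of size at least `c L` -/
private lemma h31_big (h : HypG G e L g) (hg : g ≤ 2 * L) (hL : 1000 ≤ L) (c : ℝ) (hc : 0 < c) :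
    c * ((univ.filter fun j => c * (L : ℝ) ≤ (e j).card).card : ℝ) ≤ 312 := by
  have hN := h31_N h hg hL
  have hL0 : (0 : ℝ) < L := by
    have : (1000 : ℝ) ≤ L := by exact_mod_cast hL
    linarith
  set M := univ.filter fun j => c * (L : ℝ) ≤ (e j).card with hM
  have h1 : (M.card : ℝ) * (c * L) ≤ ((∑ j, (e j).card : ℕ) : ℝ) := by
    push_cast
    calc (M.card : ℝ) * (c * L) = ∑ _j ∈ M, c * (L : ℝ) := by rw [Finset.sum_const, nsmul_eq_mul]
      _ ≤ ∑ j ∈ M, ((e j).card : ℝ) := Finset.sum_le_sum fun j hj => (Finset.mem_filter.1 hj).2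
      _ ≤ ∑ j, ((e j).card : ℝ) :=
          Finset.sum_le_sum_of_subset_of_nonneg (Finset.subset_univ _) fun _ _ _ => Nat.cast_nonneg _
  have h2 : (c * (M.card : ℝ)) * L ≤ 312 * L := by
    calc (c * (M.card : ℝ)) * L = (M.card : ℝ) * (c * L) := by ring
      _ ≤ _ := h1
      _ ≤ 312 * L := hN
  exact le_of_mul_le_mul_right h2 hL0

end h31

theorem few_huge {V E : Type} [Fintype V] [Fintype E] {G : SimpleGraph V} {e : E → Finset V}
    {L g : ℕ} (h : HypG G e L g) (hg : g ≤ 2 * L) (hL : 1000 ≤ L) (δ : ℝ) (hδ : 0 < δ)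
    (hδ1 : δ ≤ 1 / 10) :
    (univ.filter fun j => (1 - δ) * (L : ℝ) ≤ (e j).card).card ≤ 350 := by
  have h1 := h31_big h hg hL (1 - δ) (by linarith)
  by_contra hcon
  rw [not_le] at hcon
  have h2 : (351 : ℝ) ≤ ((univ.filter fun j => (1 - δ) * (L : ℝ) ≤ (e j).card).card : ℝ) := by
    exact_mod_cast hcon
  nlinarith

theorem small_W (δ : ℝ) (hδ : 0 < δ) (hδ1 : δ ≤ 1 / 10) :
    ∃ L₀ : ℕ, ∀ {V E : Type} [Fintype V] [Fintype E] (G : SimpleGraph V) (e : E → Finset V)
      (L g : ℕ), HypG G e L g → g ≤ 2 * L → L₀ ≤ L →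
      (univ.filter fun v => ∀ j, v ∈ e j → ((e j).card : ℝ) < (1 - δ) * L).card ≤ 163800 := by
  set b : ℝ := δ / 1248 with hb
  have hb0 : 0 < b := by positivity
  refine ⟨max 1000 ⌈12 * (312 / b) ^ 2⌉₊, ?_⟩
  intro V E _ _ G e L g h hg hLL
  have hL : 1000 ≤ L := (le_max_left _ _).trans hLL
  have hL2 : 12 * (312 / b) ^ 2 ≤ (L : ℝ) :=
    (Nat.le_ceil _).trans (by exact_mod_cast (le_max_right _ _).trans hLL)
  have hL1 : (1000 : ℝ) ≤ L := by exact_mod_cast hL
  have hL0 : (0 : ℝ) < L := by linarith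
  have hN := h31_N h hg hL
  have hNd : ((∑ v : V, (univ.filter fun j => v ∈ e j).card : ℕ) : ℝ) ≤ 312 * L := by
    rw [h31_count]; exact hN
  have hsub : ∀ S : Finset V, ((∑ v ∈ S, (univ.filter fun j => v ∈ e j).card : ℕ) : ℝ) ≤ 312 * L := by
    intro S
    refine le_trans ?_ hNd
    exact_mod_cast Finset.sum_le_sum_of_subset_of_nonneg (Finset.subset_univ S)
      fun _ _ _ => Nat.zero_le _
  set W := univ.filter fun v => ∀ j, v ∈ e j → ((e j).card : ℝ) < (1 - δ) * L with hW
  set Lg := univ.filter fun j => b * (L : ℝ) ≤ (e j).card with hLg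
  set Hg := univ.filter fun j => (1 - δ) * (L : ℝ) ≤ (e j).card with hHg
  have hHc : Hg.card ≤ 350 := few_huge h hg hL δ hδ hδ1
  have hLc : (Lg.card : ℝ) ≤ 312 / b := by
    rw [le_div_iff₀ hb0, mul_comm]
    exact h31_big h hg hL b hb0
  -- vertices in two large hyperedges
  set W2 := univ.filter fun v => 2 ≤ ((univ.filter fun j => v ∈ e j).filter fun j => j ∈ Lg).card
    with hW2
  have hW2c : (W2.card : ℝ) ≤ (312 / b) ^ 2 := by
    have h1 : W2 ⊆ (Lg ×ˢ Lg).biUnion fun p => if p.1 = p.2 then ∅ else e p.1 ∩ e p.2 := by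
      intro v hv
      have hv' := (Finset.mem_filter.1 hv).2
      have hv1 : 1 < ((univ.filter fun j => v ∈ e j).filter fun j => j ∈ Lg).card := by omega
      obtain ⟨j, hj, j', hj', hne⟩ := Finset.one_lt_card.1 hv1
      rw [Finset.mem_filter, Finset.mem_filter] at hj hj'
      rw [Finset.mem_biUnion]
      refine ⟨(j, j'), Finset.mem_product.2 ⟨hj.2, hj'.2⟩, ?_⟩
      rw [if_neg hne]
      exact Finset.mem_inter.2 ⟨hj.1.2, hj'.1.2⟩
    have h2 : W2.card ≤ (Lg ×ˢ Lg).card * 1 := by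
      refine (Finset.card_le_card h1).trans (Finset.card_biUnion_le_card_mul _ _ _ fun p _ => ?_)
      split_ifs with hp
      · simp
      · exact h31_lin h.adj hp
    rw [Finset.card_product, mul_one] at h2
    have h3 : (W2.card : ℝ) ≤ (Lg.card : ℝ) * Lg.card := by exact_mod_cast h2
    have h4 : (0 : ℝ) ≤ Lg.card := Nat.cast_nonneg _
    nlinarith
  -- the other vertices of `W`
  have hdeg : ∀ v ∈ W \ W2, 1248 ≤ (univ.filter fun j => v ∈ e j).card := by
    intro v hv
    rw [Finset.mem_sdiff] at hv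
    have hvW := (Finset.mem_filter.1 hv.1).2
    have hv2 : ((univ.filter fun j => v ∈ e j).filter fun j => j ∈ Lg).card ≤ 1 := by
      by_contra hcon
      exact hv.2 (Finset.mem_filter.2 ⟨Finset.mem_univ _, by omega⟩)
    have h1 := h31_deg h v
    rw [← Finset.sum_filter_add_sum_filter_not _ (fun j => j ∈ Lg)] at h1
    set J := univ.filter fun j => v ∈ e j with hJ
    have h2 : ∑ j ∈ J.filter (fun j => j ∈ Lg), (((e j).card : ℝ) - 1) ≤ (1 - δ) * L := by
      have h3 := Finset.sum_le_card_nsmul (J.filter (fun j => j ∈ Lg))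
        (fun j => ((e j).card : ℝ) - 1) ((1 - δ) * L) (fun j hj => by
          have := hvW j (Finset.mem_filter.1 (Finset.mem_filter.1 hj).1).2
          linarith)
      rw [nsmul_eq_mul] at h3
      have h4 : ((J.filter (fun j => j ∈ Lg)).card : ℝ) ≤ 1 := by exact_mod_cast hv2
      have h5 : 0 ≤ (1 - δ) * (L : ℝ) := mul_nonneg (by linarith) hL0.le
      refine h3.trans ?_
      calc ((J.filter (fun j => j ∈ Lg)).card : ℝ) * ((1 - δ) * L) ≤ 1 * ((1 - δ) * L) :=
            mul_le_mul_of_nonneg_right h4 h5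
        _ = (1 - δ) * L := one_mul _
    have h3 : ∑ j ∈ J.filter (fun j => ¬ j ∈ Lg), (((e j).card : ℝ) - 1) ≤ J.card * (b * L) := by
      have h4 := Finset.sum_le_card_nsmul (J.filter (fun j => ¬ j ∈ Lg))
        (fun j => ((e j).card : ℝ) - 1) (b * L) (fun j hj => by
          have h5 := (Finset.mem_filter.1 hj).2
          have h6 : ¬ b * (L : ℝ) ≤ (e j).card := fun h7 =>
            h5 (Finset.mem_filter.2 ⟨Finset.mem_univ _, h7⟩)
          rw [not_le] at h6
          linarith)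
      rw [nsmul_eq_mul] at h4
      refine h4.trans ?_
      have h5 : ((J.filter (fun j => ¬ j ∈ Lg)).card : ℝ) ≤ J.card := by
        exact_mod_cast Finset.card_filter_le _ _
      exact mul_le_mul_of_nonneg_right h5 (by positivity)
    have h4 : δ * (L : ℝ) ≤ (J.card : ℝ) * b * L := by nlinarith
    have h5 : δ ≤ (J.card : ℝ) * b := le_of_mul_le_mul_right h4 hL0
    have h6 : (1248 : ℝ) * b ≤ (J.card : ℝ) * b := by
      calc (1248 : ℝ) * b = δ := by rw [hb]; ring
        _ ≤ _ := h5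
    exact_mod_cast le_of_mul_le_mul_right h6 hb0
  have hWd : ((W \ W2).card : ℝ) * 1248 ≤ 312 * L := by
    refine le_trans ?_ (hsub (W \ W2))
    have h1 : (W \ W2).card * 1248 ≤ ∑ v ∈ W \ W2, (univ.filter fun j => v ∈ e j).card := by
      rw [← smul_eq_mul]
      exact Finset.card_nsmul_le_sum _ _ _ hdeg
    exact_mod_cast h1
  have hWc : (W.card : ℝ) ≤ L / 3 := by
    have h1 : W.card ≤ W2.card + (W \ W2).card := by
      have h2 : W ⊆ W2 ∪ (W \ W2) := by
        intro v hv
        by_cases h3 : v ∈ W2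
        · exact Finset.mem_union_left _ h3
        · exact Finset.mem_union_right _ (Finset.mem_sdiff.2 ⟨hv, h3⟩)
      exact (Finset.card_le_card h2).trans (Finset.card_union_le _ _)
    have h2 : (W.card : ℝ) ≤ W2.card + (W \ W2).card := by exact_mod_cast h1
    linarith
  -- many hyperedges at the vertices of `W`
  have hd2 : ∀ v ∈ W, 2 * (L : ℝ) / 3 ≤ 350 * ((univ.filter fun j => v ∈ e j).card : ℝ) := by
    intro v hv
    have hvW := (Finset.mem_filter.1 hv).2
    set Nv := univ.filter fun x => G.Adj v x with hNv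
    have h1 : (L : ℝ) ≤ Nv.card := by exact_mod_cast h.deg v
    have h2 : Nv.card ≤ W.card + (Nv \ W).card := by
      have h3 : Nv ⊆ W ∪ (Nv \ W) := by
        intro x hx
        by_cases h3 : x ∈ W
        · exact Finset.mem_union_left _ h3
        · exact Finset.mem_union_right _ (Finset.mem_sdiff.2 ⟨hx, h3⟩)
      exact (Finset.card_le_card h3).trans (Finset.card_union_le _ _)
    have h2' : (Nv.card : ℝ) ≤ W.card + (Nv \ W).card := by exact_mod_cast h2
    have h3 : Nv \ W ⊆ (univ.filter fun j => v ∈ e j).biUnion fun j =>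
        Hg.biUnion fun j' => if j = j' then ∅ else e j ∩ e j' := by
      intro x hx
      rw [Finset.mem_sdiff] at hx
      obtain ⟨j, hj1, hj2⟩ := h31_nb h.adj (Finset.mem_filter.1 hx.1).2
      have hxW : ¬ ∀ j, x ∈ e j → ((e j).card : ℝ) < (1 - δ) * L := fun h4 =>
        hx.2 (Finset.mem_filter.2 ⟨Finset.mem_univ _, h4⟩)
      push Not at hxW
      obtain ⟨j', hj'1, hj'2⟩ := hxW
      have hne : j ≠ j' := by
        rintro rfl
        exact absurd (hvW j hj1) (not_lt.2 hj'2)
      rw [Finset.mem_biUnion]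
      refine ⟨j, Finset.mem_filter.2 ⟨Finset.mem_univ _, hj1⟩, ?_⟩
      rw [Finset.mem_biUnion]
      refine ⟨j', Finset.mem_filter.2 ⟨Finset.mem_univ _, hj'2⟩, ?_⟩
      rw [if_neg hne]
      exact Finset.mem_inter.2 ⟨hj2, hj'1⟩
    have h4 : (Nv \ W).card ≤ (univ.filter fun j => v ∈ e j).card * 350 := by
      refine (Finset.card_le_card h3).trans (Finset.card_biUnion_le_card_mul _ _ _ fun j _ => ?_)
      refine (Finset.card_biUnion_le_card_mul _ _ 1 fun j' _ => ?_).trans (by rw [mul_one]; exact hHc)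
      split_ifs with hp
      · simp
      · exact h31_lin h.adj hp
    have h4' : ((Nv \ W).card : ℝ) ≤ (univ.filter fun j => v ∈ e j).card * 350 := by exact_mod_cast h4
    linarith
  have hfin : (W.card : ℝ) * (2 * L / 3) ≤ 350 * (312 * L) := by
    have h1 : (W.card : ℝ) * (2 * L / 3) ≤ ∑ v ∈ W, 350 * ((univ.filter fun j => v ∈ e j).card : ℝ) := by
      rw [← nsmul_eq_mul]
      exact Finset.card_nsmul_le_sum _ _ _ hd2
    rw [← Finset.mul_sum] at h1
    have h2 := hsub W
    push_cast at h2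
    linarith
  have hfin2 : (W.card : ℝ) * L ≤ 163800 * L := by linarith
  exact_mod_cast le_of_mul_le_mul_right hfin2 hL0

end Pool.Agent.Helper33.RG
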