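import Pool.Agent.Helper33.RG.S0

/-!
# Block RG-S1: the structure theorem (MP_1f20e3_co)

PROOF of `structure1`. `N = ∑_j |e j| = ∑_v d v ≤ 156 g ≤ 312 L` (`nb`). `𝓜` = the set of the `j` with `|e j| ≥ (1-δ)L` (huge); `|𝓜| ≤ 350` (`few_huge`). `W` = vertices in no huge hyperedge, `|W| ≤ 163800` (`small_W`). Two hyperedges have at most one common vertex.
`U = W ∪ {v in two huge hyperedges} ∪ {u : for some j ∈ 𝓜, u ∉ e j and u has > η L neighbours in e j}`. The second set has at most `350^2` elements; for `u` in the third set the neighbours in `e j` are in different hyperedges at `u`, so `d u > η L`, at most `312/η` such `u`. `KU = 163800 + 122500 + ⌈312/η⌉`.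
`cover`, `typ`, `cross`: clear. `sum`: for `v ∈ e j \ U`, `j ∈ 𝓜`, the neighbours `x ∉ e j`: (i) `x ∈ U`: the pairs `(v, x)`, `x ∈ U`, `v ∈ e j \ U`, `x ∉ e j` adjacent: for fixed `x` the `v`'s are in different hyperedges at `x`, so at most `d x` pairs, together at most `N`; (ii) `x ∉ U`: then `x` is in exactly one huge hyperedge; the hyperedge
through `v`, `x` is not huge (`v` is only in `e j`), and contains at most 350 vertices which are not in `U` (at most one from every huge one): at most `350 d v` pairs for `v`, together `350 N`. `351 · 312 L ≤ 110000 L`.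
-/

set_option autoImplicit false

namespace Pool.Agent.Helper33.RG

open Classical Finset

section aux67

variable {V E : Type} [Fintype V] [Fintype E] {G : SimpleGraph V} {e : E → Finset V}

omit [Fintype V] [Fintype E] in
private lemma uniq67 (h : IsAdj e G) {x y : V} (hne : x ≠ y) {i j : E} (h1 : x ∈ e i)
    (h2 : y ∈ e i) (h3 : x ∈ e j) (h4 : y ∈ e j) : i = j := by
  by_cases hadj : G.Adj x y
  · exact ((h x y hne).1 hadj).unique ⟨h1, h2⟩ ⟨h3, h4⟩
  · exact absurd ⟨h1, h2⟩ ((h x y hne).2 hadj i)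

omit [Fintype V] in
/-- the neighbours of `u ∉ e j` in `e j` are in different hyperedges at `u` -/
private lemma inj67 (h : IsAdj e G) {u : V} {j : E} (hu : u ∉ e j) :
    ((e j).filter fun x => G.Adj u x).card ≤ (univ.filter fun i => u ∈ e i).card := by
  have hex : ∀ x, G.Adj u x → ∃ i, u ∈ e i ∧ x ∈ e i := fun x hx =>
    ((h u x hx.ne).1 hx).exists
  have hE : Nonempty E := ⟨j⟩
  choose! f hf using hex
  have hmaps : Set.MapsTo f ((e j).filter fun x => G.Adj u x : Finset V)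
      (univ.filter fun i => u ∈ e i : Finset E) := by
    intro x hx
    rw [mem_coe, mem_filter] at hx ⊢
    exact ⟨mem_univ _, (hf x hx.2).1⟩
  have hinj : Set.InjOn f ((e j).filter fun x => G.Adj u x : Finset V) := by
    intro x hx y hy hxy
    rw [mem_coe, mem_filter] at hx hy
    by_contra hne
    have h1 : f x = j := uniq67 h hne (hf x hx.2).2 (by rw [hxy]; exact (hf y hy.2).2) hx.1 hy.1
    apply hu
    rw [← h1]
    exact (hf x hx.2).1
  exact card_le_card_of_injOn f hmaps hinj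

private lemma double67 (e : E → Finset V) :
    ∑ u, (univ.filter fun i => u ∈ e i).card = ∑ j, (e j).card := by
  have h1 : ∀ u, (univ.filter fun i => u ∈ e i).card = ∑ i, if u ∈ e i then 1 else 0 := fun u =>
    card_filter _ _
  have h2 : ∀ j, (e j).card = ∑ u, if u ∈ e j then 1 else 0 := by
    intro j
    rw [← card_filter]
    congr 1
    ext u
    simp
  rw [sum_congr rfl fun u _ => h1 u, sum_congr rfl fun j _ => h2 j, sum_comm]

omit [Fintype E] in
/-- the vertices in two members of a family of hyperedges -/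
private lemma two67 (h : IsAdj e G) (𝓜 : Finset E) :
    (univ.filter fun v => ∃ i ∈ 𝓜, ∃ j ∈ 𝓜, i ≠ j ∧ v ∈ e i ∧ v ∈ e j).card ≤
      𝓜.card * 𝓜.card := by
  have h1 : (univ.filter fun v => ∃ i ∈ 𝓜, ∃ j ∈ 𝓜, i ≠ j ∧ v ∈ e i ∧ v ∈ e j) ⊆
      (𝓜 ×ˢ 𝓜).biUnion fun p => if p.1 ≠ p.2 then e p.1 ∩ e p.2 else ∅ := by
    intro v hv
    rw [mem_filter] at hv
    obtain ⟨-, i, hi, j, hj, hij, hvi, hvj⟩ := hv
    rw [mem_biUnion]
    refine ⟨(i, j), mem_product.2 ⟨hi, hj⟩, ?_⟩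
    rw [if_pos hij]
    exact mem_inter.2 ⟨hvi, hvj⟩
  refine (card_le_card h1).trans ?_
  refine (card_biUnion_le_card_mul _ _ 1 ?_).trans ?_
  · rintro ⟨i, j⟩ _
    by_cases hij : i ≠ j
    · rw [if_pos hij, card_le_one]
      intro x hx y hy
      rw [mem_inter] at hx hy
      by_contra hne
      exact hij (uniq67 h hne hx.1 hy.1 hx.2 hy.2)
    · rw [if_neg hij]
      simp
  · rw [mul_one, card_product]

/-- the pairs with one end in `e j` -/
private lemma sum67 (h : IsAdj e G) (j : E) (A : Finset V) (hA : A ⊆ e j) :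
    ∑ v ∈ A, (univ.filter fun x => x ∉ e j ∧ G.Adj v x).card ≤ ∑ i, (e i).card := by
  have h1 : ∀ v, (univ.filter fun x => x ∉ e j ∧ G.Adj v x).card =
      ∑ x ∈ univ.filter (fun x => x ∉ e j), if G.Adj v x then 1 else 0 := by
    intro v
    rw [← card_filter, filter_filter]
  calc ∑ v ∈ A, (univ.filter fun x => x ∉ e j ∧ G.Adj v x).card
      ≤ ∑ v ∈ e j, (univ.filter fun x => x ∉ e j ∧ G.Adj v x).card :=
        sum_le_sum_of_subset hA
    _ = ∑ x ∈ univ.filter (fun x => x ∉ e j), ∑ v ∈ e j, if G.Adj v x then 1 else 0 := by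
        rw [sum_congr rfl fun v _ => h1 v, sum_comm]
    _ ≤ ∑ x ∈ univ.filter (fun x => x ∉ e j), (univ.filter fun i => x ∈ e i).card := by
        refine sum_le_sum fun x hx => ?_
        rw [mem_filter] at hx
        refine le_trans (le_of_eq ?_) (inj67 h hx.2)
        rw [card_filter]
        refine sum_congr rfl fun v _ => ?_
        simp only [G.adj_comm v x]
    _ ≤ ∑ x, (univ.filter fun i => x ∈ e i).card := sum_le_sum_of_subset (filter_subset _ _)
    _ = ∑ i, (e i).card := double67 e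

end aux67

theorem structure1 (δ η : ℝ) (hδ : 0 < δ) (hδ1 : δ ≤ 1 / 10) (hη : 0 < η) :
    ∃ KU L₀ : ℕ, ∀ {V E : Type} [Fintype V] [Fintype E] (G : SimpleGraph V) (e : E → Finset V)
      (L g : ℕ), HypG G e L g → g ≤ 2 * L → L₀ ≤ L →
      ∃ (𝓜 : Finset E) (U : Finset V), 𝓜.card ≤ 350 ∧ U.card ≤ KU ∧
        (∀ j ∈ 𝓜, (1 - δ) * (L : ℝ) ≤ (e j).card) ∧
        (∀ v, v ∈ U ∨ ∃ j ∈ 𝓜, v ∈ e j) ∧
        (∀ i ∈ 𝓜, ∀ j ∈ 𝓜, i ≠ j → ∀ v, v ∈ e i → v ∈ e j → v ∈ U) ∧
        (∀ i ∈ 𝓜, ∀ j ∈ 𝓜, i ≠ j → ∀ v ∈ e i, v ∉ U →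
          (((e j).filter fun x => G.Adj v x).card : ℝ) ≤ η * L) ∧
        (∀ j ∈ 𝓜, ∑ v ∈ e j \ U, (univ.filter fun x => x ∉ e j ∧ G.Adj v x).card ≤
          110000 * L) := by
  obtain ⟨L₁, hW⟩ := small_W δ hδ hδ1
  refine ⟨163800 + 122500 + ⌈312 / η⌉₊, max L₁ 1000, ?_⟩
  intro V E _ _ G e L g h hg hL
  have hL1 : L₁ ≤ L := (le_max_left _ _).trans hL
  have hL2 : 1000 ≤ L := (le_max_right _ _).trans hL
  have hLpos : (0 : ℝ) < L := by
    have : 0 < L := by omega
    exact_mod_cast this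
  have hN : ∑ j, (e j).card ≤ 312 * L := (nb h hL2).trans (by omega)
  have hN' : (∑ u, (univ.filter fun i => u ∈ e i).card : ℕ) ≤ 312 * L := by
    rw [double67]
    exact hN
  obtain ⟨𝓜, h𝓜⟩ : ∃ 𝓜 : Finset E, 𝓜 = univ.filter fun j => (1 - δ) * (L : ℝ) ≤ (e j).card :=
    ⟨_, rfl⟩
  have hM : ∀ j, j ∈ 𝓜 ↔ (1 - δ) * (L : ℝ) ≤ (e j).card := by
    intro j
    rw [h𝓜, mem_filter]
    exact ⟨fun h => h.2, fun h => ⟨mem_univ _, h⟩⟩
  have hMc : 𝓜.card ≤ 350 := by
    rw [h𝓜]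
    exact few_huge h hg hL2 δ hδ hδ1
  obtain ⟨W, hWdef⟩ : ∃ W : Finset V,
    W = univ.filter fun v => ∀ j, v ∈ e j → ((e j).card : ℝ) < (1 - δ) * L := ⟨_, rfl⟩
  have hWc : W.card ≤ 163800 := by
    rw [hWdef]
    exact hW G e L g h hg hL1
  obtain ⟨A, hAdef⟩ : ∃ A : Finset V,
    A = univ.filter fun v => ∃ i ∈ 𝓜, ∃ j ∈ 𝓜, i ≠ j ∧ v ∈ e i ∧ v ∈ e j := ⟨_, rfl⟩
  have hAc : A.card ≤ 122500 := by
    rw [hAdef]
    exact (two67 h.adj 𝓜).trans ((Nat.mul_le_mul hMc hMc).trans (by norm_num))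
  obtain ⟨B, hBdef⟩ : ∃ B : Finset V, B = univ.filter fun u => ∃ j ∈ 𝓜, u ∉ e j ∧
    η * L < (((e j).filter fun x => G.Adj u x).card : ℝ) := ⟨_, rfl⟩
  have hBc : B.card ≤ ⌈312 / η⌉₊ := by
    have h1 : ∀ u ∈ B, η * L ≤ ((univ.filter fun i => u ∈ e i).card : ℝ) := by
      intro u hu
      rw [hBdef, mem_filter] at hu
      obtain ⟨-, j, -, huj, hlt⟩ := hu
      refine hlt.le.trans ?_
      exact_mod_cast inj67 h.adj huj
    have h2 : (B.card : ℝ) * (η * L) ≤ 312 * L := by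
      calc (B.card : ℝ) * (η * L) = ∑ _u ∈ B, η * L := by rw [sum_const, nsmul_eq_mul]
        _ ≤ ∑ u ∈ B, ((univ.filter fun i => u ∈ e i).card : ℝ) := sum_le_sum h1
        _ = ((∑ u ∈ B, (univ.filter fun i => u ∈ e i).card : ℕ) : ℝ) := by push_cast; rfl
        _ ≤ ((∑ u, (univ.filter fun i => u ∈ e i).card : ℕ) : ℝ) := by
            exact_mod_cast sum_le_sum_of_subset (subset_univ B)
        _ ≤ 312 * L := by exact_mod_cast hN'
    have h3 : (B.card : ℝ) ≤ 312 / η := by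
      rw [le_div_iff₀ hη]
      have h4 : (B.card : ℝ) * η * L ≤ 312 * L := by rw [mul_assoc]; exact h2
      exact le_of_mul_le_mul_right h4 hLpos
    exact_mod_cast h3.trans (Nat.le_ceil _)
  refine ⟨𝓜, W ∪ A ∪ B, hMc, ?_, fun j hj => (hM j).1 hj, ?_, ?_, ?_, ?_⟩
  · refine (card_union_le _ _).trans ?_
    have := card_union_le W A
    omega
  · intro v
    by_cases hv : v ∈ W
    · exact Or.inl (mem_union_left _ (mem_union_left _ hv))
    · right
      rw [hWdef, mem_filter] at hv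
      simp only [mem_univ, true_and, not_forall, not_lt] at hv
      obtain ⟨j, hvj, hj⟩ := hv
      exact ⟨j, (hM j).2 hj, hvj⟩
  · intro i hi j hj hij v hvi hvj
    refine mem_union_left _ (mem_union_right _ ?_)
    rw [hAdef, mem_filter]
    exact ⟨mem_univ _, i, hi, j, hj, hij, hvi, hvj⟩
  · intro i hi j hj hij v hvi hvU
    by_contra hcon
    rw [not_le] at hcon
    apply hvU
    by_cases hvj : v ∈ e j
    · refine mem_union_left _ (mem_union_right _ ?_)
      rw [hAdef, mem_filter]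
      exact ⟨mem_univ _, i, hi, j, hj, hij, hvi, hvj⟩
    · refine mem_union_right _ ?_
      rw [hBdef, mem_filter]
      exact ⟨mem_univ _, j, hj, hvj, hcon⟩
  · intro j _
    refine (sum67 h.adj j _ sdiff_subset).trans (hN.trans ?_)
    omega

end Pool.Agent.Helper33.RG
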