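import Pool.Agent.Helper33.RG.S1
import Pool.Agent.Helper33.RG.COST

/-!
# Block RG-ST: the structure `Str` exists (assembly) (MP_1f20e3_co)

PROOF of `str_exists`. `δ = ε/100`, `η = ε/10^32`; `structure1` gives `KU, L₁` and for `L ≥ L₁` the sets `𝓜`, `U`. `I = {j // j ∈ 𝓜}`, `M j = e j`. `clq`, `clique`: `HypG.clq`, and hyperedges are cliques (`IsAdj`). `cost`: for `J : Finset I` apply `cost_bound` to `J.map (Embedding.subtype _)` (`|e j \ U| ≥ (1-δ) L - KU ≥ 3`):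
`≤ ∑ |M i \ U| + 4 g + 2 KU + 700 + 350 KU^3` and `4 g ≤ (8 - 4ε) L`, `2 KU + 700 + 350 KU^3 ≤ ε L` for large `L`. `g ≤ 2 L` from `g ≤ (2 - ε) L`.
-/

set_option autoImplicit false

namespace Pool.Agent.Helper33.RG

open Classical Finset

theorem str_exists (ε : ℝ) (hε : 0 < ε) (hε1 : ε ≤ 1) :
    ∃ KU L₀ : ℕ, (∀ L : ℕ, L₀ ≤ L → ((KU : ℝ) + 1600) * 10 ^ 40 ≤ ε * L) ∧
      ∀ {V E : Type} [Fintype V] [Fintype E] (G : SimpleGraph V) (e : E → Finset V)
      (L g : ℕ), HypG G e L g → (g : ℝ) ≤ (2 - ε) * L → L₀ ≤ L →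
      ∃ (I : Type) (_ : Fintype I) (M : I → Finset V) (U : Finset V),
        Str G L M U ε (ε / 100) (ε / 10 ^ 32) KU := by
  obtain ⟨KU, L₁, h1⟩ := structure1 (ε / 100) (ε / 10 ^ 32) (by positivity) (by linarith)
    (by positivity)
  set B : ℝ := ((KU : ℝ) + 1600) * 10 ^ 40 + 350 * (KU : ℝ) ^ 3 with hB
  have hB0 : 0 ≤ B := by positivity
  have hbig : ∀ L : ℕ, L₁ + ⌈B / ε⌉₊ ≤ L → B ≤ ε * L := by
    intro L hL
    have h2 : B / ε ≤ L := by
      refine (Nat.le_ceil _).trans ?_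
      exact_mod_cast (by omega : ⌈B / ε⌉₊ ≤ L)
    rw [div_le_iff₀ hε] at h2
    linarith
  refine ⟨KU, L₁ + ⌈B / ε⌉₊, ?_, ?_⟩
  · intro L hL
    have h2 := hbig L hL
    have h3 : (0 : ℝ) ≤ 350 * (KU : ℝ) ^ 3 := by positivity
    linarith
  intro V E _ _ G e L g hG hg hL
  have hBL := hbig L hL
  have hKU : (0 : ℝ) ≤ KU := Nat.cast_nonneg _
  have hKU3 : (0 : ℝ) ≤ (KU : ℝ) ^ 3 := by positivity
  have hL0 : (0 : ℝ) ≤ L := Nat.cast_nonneg _
  have hLe : ε * L ≤ L := by nlinarith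
  have hg2 : g ≤ 2 * L := by
    have h3 : (g : ℝ) ≤ 2 * L := by nlinarith
    exact_mod_cast h3
  obtain ⟨𝓜, U, hM, hU, hbigM, hcov, htyp, hcross, hsum⟩ := h1 G e L g hG hg2 (by omega)
  have hcl : ∀ j, G.IsClique (e j : Set V) := by
    intro j
    rw [SimpleGraph.isClique_iff]
    intro a ha b hb hab
    by_contra hn
    exact (hG.adj a b hab).2 hn j ⟨Finset.mem_coe.1 ha, Finset.mem_coe.1 hb⟩
  have h3 : ∀ j ∈ 𝓜, 3 ≤ (e j \ U).card := by
    intro j hj
    have h4 := hbigM j hj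
    have h5 : ((e j).card : ℝ) ≤ (e j \ U).card + U.card := by
      have := Finset.card_le_card_sdiff_add_card (s := e j) (t := U)
      exact_mod_cast this
    have h6 : (U.card : ℝ) ≤ KU := by exact_mod_cast hU
    have h7 : (3 : ℝ) ≤ (e j \ U).card := by
      nlinarith
    exact_mod_cast h7
  refine ⟨{j // j ∈ 𝓜}, inferInstance, fun j => e j.1, U, ?_⟩
  constructor
  · rw [Fintype.card_coe]; exact hM
  · exact hU
  · exact hG.clq
  · exact fun i => hcl i.1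
  · exact fun i => hbigM i.1 i.2
  · intro v
    rcases hcov v with h | ⟨j, hj, h⟩
    · exact Or.inl h
    · exact Or.inr ⟨⟨j, hj⟩, h⟩
  · intro i j hij v hi hj
    exact htyp i.1 i.2 j.1 j.2 (fun h => hij (Subtype.ext h)) v hi hj
  · intro i j hij v hv hvU
    exact hcross i.1 i.2 j.1 j.2 (fun h => hij (Subtype.ext h)) v hv hvU
  · intro i
    exact hsum i.1 i.2
  · intro J
    have h4 := cost_bound hG.adj hG.gen U (J.map (Function.Embedding.subtype _)) ?_ ?_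
    · rw [Finset.sum_map, Finset.sum_map, Finset.card_map] at h4
      have hJ : J.card ≤ 350 := by
        refine (Finset.card_le_univ J).trans ?_
        rw [Fintype.card_coe]; exact hM
      have h5 : U.card ^ 3 * J.card ≤ KU ^ 3 * 350 :=
        Nat.mul_le_mul (Nat.pow_le_pow_left hU 3) hJ
      have h6 : ∑ i ∈ J, ∑ v ∈ e i.1 \ U, ((U \ e i.1).filter fun x => G.Adj v x).card ≤
          ∑ i ∈ J, (e i.1 \ U).card + 4 * g + 2 * KU + 2 * 350 + KU ^ 3 * 350 := by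
        refine h4.trans ?_
        have h8 : 2 * U.card ≤ 2 * KU := by omega
        have h9 : 2 * J.card ≤ 2 * 350 := by omega
        exact Nat.add_le_add (Nat.add_le_add (Nat.add_le_add le_rfl h8) h9) h5
      have h7 : ((∑ i ∈ J, ∑ v ∈ e i.1 \ U, ((U \ e i.1).filter fun x => G.Adj v x).card : ℕ) : ℝ) ≤
          ((∑ i ∈ J, (e i.1 \ U).card : ℕ) : ℝ) + 4 * g + 2 * KU + 2 * 350 + KU ^ 3 * 350 := by
        exact_mod_cast h6
      refine h7.trans ?_
      nlinarith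
    · intro j hj
      rw [Finset.mem_map] at hj
      obtain ⟨i, hi, rfl⟩ := hj
      exact h3 i.1 i.2
    · intro i hi j hj hij v hvi hvj
      rw [Finset.mem_map] at hi hj
      obtain ⟨i', hi, rfl⟩ := hi
      obtain ⟨j', hj, rfl⟩ := hj
      exact htyp i'.1 i'.2 j'.1 j'.2 hij v hvi hvj

end Pool.Agent.Helper33.RG
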