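import Pool.Agent.Helper33.RG.Defs

/-!
# Block RG-SWP: orbits after multiplication with a transposition (MP_1f20e3_co)

`quot_add`: adding one pair `(x, y)` to a relation decreases the number of classes by one, if `x`, `y` were not equivalent, and does not change it otherwise.
PROOF. If `EqvGen r x y` then both relations generate the same equivalence. If not: `Quot r` has the two different elements `[x]`, `[y]`, and `Quot r'` is the quotient of `Quot r` by the relation identifying them; e.g. a bijection `{q : Quot r // q ≠ [y]} ≃ Quot r'`.
`quot_congr`: relations generating the same equivalence relation have the same number of classes. `eqvGen_iff`: for finite `X` the relation `y = π x` generates `SameCycle` (`π⁻¹` is a power of `π`).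
`cyc_option`: `Quot` for `optionCongr π` is `Option (Quot for π)`.
`cyc_swap_merge`: `x`, `y` not in the same cycle of `π`, `ψ = swap x y * π`. Let `n > 0` be minimal with `π^n x = x`. For `j < n`: `ψ^j x = π^j x` (`π^(j+1) x ≠ x` for `j + 1 < n`, and `≠ y`), `ψ^n x = swap x y x = y`. So `x`, `y` are in the same cycle of `ψ`. The relations {`b = π a`} ∪ {(x,y)} and {`b = ψ a`} ∪ {(x,y)} generate the same equivalence, so by
`quot_add` `cyc ψ = cyc π - 1`.
`cyc_swap_split`: `x ≠ y` in the same cycle of `π`: `y = π^k x`, `k > 0` minimal. `A = {π^j x : j < k}` is mapped to itself by `ψ` (`π^(j+1) x` for `j + 1 < k` is not `x` (else `y = π^(k - (j+1)) x`) and not `y`; `ψ (π^(k-1) x) = x`), contains `x` and not `y`. So `x`, `y` are not in the same cycle of `ψ`; `cyc_swap_merge` for `ψ`, `π = swap x y * ψ`.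
-/

set_option autoImplicit false

namespace Pool.Agent.Helper33.RG

open Equiv

theorem quot_congr {X : Type} [Finite X] (r s : X → X → Prop)
    (h : ∀ a b, Relation.EqvGen r a b ↔ Relation.EqvGen s a b) :
    Nat.card (Quot r) = Nat.card (Quot s) := by
  refine Nat.card_congr ?_
  exact
    { toFun := Quot.lift (fun a => Quot.mk s a)
        (fun a b hab => Quot.eqvGen_sound ((h a b).1 (Relation.EqvGen.rel _ _ hab)))
      invFun := Quot.lift (fun a => Quot.mk r a)
        (fun a b hab => Quot.eqvGen_sound ((h a b).2 (Relation.EqvGen.rel _ _ hab)))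
      left_inv := by rintro ⟨a⟩; rfl
      right_inv := by rintro ⟨a⟩; rfl }

theorem eqvGen_le {X : Type} {r s : X → X → Prop}
    (h : ∀ a b, r a b → Relation.EqvGen s a b) {a b : X} (hab : Relation.EqvGen r a b) :
    Relation.EqvGen s a b := by
  induction hab with
  | rel a b hab => exact h a b hab
  | refl a => exact Relation.EqvGen.refl a
  | symm a b _ ih => exact Relation.EqvGen.symm _ _ ih
  | trans a b c _ _ ih1 ih2 => exact Relation.EqvGen.trans _ _ _ ih1 ih2

theorem quot_add {X : Type} [Finite X] (r : X → X → Prop) (x y : X) :
    (Relation.EqvGen r x y → Nat.card (Quot fun a b => r a b ∨ (a = x ∧ b = y)) = Nat.card (Quot r)) ∧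
    (¬ Relation.EqvGen r x y →
      Nat.card (Quot fun a b => r a b ∨ (a = x ∧ b = y)) + 1 = Nat.card (Quot r)) := by
  classical
  constructor
  · intro hxy
    refine quot_congr _ _ fun a b => ⟨eqvGen_le ?_, eqvGen_le ?_⟩
    · rintro a b (h | ⟨rfl, rfl⟩)
      · exact Relation.EqvGen.rel _ _ h
      · exact hxy
    · intro a b h
      exact Relation.EqvGen.rel _ _ (Or.inl h)
  · intro hxy
    have hne : Quot.mk r x ≠ Quot.mk r y := fun h => hxy (Quot.eqvGen_exact h)
    set r' : X → X → Prop := fun a b => r a b ∨ (a = x ∧ b = y) with hr'
    let e : {q : Quot r // q ≠ Quot.mk r y} ≃ Quot r' :=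
      { toFun := fun q => Quot.lift (fun a => Quot.mk r' a)
          (fun a b hab => Quot.sound (Or.inl hab)) q.1
        invFun := fun q => ⟨Quot.lift (fun c => if Quot.mk r c = Quot.mk r y then Quot.mk r x
            else Quot.mk r c) (by
              rintro a b (hab | ⟨rfl, rfl⟩)
              · have h1 : Quot.mk r a = Quot.mk r b := Quot.sound hab
                simp only [h1]
              · simp only [if_neg hne, if_true]) q, by
              induction q using Quot.ind with
              | mk c =>
                by_cases h : Quot.mk r c = Quot.mk r y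
                · simp only [h, if_true]; exact hne
                · simp only [h, if_false]; exact h⟩
        left_inv := by
          rintro ⟨q, hq⟩
          induction q using Quot.ind with
          | mk c =>
            apply Subtype.ext
            simp only [hq, if_false]
        right_inv := by
          intro q
          induction q using Quot.ind with
          | mk c =>
            by_cases h : Quot.mk r c = Quot.mk r y
            · simp only [h, if_true]
              have h1 : Relation.EqvGen r' y c := by
                refine eqvGen_le (fun a b hab => Relation.EqvGen.rel _ _ (Or.inl hab))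
                  (Relation.EqvGen.symm _ _ (Quot.eqvGen_exact h))
              have h2 : Quot.mk r' x = Quot.mk r' y := Quot.sound (Or.inr ⟨rfl, rfl⟩)
              exact h2.trans (Quot.eqvGen_sound h1)
            · simp only [h, if_false] }
    rw [← Nat.card_congr e, ← Finite.card_option]
    exact Nat.card_congr (Equiv.optionSubtypeNe _)

theorem eqvGen_iff {X : Type} [Finite X] (π : Perm X) (a b : X) :
    Relation.EqvGen (fun x y : X => y = π x) a b ↔ π.SameCycle a b := by
  constructor
  · intro h
    induction h with
    | rel a b hab => subst hab; exact (Perm.sameCycle_apply_right).2 (Perm.SameCycle.refl _ _)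
    | refl a => exact Perm.SameCycle.refl _ _
    | symm a b _ ih => exact ih.symm
    | trans a b c _ _ ih1 ih2 => exact ih1.trans ih2
  · intro h
    obtain ⟨i, hi⟩ := h.exists_pow_eq'
    rw [← hi.2]
    clear hi h
    induction i with
    | zero => exact Relation.EqvGen.refl a
    | succ n ih =>
      refine Relation.EqvGen.trans _ _ _ ih (Relation.EqvGen.rel _ _ ?_)
      rw [pow_succ']
      rfl

theorem cyc_option {X : Type} [Finite X] (π : Perm X) :
    cyc (Equiv.optionCongr π) = cyc π + 1 := by
  unfold cyc
  rw [← Finite.card_option]
  refine Nat.card_congr ?_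
  exact
    { toFun := Quot.lift (fun o : Option X => o.map (Quot.mk fun x y : X => y = π x)) (by
        rintro (_ | a) b rfl
        · rfl
        · simp only [optionCongr_apply, Option.map_some]
          congr 1
          exact Quot.sound rfl)
      invFun := fun o => match o with
        | none => Quot.mk _ none
        | some q => Quot.lift (fun a => Quot.mk _ (some a)) (by
            rintro a b rfl
            exact Quot.sound rfl) q
      left_inv := by
        rintro ⟨_ | a⟩
        · rfl
        · rfl
      right_inv := by
        rintro (_ | q)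
        · rfl
        · induction q using Quot.ind with
          | mk a => rfl }

theorem rel_swap {X : Type} [DecidableEq X] (π : Perm X) (x y : X) (a b : X)
    (h : b = π a ∨ (a = x ∧ b = y)) :
    Relation.EqvGen (fun a b => b = (swap x y * π) a ∨ (a = x ∧ b = y)) a b := by
  rcases h with rfl | h
  · have h1 : Relation.EqvGen (fun a b => b = (swap x y * π) a ∨ (a = x ∧ b = y)) a
        (swap x y (π a)) := Relation.EqvGen.rel _ _ (Or.inl rfl)
    have h2 : Relation.EqvGen (fun a b => b = (swap x y * π) a ∨ (a = x ∧ b = y)) x y :=
      Relation.EqvGen.rel _ _ (Or.inr ⟨rfl, rfl⟩)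
    by_cases hx : π a = x
    · rw [hx, swap_apply_left] at h1
      rw [hx]
      exact Relation.EqvGen.trans _ _ _ h1 (Relation.EqvGen.symm _ _ h2)
    · by_cases hy : π a = y
      · rw [hy, swap_apply_right] at h1
        rw [hy]
        exact Relation.EqvGen.trans _ _ _ h1 h2
      · rwa [swap_apply_of_ne_of_ne hx hy] at h1
  · exact Relation.EqvGen.rel _ _ (Or.inr h)

theorem cyc_swap_merge {X : Type} [Finite X] [DecidableEq X] (π : Perm X) {x y : X}
    (h : ¬ π.SameCycle x y) :
    (swap x y * π).SameCycle x y ∧ cyc (swap x y * π) + 1 = cyc π := by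
  have hS : (swap x y * π).SameCycle x y := by
    have ha : (swap x y * π).SameCycle x (π⁻¹ x) := by
      by_contra hcon
      have hall : ∀ j : ℕ, (swap x y * π).SameCycle x ((π ^ j) x) := by
        intro j
        induction j with
        | zero => exact Perm.SameCycle.refl _ _
        | succ j ih =>
          have h1 : π ((π ^ j) x) ≠ x := by
            intro h2
            apply hcon
            have h3 : (π ^ j) x = π⁻¹ x := by
              rw [Perm.eq_inv_iff_eq]; exact h2
            rw [← h3]; exact ih
          have h2 : π ((π ^ j) x) ≠ y := by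
            intro h3
            apply h
            rw [← h3]
            refine ⟨(j + 1 : ℕ), ?_⟩
            rw [zpow_natCast, pow_succ']
            rfl
          have h3 : (swap x y * π) ((π ^ j) x) = (π ^ (j + 1)) x := by
            rw [pow_succ']
            exact swap_apply_of_ne_of_ne h1 h2
          rw [← h3]
          exact (Perm.sameCycle_apply_right).2 ih
      have h1 : π.SameCycle x (π⁻¹ x) := ⟨-1, by simp⟩
      obtain ⟨i, _, hi⟩ := h1.exists_pow_eq'
      exact hcon (hi ▸ hall i)
    have h1 : (swap x y * π) (π⁻¹ x) = y := by
      simp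
    have h2 := (Perm.sameCycle_apply_right (f := swap x y * π)).2 ha
    rwa [h1] at h2
  refine ⟨hS, ?_⟩
  have h1 := (quot_add (fun a b => b = π a) x y).2 (by rwa [eqvGen_iff])
  have h2 := (quot_add (fun a b => b = (swap x y * π) a) x y).1 (by rwa [eqvGen_iff])
  have h3 : Nat.card (Quot fun a b => b = π a ∨ (a = x ∧ b = y)) =
      Nat.card (Quot fun a b => b = (swap x y * π) a ∨ (a = x ∧ b = y)) := by
    refine quot_congr _ _ fun a b => ⟨eqvGen_le (rel_swap π x y), eqvGen_le ?_⟩
    intro a b hab
    have h4 := rel_swap (swap x y * π) x y a b hab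
    rwa [← mul_assoc, swap_mul_self, one_mul] at h4
  unfold cyc
  omega

theorem cyc_swap_split {X : Type} [Finite X] [DecidableEq X] (π : Perm X) {x y : X}
    (hxy : x ≠ y) (h : π.SameCycle x y) :
    ¬ (swap x y * π).SameCycle x y ∧ cyc (swap x y * π) = cyc π + 1 := by
  have hn : ¬ (swap x y * π).SameCycle x y := by
    have hex : ∃ k : ℕ, 0 < k ∧ (π ^ k) x = y := by
      obtain ⟨i, _, hi⟩ := h.exists_pow_eq'
      refine ⟨i, Nat.pos_of_ne_zero ?_, hi⟩
      rintro rfl
      exact hxy hi
    obtain ⟨hk0, hk⟩ := Nat.find_spec hex
    have hmin : ∀ j, 0 < j → j < Nat.find hex → (π ^ j) x ≠ y := fun j hj hj' h1 =>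
      Nat.find_min hex hj' ⟨hj, h1⟩
    set k := Nat.find hex with hkdef
    have hA : ∀ n : ℕ, ∃ j < k, ((swap x y * π) ^ n) x = (π ^ j) x := by
      intro n
      induction n with
      | zero => exact ⟨0, hk0, rfl⟩
      | succ n ih =>
        obtain ⟨j, hj, hj'⟩ := ih
        have h1 : ((swap x y * π) ^ (n + 1)) x = swap x y ((π ^ (j + 1)) x) := by
          rw [pow_succ', pow_succ']
          show swap x y (π (((swap x y * π) ^ n) x)) = swap x y (π ((π ^ j) x))
          rw [hj']
        rcases Nat.lt_or_ge (j + 1) k with h2 | h2
        · refine ⟨j + 1, h2, ?_⟩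
          rw [h1]
          refine swap_apply_of_ne_of_ne ?_ (hmin _ (Nat.succ_pos _) h2)
          intro h3
          refine hmin (k - (j + 1)) (by omega) (by omega) ?_
          have h4 : (π ^ k) x = (π ^ (k - (j + 1))) ((π ^ (j + 1)) x) := by
            rw [← Perm.mul_apply, ← pow_add]
            congr 2
            omega
          rw [h3] at h4
          rw [← h4, hk]
        · have h3 : j + 1 = k := by omega
          refine ⟨0, hk0, ?_⟩
          rw [h1, h3, hk, swap_apply_right]
          rfl
    intro hS
    obtain ⟨n, _, hn⟩ := hS.exists_pow_eq'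
    obtain ⟨j, hj, hj'⟩ := hA n
    rw [hn] at hj'
    rcases Nat.eq_zero_or_pos j with rfl | hj0
    · exact hxy hj'.symm
    · exact hmin j hj0 hj hj'.symm
  refine ⟨hn, ?_⟩
  have h1 := (cyc_swap_merge (swap x y * π) hn).2
  rw [← mul_assoc, swap_mul_self, one_mul] at h1
  exact h1.symm

end Pool.Agent.Helper33.RG
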